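import Pool.Agent.W2helper26.PP.Gate

/-!
# The backward part of the split: realisations are pulled back
-/

set_option autoImplicit false
set_option linter.unusedSectionVars false

namespace Pool.Agent.W2helper26.PP

open FreeGroup

/-! ### exactness -/

section exactness
variable {β V E A : Type} [DecidableEq β] [Fintype V] [Fintype E] [Finite A]
variable {D : Dt V E A} {x : Val β E A}

/-- One end of the cell with letter `l.1` and initial vertex `p`. -/
def ze (l : β × Bool) (p : V × FreeGroup β) : V × FreeGroup β :=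
  (p.1, if l.2 then p.2 else p.2 * of l.1)

theorem ze_other {l : β × Bool} {p : V × FreeGroup β} {z : FreeGroup β} (h : (ze l p).2 = z) :
    z * mk [l] = if l.2 then p.2 * of l.1 else p.2 := by
  obtain ⟨b, o⟩ := l
  cases o
  · simp only [ze, Bool.false_eq_true, if_false] at h ⊢
    rw [← h]
    have : (mk [(b, false)] : FreeGroup β) = (of b)⁻¹ := by
      show _ = (mk [(b, true)])⁻¹
      rw [mk_single_inv]; rfl
    rw [this]; group
  · simp only [ze, if_true] at h ⊢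
    rw [← h]; rfl

theorem adjb_adjx {l : β × Bool} {f₀ : E} {s₀ : Bool} {z : FreeGroup β}
    (hz : z * mk [l] ∉ KE D x f₀ s₀) {p q : V × FreeGroup β} (h : adjb D x l.1 p q) :
    adjx D x f₀ s₀ z (ze l p) (ze l q) := by
  obtain ⟨e, s, h1, h2, h3, h3', h4⟩ := h
  have h5 : q.2 ∈ KE D x e (!s) := by rw [h4]; exact tr_mem_KE' D x h3
  have h5' : q.2 * of l.1 ∈ KE D x e (!s) := by rw [h4, mul_assoc]; exact tr_mem_KE' D x h3'
  refine ⟨e, s, h1, h2, ?_, ?_, ?_, ?_⟩
  · simp only [ze]; split_ifs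
    · exact h3
    · exact h3'
  · simp only [ze, h4]; split_ifs
    · rfl
    · rw [mul_assoc]
  · rintro ⟨rfl, rfl, h6⟩
    apply hz
    rw [ze_other h6]; split_ifs
    · exact h3'
    · exact h3
  · rintro ⟨rfl, rfl, h6⟩
    apply hz
    rw [ze_other h6]; split_ifs
    · exact h5'
    · exact h5

/-- The cells with a given letter are joined by a path which avoids a leaf edge that does not cover them. -/
theorem connl (h : TC D x) (l : β × Bool) {v w : V} {y z : FreeGroup β} (hy : y ∈ KV D x v)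
    (hy' : y * mk [l] ∈ KV D x v) (hz : z ∈ KV D x w) (hz' : z * mk [l] ∈ KV D x w)
    {f₀ : E} {s₀ : Bool} {y₀ : FreeGroup β} (hn : y₀ * mk [l] ∉ KE D x f₀ s₀) :
    Relation.EqvGen (adjx D x f₀ s₀ y₀) (v, y) (w, z) := by
  obtain ⟨b, o⟩ := l
  cases o
  · have e1 : ∀ y : FreeGroup β, y * mk [(b, false)] * of b = y := by
      intro y
      exact mul_mk_single_mul y (b, false)
    have h1 := h.connb b v (y * mk [(b, false)]) w (z * mk [(b, false)]) hy' (by rw [e1]; exact hy)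
      hz' (by rw [e1]; exact hz)
    have h2 := eqvGen_map (r' := adjx D x f₀ s₀ y₀) (ze (b, false))
      (fun p q hpq => Relation.EqvGen.rel _ _ (adjb_adjx hn hpq)) h1
    simpa [ze, e1] using h2
  · have h1 := h.connb b v y w z hy hy' hz hz'
    have h2 := eqvGen_map (r' := adjx D x f₀ s₀ y₀) (ze (b, true))
      (fun p q hpq => Relation.EqvGen.rel _ _ (adjb_adjx hn hpq)) h1
    simpa [ze] using h2

/-- Exactness. -/
theorem exactE (h : TC D x) {e : E} {s : Bool} {p₀ p : FreeGroup β} (hp₀ : p₀ ∈ KE D x e s)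
    (hp : p ∈ KV D x (D.en e s)) (hp' : tr x e s * p ∈ KV D x (D.en e (!s))) : p ∈ KE D x e s := by
  by_contra hn
  obtain ⟨u, l, h1, h2, h3, h4⟩ : ∃ u l, u ∈ Hull {p₀, p} ∧ u * mk [l] ∈ Hull {p₀, p} ∧
      u ∈ KE D x e s ∧ u * mk [l] ∉ KE D x e s := by
    by_contra hcon
    push Not at hcon
    exact hn (Hull_induction (N := {p₀, p}) (P := fun z => z ∈ KE D x e s)
      (subset_Hull _ (by simp : p₀ ∈ ({p₀, p} : Set (FreeGroup β)))) hp₀
      (fun u l h1 h2 h3 => hcon u l h1 h2 h3) p (subset_Hull _ (by simp)))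
  have hV : Hull {p₀, p} ⊆ KV D x (D.en e s) := by
    apply Hull_subset
    rintro q (rfl | rfl)
    · exact KE_subset_KV D x e s hp₀
    · exact hp
  have hV' : ∀ q ∈ Hull {p₀, p}, tr x e s * q ∈ KV D x (D.en e (!s)) := by
    intro q hq
    have h5 : (Hull ((tr x e s * ·) '' {p₀, p})) ⊆ KV D x (D.en e (!s)) := by
      apply Hull_subset
      rintro _ ⟨q, (rfl | rfl), rfl⟩
      · exact KE_subset_KV D x e (!s) (tr_mem_KE' D x hp₀)
      · exact hp'
    exact h5 ((Hull_smul _ _ _).2 hq)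
  exact h.bridge h3 (connl h l (hV h1) (hV h2) (hV' _ h1)
    (by rw [mul_assoc]; exact hV' _ h2) h4)

theorem Btw_of_maj {p q r m : FreeGroup β} (h : ∀ t, (Hs t m ↔
    ((Hs t p ∧ Hs t q) ∨ (Hs t p ∧ Hs t r) ∨ (Hs t q ∧ Hs t r)))) :
    Btw p m q ∧ Btw p m r ∧ Btw q m r := by
  refine ⟨fun t => ?_, fun t => ?_, fun t => ?_⟩ <;>
  · have := h t
    tauto

variable {f₁ f₂ : E} {s : Bool} {c d : FreeGroup β}

/-- No cell belongs to both node trees. -/
theorem nocell (h : TC D x) (hne : f₁ ≠ f₂) (hu : D.en f₁ (!s) = D.en f₂ (!s))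
    (htr : tr x f₁ s = tr x f₂ s) (hc : c ∈ nE D x f₁ s) (hd : d ∈ nE D x f₂ s)
    (hsep : ∀ t, (∃ p ∈ nE D x f₁ s, Hs t p) → (∃ p ∈ nE D x f₁ s, ¬ Hs t p) →
      ∀ q ∈ nE D x f₂ s, (Hs t q ↔ Hs t c)) {z : FreeGroup β} {l : β × Bool}
    (h1 : z ∈ KV D x (D.en f₁ s)) (h1' : z * mk [l] ∈ KV D x (D.en f₁ s))
    (h2 : z ∈ KV D x (D.en f₂ s)) (h2' : z * mk [l] ∈ KV D x (D.en f₂ s)) : False := by
  have hcE : c ∈ KE D x f₁ s := nE_subset_KE D x _ _ hc
  have hdE : d ∈ KE D x f₂ s := nE_subset_KE D x _ _ hd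
  obtain ⟨m, hm⟩ := exists_median z c d
  obtain ⟨b1, b2, b3⟩ := Btw_of_maj hm
  have m1 : m ∈ KV D x (D.en f₁ s) := Hull_btw h1 (KE_subset_KV D x _ _ hcE) b1
  have m2 : m ∈ KV D x (D.en f₂ s) := Hull_btw h2 (KE_subset_KV D x _ _ hdE) b2
  have mu : tr x f₁ s * m ∈ KV D x (D.en f₁ (!s)) := by
    have i1 : tr x f₁ s * c ∈ KV D x (D.en f₁ (!s)) :=
      KE_subset_KV D x _ _ (tr_mem_KE' D x hcE)
    have i2 : tr x f₁ s * d ∈ KV D x (D.en f₁ (!s)) := by
      rw [hu, htr]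
      exact KE_subset_KV D x _ _ (tr_mem_KE' D x hdE)
    exact Hull_btw i1 i2 (Btw_mul _ b3)
  have mu2 : tr x f₂ s * m ∈ KV D x (D.en f₂ (!s)) := by rw [← hu, ← htr]; exact mu
  have e1 : m ∈ KE D x f₁ s := exactE h hcE m1 mu
  have e2 : m ∈ KE D x f₂ s := exactE h hdE m2 mu2
  obtain ⟨l', n1, n2⟩ : ∃ l', m * mk [l'] ∈ KV D x (D.en f₁ s) ∧ m * mk [l'] ∈ KV D x (D.en f₂ s) := by
    by_cases hmz : m = z
    · exact ⟨l, by rw [hmz]; exact h1', by rw [hmz]; exact h2'⟩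
    · obtain ⟨l', h3, _⟩ := exists_step hmz
      exact ⟨l', step_mem_Hull m1 h1 h3, step_mem_Hull m2 h2 h3⟩
  have k1 : m * mk [l'] ∈ KE D x f₁ s := by
    by_contra hn
    have p1 := connl h l' m1 n1 m2 n2 (f₀ := f₁) (s₀ := s) (y₀ := m) hn
    have p2 : adjx D x f₁ s m (D.en f₂ s, m) (D.en f₁ (!s), tr x f₁ s * m) :=
      ⟨f₂, s, rfl, hu.symm, e2, by rw [htr], fun h => hne h.1.symm, fun h => hne h.1.symm⟩
    exact h.bridge e1 (p1.trans _ _ _ (Relation.EqvGen.rel _ _ p2))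
  have k2 : m * mk [l'] ∈ KE D x f₂ s := by
    by_contra hn
    have p1 := connl h l' m2 n2 m1 n1 (f₀ := f₂) (s₀ := s) (y₀ := m) hn
    have p2 : adjx D x f₂ s m (D.en f₁ s, m) (D.en f₂ (!s), tr x f₂ s * m) :=
      ⟨f₁, s, rfl, hu, e1, by rw [htr], fun h => hne h.1, fun h => hne h.1⟩
    exact h.bridge e2 (p1.trans _ _ _ (Relation.EqvGen.rel _ _ p2))
  have c1 := cell_mem_Hull_iff'.1 ⟨e1, k1⟩
  have c2 := cell_mem_Hull_iff'.1 ⟨e2, k2⟩
  obtain ⟨⟨q, hq, hq'⟩, ⟨r, hr, hr'⟩⟩ := c2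
  have i1 := hsep _ c1.1 c1.2 q hq
  have i2 := hsep _ c1.1 c1.2 r hr
  exact hr' (i2.2 (i1.1 hq'))

/-- One half of the gate condition. -/
theorem gate_half (h : TC D x) (hne : f₁ ≠ f₂) (hu : D.en f₁ (!s) = D.en f₂ (!s))
    (htr : tr x f₁ s = tr x f₂ s) (hc : c ∈ nE D x f₁ s) (hd : d ∈ nE D x f₂ s)
    (hsep : ∀ t, (∃ p ∈ nE D x f₁ s, Hs t p) → (∃ p ∈ nE D x f₁ s, ¬ Hs t p) →
      ∀ q ∈ nE D x f₂ s, (Hs t q ↔ Hs t c)) :
    ∀ t, (∃ p ∈ nV D x (D.en f₁ s), Hs t p) → (∃ p ∈ nV D x (D.en f₁ s), ¬ Hs t p) →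
      ∀ q ∈ nV D x (D.en f₂ s), (Hs t q ↔ Hs t c) := by
  rintro ⟨a, b⟩ h1 h2 q hq
  have hdE : d ∈ KE D x f₂ s := nE_subset_KE D x _ _ hd
  have hcE : c ∈ KE D x f₁ s := nE_subset_KE D x _ _ hc
  obtain ⟨a1, a2⟩ := cell_mem_Hull_iff.2 ⟨h1, h2⟩
  have a3 : ¬ (a ∈ KV D x (D.en f₂ s) ∧ a * of b ∈ KV D x (D.en f₂ s)) := by
    rintro ⟨a3, a4⟩
    exact nocell h hne hu htr hc hd hsep (z := a) (l := (b, true)) a1 a2 a3 a4
  have a4 : ∀ q ∈ nV D x (D.en f₂ s), ∀ r ∈ nV D x (D.en f₂ s), Hs (a, b) q → Hs (a, b) r := by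
    intro q hq r hr h3
    by_contra h4
    exact a3 (cell_mem_Hull_iff.2 ⟨⟨q, hq, h3⟩, ⟨r, hr, h4⟩⟩)
  have hdV : d ∈ nV D x (D.en f₂ s) := nE_subset_nV D x _ _ hd
  have a5 : Hs (a, b) q ↔ Hs (a, b) d := ⟨a4 q hq d hdV, a4 d hdV q hq⟩
  rw [a5]
  by_contra hcon
  have i1 : tr x f₁ s * c ∈ KV D x (D.en f₁ (!s)) :=
    KE_subset_KV D x _ _ (tr_mem_KE' D x hcE)
  have i2 : tr x f₁ s * d ∈ KV D x (D.en f₁ (!s)) := by
    rw [hu, htr]
    exact KE_subset_KV D x _ _ (tr_mem_KE' D x hdE)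
  have i3 : tr x f₁ s * a ∈ KV D x (D.en f₁ (!s)) ∧ tr x f₁ s * (a * of b) ∈ KV D x (D.en f₁ (!s)) := by
    rw [← mul_assoc]
    by_cases j : Hs (a, b) c
    · have j' : ¬ Hs (a, b) d := fun j' => hcon (iff_of_true j' j)
      exact mem_Hull_of_sep (t := (tr x f₁ s * a, b)) i1 i2 ((Hs_mul _ _ _ _).2 j)
        (fun j2 => j' ((Hs_mul _ _ _ _).1 j2))
    · have j' : Hs (a, b) d := by
        by_contra j'
        exact hcon (iff_of_false j' j)
      exact mem_Hull_of_sep (t := (tr x f₁ s * a, b)) i2 i1 ((Hs_mul _ _ _ _).2 j')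
        (fun j2 => j ((Hs_mul _ _ _ _).1 j2))
  have e1 : a ∈ KE D x f₁ s := exactE h hcE a1 i3.1
  have e2 : a * of b ∈ KE D x f₁ s := exactE h hcE a2 i3.2
  have e3 := cell_mem_Hull_iff.1 ⟨e1, e2⟩
  exact hcon (hsep (a, b) e3.1 e3.2 d hd)

end exactness

/-! ### the pulled back state -/

section pulled
variable {β V E A : Type} [DecidableEq β] [Fintype V] [Fintype E] [Fintype A]
variable {D : Dt V E A} {x y : Val β E A} {e : E} {s : Bool} {sd : E → Bool → Prop} {sa : A → Prop}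
variable {t₀ : FreeGroup β × β} {c d : A}

/-- Sides at a node are transferred. -/
theorem tn (hP : ∀ w t, pat (spD D e s sd sa) (spX e y) w t ∈ ty (spD D e s sd sa) (spX e x) w)
    (w : Option V) (t : FreeGroup β × β) : ∃ t₁, ∀ α s',
      (spD D e s sd sa).en ((spD D e s sd sa).et α) s' = w →
      (Hs t (pos D y α s') ↔ Hs t₁ (pos D x α s')) := by
  obtain ⟨t₁, h⟩ := hP w t
  refine ⟨t₁, fun α s' hα => ?_⟩
  have := Set.ext_iff.1 h (α, s')
  simp only [pat, Set.mem_ofPred_eq, hα, true_and, spX_pos] at this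
  exact this.symm

/-- Sides at the split edge are transferred. -/
theorem te (hP : ∀ w t, pat (spD D e s sd sa) (spX e y) w t ∈ ty (spD D e s sd sa) (spX e x) w)
    (t : FreeGroup β × β) : ∃ t₁, ∀ α, D.et α = e →
      (Hs t (pos D y α s) ↔ Hs t₁ (pos D x α s)) := by
  obtain ⟨t₁, h⟩ := tn hP ((spD D e s sd sa).en (some e) (!s)) (tr y e s * t.1, t.2)
  refine ⟨((tr x e s)⁻¹ * t₁.1, t₁.2), fun α hα => ?_⟩
  have h1 : (spD D e s sd sa).en ((spD D e s sd sa).et α) (!s) = (spD D e s sd sa).en (some e) (!s) := by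
    by_cases h2 : sa α
    · rw [spD_et_none D e s sd sa α hα h2, spD_en_none_not]
    · rw [spD_et_some D e s sd sa α (fun h3 => h2 h3.2), hα]
  have h3 := h α (!s) h1
  rw [pos_not, pos_not, hα] at h3
  rw [show Hs (tr y e s * t.1, t.2) (tr y e s * pos D y α s) ↔ Hs t (pos D y α s) from Hs_mul _ _ _ _]
    at h3
  rw [h3]
  exact Hs_mul' _ _ _ _

section
variable (D x e s sd sa)

theorem nV_old (w : Option V) : nV (spD D e s sd sa) (spX e x) w ⊆ nV D x (oldV D e s w) := by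
  rintro _ ⟨α, s', h1, rfl⟩
  refine ⟨α, s', ?_, (spX_pos D e s sd sa x α s').symm⟩
  rw [← h1, oldV_en, oldE_et]

theorem nE_old (f : Option E) (s' : Bool) :
    nE (spD D e s sd sa) (spX e x) f s' ⊆ nE D x (oldE e f) s' := by
  rintro _ ⟨α, h1, rfl⟩
  refine ⟨α, ?_, (spX_pos D e s sd sa x α s').symm⟩
  rw [← h1, oldE_et]

theorem KV_old (w : Option V) : KV (spD D e s sd sa) (spX e x) w ⊆ KV D x (oldV D e s w) :=
  Hull_mono (nV_old D x e s sd sa w)

theorem KE_old (f : Option E) (s' : Bool) :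
    KE (spD D e s sd sa) (spX e x) f s' ⊆ KE D x (oldE e f) s' :=
  Hull_mono (nE_old D x e s sd sa f s')

theorem nV_un : nV D x (D.en e s) = nV (spD D e s sd sa) (spX e x) (some (D.en e s)) ∪
    nV (spD D e s sd sa) (spX e x) none := by
  apply Set.Subset.antisymm
  · rintro _ ⟨α, s', h1, rfl⟩
    have h2 := oldV_en D e s sd sa ((spD D e s sd sa).et α) s'
    rw [oldE_et, h1] at h2
    rcases h3 : (spD D e s sd sa).en ((spD D e s sd sa).et α) s' with _ | w
    · exact Or.inr ⟨α, s', h3, spX_pos D e s sd sa x α s'⟩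
    · rw [h3] at h2
      have h4 : w = D.en e s := h2
      exact Or.inl ⟨α, s', by rw [h3, h4], spX_pos D e s sd sa x α s'⟩
  · rintro p (hp | hp)
    · exact nV_old D x e s sd sa _ hp
    · exact nV_old D x e s sd sa _ hp

theorem nV_ne {w : V} (hw : w ≠ D.en e s) : nV D x w = nV (spD D e s sd sa) (spX e x) (some w) := by
  apply Set.Subset.antisymm
  · rintro _ ⟨α, s', h1, rfl⟩
    have h2 := oldV_en D e s sd sa ((spD D e s sd sa).et α) s'
    rw [oldE_et, h1] at h2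
    rcases h3 : (spD D e s sd sa).en ((spD D e s sd sa).et α) s' with _ | w'
    · rw [h3] at h2
      exact absurd h2.symm hw
    · rw [h3] at h2
      have h4 : w' = w := h2
      exact ⟨α, s', by rw [h3, h4], spX_pos D e s sd sa x α s'⟩
  · exact nV_old D x e s sd sa (some w)

theorem nE_un (s' : Bool) : nE D x e s' = nE (spD D e s sd sa) (spX e x) (some e) s' ∪
    nE (spD D e s sd sa) (spX e x) none s' := by
  apply Set.Subset.antisymm
  · rintro _ ⟨α, h1, rfl⟩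
    by_cases h2 : sa α
    · exact Or.inr ⟨α, spD_et_none D e s sd sa α h1 h2, spX_pos D e s sd sa x α s'⟩
    · exact Or.inl ⟨α, by rw [spD_et_some D e s sd sa α (fun h3 => h2 h3.2), h1],
        spX_pos D e s sd sa x α s'⟩
  · rintro p (hp | hp)
    · exact nE_old D x e s sd sa _ _ hp
    · exact nE_old D x e s sd sa _ _ hp

theorem nE_ne {f : E} (hf : f ≠ e) (s' : Bool) :
    nE D x f s' = nE (spD D e s sd sa) (spX e x) (some f) s' := by
  apply Set.Subset.antisymm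
  · rintro _ ⟨α, h1, rfl⟩
    exact ⟨α, by rw [spD_et_some D e s sd sa α (fun h3 => hf (h1.symm.trans h3.1)), h1],
        spX_pos D e s sd sa x α s'⟩
  · exact nE_old D x e s sd sa _ _

end

theorem SpOK.etc (h : SpOK D x e s sd sa t₀ c d) : (spD D e s sd sa).et c = some e := by
  by_cases h2 : sa c
  · exfalso
    have h3 := spD_et_none D e s sd sa c h.cet h2
    have h4 := (h.side c s (by rw [h.cet])).1 (by rw [h3]; exact spD_en_none_self D e s sd sa)
    exact h.c0 h4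
  · rw [spD_et_some D e s sd sa c (fun h3 => h2 h3.2), h.cet]

theorem SpOK.etd (h : SpOK D x e s sd sa t₀ c d) : (spD D e s sd sa).et d = none := by
  by_cases h2 : sa d
  · exact spD_et_none D e s sd sa d h.det h2
  · exfalso
    have h3 : (spD D e s sd sa).et d = some e := by
      rw [spD_et_some D e s sd sa d (fun h3 => h2 h3.2), h.det]
    have h4 := (h.side d s (by rw [h.det])).2 h.d0
    rw [h3, spD_en_some D e s sd sa e s (fun h5 => h.sde h5.2)] at h4
    cases h4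

theorem SpOK.ens (h : SpOK D x e s sd sa t₀ c d) :
    (spD D e s sd sa).en (some e) s = some (D.en e s) :=
  spD_en_some D e s sd sa e s (fun h5 => h.sde h5.2)

theorem SpOK.memm (h : SpOK D x e s sd sa t₀ c d) {α : A} (hα : (spD D e s sd sa).et α = some e)
    (y : Val β E A) : pos D y α s ∈ nV (spD D e s sd sa) (spX e y) (some (D.en e s)) :=
  ⟨α, s, by rw [hα]; exact h.ens, spX_pos D e s sd sa y α s⟩

theorem SpOK.memp {α : A} (hα : (spD D e s sd sa).et α = none)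
    (y : Val β E A) : pos D y α s ∈ nV (spD D e s sd sa) (spX e y) none :=
  ⟨α, s, by rw [hα]; exact spD_en_none_self D e s sd sa, spX_pos D e s sd sa y α s⟩

/-- The gate of the realisation. -/
theorem gateY (h : SpOK D x e s sd sa t₀ c d) (hT : TC (spD D e s sd sa) (spX e y))
    (hP : ∀ w t, pat (spD D e s sd sa) (spX e y) w t ∈ ty (spD D e s sd sa) (spX e x) w) :
    Gate (nV (spD D e s sd sa) (spX e y) (some (D.en e s))) (nV (spD D e s sd sa) (spX e y) none)
      (pos D y c s) (pos D y d s) := by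
  have hu : (spD D e s sd sa).en (some e) (!s) = (spD D e s sd sa).en none (!s) :=
    (spD_en_none_not D e s sd sa).symm
  have htr : tr (spX e y) (some e) s = tr (spX e y) none s := by
    rw [spX_tr, spX_tr]; rfl
  have hc : pos D y c s ∈ nE (spD D e s sd sa) (spX e y) (some e) s :=
    ⟨c, h.etc, spX_pos D e s sd sa y c s⟩
  have hd : pos D y d s ∈ nE (spD D e s sd sa) (spX e y) none s :=
    ⟨d, h.etd, spX_pos D e s sd sa y d s⟩
  have hold : ∀ {α : A} {f : Option E}, (spD D e s sd sa).et α = f → oldE e f = e → D.et α = e := by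
    intro α f h1 h2
    rw [← oldE_et D e s sd sa α, h1, h2]
  have hsep1 : ∀ t, (∃ p ∈ nE (spD D e s sd sa) (spX e y) (some e) s, Hs t p) →
      (∃ p ∈ nE (spD D e s sd sa) (spX e y) (some e) s, ¬ Hs t p) →
      ∀ q ∈ nE (spD D e s sd sa) (spX e y) none s, (Hs t q ↔ Hs t (pos D y c s)) := by
    rintro t ⟨_, ⟨α, hα, rfl⟩, h1⟩ ⟨_, ⟨α', hα', rfl⟩, h2⟩ _ ⟨α₂, hα₂, rfl⟩
    obtain ⟨t₄, h4⟩ := te hP t
    rw [spX_pos] at h1 h2 ⊢
    have e1 := hold hα rfl
    have e2 := hold hα' rfl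
    have e3 := hold hα₂ rfl
    rw [h4 α e1] at h1
    rw [h4 α' e2] at h2
    rw [h4 α₂ e3, h4 c h.cet]
    exact h.gate.g1 t₄ ⟨_, h.memm hα x, h1⟩ ⟨_, h.memm hα' x, h2⟩ _ (SpOK.memp hα₂ x)
  have hsep2 : ∀ t, (∃ p ∈ nE (spD D e s sd sa) (spX e y) none s, Hs t p) →
      (∃ p ∈ nE (spD D e s sd sa) (spX e y) none s, ¬ Hs t p) →
      ∀ q ∈ nE (spD D e s sd sa) (spX e y) (some e) s, (Hs t q ↔ Hs t (pos D y d s)) := by
    rintro t ⟨_, ⟨α, hα, rfl⟩, h1⟩ ⟨_, ⟨α', hα', rfl⟩, h2⟩ _ ⟨α₂, hα₂, rfl⟩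
    obtain ⟨t₄, h4⟩ := te hP t
    rw [spX_pos] at h1 h2 ⊢
    have e1 := hold hα rfl
    have e2 := hold hα' rfl
    have e3 := hold hα₂ rfl
    rw [h4 α e1] at h1
    rw [h4 α' e2] at h2
    rw [h4 α₂ e3, h4 d h.det]
    exact h.gate.g2 t₄ ⟨_, SpOK.memp hα x, h1⟩ ⟨_, SpOK.memp hα' x, h2⟩ _ (h.memm hα₂ x)
  have g1 := gate_half hT (f₁ := some e) (f₂ := none) (by simp) hu htr hc hd hsep1
  have g2 := gate_half hT (f₁ := none) (f₂ := some e) (by simp) hu.symm htr.symm hd hc hsep2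
  rw [h.ens, spD_en_none_self] at g1 g2
  exact ⟨subset_Hull _ (h.memm h.etc y), subset_Hull _ (SpOK.memp h.etd y), g1, g2⟩

theorem sum_change {W : Type} [Fintype W] (f g : W → ℕ) (v : W) (h : ∀ w, w ≠ v → f w = g w) :
    ∑ w, f w + g v = ∑ w, g w + f v := by
  classical
  rw [← Finset.add_sum_erase Finset.univ f (Finset.mem_univ v),
    ← Finset.add_sum_erase Finset.univ g (Finset.mem_univ v)]
  have : ∑ w ∈ Finset.univ.erase v, f w = ∑ w ∈ Finset.univ.erase v, g w :=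
    Finset.sum_congr rfl fun w hw => h w (Finset.ne_of_mem_erase hw)
  rw [this]; ring

theorem btw_KE (h : SpOK D x e s sd sa t₀ c d) {p : FreeGroup β}
    (hp : Btw (pos D y c s) p (pos D y d s)) : p ∈ KE D y e s ∧
      tr y e s * p ∈ KV (spD D e s sd sa) (spX e y) ((spD D e s sd sa).en (some e) (!s)) := by
  constructor
  · exact Hull_btw (subset_Hull _ ⟨c, h.cet, rfl⟩) (subset_Hull _ ⟨d, h.det, rfl⟩) hp
  · refine Hull_btw (subset_Hull _ ⟨c, !s, by rw [h.etc], ?_⟩)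
      (subset_Hull _ ⟨d, !s, by rw [h.etd, spD_en_none_not], ?_⟩) (Btw_mul _ hp)
    · rw [spX_pos, pos_not, h.cet]
    · rw [spX_pos, pos_not, h.det]

/-- The tree conditions of the pulled back state. -/
theorem tcY (h : SpOK D x e s sd sa t₀ c d) (hT : TC (spD D e s sd sa) (spX e y))
    (hP : ∀ w t, pat (spD D e s sd sa) (spX e y) w t ∈ ty (spD D e s sd sa) (spX e x) w) :
    TC D y := by
  have G := gateY h hT hP
  have Ge : Gate (nE (spD D e s sd sa) (spX e y) (some e) s) (nE (spD D e s sd sa) (spX e y) none s)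
      (pos D y c s) (pos D y d s) := by
    refine G.mono ?_ ?_ (subset_Hull _ ⟨c, h.etc, spX_pos D e s sd sa y c s⟩)
      (subset_Hull _ ⟨d, h.etd, spX_pos D e s sd sa y d s⟩)
    · have := nE_subset_nV (spD D e s sd sa) (spX e y) (some e) s
      rwa [h.ens] at this
    · have := nE_subset_nV (spD D e s sd sa) (spX e y) none s
      rwa [spD_en_none_self] at this
  have hadj : ∀ p q, adj (spD D e s sd sa) (spX e y) p q →
      adj D y (oldV D e s p.1, p.2) (oldV D e s q.1, q.2) := by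
    rintro p q ⟨f, s', h1, h2, h3, h4⟩
    refine ⟨oldE e f, s', ?_, ?_, KE_old D y e s sd sa f s' h3, ?_⟩
    · rw [← h1, oldV_en]
    · rw [← h2, oldV_en]
    · rw [h4, spX_tr]
  have hadjb : ∀ b p q, adjb (spD D e s sd sa) (spX e y) b p q →
      adjb D y b (oldV D e s p.1, p.2) (oldV D e s q.1, q.2) := by
    rintro b p q ⟨f, s', h1, h2, h3, h3', h4⟩
    refine ⟨oldE e f, s', ?_, ?_, KE_old D y e s sd sa f s' h3, KE_old D y e s sd sa f s' h3', ?_⟩
    · rw [← h1, oldV_en]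
    · rw [← h2, oldV_en]
    · rw [h4, spX_tr]
  have hcov : ∀ w p, p ∈ KV D y w → ∃ w' p', p' ∈ KV (spD D e s sd sa) (spX e y) w' ∧
      Relation.EqvGen (adj D y) (w, p) (oldV D e s w', p') := by
    intro w p hp
    by_cases hw : w = D.en e s
    · subst hw
      unfold KV at hp
      rw [nV_un D y e s sd sa] at hp
      rcases G.mem hp with h1 | h1 | h1
      · exact ⟨some (D.en e s), p, h1, Relation.EqvGen.refl _⟩
      · exact ⟨none, p, h1, Relation.EqvGen.refl _⟩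
      · obtain ⟨h2, h3⟩ := btw_KE h h1
        refine ⟨_, _, h3, Relation.EqvGen.rel _ _ ⟨e, s, rfl, ?_, h2, rfl⟩⟩
        rw [oldV_en]; rfl
    · unfold KV at hp
      rw [nV_ne D y e s sd sa hw] at hp
      exact ⟨some w, p, hp, Relation.EqvGen.refl _⟩
  have hcovb : ∀ b w p, p ∈ KV D y w → p * of b ∈ KV D y w →
      ∃ w' p', p' ∈ KV (spD D e s sd sa) (spX e y) w' ∧
        p' * of b ∈ KV (spD D e s sd sa) (spX e y) w' ∧
        Relation.EqvGen (adjb D y b) (w, p) (oldV D e s w', p') := by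
    intro b w p hp hp'
    by_cases hw : w = D.en e s
    · subst hw
      unfold KV at hp hp'
      rw [nV_un D y e s sd sa] at hp hp'
      rcases G.mem_cell hp hp' with h1 | h1 | h1
      · exact ⟨some (D.en e s), p, h1.1, h1.2, Relation.EqvGen.refl _⟩
      · exact ⟨none, p, h1.1, h1.2, Relation.EqvGen.refl _⟩
      · obtain ⟨i1, i2⟩ := Btw_of_mem_Sep h1
        obtain ⟨h2, h3⟩ := btw_KE h i1
        obtain ⟨h4, h5⟩ := btw_KE h i2
        refine ⟨_, _, h3, by rw [mul_assoc]; exact h5,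
          Relation.EqvGen.rel _ _ ⟨e, s, rfl, ?_, h2, h4, rfl⟩⟩
        rw [oldV_en]; rfl
    · unfold KV at hp hp'
      rw [nV_ne D y e s sd sa hw] at hp hp'
      exact ⟨some w, p, hp, hp', Relation.EqvGen.refl _⟩
  refine ⟨?_, ?_, ?_, ?_⟩
  · intro v p w q hp hq
    obtain ⟨v', p', h1, h2⟩ := hcov v p hp
    obtain ⟨w', q', h3, h4⟩ := hcov w q hq
    have h5 := eqvGen_map (r' := adj D y) (fun p : Option V × FreeGroup β => (oldV D e s p.1, p.2))
      (fun a b hab => Relation.EqvGen.rel _ _ (hadj a b hab)) (hT.conn v' p' w' q' h1 h3)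
    exact (h2.trans _ _ _ h5).trans _ _ _ (h4.symm)
  · have hc := hT.card
    rw [Fintype.sum_option, Fintype.sum_option] at hc
    have a1 := sum_change (fun w => (KV D y w).ncard)
      (fun w => (KV (spD D e s sd sa) (spX e y) (some w)).ncard) (D.en e s) (fun w hw => by
        simp only [KV]; rw [nV_ne D y e s sd sa hw])
    have a2 := sum_change (fun f => (KE D y f false).ncard)
      (fun f => (KE (spD D e s sd sa) (spX e y) (some f) false).ncard) e (fun w hw => by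
        simp only [KE]; rw [nE_ne D y e s sd sa hw])
    have a3 := G.ncard (nV_finite _ _ _) (nV_finite _ _ _)
    rw [← nV_un D y e s sd sa] at a3
    have a4 := Ge.ncard (nE_finite _ _ _ _) (nE_finite _ _ _ _)
    rw [← nE_un D y e s sd sa] at a4
    have a5 := KE_ncard D y e s
    have a6 := KE_ncard (spD D e s sd sa) (spX e y) (some e) s
    have a7 := KE_ncard (spD D e s sd sa) (spX e y) none s
    simp only [KV, KE] at a1 a2 a3 a4 a5 a6 a7 hc ⊢
    omega
  · intro b v p w q hp hp' hq hq'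
    obtain ⟨v', p', h1, h1', h2⟩ := hcovb b v p hp hp'
    obtain ⟨w', q', h3, h3', h4⟩ := hcovb b w q hq hq'
    have h5 := eqvGen_map (r' := adjb D y b) (fun p : Option V × FreeGroup β => (oldV D e s p.1, p.2))
      (fun a b' hab => Relation.EqvGen.rel _ _ (hadjb b a b' hab)) (hT.connb b v' p' w' q' h1 h1' h3 h3')
    exact (h2.trans _ _ _ h5).trans _ _ _ (h4.symm)
  · intro b
    obtain ⟨w, p, h1, h2⟩ := hT.neb b
    exact ⟨oldV D e s w, p, KV_old D y e s sd sa w h1, KV_old D y e s sd sa w h2⟩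

/-- The patterns of the pulled back state. -/
theorem patY [Nonempty β] (h : SpOK D x e s sd sa t₀ c d) (hT : TC (spD D e s sd sa) (spX e y))
    (hP : ∀ w t, pat (spD D e s sd sa) (spX e y) w t ∈ ty (spD D e s sd sa) (spX e x) w) :
    ∀ v t, pat D y v t ∈ ty D x v := by
  have G := gateY h hT hP
  have fin : ∀ w t t₁, (∀ α s', D.en (D.et α) s' = w →
      (Hs t (pos D y α s') ↔ Hs t₁ (pos D x α s'))) → pat D y w t ∈ ty D x w := by
    intro w t t₁ ht
    refine ⟨t₁, ?_⟩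
    ext ⟨α, s'⟩
    simp only [pat, Set.mem_ofPred_eq]
    exact and_congr_right fun h1 => (ht α s' h1).symm
  intro w t
  by_cases hw : w = D.en e s
  swap
  · obtain ⟨t₁, ht⟩ := tn hP (some w) t
    refine fin w t t₁ fun α s' h1 => ht α s' ?_
    have h2 := oldV_en D e s sd sa ((spD D e s sd sa).et α) s'
    rw [oldE_et, h1] at h2
    rcases h3 : (spD D e s sd sa).en ((spD D e s sd sa).et α) s' with _ | w'
    · rw [h3] at h2
      exact absurd h2.symm hw
    · rw [h3] at h2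
      have h4 : w' = w := h2
      rw [h4]
  subst hw
  -- every name at the node is a name on one of the two sides
  have side : ∀ α s', D.en (D.et α) s' = D.en e s →
      (spD D e s sd sa).en ((spD D e s sd sa).et α) s' = some (D.en e s) ∨
      (spD D e s sd sa).en ((spD D e s sd sa).et α) s' = none := by
    intro α s' h1
    have h2 := oldV_en D e s sd sa ((spD D e s sd sa).et α) s'
    rw [oldE_et, h1] at h2
    rcases h3 : (spD D e s sd sa).en ((spD D e s sd sa).et α) s' with _ | w'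
    · exact Or.inr rfl
    · rw [h3] at h2
      have h4 : w' = D.en e s := h2
      exact Or.inl (by rw [h4])
  have hsm : ∀ y : Val β E A, ∀ α s',
      (spD D e s sd sa).en ((spD D e s sd sa).et α) s' = some (D.en e s) →
      pos D y α s' ∈ nV (spD D e s sd sa) (spX e y) (some (D.en e s)) := fun y α s' h1 =>
    ⟨α, s', h1, spX_pos D e s sd sa y α s'⟩
  have hsp : ∀ y : Val β E A, ∀ α s',
      (spD D e s sd sa).en ((spD D e s sd sa).et α) s' = none →
      pos D y α s' ∈ nV (spD D e s sd sa) (spX e y) none := fun y α s' h1 =>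
    ⟨α, s', h1, spX_pos D e s sd sa y α s'⟩
  have hcm : (spD D e s sd sa).en ((spD D e s sd sa).et c) s = some (D.en e s) := by
    rw [h.etc]; exact h.ens
  have hdp : (spD D e s sd sa).en ((spD D e s sd sa).et d) s = none := by
    rw [h.etd]; exact spD_en_none_self D e s sd sa
  by_cases c1 : (∃ p ∈ nV (spD D e s sd sa) (spX e y) (some (D.en e s)), Hs t p) ∧
      (∃ p ∈ nV (spD D e s sd sa) (spX e y) (some (D.en e s)), ¬ Hs t p)
  · obtain ⟨t₁, ht⟩ := tn hP (some (D.en e s)) t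
    have g1 := G.g1 t c1.1 c1.2
    obtain ⟨⟨_, ⟨α, a', h1, rfl⟩, h2⟩, ⟨_, ⟨α', b', h1', rfl⟩, h2'⟩⟩ := c1
    rw [spX_pos] at h2 h2'
    rw [ht _ _ h1] at h2
    rw [ht _ _ h1'] at h2'
    have g2 := h.gate.g1 t₁ ⟨_, hsm x _ _ h1, h2⟩ ⟨_, hsm x _ _ h1', h2'⟩
    refine fin _ t t₁ fun α₂ s₂ h3 => ?_
    rcases side α₂ s₂ h3 with h4 | h4
    · exact ht _ _ h4
    · rw [g1 _ (hsp y _ _ h4), g2 _ (hsp x _ _ h4)]
      exact ht _ _ hcm
  by_cases c2 : (∃ p ∈ nV (spD D e s sd sa) (spX e y) none, Hs t p) ∧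
      (∃ p ∈ nV (spD D e s sd sa) (spX e y) none, ¬ Hs t p)
  · obtain ⟨t₁, ht⟩ := tn hP none t
    have g1 := G.g2 t c2.1 c2.2
    obtain ⟨⟨_, ⟨α, a', h1, rfl⟩, h2⟩, ⟨_, ⟨α', b', h1', rfl⟩, h2'⟩⟩ := c2
    rw [spX_pos] at h2 h2'
    rw [ht _ _ h1] at h2
    rw [ht _ _ h1'] at h2'
    have g2 := h.gate.g2 t₁ ⟨_, hsp x _ _ h1, h2⟩ ⟨_, hsp x _ _ h1', h2'⟩
    refine fin _ t t₁ fun α₂ s₂ h3 => ?_
    rcases side α₂ s₂ h3 with h4 | h4
    · rw [g1 _ (hsm y _ _ h4), g2 _ (hsm x _ _ h4)]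
      exact ht _ _ hdp
    · exact ht _ _ h4
  -- all the names of a side are on the same side
  have k1 : ∀ p ∈ nV (spD D e s sd sa) (spX e y) (some (D.en e s)), (Hs t p ↔ Hs t (pos D y c s)) := by
    intro p hp
    have hc := hsm y c s hcm
    constructor
    · intro h1; by_contra h2; exact c1 ⟨⟨p, hp, h1⟩, ⟨_, hc, h2⟩⟩
    · intro h1; by_contra h2; exact c1 ⟨⟨_, hc, h1⟩, ⟨p, hp, h2⟩⟩
  have k2 : ∀ p ∈ nV (spD D e s sd sa) (spX e y) none, (Hs t p ↔ Hs t (pos D y d s)) := by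
    intro p hp
    have hd := hsp y d s hdp
    constructor
    · intro h1; by_contra h2; exact c2 ⟨⟨p, hp, h1⟩, ⟨_, hd, h2⟩⟩
    · intro h1; by_contra h2; exact c2 ⟨⟨_, hd, h1⟩, ⟨p, hp, h2⟩⟩
  by_cases c3 : Hs t (pos D y c s) ↔ Hs t (pos D y d s)
  · obtain ⟨⟨ta, hta⟩, ⟨tb, htb⟩⟩ := exists_trivial (nV_finite D x (D.en e s))
    have k3 : ∀ α₂ s₂, D.en (D.et α₂) s₂ = D.en e s → (Hs t (pos D y α₂ s₂) ↔ Hs t (pos D y c s)) := by
      intro α₂ s₂ h3
      rcases side α₂ s₂ h3 with h4 | h4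
      · exact k1 _ (hsm y _ _ h4)
      · rw [k2 _ (hsp y _ _ h4)]; exact c3.symm
    by_cases c4 : Hs t (pos D y c s)
    · refine fin _ t ta fun α₂ s₂ h3 => ?_
      exact iff_of_true ((k3 _ _ h3).2 c4) (hta _ ⟨α₂, s₂, h3, rfl⟩)
    · refine fin _ t tb fun α₂ s₂ h3 => ?_
      exact iff_of_false (fun h5 => c4 ((k3 _ _ h3).1 h5)) (htb _ ⟨α₂, s₂, h3, rfl⟩)
  · obtain ⟨t₄, h4⟩ := te hP t
    have hcc := h4 c h.cet
    have hdd := h4 d h.det
    have c5 : ¬ (Hs t₄ (pos D x c s) ↔ Hs t₄ (pos D x d s)) := by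
      rw [← hcc, ← hdd]; exact c3
    have m1 := h.gate.sep1 c5
    have m2 := h.gate.sep2 c5
    refine fin _ t t₄ fun α₂ s₂ h3 => ?_
    rcases side α₂ s₂ h3 with h5 | h5
    · rw [k1 _ (hsm y _ _ h5), m1 _ (hsm x _ _ h5)]; exact hcc
    · rw [k2 _ (hsp y _ _ h5), m2 _ (hsp x _ _ h5)]; exact hdd

theorem size_half {y : Val β E A} {z : ℕ} (h : SpOK D x e s sd sa t₀ c d)
    (hz : ∀ α s' α' s'', (spD D e s sd sa).en ((spD D e s sd sa).et α) s' =
      (spD D e s sd sa).en ((spD D e s sd sa).et α') s'' →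
      ((pos D y α s')⁻¹ * pos D y α' s'').norm ≤ z) {α α' : A} {s' s'' : Bool}
    (h1 : (spD D e s sd sa).en ((spD D e s sd sa).et α) s' = some (D.en e s))
    (h2 : (spD D e s sd sa).en ((spD D e s sd sa).et α') s'' = none) :
    ((pos D y α s')⁻¹ * pos D y α' s'').norm ≤ 3 * z := by
  have hcm : (spD D e s sd sa).en ((spD D e s sd sa).et c) s = some (D.en e s) := by
    rw [h.etc]; exact h.ens
  have hdp : (spD D e s sd sa).en ((spD D e s sd sa).et d) s = none := by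
    rw [h.etd]; exact spD_en_none_self D e s sd sa
  have e1 := hz α s' c s (by rw [h1, hcm])
  have e2 := hz d s α' s'' (by rw [h2, hdp])
  have e3 := hz c (!s) d (!s) (by rw [h.etc, h.etd, spD_en_none_not])
  have e4 : (pos D y c (!s))⁻¹ * pos D y d (!s) = (pos D y c s)⁻¹ * pos D y d s := by
    rw [pos_not, pos_not, h.cet, h.det]; group
  rw [e4] at e3
  have e5 : (pos D y α s')⁻¹ * pos D y α' s'' = ((pos D y α s')⁻¹ * pos D y c s) *
      (((pos D y c s)⁻¹ * pos D y d s) * ((pos D y d s)⁻¹ * pos D y α' s'')) := by group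
  rw [e5]
  have e6 := FreeGroup.norm_mul_le ((pos D y α s')⁻¹ * pos D y c s)
    (((pos D y c s)⁻¹ * pos D y d s) * ((pos D y d s)⁻¹ * pos D y α' s''))
  have e7 := FreeGroup.norm_mul_le ((pos D y c s)⁻¹ * pos D y d s)
    ((pos D y d s)⁻¹ * pos D y α' s'')
  omega

theorem sizeY {y : Val β E A} {z : ℕ} (h : SpOK D x e s sd sa t₀ c d)
    (hz : ∀ α s' α' s'', (spD D e s sd sa).en ((spD D e s sd sa).et α) s' =
      (spD D e s sd sa).en ((spD D e s sd sa).et α') s'' →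
      ((pos D y α s')⁻¹ * pos D y α' s'').norm ≤ z) {α α' : A} {s' s'' : Bool}
    (h1 : D.en (D.et α) s' = D.en (D.et α') s'') :
    ((pos D y α s')⁻¹ * pos D y α' s'').norm ≤ 3 * z := by
  have h2 := oldV_en D e s sd sa ((spD D e s sd sa).et α) s'
  have h3 := oldV_en D e s sd sa ((spD D e s sd sa).et α') s''
  rw [oldE_et] at h2 h3
  rcases h4 : (spD D e s sd sa).en ((spD D e s sd sa).et α) s' with _ | w <;>
    rcases h5 : (spD D e s sd sa).en ((spD D e s sd sa).et α') s'' with _ | w'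
  · have := hz α s' α' s'' (by rw [h4, h5])
    omega
  · rw [h4] at h2
    rw [h5] at h3
    have h6 : w' = D.en e s := by
      have : w' = D.en (D.et α') s'' := h3
      rw [this, ← h1, ← h2]; rfl
    rw [h6] at h5
    have h7 := size_half h hz h5 h4
    rw [← FreeGroup.norm_inv_eq] at h7
    have h8 : ((pos D y α' s'')⁻¹ * pos D y α s')⁻¹ = (pos D y α s')⁻¹ * pos D y α' s'' := by group
    rwa [h8] at h7
  · rw [h4] at h2
    rw [h5] at h3
    have h6 : w = D.en e s := by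
      have : w = D.en (D.et α) s' := h2
      rw [this, h1, ← h3]; rfl
    rw [h6] at h4
    exact size_half h hz h4 h5
  · rw [h4] at h2
    rw [h5] at h3
    have h6 : w = D.en (D.et α) s' := h2
    have h7 : w' = D.en (D.et α') s'' := h3
    have := hz α s' α' s'' (by rw [h4, h5, h6, h7, h1])
    omega

end pulled

/-- BACKWARD part of the split. -/
theorem back : StmBack := by
  intro β V E A _ _ _ _ _ D x e s sd sa t₀ c d _ h z hR
  have : Nonempty β := ⟨t₀.2⟩
  obtain ⟨x₀, hT₀, hP₀, hz₀⟩ := hR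
  -- change of frames
  let γ : Option V → FreeGroup β := fun w => match w with
    | some _ => 1
    | none => (tr x₀ (some e) s)⁻¹ * tr x₀ none s
  let x₂ := gau (spD D e s sd sa) γ x₀
  have htr : tr x₂ none s = tr x₂ (some e) s := by
    show tr (gau _ γ x₀) none s = tr (gau _ γ x₀) (some e) s
    rw [gau_tr, gau_tr, h.ens, spD_en_none_self, spD_en_none_not]
    show _ * _ * ((tr x₀ (some e) s)⁻¹ * tr x₀ none s)⁻¹ = _ * _ * (1 : FreeGroup β)⁻¹
    group
  have hτ : x₂.τ none = x₂.τ (some e) := by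
    revert htr
    cases s
    · intro htr; simpa [tr] using htr
    · intro htr; simpa [tr] using htr
  let y : Val β E A := ⟨fun f => x₂.τ (some f), x₂.g⟩
  have hy : x₂ = spX e y := by
    have h1 : x₂.τ = (spX e y).τ := by
      funext f
      rcases f with _ | f
      · exact hτ
      · rfl
    have h2 : x₂.g = (spX e y).g := rfl
    cases hx : x₂
    cases hx' : spX e y
    rw [hx, hx'] at h1 h2
    simp only at h1 h2
    rw [h1, h2]
  have hT : TC (spD D e s sd sa) (spX e y) := by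
    rw [← hy]; exact gau_TC _ γ x₀ hT₀
  have hP : ∀ w t, pat (spD D e s sd sa) (spX e y) w t ∈ ty (spD D e s sd sa) (spX e x) w := by
    intro w t
    rw [← hy]
    show pat _ (gau _ γ x₀) w t ∈ _
    rw [gau_pat]
    exact hP₀ _ _
  have hz : ∀ α s' α' s'', (spD D e s sd sa).en ((spD D e s sd sa).et α) s' =
      (spD D e s sd sa).en ((spD D e s sd sa).et α') s'' →
      ((pos D y α s')⁻¹ * pos D y α' s'').norm ≤ z := by
    intro α s' α' s'' h1
    rw [← spX_pos D e s sd sa y, ← spX_pos D e s sd sa y, ← hy]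
    show ((pos _ (gau _ γ x₀) α s')⁻¹ * pos _ (gau _ γ x₀) α' s'').norm ≤ z
    rw [gau_norm _ γ x₀ α s' α' s'' h1]
    exact hz₀ _ _ _ _ h1
  exact ⟨y, tcY h hT hP, patY h hT hP, fun α s' α' s'' h1 => sizeY h hz h1⟩

end Pool.Agent.W2helper26.PP
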