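import Pool.Agent.W2helper26.PP.Stm
import Pool.Agent.Helper446.RE

/-!
# Potential positivity is decidable: part COMP

From `StmB` and `StmBound` the set of potentially positive words is computable.
-/

set_option autoImplicit false

namespace Pool.Agent.W2helper26.PP

open Pool.Agent.Helper446

/-- words -/
abbrev Wo (n : ℕ) := List (Fin n × Bool)

namespace CompP

variable {n : ℕ}

/-! ### primitive recursive operations on words -/

/-- one step of the reduction -/
def redStep (x : Fin n × Bool) (ih : Wo n) : Wo n :=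
  List.casesOn ih [x] fun hd tl => if x.1 = hd.1 ∧ x.2 = not hd.2 then tl else x :: hd :: tl

theorem reduce_eq_foldr (l : Wo n) :
    FreeGroup.reduce l = l.foldr (fun b s => redStep b s) [] := by
  induction l with
  | nil => rfl
  | cons x l ih =>
    rw [List.foldr_cons, ← ih]
    rfl

theorem primrec_redStep : Primrec₂ (redStep (n := n)) := by
  unfold redStep
  refine Primrec.list_casesOn (f := fun p : (Fin n × Bool) × Wo n => p.2)
    (g := fun p => [p.1]) (h := fun (p : (Fin n × Bool) × Wo n) (r : (Fin n × Bool) × Wo n) =>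
      if p.1.1 = r.1.1 ∧ p.1.2 = not r.1.2 then r.2 else p.1 :: r.1 :: r.2) Primrec.snd ?_ ?_
  · exact Primrec.list_cons.comp Primrec.fst (Primrec.const [])
  · refine Primrec.ite ?_ ?_ ?_
    · refine PrimrecPred.and ?_ ?_
      · exact Primrec.eq.comp (Primrec.fst.comp (Primrec.fst.comp Primrec.fst))
          (Primrec.fst.comp (Primrec.fst.comp Primrec.snd))
      · exact Primrec.eq.comp (Primrec.snd.comp (Primrec.fst.comp Primrec.fst))
          (Primrec.not.comp (Primrec.snd.comp (Primrec.fst.comp Primrec.snd)))
    · exact Primrec.snd.comp Primrec.snd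
    · exact Primrec.list_cons.comp (Primrec.fst.comp Primrec.fst)
        (Primrec.list_cons.comp (Primrec.fst.comp Primrec.snd) (Primrec.snd.comp Primrec.snd))

theorem primrec_reduce : Primrec (FreeGroup.reduce : Wo n → Wo n) := by
  refine (Primrec.list_foldr (f := fun l : Wo n => l) (g := fun _ => ([] : Wo n))
    (h := fun _ p => redStep p.1 p.2) Primrec.id (Primrec.const []) ?_).of_eq
      (fun l => (reduce_eq_foldr l).symm)
  exact primrec_redStep.comp (Primrec.fst.comp Primrec.snd) (Primrec.snd.comp Primrec.snd)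

theorem primrec_invRev : Primrec (FreeGroup.invRev : Wo n → Wo n) := by
  unfold FreeGroup.invRev
  refine Primrec.list_reverse.comp (Primrec.list_map Primrec.id ?_)
  exact Primrec.pair (Primrec.fst.comp Primrec.snd)
    (Primrec.not.comp (Primrec.snd.comp Primrec.snd))

/-- substitution of words -/
def subW (Y : List (Wo n)) (u : Wo n) : Wo n :=
  u.flatMap (fun p => cond p.2 (Y.getD p.1 []) (FreeGroup.invRev (Y.getD p.1 [])))

theorem primrec_subW : Primrec₂ (subW (n := n)) := by
  have h1 : Primrec₂ (fun (q : List (Wo n) × Wo n) (p : Fin n × Bool) => q.1.getD p.1 []) := by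
    refine (Primrec.list_getD (α := Wo n) []).comp (Primrec.fst.comp Primrec.fst) ?_
    exact (Primrec.fin_val).comp (Primrec.fst.comp Primrec.snd)
  refine Primrec.list_flatMap Primrec.snd ?_
  exact Primrec.cond (Primrec.snd.comp Primrec.snd) h1 (primrec_invRev.comp h1)

/-- the homomorphism of a tuple of words -/
def lf (Y : List (Wo n)) : FreeGroup (Fin n) →* FreeGroup (Fin n) :=
  FreeGroup.lift (fun i => FreeGroup.mk (Y.getD i []))

theorem mk_subW (Y : List (Wo n)) (u : Wo n) :
    FreeGroup.mk (subW Y u) = lf Y (FreeGroup.mk u) := by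
  induction u with
  | nil => exact (map_one (lf Y)).symm
  | cons a u ih =>
    have h1 : subW Y (a :: u) =
      (cond a.2 (Y.getD a.1 []) (FreeGroup.invRev (Y.getD a.1 []))) ++ subW Y u := rfl
    have h2 : (a :: u) = [a] ++ u := rfl
    rw [h1, ← FreeGroup.mul_mk, ih, h2, ← FreeGroup.mul_mk, map_mul]
    congr 1
    obtain ⟨i, b⟩ := a
    cases b
    · simp [lf, FreeGroup.inv_mk]
    · simp [lf]

theorem toWord_subW (Y : List (Wo n)) (u : Wo n) :
    FreeGroup.reduce (subW Y u) = (lf Y (FreeGroup.mk u)).toWord := by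
  rw [← mk_subW, FreeGroup.toWord_mk]

/-! ### all words, all tuples -/

/-- the letters -/
def letters (n : ℕ) : List (Fin n × Bool) := (List.finRange n).flatMap fun i => [(i, true), (i, false)]

theorem mem_letters (a : Fin n × Bool) : a ∈ letters n := by
  obtain ⟨i, b⟩ := a
  simp only [letters, List.mem_flatMap, List.mem_finRange, true_and]
  exact ⟨i, by cases b <;> simp⟩

/-- all words of length `k` -/
noncomputable def words (n k : ℕ) : List (Wo n) :=
  Nat.rec (motive := fun _ => List (Wo n)) [[]]
    (fun _ ih => ih.flatMap (fun w => (letters n).map (fun a => a :: w))) k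

theorem mem_words (k : ℕ) (w : Wo n) : w ∈ words n k ↔ w.length = k := by
  induction k generalizing w with
  | zero =>
    show w ∈ [[]] ↔ _
    rw [List.mem_singleton, List.length_eq_zero_iff]
  | succ k ih =>
    show w ∈ (words n k).flatMap (fun w => (letters n).map (fun a => a :: w)) ↔ _
    rw [List.mem_flatMap]
    constructor
    · rintro ⟨v, hv, hw⟩
      rw [List.mem_map] at hw
      obtain ⟨a, -, rfl⟩ := hw
      rw [List.length_cons, (ih v).1 hv]
    · intro h
      cases w with
      | nil => simp at h
      | cons a v =>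
        refine ⟨v, (ih v).2 (by simpa using h), ?_⟩
        rw [List.mem_map]
        exact ⟨a, mem_letters a, rfl⟩

theorem primrec_words : Primrec (words n) := by
  unfold words
  refine Primrec.nat_rec' (f := fun k : ℕ => k) (g := fun _ => ([[]] : List (Wo n)))
    (h := fun _ (p : ℕ × List (Wo n)) => p.2.flatMap (fun w => (letters n).map (fun a => a :: w)))
    Primrec.id (Primrec.const _) ?_
  refine Primrec.list_flatMap (Primrec.snd.comp Primrec.snd) ?_
  refine Primrec.list_map (Primrec.const _) ?_
  exact Primrec.list_cons.comp Primrec.snd (Primrec.snd.comp Primrec.fst)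

/-- all words of length at most `g` -/
noncomputable def wle (n g : ℕ) : List (Wo n) := (List.range (g + 1)).flatMap (words n)

theorem mem_wle (g : ℕ) (w : Wo n) : w ∈ wle n g ↔ w.length ≤ g := by
  simp only [wle, List.mem_flatMap, List.mem_range, mem_words]
  constructor
  · rintro ⟨k, hk, rfl⟩; omega
  · intro h; exact ⟨w.length, by omega, rfl⟩

theorem primrec_wle : Primrec (wle n) :=
  Primrec.list_flatMap (Primrec.list_range.comp Primrec.succ) (primrec_words.comp Primrec.snd)

/-- all `m`-tuples of words of length at most `g` -/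
noncomputable def tup (n : ℕ) : ℕ → ℕ → List (List (Wo n))
  | 0, _ => [[]]
  | m + 1, g => (tup n m g).flatMap (fun Y => (wle n g).map (fun y => y :: Y))

theorem mem_tup (m g : ℕ) (Y : List (Wo n)) :
    Y ∈ tup n m g ↔ Y.length = m ∧ ∀ y ∈ Y, y.length ≤ g := by
  induction m generalizing Y with
  | zero =>
    simp only [tup, List.mem_singleton]
    constructor
    · rintro rfl; simp
    · rintro ⟨h, -⟩; exact List.length_eq_zero_iff.1 h
  | succ m ih =>
    simp only [tup, List.mem_flatMap, List.mem_map, mem_wle]
    constructor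
    · rintro ⟨Z, hZ, y, hy, rfl⟩
      obtain ⟨h1, h2⟩ := (ih Z).1 hZ
      refine ⟨by rw [List.length_cons, h1], ?_⟩
      intro y' hy'
      rcases List.mem_cons.1 hy' with rfl | h
      exacts [hy, h2 _ h]
    · rintro ⟨h1, h2⟩
      cases Y with
      | nil => simp at h1
      | cons y Z =>
        refine ⟨Z, (ih Z).2 ⟨by simpa using h1, fun z hz => h2 z (List.mem_cons_of_mem _ hz)⟩, y,
          h2 y List.mem_cons_self, rfl⟩

theorem primrec_tup (m : ℕ) : Primrec (tup n m) := by
  induction m with
  | zero => exact Primrec.const _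
  | succ m ih =>
    refine Primrec.list_flatMap (f := fun g => tup n m g) ih ?_
    refine Primrec.list_map (primrec_wle.comp Primrec.fst) ?_
    exact Primrec.list_cons.comp Primrec.snd (Primrec.snd.comp Primrec.fst)

/-! ### positivity -/

/-- the reduced word is nonempty and positive -/
def PosW (u : Wo n) : Prop := u ≠ [] ∧ ∀ a ∈ u, a.2 = true

theorem reduce_pos (u : Wo n) (h : ∀ a ∈ u, a.2 = true) : FreeGroup.reduce u = u := by
  induction u with
  | nil => rfl
  | cons a u ih =>
    have h1 := ih (fun b hb => h b (List.mem_cons_of_mem _ hb))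
    rw [FreeGroup.reduce.cons, h1]
    cases u with
    | nil => rfl
    | cons b v =>
      have ha := h a List.mem_cons_self
      have hb := h b (List.mem_cons_of_mem _ List.mem_cons_self)
      simp [ha, hb]

theorem mem_posS {g : FreeGroup (Fin n)} : g ∈ PosS n ↔ PosW g.toWord := by
  constructor
  · intro h
    have h1 : ∃ u : Wo n, PosW u ∧ g = FreeGroup.mk u := by
      unfold PosS at h
      induction h using Subsemigroup.closure_induction with
      | mem x hx =>
        obtain ⟨i, rfl⟩ := hx
        exact ⟨[(i, true)], ⟨by simp, by simp⟩, rfl⟩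
      | mul x y _ _ hx hy =>
        obtain ⟨u, hu, rfl⟩ := hx
        obtain ⟨v, hv, rfl⟩ := hy
        refine ⟨u ++ v, ⟨by simp [hu.1], ?_⟩, by rw [FreeGroup.mul_mk]⟩
        intro a ha
        rcases List.mem_append.1 ha with ha | ha
        exacts [hu.2 a ha, hv.2 a ha]
    obtain ⟨u, hu, rfl⟩ := h1
    rw [FreeGroup.toWord_mk, reduce_pos u hu.2]
    exact hu
  · intro h
    rw [← FreeGroup.mk_toWord (x := g)]
    generalize g.toWord = u at h
    obtain ⟨h1, h2⟩ := h
    induction u with
    | nil => exact absurd rfl h1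
    | cons a u ih =>
      obtain ⟨i, b⟩ := a
      have hb : b = true := h2 (i, b) List.mem_cons_self
      subst hb
      have hof : FreeGroup.of i ∈ PosS n := Subsemigroup.subset_closure ⟨i, rfl⟩
      cases u with
      | nil => exact hof
      | cons c v =>
        have h3 := ih (by simp) (fun a ha => h2 a (List.mem_cons_of_mem _ ha))
        have h4 : FreeGroup.mk ((i, true) :: c :: v) = FreeGroup.of i * FreeGroup.mk (c :: v) := by
          rw [FreeGroup.of, FreeGroup.mul_mk]; rfl
        rw [h4]
        exact Subsemigroup.mul_mem _ hof h3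

theorem mk_mem_posS {u : Wo n} : FreeGroup.mk u ∈ PosS n ↔ PosW (FreeGroup.reduce u) := by
  rw [mem_posS, FreeGroup.toWord_mk]

theorem cp_posW : ComputablePred (PosW : Wo n → Prop) := by
  have h1 : PrimrecPred (fun u : Wo n => ∀ a ∈ u, a.2 = true) := by
    have h2 : PrimrecRel (fun (a : Fin n × Bool) (_ : Unit) => a.2 = true) :=
      Primrec.eq.comp (Primrec.snd.comp Primrec.fst) (Primrec.const true)
    exact PrimrecRel.comp h2.forall_mem_list Primrec.id (Primrec.const ())
  have h3 : PrimrecPred (fun u : Wo n => u = []) := Primrec.eq.comp Primrec.id (Primrec.const [])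
  exact (h3.not.and h1).computablePred

/-- potential positivity -/
def PotPos (n : ℕ) (w : Wo n) : Prop :=
  ∃ α : FreeGroup (Fin n) ≃* FreeGroup (Fin n), α (FreeGroup.mk w) ∈ PosS n

theorem pp_of_inj (hB : StmB) (w : Wo n) (θ : FreeGroup (Fin n) →* FreeGroup (Fin n))
    (hi : Function.Injective θ) (hp : θ (FreeGroup.mk w) ∈ PosS n) : PotPos n w := by
  have h1 : FreeGroup.mk (FreeGroup.reduce w) = FreeGroup.mk w := FreeGroup.reduce.self
  obtain ⟨θ', h2, -⟩ := hB n (FreeGroup.reduce w) FreeGroup.reduce.idem n θ hi (by rw [h1]; exact hp)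
  exact ⟨θ', by rw [← h1]; exact h2⟩

/-- the tuple of words of a homomorphism -/
def tw (θ : FreeGroup (Fin n) →* FreeGroup (Fin n)) : List (Wo n) :=
  List.ofFn (fun i => (θ (FreeGroup.of i)).toWord)

theorem getD_tw (θ : FreeGroup (Fin n) →* FreeGroup (Fin n)) (i : Fin n) :
    (tw θ).getD i [] = (θ (FreeGroup.of i)).toWord := by
  unfold tw
  rw [List.getD_eq_getElem _ _ (by simp)]
  simp

theorem lf_tw (θ : FreeGroup (Fin n) →* FreeGroup (Fin n)) : lf (tw θ) = θ := by
  ext i
  simp only [lf, FreeGroup.lift_apply_of, getD_tw, FreeGroup.mk_toWord]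

/-! ### recursive enumerability -/

theorem re_pp (hB : StmB) (n : ℕ) : REPred (PotPos n) := by
  have h1 : REPred (fun w : Wo n => ∃ Y : List (Wo n), ∃ Z : List (Wo n),
      (∀ a ∈ (List.finRange n), FreeGroup.reduce (subW Z (Y.getD a [])) = [(a, true)]) ∧
        PosW (FreeGroup.reduce (subW Y w))) := by
    refine RE.ex (p := fun (w : Wo n) (Y : List (Wo n)) => ∃ Z : List (Wo n),
      (∀ a ∈ (List.finRange n), FreeGroup.reduce (subW Z (Y.getD a [])) = [(a, true)]) ∧
        PosW (FreeGroup.reduce (subW Y w))) ?_
    refine RE.ex (p := fun (x : Wo n × List (Wo n)) (Z : List (Wo n)) =>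
      (∀ a ∈ (List.finRange n), FreeGroup.reduce (subW Z (x.2.getD a [])) = [(a, true)]) ∧
        PosW (FreeGroup.reduce (subW x.2 x.1))) ?_
    refine RE.and ?_ ?_
    · refine RE.all_mem (p := fun (y : (Wo n × List (Wo n)) × List (Wo n)) (a : Fin n) =>
        FreeGroup.reduce (subW y.2 (y.1.2.getD a [])) = [(a, true)]) ?_ (Computable.const _)
      refine RE.eq ?_ ?_
      · refine Primrec.to_comp (primrec_reduce.comp (primrec_subW.comp
          (Primrec.snd.comp Primrec.fst) ?_))
        refine (Primrec.list_getD (α := Wo n) []).comp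
          (Primrec.snd.comp (Primrec.fst.comp Primrec.fst)) ?_
        exact Primrec.fin_val.comp Primrec.snd
      · refine Primrec.to_comp (Primrec.list_cons.comp ?_ (Primrec.const []))
        exact Primrec.pair Primrec.snd (Primrec.const true)
    · refine RE.comp cp_posW.to_re (Primrec.to_comp (primrec_reduce.comp (primrec_subW.comp ?_ ?_)))
      · exact Primrec.snd.comp Primrec.fst
      · exact Primrec.fst.comp Primrec.fst
  refine h1.of_eq fun w => ?_
  constructor
  · rintro ⟨Y, Z, h2, h3⟩
    have h4 : ∀ g, lf Z (lf Y g) = g := by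
      intro g
      have h5 : (lf Z).comp (lf Y) = MonoidHom.id _ := by
        ext i
        show lf Z (lf Y (FreeGroup.of i)) = FreeGroup.of i
        have h6 := h2 i (List.mem_finRange i)
        rw [toWord_subW] at h6
        have h7 : lf Y (FreeGroup.of i) = FreeGroup.mk (Y.getD i []) := by
          simp [lf]
        rw [h7, ← FreeGroup.mk_toWord (x := lf Z (FreeGroup.mk (Y.getD i []))), h6]
        rfl
      exact DFunLike.congr_fun h5 g
    refine pp_of_inj hB w (lf Y) (Function.LeftInverse.injective h4) ?_
    rw [← mk_subW]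
    exact mk_mem_posS.2 h3
  · rintro ⟨α, hα⟩
    refine ⟨tw α.toMonoidHom, tw α.symm.toMonoidHom, ?_, ?_⟩
    · intro i _
      rw [toWord_subW, lf_tw, getD_tw, FreeGroup.mk_toWord]
      have : α.symm.toMonoidHom (α.toMonoidHom (FreeGroup.of i)) = FreeGroup.of i :=
        α.symm_apply_apply _
      rw [this]
      exact FreeGroup.toWord_of i
    · rw [← mk_mem_posS, mk_subW, lf_tw]
      exact hα

theorem re_npp (hB : StmB) (hG : StmBound) {n : ℕ} (hn : 2 ≤ n) :
    REPred (fun w : Wo n => ¬ PotPos n w) := by
  obtain ⟨G, hGp, hGb⟩ := hG n hn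
  have h1 : REPred (fun w : Wo n => ∀ Y ∈ tup n n (G (FreeGroup.reduce w).length),
      (¬ PosW (FreeGroup.reduce (subW Y w))) ∨
        ∃ u : Wo n, FreeGroup.reduce u ≠ [] ∧ FreeGroup.reduce (subW Y u) = []) := by
    refine RE.all_mem (p := fun (w : Wo n) (Y : List (Wo n)) =>
      (¬ PosW (FreeGroup.reduce (subW Y w))) ∨
        ∃ u : Wo n, FreeGroup.reduce u ≠ [] ∧ FreeGroup.reduce (subW Y u) = []) ?_ ?_
    · refine RE.or ?_ ?_
      · exact RE.comp cp_posW.not.to_re (Primrec.to_comp (primrec_reduce.comp
          (primrec_subW.comp Primrec.snd Primrec.fst)))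
      · refine RE.ex (p := fun (x : Wo n × List (Wo n)) (u : Wo n) =>
          FreeGroup.reduce u ≠ [] ∧ FreeGroup.reduce (subW x.2 u) = []) ?_
        refine RE.and ?_ ?_
        · exact RE.ne (Primrec.to_comp (primrec_reduce.comp Primrec.snd)) (Computable.const [])
        · exact RE.eq (Primrec.to_comp (primrec_reduce.comp (primrec_subW.comp
            (Primrec.snd.comp Primrec.fst) Primrec.snd))) (Computable.const [])
    · exact Primrec.to_comp ((primrec_tup n).comp
        (hGp.comp (Primrec.list_length.comp primrec_reduce)))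
  refine h1.of_eq fun w => ?_
  constructor
  · rintro h2 ⟨α, hα⟩
    have h3 : FreeGroup.mk (FreeGroup.reduce w) = FreeGroup.mk w := FreeGroup.reduce.self
    obtain ⟨θ, h4, h5⟩ := hGb (FreeGroup.reduce w) FreeGroup.reduce.idem
      ⟨α, by rw [h3]; exact hα⟩
    rw [h3] at h4
    have h6 : tw θ.toMonoidHom ∈ tup n n (G (FreeGroup.reduce w).length) := by
      rw [mem_tup]
      refine ⟨by simp [tw], ?_⟩
      intro y hy
      simp only [tw, List.mem_ofFn] at hy
      obtain ⟨i, rfl⟩ := hy
      exact h5 i
    rcases h2 _ h6 with h7 | ⟨u, h7, h8⟩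
    · apply h7
      rw [← mk_mem_posS, mk_subW, lf_tw]
      exact h4
    · apply h7
      rw [toWord_subW, lf_tw, FreeGroup.toWord_eq_nil_iff] at h8
      have h9 : FreeGroup.mk u = 1 := by
        have : θ (FreeGroup.mk u) = 1 := h8
        exact (MulEquiv.map_eq_one_iff θ).1 this
      rw [← FreeGroup.toWord_mk, h9, FreeGroup.toWord_one]
  · intro h2 Y _
    by_cases h3 : PosW (FreeGroup.reduce (subW Y w))
    · right
      have h4 : ¬ Function.Injective (lf Y) := by
        intro h5
        apply h2
        refine pp_of_inj hB w (lf Y) h5 ?_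
        rw [← mk_subW]
        exact mk_mem_posS.2 h3
      rw [injective_iff_map_eq_one] at h4
      push Not at h4
      obtain ⟨g, hg, hg1⟩ := h4
      refine ⟨g.toWord, ?_, ?_⟩
      · rw [FreeGroup.reduce_toWord]
        intro h5
        exact hg1 (FreeGroup.toWord_eq_nil_iff.1 h5)
      · rw [toWord_subW, FreeGroup.mk_toWord, hg, FreeGroup.toWord_one]
    · left
      exact h3

/-! ### rank one -/

/-- inversion of the generators -/
def invHom (n : ℕ) : FreeGroup (Fin n) →* FreeGroup (Fin n) :=
  FreeGroup.lift (fun i => (FreeGroup.of i)⁻¹)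

theorem invHom_invHom (g : FreeGroup (Fin n)) : invHom n (invHom n g) = g := by
  have h : (invHom n).comp (invHom n) = MonoidHom.id _ := by
    ext i
    simp [invHom]
  exact DFunLike.congr_fun h g

/-- the automorphism inverting the generators -/
def invEq (n : ℕ) : FreeGroup (Fin n) ≃* FreeGroup (Fin n) where
  toFun := invHom n
  invFun := invHom n
  left_inv := invHom_invHom
  right_inv := invHom_invHom
  map_mul' := map_mul _

theorem invHom_mk (u : Wo n) :
    invHom n (FreeGroup.mk u) = FreeGroup.mk (u.map (fun p => (p.1, !p.2))) := by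
  induction u with
  | nil => exact map_one _
  | cons a u ih =>
    have h2 : (a :: u) = [a] ++ u := rfl
    rw [h2, ← FreeGroup.mul_mk, map_mul, ih, List.map_append, ← FreeGroup.mul_mk]
    congr 1
    obtain ⟨i, b⟩ := a
    cases b <;> simp [invHom, FreeGroup.of, FreeGroup.inv_mk, FreeGroup.invRev]

theorem const_sign (u : Wo 1) (h : FreeGroup.reduce u = u) (b : Bool)
    (hb : ∀ a ∈ u.head?, a.2 = b) : ∀ a ∈ u, a.2 = b := by
  induction u with
  | nil => simp
  | cons a u ih =>
    have ha : a.2 = b := hb a (by simp)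
    have h1 : FreeGroup.reduce u = u := by
      have h2 : FreeGroup.IsReduced (a :: u) := FreeGroup.isReduced_iff_reduce_eq.2 h
      exact FreeGroup.isReduced_iff_reduce_eq.1 (List.IsChain.of_cons h2)
    intro c hc
    rcases List.mem_cons.1 hc with rfl | hc
    · exact ha
    · refine ih h1 ?_ c hc
      intro d hd
      cases u with
      | nil => simp at hd
      | cons e v =>
        simp only [List.head?_cons, Option.mem_def, Option.some.injEq] at hd
        subst hd
        have h2 : FreeGroup.IsReduced (a :: e :: v) := FreeGroup.isReduced_iff_reduce_eq.2 h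
        have h3 := (List.isChain_cons_cons.1 h2).1 (Subsingleton.elim _ _)
        rw [← ha, h3]

theorem pp_one (w : Wo 1) : PotPos 1 w ↔ FreeGroup.reduce w ≠ [] := by
  constructor
  · rintro ⟨α, hα⟩ h
    have h1 : FreeGroup.mk w = 1 := by
      rw [← FreeGroup.toWord_eq_nil_iff, FreeGroup.toWord_mk, h]
    rw [h1, map_one] at hα
    have := (mem_posS.1 hα).1
    exact this FreeGroup.toWord_one
  · intro h
    obtain ⟨a, u, hu⟩ := List.exists_cons_of_ne_nil h
    have h1 : FreeGroup.mk (FreeGroup.reduce w) = FreeGroup.mk w := FreeGroup.reduce.self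
    have h2 := const_sign (FreeGroup.reduce w) FreeGroup.reduce.idem a.2 (by rw [hu]; simp)
    rcases hb : a.2 with _ | _
    · refine ⟨invEq 1, ?_⟩
      rw [← h1]
      show invHom 1 (FreeGroup.mk (FreeGroup.reduce w)) ∈ PosS 1
      rw [invHom_mk, mk_mem_posS]
      have h3 : ∀ c ∈ (FreeGroup.reduce w).map (fun p => (p.1, !p.2)), c.2 = true := by
        intro c hc
        rw [List.mem_map] at hc
        obtain ⟨d, hd, rfl⟩ := hc
        simp [h2 d hd, hb]
      rw [reduce_pos _ h3]
      exact ⟨by simpa using h, h3⟩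
    · refine ⟨MulEquiv.refl _, ?_⟩
      rw [← h1]
      show FreeGroup.mk (FreeGroup.reduce w) ∈ PosS 1
      rw [mk_mem_posS, FreeGroup.reduce.idem]
      exact ⟨h, fun c hc => by rw [h2 c hc, hb]⟩

end CompP

open CompP in
/-- Part COMP. -/
theorem comp : StmComp := by
  intro hB hG n
  show ComputablePred (PotPos n)
  rcases Nat.lt_or_ge n 2 with hn | hn
  · interval_cases n
    · have h : ∀ w : Wo 0, PotPos 0 w ↔ False := by
        intro w
        simp only [iff_false]
        rintro ⟨α, hα⟩
        obtain ⟨h1, -⟩ := mem_posS.1 hα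
        rcases hw : (α (FreeGroup.mk w)).toWord with _ | ⟨a, _⟩
        · exact h1 hw
        · exact a.1.elim0
      exact (ComputablePred.computable_iff.2 ⟨fun _ => false, Computable.const false, by
        funext w; simp [h w]⟩)
    · have h2 : ComputablePred (fun w : Wo 1 => FreeGroup.reduce w ≠ []) :=
        (RE.cp_eq (primrec_reduce (n := 1)).to_comp (Computable.const [])).not
      have h3 : PotPos 1 = (fun w : Wo 1 => FreeGroup.reduce w ≠ []) := by
        funext w
        exact propext (pp_one w)
      rw [h3]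
      exact h2
  · exact RE.cp_of_re (re_pp hB n) (re_npp hB hG hn)

end Pool.Agent.W2helper26.PP
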