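import Pool.Agent.W2helper26.PP.Defs

/-!
# Potential positivity is decidable: the statements of the parts
-/

set_option autoImplicit false

namespace Pool.Agent.W2helper26.PP

/-- Positive elements. -/
def PosS (n : ℕ) : Subsemigroup (FreeGroup (Fin n)) :=
  Subsemigroup.closure (Set.range (FreeGroup.of : Fin n → FreeGroup (Fin n)))

/-- The initial data of the word `L`: one node, an edge for every generator, an arc for every letter of
`L` and an arc for every generator. -/
def D1 {n : ℕ} (L : List (Fin n × Bool)) : Dt Unit (Fin n) (Fin L.length ⊕ Fin n) where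
  en := fun _ _ => ()
  et := Sum.elim (fun i => (L.get i).1) id

/-- The initial values: with `u i = θ (prefix of length i)⁻¹`, the arc of the `i`-th letter joins
`u i` and `u (i+1)`, the arc of the generator `j` joins `θ (x_j)⁻¹` and `1`. -/
def x1 {n : ℕ} {β : Type} (L : List (Fin n × Bool)) (θ : FreeGroup (Fin n) →* FreeGroup β) :
    Val β (Fin n) (Fin L.length ⊕ Fin n) where
  τ := fun j => θ (FreeGroup.of j)
  g := Sum.elim
    (fun i => if (L.get i).2 then (θ (FreeGroup.mk (L.take (i + 1))))⁻¹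
      else (θ (FreeGroup.mk (L.take i)))⁻¹)
    (fun j => (θ (FreeGroup.of j))⁻¹)

/-- PART B.  If some injective homomorphism into a free group makes `L` positive, then some
isomorphism makes it positive and its initial state satisfies the tree conditions. -/
def StmB : Prop :=
  ∀ (n : ℕ) (L : List (Fin n × Bool)), FreeGroup.reduce L = L →
  ∀ (k : ℕ) (θ : FreeGroup (Fin n) →* FreeGroup (Fin k)), Function.Injective θ →
    θ (FreeGroup.mk L) ∈ PosS k →
    ∃ θ' : FreeGroup (Fin n) ≃* FreeGroup (Fin n), θ' (FreeGroup.mk L) ∈ PosS n ∧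
      TC (D1 L) (x1 L θ'.toMonoidHom)

/-- BOUND. -/
def StmBound : Prop :=
  ∀ n : ℕ, 2 ≤ n → ∃ G : ℕ → ℕ, Primrec G ∧ ∀ L : List (Fin n × Bool), FreeGroup.reduce L = L →
    (∃ θ : FreeGroup (Fin n) ≃* FreeGroup (Fin n), θ (FreeGroup.mk L) ∈ PosS n) →
    ∃ θ : FreeGroup (Fin n) ≃* FreeGroup (Fin n), θ (FreeGroup.mk L) ∈ PosS n ∧
      ∀ j, (θ (FreeGroup.of j)).norm ≤ G L.length

/-- PART COMP (to be proved from `StmB` and `StmBound`). -/
def StmComp : Prop :=
  StmB → StmBound → ∀ n : ℕ, ComputablePred (fun w : List (Fin n × Bool) =>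
      ∃ α : FreeGroup (Fin n) ≃* FreeGroup (Fin n),
        α (FreeGroup.mk w) ∈
          Subsemigroup.closure (Set.range (FreeGroup.of : Fin n → FreeGroup (Fin n))))

/-- MERGE step. -/
def StmMerge : Prop :=
  ∀ (β V E A : Type) [DecidableEq β] [Fintype β] [Fintype V] [Fintype E] [Fintype A]
    (q₀ φ₀ : ℕ) (D : Dt V E A) (x : Val β E A) (Q : Set (V × FreeGroup β)) (v : V),
    Good q₀ φ₀ D x Q → Mergeable D x Q v →
    ∃ (V' E' A' : Type) (_ : Fintype V') (_ : Fintype E') (_ : Fintype A')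
      (D' : Dt V' E' A') (x' : Val β E' A') (Q' : Set (V' × FreeGroup β)),
      Good q₀ φ₀ D' x' Q' ∧ meas D' x' < meas D x ∧ Fintype.card V' + 1 = Fintype.card V ∧
      Pull D x D' x'

/-- SPLIT step. -/
def StmSplit : Prop :=
  ∀ (β V E A : Type) [DecidableEq β] [Fintype β] [Fintype V] [Fintype E] [Fintype A]
    (q₀ φ₀ : ℕ) (D : Dt V E A) (x : Val β E A) (Q : Set (V × FreeGroup β)),
    Good q₀ φ₀ D x Q → (∃ e s y l, Cov D x y l e s) →
    ∃ (V' E' A' : Type) (_ : Fintype V') (_ : Fintype E') (_ : Fintype A')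
      (D' : Dt V' E' A') (x' : Val β E' A') (Q' : Set (V' × FreeGroup β)),
      Good q₀ φ₀ D' x' Q' ∧ meas D' x' < meas D x ∧ Fintype.card V' = Fintype.card V + 1 ∧
      Pull D x D' x'

/-- COUNT: bound on the number of nodes when nothing can be merged. -/
def StmCount : Prop :=
  ∀ (β V E A : Type) [DecidableEq β] [Fintype β] [Fintype V] [Fintype E] [Fintype A]
    (q₀ φ₀ : ℕ) (D : Dt V E A) (x : Val β E A) (Q : Set (V × FreeGroup β)),
    2 ≤ Fintype.card β → Good q₀ φ₀ D x Q → (∀ v, ¬ Mergeable D x Q v) →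
    Fintype.card V ≤ 4 * Fintype.card β + 2 * q₀

/-- MAIN induction (to be proved from `StmMerge`, `StmSplit`, `StmCount`): a primitive recursive bound
for the size of some realisation, depending only on `card β`, `q₀`, `φ₀`. -/
def StmMain : Prop :=
  StmMerge → StmSplit → StmCount → ∀ n : ℕ, 2 ≤ n → ∃ G : ℕ → ℕ → ℕ, Primrec₂ G ∧
    ∀ (V E A : Type) [Fintype V] [Fintype E] [Fintype A]
      (q₀ φ₀ : ℕ) (D : Dt V E A) (x : Val (Fin n) E A) (Q : Set (V × FreeGroup (Fin n))),
      Good q₀ φ₀ D x Q → Fintype.card V = 1 → Rlz (Fin n) D (ty D x) (G q₀ φ₀)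

/-- INIT: adding arcs at the branch vertices turns the initial state into a good one. -/
def StmInit : Prop :=
  ∀ n : ℕ, 2 ≤ n → ∃ q φ : ℕ → ℕ, Primrec q ∧ Primrec φ ∧
    ∀ (L : List (Fin n × Bool)) (θ : FreeGroup (Fin n) ≃* FreeGroup (Fin n)),
    FreeGroup.reduce L = L → TC (D1 L) (x1 L θ.toMonoidHom) →
    ∃ (A' : Type) (_ : Fintype A') (D' : Dt Unit (Fin n) A') (x' : Val (Fin n) (Fin n) A')
      (Q' : Set (Unit × FreeGroup (Fin n))),
      Good (q L.length) (φ L.length) D' x' Q' ∧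
      ∀ z, Rlz (Fin n) D' (ty D' x') z → Rlz (Fin n) (D1 L) (ty (D1 L) (x1 L θ.toMonoidHom)) z

/-- EXTRACT: from a realisation of the initial type to an isomorphism. -/
def StmExtract : Prop :=
  ∀ (n : ℕ) (L : List (Fin n × Bool)) (θ : FreeGroup (Fin n) ≃* FreeGroup (Fin n)) (z : ℕ),
    FreeGroup.reduce L = L → θ (FreeGroup.mk L) ∈ PosS n →
    Rlz (Fin n) (D1 L) (ty (D1 L) (x1 L θ.toMonoidHom)) z →
    ∃ θ' : FreeGroup (Fin n) ≃* FreeGroup (Fin n), θ' (FreeGroup.mk L) ∈ PosS n ∧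
      ∀ j, (θ' (FreeGroup.of j)).norm ≤ 2 * z

end Pool.Agent.W2helper26.PP
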