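import Pool.Agent.W2helper26.PP.Geo
import Pool.Agent.W2helper26.PP.Stm

/-!
# COUNT: the number of nodes when nothing can be merged
-/

set_option autoImplicit false
set_option linter.unusedSectionVars false

namespace Pool.Agent.W2helper26.PP

open FreeGroup

namespace Count

theorem eqvGen_isolated {X : Type} {r : X → X → Prop} {p : X} (h1 : ∀ q, ¬ r p q) (h2 : ∀ q, ¬ r q p) {q : X}
    (h : Relation.EqvGen r p q) : p = q := by
  have key : ∀ a b, Relation.EqvGen r a b → (a = p ↔ b = p) := by
    intro a b hab
    induction hab with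
    | rel a b hr =>
      constructor
      · rintro rfl; exact absurd hr (h1 _)
      · rintro rfl; exact absurd hr (h2 _)
    | refl a => exact Iff.rfl
    | symm a b _ ih => exact ih.symm
    | trans a b c _ _ i1 i2 => exact i1.trans i2
  exact ((key p q h).1 rfl).symm

variable {β V E A : Type} [DecidableEq β]

/-- The uncovered cells at a node. -/
def Unc (D : Dt V E A) (x : Val β E A) (w : V) (y : FreeGroup β) (l : β × Bool) : Prop :=
  y ∈ KV D x w ∧ y * FreeGroup.mk [l] ∈ KV D x w ∧ ∀ e s, D.en e s = w → ¬ Cov D x y l e s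

/-- Two uncovered cells with the same letter are at the same node. -/
theorem unc_node {D : Dt V E A} {x : Val β E A}
    (hc : ∀ b v y w z, y ∈ KV D x v → y * FreeGroup.of b ∈ KV D x v → z ∈ KV D x w →
      z * FreeGroup.of b ∈ KV D x w → Relation.EqvGen (adjb D x b) (v, y) (w, z))
    {w w' : V} {y y' : FreeGroup β} {l l' : β × Bool} (h : Unc D x w y l) (h' : Unc D x w' y' l')
    (hl : l.1 = l'.1) : w = w' := by
  -- the initial vertex
  have key : ∀ (w : V) (y : FreeGroup β) (l : β × Bool), Unc D x w y l → ∃ y0, y0 ∈ KV D x w ∧ y0 * of l.1 ∈ KV D x w ∧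
      ∀ e s, D.en e s = w → ¬ (y0 ∈ KE D x e s ∧ y0 * of l.1 ∈ KE D x e s) := by
    rintro w y ⟨b, s⟩ ⟨h1, h2, h3⟩
    cases s
    · refine ⟨y * mk [(b, false)], h2, ?_, ?_⟩
      · have := mul_mk_single_mul y (b, false)
        have h4 : y * mk [(b, false)] * of b = y := by simpa [FreeGroup.of] using this
        rw [h4]; exact h1
      · intro e s hes
        have := mul_mk_single_mul y (b, false)
        have h4 : y * mk [(b, false)] * of b = y := by simpa [FreeGroup.of] using this
        rw [h4]
        intro h5
        exact h3 e s hes ⟨h5.2, h5.1⟩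
    · exact ⟨y, h1, h2, h3⟩
  obtain ⟨y0, a1, a2, a3⟩ := key w y l h
  obtain ⟨y0', b1, b2, b3⟩ := key w' y' l' h'
  rw [← hl] at b2
  have h1 := hc l.1 w y0 w' y0' a1 a2 b1 b2
  have h2 : ∀ q, ¬ adjb D x l.1 (w, y0) q := by
    rintro q ⟨e, s, c1, c2, c3, c4, c5⟩
    exact a3 e s c1 ⟨c3, c4⟩
  have h3 := eqvGen_isolated h2 (fun q hq => h2 q (adjb_symm hq)) h1
  exact (Prod.ext_iff.1 h3).1

theorem count : StmCount := by
  classical
  intro β V E A _ _ _ _ _ q₀ φ₀ D x Q hβ hG hM
  set val : V → ℕ := fun w => (Finset.univ.filter (fun b : E × Bool => D.en b.1 b.2 = w)).card with hval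
  set B : Finset V := Finset.univ.filter (fun w => (∃ y, (w, y) ∈ Q) ∨ ∃ y l, Unc D x w y l) with hB
  -- the sum of the valencies
  have hsum : ∑ w, val w = 2 * Fintype.card E := by
    have h1 : (Finset.univ : Finset (E × Bool)).card = ∑ w ∈ (Finset.univ : Finset V),
        (Finset.univ.filter (fun b : E × Bool => D.en b.1 b.2 = w)).card :=
      Finset.card_eq_sum_card_fiberwise (fun b _ => Finset.mem_univ _)
    rw [Finset.card_univ, Fintype.card_prod, Fintype.card_bool] at h1
    rw [← h1]; ring
  have hpos : ∀ w, 1 ≤ val w := by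
    intro w
    obtain ⟨α, s, h⟩ := hG.full w
    rw [Nat.one_le_iff_ne_zero, ← Nat.pos_iff_ne_zero, Finset.card_pos]
    exact ⟨(D.et α, s), by simp [h]⟩
  -- few bad nodes
  have hBc : B.card ≤ q₀ + Fintype.card β := by
    set B1 : Finset V := Finset.univ.filter (fun w => ∃ y, (w, y) ∈ Q) with hB1
    set B2 : Finset V := Finset.univ.filter (fun w => ∃ y l, Unc D x w y l) with hB2
    have h1 : B ⊆ B1 ∪ B2 := by
      intro w hw
      simp only [hB, Finset.mem_filter, Finset.mem_univ, true_and] at hw
      simp only [hB1, hB2, Finset.mem_union, Finset.mem_filter, Finset.mem_univ, true_and]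
      exact hw
    have h2 : B1.card ≤ q₀ := by
      have : (B1 : Set V) ⊆ Prod.fst '' Q := by
        intro w hw
        simp only [hB1, Finset.coe_filter, Finset.mem_univ, true_and, Set.mem_ofPred_eq] at hw
        obtain ⟨y, hy⟩ := hw
        exact ⟨(w, y), hy, rfl⟩
      have h3 := Set.ncard_le_ncard this (hG.qf.image _)
      rw [Set.ncard_coe_finset] at h3
      exact h3.trans ((Set.ncard_image_le hG.qf).trans hG.qc)
    have h3 : B2.card ≤ Fintype.card β := by
      have hch : ∀ w : {w // w ∈ B2}, ∃ b : β, ∃ y l, Unc D x w.1 y l ∧ l.1 = b := by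
        rintro ⟨w, hw⟩
        simp only [hB2, Finset.mem_filter, Finset.mem_univ, true_and] at hw
        obtain ⟨y, l, h⟩ := hw
        exact ⟨l.1, y, l, h, rfl⟩
      choose f hf using hch
      have hinj : Function.Injective f := by
        intro w w' hww
        obtain ⟨y, l, h4, h5⟩ := hf w
        obtain ⟨y', l', h4', h5'⟩ := hf w'
        apply Subtype.ext
        exact unc_node hG.tc.connb h4 h4' (by rw [h5, h5', hww])
      have := Fintype.card_le_of_injective f hinj
      simpa using this
    calc B.card ≤ (B1 ∪ B2).card := Finset.card_le_card h1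
      _ ≤ B1.card + B2.card := Finset.card_union_le _ _
      _ ≤ _ := by omega
  -- nodes of small valency are bad
  have hsmall : ∀ w, val w ≤ 2 → w ∈ B := by
    intro w hw
    by_contra hwB
    simp only [hB, Finset.mem_filter, Finset.mem_univ, true_and, not_or] at hwB
    obtain ⟨hQ, hU⟩ := hwB
    have hQ' : ∀ y, (w, y) ∉ Q := fun y hy => hQ ⟨y, hy⟩
    have hcov : ∀ y l, y ∈ KV D x w → y * FreeGroup.mk [l] ∈ KV D x w →
        ∃ e s, D.en e s = w ∧ Cov D x y l e s := by
      intro y l h1 h2
      by_contra h3
      push Not at h3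
      exact hU ⟨y, l, h1, h2, h3⟩
    have hv := hpos w
    rcases (show val w = 1 ∨ val w = 2 by omega) with h1 | h1
    · obtain ⟨⟨e, s⟩, he⟩ := Finset.card_eq_one.1 h1
      have hall : ∀ e' s', D.en e' s' = w → (e', s') = (e, s) := by
        intro e' s' h2
        have : (e', s') ∈ (Finset.univ.filter (fun b : E × Bool => D.en b.1 b.2 = w)) := by simp [h2]
        rw [he] at this
        simpa using this
      have hes : D.en e s = w := by
        have : (e, s) ∈ (Finset.univ.filter (fun b : E × Bool => D.en b.1 b.2 = w)) := by rw [he]; simp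
        simpa using this
      obtain ⟨α, rfl⟩ := hG.surj e
      rcases hG.pn α s with h2 | ⟨α', s', h2, h3, h4⟩ | ⟨_, h2⟩
      · rw [hes] at h2; exact hQ' _ h2
      · rw [hes] at h2
        exact h4 (hall _ _ h2)
      · rcases h2 with ⟨e', s', h2, h3, h4⟩ | ⟨l, h2, h3⟩
        · rw [hes] at h2
          exact h3 (hall _ _ h2)
        · rw [hes] at h2 h3
          have hy : pos D x α s ∈ KV D x w := nV_subset_KV D x w ⟨α, s, hes, rfl⟩
          obtain ⟨e', s', h4, h5⟩ := hcov _ l hy h2
          exact h3 e' s' h4 h5
    · obtain ⟨⟨e, s⟩, ⟨f, s'⟩, hne, he⟩ := Finset.card_eq_two.1 h1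
      have hall : ∀ e' s'', D.en e' s'' = w → (e', s'') = (e, s) ∨ (e', s'') = (f, s') := by
        intro e' s'' h2
        have : (e', s'') ∈ (Finset.univ.filter (fun b : E × Bool => D.en b.1 b.2 = w)) := by simp [h2]
        rw [he] at this
        simpa using this
      have hes : D.en e s = w := by
        have : (e, s) ∈ (Finset.univ.filter (fun b : E × Bool => D.en b.1 b.2 = w)) := by rw [he]; simp
        simpa using this
      have hfs : D.en f s' = w := by
        have : (f, s') ∈ (Finset.univ.filter (fun b : E × Bool => D.en b.1 b.2 = w)) := by rw [he]; simp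
        simpa using this
      by_cases hef : e = f
      · subst hef
        have hs : s' = !s := by
          have : s ≠ s' := fun h => hne (by rw [h])
          revert this
          cases s <;> cases s' <;> simp
        subst hs
        -- every node is w
        have hinv : ∀ p q : V × FreeGroup β, Relation.EqvGen (adj D x) p q → (p.1 = w ↔ q.1 = w) := by
          intro p q hpq
          have half : ∀ p q : V × FreeGroup β, adj D x p q → p.1 = w → q.1 = w := by
            rintro p q ⟨e', s'', a1, a2, -, -⟩ hp
            rw [hp] at a1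
            rcases hall _ _ a1 with h3 | h3
            · obtain ⟨h4, h5⟩ := Prod.ext_iff.1 h3
              simp only at h4 h5
              subst h4 h5
              rw [← a2]; exact hfs
            · obtain ⟨h4, h5⟩ := Prod.ext_iff.1 h3
              simp only at h4 h5
              subst h4 h5
              rw [← a2]; simpa using hes
          induction hpq with
          | rel p q h => exact ⟨half p q h, half q p (adj_symm h)⟩
          | refl p => exact Iff.rfl
          | symm p q _ ih => exact ih.symm
          | trans p q r _ _ i1 i2 => exact i1.trans i2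
        have hone : ∀ w', w' = w := by
          intro w'
          obtain ⟨y, hy⟩ := KV_nonempty (x := x) hG.full w
          obtain ⟨z, hz⟩ := KV_nonempty (x := x) hG.full w'
          exact (hinv _ _ (hG.tc.conn w y w' z hy hz)).1 rfl
        have hcV : Fintype.card V = 1 := by
          rw [Fintype.card_eq_one_iff]; exact ⟨w, hone⟩
        have hcE : 2 * Fintype.card E = 2 := by
          rw [← hsum]
          have h3 : ∑ w', val w' = ∑ w' : V, 2 := Finset.sum_congr rfl fun w' _ => by rw [hone w']; exact h1
          rw [h3, Finset.sum_const, Finset.card_univ, hcV]; rfl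
        have := hG.ev
        omega
      · exact hM w ⟨hQ', hcov, e, s, f, s', hef, hes, hfs, hall⟩
  -- counting
  have hmain : ∀ w, 3 ≤ val w + 2 * (if w ∈ B then 1 else 0) := by
    intro w
    by_cases hw : w ∈ B
    · simp only [hw, if_true]
      have := hpos w
      omega
    · simp only [hw, if_false]
      by_contra h
      exact hw (hsmall w (by omega))
  have h1 : 3 * Fintype.card V ≤ ∑ w, (val w + 2 * (if w ∈ B then 1 else 0)) := by
    calc 3 * Fintype.card V = ∑ w : V, 3 := by
          rw [Finset.sum_const, Finset.card_univ, smul_eq_mul, mul_comm]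
      _ ≤ _ := Finset.sum_le_sum fun w _ => hmain w
  rw [Finset.sum_add_distrib, hsum, ← Finset.mul_sum] at h1
  have h2 : ∑ w : V, (if w ∈ B then 1 else 0) = B.card := by
    rw [Finset.sum_boole]; simp
  rw [h2] at h1
  have := hG.ev
  omega

end Count

theorem count : StmCount := Count.count

end Pool.Agent.W2helper26.PP
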