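import Pool.Agent.W2helper26.PP.Merge

/-!
# EXTRACT: from a realisation of the initial type to an isomorphism
-/

set_option autoImplicit false
set_option linter.unusedSectionVars false

namespace Pool.Agent.W2helper26.PP

open FreeGroup

namespace Extract

/-! ### Free groups of finite rank are Hopfian (classical) -/

section free

variable {X : Type}

open Classical in
/-- The finite set of suffix products of a word. -/
noncomputable def suf (L : List (X × Bool)) : Finset (FreeGroup X) :=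
  (L.tails.map FreeGroup.mk).toFinset

theorem mem_suf (L L' : List (X × Bool)) (h : L' <:+ L) : FreeGroup.mk L' ∈ suf L := by
  classical
  simp only [suf, List.mem_toFinset, List.mem_map, List.mem_tails]
  exact ⟨L', h, rfl⟩

/-- Left multiplication by a generator as a bijection between two subsets of the suffix products. -/
def pact (L : List (X × Bool)) (x : X) :
    {u : {u // u ∈ suf L} // FreeGroup.of x * u.1 ∈ suf L} ≃
      {u : {u // u ∈ suf L} // (FreeGroup.of x)⁻¹ * u.1 ∈ suf L} where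
  toFun := fun u => ⟨⟨FreeGroup.of x * u.1.1, u.2⟩, by simp⟩
  invFun := fun u => ⟨⟨(FreeGroup.of x)⁻¹ * u.1.1, u.2⟩, by simp⟩
  left_inv := fun u => by ext; simp
  right_inv := fun u => by ext; simp

open Classical in
/-- The permutation by which a generator acts on the suffix products. -/
noncomputable def act1 (L : List (X × Bool)) (x : X) : Equiv.Perm {u // u ∈ suf L} :=
  (pact L x).extendSubtype

theorem act1_apply (L : List (X × Bool)) (x : X) (u : {u // u ∈ suf L})
    (h : FreeGroup.of x * u.1 ∈ suf L) : act1 L x u = ⟨FreeGroup.of x * u.1, h⟩ := by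
  classical
  exact Equiv.extendSubtype_apply_of_mem (pact L x) u h

theorem act_suffix (L : List (X × Bool)) : ∀ (L' : List (X × Bool)) (_ : L' <:+ L),
    (FreeGroup.lift (act1 L) (FreeGroup.mk L') ⟨1, mem_suf L [] (List.nil_suffix)⟩).1 =
      FreeGroup.mk L' := by
  intro L'
  induction L' with
  | nil =>
    intro h
    rw [← FreeGroup.one_eq_mk, _root_.map_one]
    rfl
  | cons a L' ih =>
    intro h
    have h' : L' <:+ L := (List.suffix_cons a L').trans h
    obtain ⟨x, b⟩ := a
    have hmk : FreeGroup.mk ((x, b) :: L') = FreeGroup.mk [(x, b)] * FreeGroup.mk L' := by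
      rw [FreeGroup.mul_mk]; rfl
    have hmem := mem_suf L _ h
    have ih2 : FreeGroup.lift (act1 L) (FreeGroup.mk L') ⟨1, mem_suf L [] (List.nil_suffix)⟩ =
      ⟨FreeGroup.mk L', mem_suf L L' h'⟩ := Subtype.ext (ih h')
    rw [hmk, _root_.map_mul, Equiv.Perm.mul_apply, ih2]
    rw [hmk] at hmem
    cases b with
    | true =>
      have h1 : FreeGroup.mk [(x, true)] = FreeGroup.of x := rfl
      rw [h1] at hmem
      rw [h1, FreeGroup.lift_apply_of, act1_apply L x _ hmem]
    | false =>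
      have h1 : FreeGroup.mk [(x, false)] = (FreeGroup.of x)⁻¹ := rfl
      rw [h1] at hmem
      rw [h1, _root_.map_inv, FreeGroup.lift_apply_of]
      have h2 : act1 L x ⟨(FreeGroup.of x)⁻¹ * FreeGroup.mk L', hmem⟩ =
          ⟨FreeGroup.mk L', mem_suf L L' h'⟩ := by
        rw [act1_apply L x _ (by simpa using mem_suf L L' h')]
        apply Subtype.ext
        simp
      rw [← h2, ← Equiv.Perm.mul_apply, inv_mul_cancel]
      rfl

theorem free_sep (w : FreeGroup X) (hw : w ≠ 1) :
    ∃ (B : Type) (_ : Finite B) (φ : FreeGroup X →* Equiv.Perm B), φ w ≠ 1 := by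
  classical
  obtain ⟨L, rfl⟩ : ∃ L, FreeGroup.mk L = w := Quot.exists_rep w
  refine ⟨{u // u ∈ suf L}, inferInstance, FreeGroup.lift (act1 L), ?_⟩
  intro h
  have h1 := act_suffix L L List.suffix_rfl
  rw [h] at h1
  exact hw h1.symm

theorem hopf {n : ℕ} (φ : FreeGroup (Fin n) →* FreeGroup (Fin n)) (hφ : Function.Surjective φ) :
    Function.Injective φ := by
  rw [injective_iff_map_eq_one]
  intro w hw
  by_contra hne
  obtain ⟨B, hB, f, hf⟩ := free_sep w hne
  have hfin : Finite (FreeGroup (Fin n) →* Equiv.Perm B) :=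
    Finite.of_equiv _ (FreeGroup.lift (α := Fin n) (β := Equiv.Perm B))
  have hinj : Function.Injective (fun g : FreeGroup (Fin n) →* Equiv.Perm B => g.comp φ) := by
    intro g g' h
    ext1 x
    obtain ⟨y, hy⟩ := hφ (of x)
    rw [← hy]
    exact DFunLike.congr_fun h y
  obtain ⟨g, hg⟩ := Finite.surjective_of_injective hinj f
  apply hf
  rw [← hg]
  simp [hw]

end free

/-! ### Positive elements -/

theorem pos_ne_one {n : ℕ} {g : FreeGroup (Fin n)} (h : g ∈ PosS n) : g ≠ 1 := by
  let f : FreeGroup (Fin n) →* Multiplicative ℤ := FreeGroup.lift (fun _ => Multiplicative.ofAdd 1)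
  have key : 0 < (f g).toAdd := by
    unfold PosS at h
    induction h using Subsemigroup.closure_induction with
    | mem x hx =>
      obtain ⟨b, rfl⟩ := hx
      simp [f]
    | mul x y _ _ hx hy =>
      rw [_root_.map_mul, toAdd_mul]; omega
  rintro rfl
  simp at key

theorem Hs_of_pos {n : ℕ} {g : FreeGroup (Fin n)} (h : g ∈ PosS n) (p : FreeGroup (Fin n)) (t) :
    Hs t p → Hs t (p * g) := by
  unfold PosS at h
  induction h using Subsemigroup.closure_induction generalizing p with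
  | mem x hx =>
    obtain ⟨b, rfl⟩ := hx
    intro h1
    by_cases ht : t = (p, b)
    · subst ht; exact absurd h1 (not_Hs_self _ _)
    · exact (Hs_step ht).1 h1
  | mul x y _ _ hx hy =>
    intro h1
    rw [← mul_assoc]
    exact hy _ (hx p h1)

theorem pos_of_Hs {n : ℕ} (L : List (Fin n × Bool)) (hL : IsReduced L) (p : FreeGroup (Fin n))
    (h : ∀ t, Hs t p → Hs t (p * mk L)) : mk L = 1 ∨ mk L ∈ PosS n := by
  induction L generalizing p with
  | nil => left; rfl
  | cons l L ih =>
    right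
    obtain ⟨h1, h2⟩ := Sep_cons (y := p) hL
    have h3 : cellOf p l ∈ Sep p (p * mk (l :: L)) := by rw [h1]; simp
    have h4 := Hs_cellOf p l
    have hl : l.2 = true := by
      by_contra hl
      have hl' : l.2 = false := by simpa using hl
      have h5 := h4.1.2 hl'
      exact h3 (iff_of_true h5 (h _ h5))
    obtain ⟨b, s⟩ := l
    simp only at hl
    subst hl
    have hL' : IsReduced L := red_tail hL
    have e1 : p * mk ((b, true) :: L) = p * of b * mk L := by rw [mk_cons, mul_assoc]; rfl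
    have h5 : ∀ t, Hs t (p * of b) → Hs t (p * of b * mk L) := by
      intro t ht
      rw [← e1]
      by_cases htt : t = (p, b)
      · subst htt
        rw [cellOf_true] at h3
        by_contra h6
        exact h3 (iff_of_false (not_Hs_self p b) h6)
      · exact h t ((Hs_step htt).2 ht)
    have hb : (of b : FreeGroup (Fin n)) ∈ PosS n := Subsemigroup.subset_closure ⟨b, rfl⟩
    have e2 : (mk ((b, true) :: L) : FreeGroup (Fin n)) = of b * mk L := by rw [mk_cons]; rfl
    rcases ih hL' _ h5 with h6 | h6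
    · rw [e2, h6, mul_one]; exact hb
    · rw [e2]; exact mul_mem hb h6

theorem pos_of_Hs' {n : ℕ} {p q : FreeGroup (Fin n)} (h : ∀ t, Hs t p → Hs t q) :
    p⁻¹ * q = 1 ∨ p⁻¹ * q ∈ PosS n := by
  obtain ⟨L, hL, h1⟩ := exists_reduced (p⁻¹ * q)
  rw [← h1]
  apply pos_of_Hs L hL p
  rw [h1]
  have : p * (p⁻¹ * q) = q := by group
  rw [this]; exact h

/-! ### the names -/

variable {n : ℕ} (L : List (Fin n × Bool)) (θ : FreeGroup (Fin n) →* FreeGroup (Fin n))

theorem take_succ_mk (i : Fin L.length) :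
    (mk (L.take (i + 1)) : FreeGroup (Fin n)) = mk (L.take i) * mk [L.get i] := by
  rw [mul_mk]
  congr 1
  simp

theorem x1_start (i : Fin L.length) : pos (D1 L) (x1 L θ) (Sum.inl i) (L.get i).2 = (θ (mk (L.take i)))⁻¹ := by
  have h := take_succ_mk L i
  rcases hl : L.get i with ⟨j, ε⟩
  rw [hl] at h
  cases ε
  · simp only [pos, x1, D1, Sum.elim_inl, hl]
    simp
  · simp only [pos, x1, D1, Sum.elim_inl, hl]
    simp only [if_true]
    rw [h, _root_.map_mul]
    have : (mk [(j, true)] : FreeGroup (Fin n)) = of j := rfl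
    rw [this]; group

theorem x1_end (i : Fin L.length) : pos (D1 L) (x1 L θ) (Sum.inl i) (!(L.get i).2) = (θ (mk (L.take (i + 1))))⁻¹ := by
  have h := take_succ_mk L i
  rcases hl : L.get i with ⟨j, ε⟩
  rw [hl] at h
  cases ε
  · simp only [pos, x1, D1, Sum.elim_inl, hl]
    simp only [Bool.not_false, if_true, Bool.false_eq_true, if_false]
    rw [h, _root_.map_mul]
    have : (mk [(j, false)] : FreeGroup (Fin n)) = (of j)⁻¹ := rfl
    rw [this, _root_.map_inv]; group
  · simp only [pos, x1, D1, Sum.elim_inl, hl]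
    simp

theorem x1_inr (j : Fin n) : pos (D1 L) (x1 L θ) (Sum.inr j) true = 1 := by
  simp [pos, x1, D1]

/-- the positions in a realisation -/
theorem real_pos {y : Val (Fin n) (Fin n) (Fin L.length ⊕ Fin n)}
    (hp : ∀ v t, pat (D1 L) y v t ∈ ty (D1 L) (x1 L θ) v) (hL : 0 < L.length) (i : ℕ) (hi : i < L.length) :
    pos (D1 L) y (Sum.inl ⟨i, hi⟩) (L.get ⟨i, hi⟩).2 =
      (FreeGroup.lift y.τ (mk (L.take i)))⁻¹ * pos (D1 L) y (Sum.inl ⟨0, hL⟩) (L.get ⟨0, hL⟩).2 ∧
    pos (D1 L) y (Sum.inl ⟨i, hi⟩) (!(L.get ⟨i, hi⟩).2) =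
      (FreeGroup.lift y.τ (mk (L.take (i + 1))))⁻¹ * pos (D1 L) y (Sum.inl ⟨0, hL⟩) (L.get ⟨0, hL⟩).2 := by
  -- second from the first
  have key : ∀ (i : ℕ) (hi : i < L.length), pos (D1 L) y (Sum.inl ⟨i, hi⟩) (L.get ⟨i, hi⟩).2 =
      (FreeGroup.lift y.τ (mk (L.take i)))⁻¹ * pos (D1 L) y (Sum.inl ⟨0, hL⟩) (L.get ⟨0, hL⟩).2 →
      pos (D1 L) y (Sum.inl ⟨i, hi⟩) (!(L.get ⟨i, hi⟩).2) =
      (FreeGroup.lift y.τ (mk (L.take (i + 1))))⁻¹ * pos (D1 L) y (Sum.inl ⟨0, hL⟩) (L.get ⟨0, hL⟩).2 := by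
    intro i hi h
    rw [pos_not, h]
    have h2 := take_succ_mk L ⟨i, hi⟩
    have e1 : (D1 L).et (Sum.inl ⟨i, hi⟩) = (L.get ⟨i, hi⟩).1 := rfl
    rw [e1]
    rcases hl : L.get ⟨i, hi⟩ with ⟨j, ε⟩
    rw [hl] at h2
    simp only at h2 ⊢
    rw [h2, _root_.map_mul]
    cases ε
    · have : (mk [(j, false)] : FreeGroup (Fin n)) = (of j)⁻¹ := rfl
      rw [this, _root_.map_inv, lift_apply_of]
      simp only [tr, Bool.false_eq_true, if_false]
      group
    · have : (mk [(j, true)] : FreeGroup (Fin n)) = of j := rfl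
      rw [this, lift_apply_of]
      simp only [tr, if_true]
      group
  induction i with
  | zero =>
    have h1 : pos (D1 L) y (Sum.inl ⟨0, hi⟩) (L.get ⟨0, hi⟩).2 =
      (FreeGroup.lift y.τ (mk (L.take 0)))⁻¹ * pos (D1 L) y (Sum.inl ⟨0, hL⟩) (L.get ⟨0, hL⟩).2 := by
      simp [← one_eq_mk]
    exact ⟨h1, key 0 hi h1⟩
  | succ i ih =>
    obtain ⟨_, h2⟩ := ih (by omega)
    have h3 : pos (D1 L) y (Sum.inl ⟨i + 1, hi⟩) (L.get ⟨i + 1, hi⟩).2 =
        pos (D1 L) y (Sum.inl ⟨i, by omega⟩) (!(L.get ⟨i, by omega⟩).2) := by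
      refine pos_eq_of_pat hp rfl ?_
      rw [x1_start, x1_end]
    rw [h2] at h3
    exact ⟨h3, key (i + 1) hi h3⟩

end Extract

open Extract in
/-- EXTRACT. -/
theorem extract : StmExtract := by
  intro n L θ z hred hpos ⟨y, hT, hp, hz⟩
  have hL : 0 < L.length := by
    rw [List.length_pos_iff]
    rintro rfl
    rw [← one_eq_mk, _root_.map_one] at hpos
    exact pos_ne_one hpos rfl
  set c := pos (D1 L) y (Sum.inl ⟨0, hL⟩) (L.get ⟨0, hL⟩).2 with hc
  set T : FreeGroup (Fin n) →* FreeGroup (Fin n) := FreeGroup.lift y.τ with hTd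
  have hR := real_pos L θ.toMonoidHom hp hL
  -- the last name
  obtain ⟨m, hm⟩ : ∃ m, L.length = m + 1 := ⟨L.length - 1, by omega⟩
  have hlast := (hR m (by omega)).2
  have htake : L.take (m + 1) = L := by rw [← hm]; exact List.take_length
  rw [htake] at hlast
  -- surjectivity
  have hinv : ∀ p q : Unit × FreeGroup (Fin n), Relation.EqvGen (adj (D1 L) y) p q → q.2 * p.2⁻¹ ∈ T.range := by
    intro p q hpq
    induction hpq with
    | rel p q h =>
      obtain ⟨e, s, -, -, -, h5⟩ := h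
      rw [h5]
      have : tr y e s * p.2 * p.2⁻¹ = tr y e s := by group
      rw [this]
      cases s
      · exact ⟨of e, by simp [tr, T]⟩
      · exact ⟨(of e)⁻¹, by simp [tr, T]⟩
    | refl p => rw [mul_inv_cancel]; exact one_mem _
    | symm p q _ ih =>
      have := inv_mem ih
      have e : (q.2 * p.2⁻¹)⁻¹ = p.2 * q.2⁻¹ := by group
      rwa [e] at this
    | trans p q r _ _ i1 i2 =>
      have := mul_mem i2 i1
      have e : r.2 * q.2⁻¹ * (q.2 * p.2⁻¹) = r.2 * p.2⁻¹ := by group
      rwa [e] at this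
  have hcK : c ∈ KV (D1 L) y () := nV_subset_KV _ _ _ ⟨_, _, rfl, rfl⟩
  have hgen : ∀ b, c * of b * c⁻¹ ∈ T.range := by
    intro b
    obtain ⟨⟨⟩, y0, h1, h2⟩ := hT.neb b
    have a1 := hinv _ _ (hT.conn () y0 () (y0 * of b) h1 h2)
    have a2 := hinv _ _ (hT.conn () c () y0 hcK h1)
    have a3 := mul_mem (mul_mem (inv_mem a2) a1) a2
    simp only at a3
    have e : (y0 * c⁻¹)⁻¹ * (y0 * of b * y0⁻¹) * (y0 * c⁻¹) = c * of b * c⁻¹ := by group
    rwa [e] at a3
  have hall : ∀ g, c * g * c⁻¹ ∈ T.range := by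
    intro g
    induction g using FreeGroup.induction_on with
    | C1 => simp
    | of b => exact hgen b
    | inv_of b _ =>
      have := inv_mem (hgen b)
      have e : (c * of b * c⁻¹)⁻¹ = c * (of b)⁻¹ * c⁻¹ := by group
      rwa [e] at this
    | mul g h i1 i2 =>
      have := mul_mem i1 i2
      have e : c * g * c⁻¹ * (c * h * c⁻¹) = c * (g * h) * c⁻¹ := by group
      rwa [e] at this
  have hsurj : Function.Surjective T := by
    intro g
    have := hall (c⁻¹ * g * c)
    have e : c * (c⁻¹ * g * c) * c⁻¹ = g := by group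
    rw [e] at this
    exact this
  have hbij : Function.Bijective T := ⟨hopf T hsurj, hsurj⟩
  let Te : FreeGroup (Fin n) ≃* FreeGroup (Fin n) := MulEquiv.ofBijective T hbij
  let θ' : FreeGroup (Fin n) ≃* FreeGroup (Fin n) := Te.trans (MulAut.conj c⁻¹)
  have hθ' : ∀ g, θ' g = c⁻¹ * T g * c := by
    intro g
    simp [θ', Te]
  refine ⟨θ', ?_, ?_⟩
  · -- positivity
    have h1 : ∀ t, Hs t ((T (mk L))⁻¹ * c) → Hs t c := by
      intro t ht
      obtain ⟨t', ht'⟩ := hp () t
      have a1 : ((Sum.inl ⟨0, hL⟩ : Fin L.length ⊕ Fin n), (L.get ⟨0, hL⟩).2) ∈ pat (D1 L) (x1 L θ.toMonoidHom) () t' ↔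
        ((Sum.inl ⟨0, hL⟩ : Fin L.length ⊕ Fin n), (L.get ⟨0, hL⟩).2) ∈ pat (D1 L) y () t := by rw [ht']
      have a2 : ((Sum.inl ⟨m, by omega⟩ : Fin L.length ⊕ Fin n), (!(L.get ⟨m, by omega⟩).2)) ∈
          pat (D1 L) (x1 L θ.toMonoidHom) () t' ↔
        ((Sum.inl ⟨m, by omega⟩ : Fin L.length ⊕ Fin n), (!(L.get ⟨m, by omega⟩).2)) ∈ pat (D1 L) y () t := by rw [ht']
      simp only [pat, Set.mem_ofPred_eq, true_and, x1_start, x1_end, hlast] at a1 a2
      rw [htake] at a2
      rw [← a2] at ht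
      rw [← a1]
      have h3 : (θ.toMonoidHom (mk (L.take 0)) : FreeGroup (Fin n))⁻¹ = (θ (mk L))⁻¹ * θ (mk L) := by
        simp [← one_eq_mk]
      rw [h3]
      exact Hs_of_pos hpos _ _ ht
    rcases pos_of_Hs' h1 with h2 | h2
    · exfalso
      have e : ((T (mk L))⁻¹ * c)⁻¹ * c = θ' (mk L) := by rw [hθ']; group
      rw [e] at h2
      have h3 : (mk L : FreeGroup (Fin n)) = 1 := by
        apply θ'.injective
        rw [h2, _root_.map_one]
      rw [h3, _root_.map_one] at hpos
      exact pos_ne_one hpos rfl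
    · have e : ((T (mk L))⁻¹ * c)⁻¹ * c = θ' (mk L) := by rw [hθ']; group
      rw [e] at h2
      exact h2
  · intro j
    have h1 : pos (D1 L) y (Sum.inr j) true = c := by
      refine pos_eq_of_pat hp rfl ?_
      rw [x1_inr, x1_start]
      simp [← one_eq_mk]
    have h2 : pos (D1 L) y (Sum.inr j) true = y.τ j * pos (D1 L) y (Sum.inr j) false := by
      simp [pos, D1]
    have h3 := hz (Sum.inr j) false (Sum.inl ⟨0, hL⟩) (L.get ⟨0, hL⟩).2 rfl
    rw [← hc] at h3
    have h4 : θ' (of j) = (pos (D1 L) y (Sum.inr j) false)⁻¹ * c := by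
      rw [hθ']
      have h5 : T (of j) = y.τ j := by simp [T]
      rw [h5]
      have h6 : y.τ j = c * (pos (D1 L) y (Sum.inr j) false)⁻¹ := by
        rw [← h1, h2]; group
      rw [h6]; group
    rw [h4]
    omega

end Pool.Agent.W2helper26.PP
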