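import Pool.Agent.W2helper26.PP.Defs

/-!
# Geometry of the Cayley tree of a free group
-/

set_option autoImplicit false
set_option linter.unusedSectionVars false

namespace Pool.Agent.W2helper26.PP

open FreeGroup

section
variable {β : Type} [DecidableEq β]

/-! ### words -/

theorem toWord_mk_of_reduced {L : List (β × Bool)} (h : IsReduced L) : (mk L).toWord = L := by
  rw [toWord_mk]; exact isReduced_iff_reduce_eq.1 h

theorem exists_reduced (y : FreeGroup β) : ∃ L, IsReduced L ∧ mk L = y :=
  ⟨y.toWord, isReduced_toWord, mk_toWord⟩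

theorem norm_mk_of_reduced {L : List (β × Bool)} (h : IsReduced L) : (mk L).norm = L.length := by
  unfold FreeGroup.norm; rw [toWord_mk_of_reduced h]

theorem red_left {L M : List (β × Bool)} (h : FreeGroup.IsReduced (L ++ M)) : FreeGroup.IsReduced L :=
  List.IsChain.left_of_append h

theorem red_right {L M : List (β × Bool)} (h : FreeGroup.IsReduced (L ++ M)) : FreeGroup.IsReduced M :=
  List.IsChain.right_of_append h

theorem red_tail {l : β × Bool} {M : List (β × Bool)} (h : FreeGroup.IsReduced (l :: M)) :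
    FreeGroup.IsReduced M := red_right (L := [l]) h

theorem mk_cons (l : β × Bool) (L : List (β × Bool)) : (mk (l :: L) : FreeGroup β) = mk [l] * mk L := by
  rw [mul_mk]; rfl

theorem mk_single_inv (l : β × Bool) : (mk [l] : FreeGroup β)⁻¹ = mk [(l.1, !l.2)] := by
  rw [inv_mk]; rfl

theorem Hs_iff {x : FreeGroup β} {b : β} {y : FreeGroup β} :
    Hs (x, b) y ↔ (x⁻¹ * y).toWord.head? = some (b, true) := Iff.rfl

theorem Hs_mul (g x : FreeGroup β) (b : β) (y : FreeGroup β) : Hs (g * x, b) (g * y) ↔ Hs (x, b) y := by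
  unfold Hs
  have : (g * x)⁻¹ * (g * y) = x⁻¹ * y := by group
  simp only [this]

theorem Hs_mul' (g x : FreeGroup β) (b : β) (y : FreeGroup β) : Hs (x, b) (g * y) ↔ Hs (g⁻¹ * x, b) y := by
  rw [← Hs_mul g (g⁻¹ * x)]; simp

theorem not_Hs_self (x : FreeGroup β) (b : β) : ¬ Hs (x, b) x := by
  unfold Hs; simp

theorem Hs_of (x : FreeGroup β) (b : β) : Hs (x, b) (x * of b) := by
  unfold Hs
  have : x⁻¹ * (x * of b) = of b := by group
  simp only [this, toWord_of]; rfl

/-- `Hs` in terms of a reduced representative. -/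
theorem Hs_reduced {x : FreeGroup β} {b : β} {L : List (β × Bool)} (h : IsReduced L) :
    Hs (x, b) (x * mk L) ↔ L.head? = some (b, true) := by
  unfold Hs
  have : x⁻¹ * (x * mk L) = mk L := by group
  simp only [this]
  rw [toWord_mk_of_reduced h]

/-- The cell crossed by the step from `y` to `y * mk [l]`. -/
def cellOf (y : FreeGroup β) (l : β × Bool) : FreeGroup β × β := if l.2 then (y, l.1) else (y * mk [l], l.1)

theorem cellOf_true (y : FreeGroup β) (b : β) : cellOf y (b, true) = (y, b) := by simp [cellOf]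
theorem cellOf_false (y : FreeGroup β) (b : β) : cellOf y (b, false) = (y * mk [(b, false)], b) := by
  simp [cellOf]

theorem mul_mk_single_mul (y : FreeGroup β) (l : β × Bool) : y * mk [l] * mk [(l.1, !l.2)] = y := by
  rw [← mk_single_inv]; group

theorem cellOf_rev (y : FreeGroup β) (l : β × Bool) : cellOf (y * mk [l]) (l.1, !l.2) = cellOf y l := by
  obtain ⟨b, s⟩ := l
  cases s
  · simp [cellOf]
  · have := mul_mk_single_mul y (b, true)
    simp only [Bool.not_true] at this
    simp [cellOf, this]

theorem mul_of_eq (y : FreeGroup β) (b : β) : y * of b = y * mk [(b, true)] := rfl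

/-- Crossing its own cell flips the side. -/
theorem Hs_cellOf (y : FreeGroup β) (l : β × Bool) :
    (Hs (cellOf y l) y ↔ l.2 = false) ∧ (Hs (cellOf y l) (y * mk [l]) ↔ l.2 = true) := by
  obtain ⟨b, s⟩ := l
  cases s
  · rw [cellOf_false]
    refine ⟨?_, ?_⟩
    · simp only [iff_true]
      have h := Hs_of (y * mk [(b, false)]) b
      have h2 : y * mk [(b, false)] * of b = y := by
        have := mul_mk_single_mul y (b, false)
        simpa [FreeGroup.of] using this
      rwa [h2] at h
    · simp [not_Hs_self]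
  · rw [cellOf_true]
    refine ⟨?_, ?_⟩
    · simp [not_Hs_self]
    · simp only [iff_true]; exact Hs_of y b

/-- A step changes only the side of the crossed cell. -/
theorem Hs_step {t : FreeGroup β × β} {x : FreeGroup β} {b : β} (h : t ≠ (x, b)) :
    Hs t x ↔ Hs t (x * of b) := by
  obtain ⟨x', b'⟩ := t
  -- write x = x' * u
  obtain ⟨L, hL, hu⟩ := exists_reduced (x'⁻¹ * x)
  have hx : x = x' * mk L := by rw [hu]; group
  subst hx
  rw [Hs_reduced hL]
  rcases List.eq_nil_or_concat L with rfl | ⟨M, l, rfl⟩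
  · -- L = []
    have : x' * mk ([] : List (β × Bool)) * of b = x' * mk [(b, true)] := by
      rw [mul_assoc]; congr 1
    rw [this, Hs_reduced (by simp)]
    simp only [List.head?_nil, List.head?_cons]
    constructor
    · intro h; exact absurd h (by simp)
    · intro h'
      exfalso; apply h
      simp only [Option.some.injEq, Prod.mk.injEq, and_true] at h'
      subst h'
      simp [← one_eq_mk]
  · rw [List.concat_eq_append] at hL ⊢
    obtain ⟨c, s⟩ := l
    by_cases hc : (c, s) = (b, false)
    · obtain ⟨rfl, rfl⟩ := Prod.mk.inj hc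
      have : x' * mk (M ++ [(c, false)]) * of c = x' * mk M := by
        rw [← mul_mk, mul_assoc, mul_assoc]
        have : (mk [(c, false)] : FreeGroup β) * of c = 1 := by
          have : (mk [(c, false)] : FreeGroup β) = (of c)⁻¹ := by
            rw [FreeGroup.of, inv_mk]; rfl
          rw [this]; group
        rw [this, mul_one]
      rw [this, Hs_reduced (red_left hL)]
      cases M with
      | nil => simp
      | cons m M => simp
    · have hred : IsReduced ((M ++ [(c, s)]) ++ [(b, true)]) := by
        rw [List.append_assoc, FreeGroup.IsReduced, List.isChain_append]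
        rw [FreeGroup.IsReduced, List.isChain_append] at hL
        refine ⟨hL.1, by
          simp only [List.cons_append, List.nil_append, List.isChain_cons_cons, List.isChain_singleton, and_true]
          intro h1
          subst h1
          cases s
          · exact absurd rfl hc
          · rfl, by
          intro a ha d hd
          simp at hd
          exact hL.2.2 a ha d (by simp [hd])⟩
      have : x' * mk (M ++ [(c, s)]) * of b = x' * mk ((M ++ [(c, s)]) ++ [(b, true)]) := by
        rw [← mul_mk (L₁ := M ++ [(c, s)]), mul_assoc]; rfl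
      rw [this, Hs_reduced hred]
      cases M with
      | nil => simp
      | cons m M => simp

theorem Hs_step' {t : FreeGroup β × β} {y : FreeGroup β} {l : β × Bool} (h : t ≠ cellOf y l) :
    Hs t y ↔ Hs t (y * mk [l]) := by
  obtain ⟨b, s⟩ := l
  cases s
  · rw [cellOf_false] at h
    have := Hs_step h
    have h2 : y * mk [(b, false)] * of b = y := by
      have := mul_mk_single_mul y (b, false)
      simpa [FreeGroup.of] using this
    rw [h2] at this
    exact this.symm
  · rw [cellOf_true] at h
    exact Hs_step h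

/-! ### separation -/

/-- The cells separating `y` and `z`. -/
def Sep (y z : FreeGroup β) : Set (FreeGroup β × β) := {t | ¬ (Hs t y ↔ Hs t z)}

theorem Sep_comm (y z : FreeGroup β) : Sep y z = Sep z y := by
  ext t; simp only [Sep, Set.mem_ofPred_eq]; tauto

theorem Sep_self (y : FreeGroup β) : Sep y y = ∅ := by
  ext t; simp [Sep]

theorem Sep_cons {y : FreeGroup β} {l : β × Bool} {L : List (β × Bool)} (h : IsReduced (l :: L)) :
    Sep y (y * mk (l :: L)) = insert (cellOf y l) (Sep (y * mk [l]) (y * mk (l :: L))) ∧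
      cellOf y l ∉ Sep (y * mk [l]) (y * mk (l :: L)) := by
  have hz : y * mk (l :: L) = y * mk [l] * mk L := by rw [mk_cons]; group
  have h1 := Hs_cellOf y l
  have hL : IsReduced L := red_tail h
  have key : Hs (cellOf y l) (y * mk (l :: L)) ↔ l.2 = true := by
    obtain ⟨b, s⟩ := l
    cases s
    · rw [cellOf_false, hz, Hs_reduced hL]
      simp only [Bool.false_eq_true, iff_false]
      intro h2
      cases L with
      | nil => simp at h2
      | cons m M =>
        simp at h2
        subst h2
        rw [FreeGroup.IsReduced, List.isChain_cons_cons] at h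
        exact absurd (h.1 rfl) (by simp)
    · rw [cellOf_true, Hs_reduced h]; simp
  have key2 : cellOf y l ∉ Sep (y * mk [l]) (y * mk (l :: L)) := by
    simp only [Sep, Set.mem_ofPred_eq, not_not]
    rw [h1.2, key]
  refine ⟨?_, key2⟩
  ext t
  simp only [Set.mem_insert_iff]
  by_cases ht : t = cellOf y l
  · subst ht
    simp only [true_or, iff_true]
    simp only [Sep, Set.mem_ofPred_eq]
    rw [h1.1, key]
    cases l.2 <;> simp
  · simp only [ht, false_or]
    simp only [Sep, Set.mem_ofPred_eq]
    rw [Hs_step' ht]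

theorem Sep_finite_ncard (y : FreeGroup β) {L : List (β × Bool)} (h : IsReduced L) :
    (Sep y (y * mk L)).Finite ∧ (Sep y (y * mk L)).ncard = L.length := by
  induction L generalizing y with
  | nil =>
    have : y * mk ([] : List (β × Bool)) = y := by rw [← one_eq_mk, mul_one]
    rw [this, Sep_self]; simp
  | cons l L ih =>
    have hL : IsReduced L := red_tail h
    obtain ⟨h1, h2⟩ := Sep_cons (y := y) h
    have hz : y * mk (l :: L) = y * mk [l] * mk L := by rw [mk_cons]; group
    obtain ⟨i1, i2⟩ := ih (y * mk [l]) hL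
    rw [h1]
    rw [hz] at h2 ⊢
    refine ⟨i1.insert _, ?_⟩
    rw [Set.ncard_insert_of_notMem h2 i1, i2]; simp

theorem Sep_finite (y z : FreeGroup β) : (Sep y z).Finite := by
  obtain ⟨L, hL, h⟩ := exists_reduced (y⁻¹ * z)
  have : z = y * mk L := by rw [h]; group
  rw [this]; exact (Sep_finite_ncard y hL).1

theorem Sep_ncard (y z : FreeGroup β) : (Sep y z).ncard = (y⁻¹ * z).norm := by
  obtain ⟨L, hL, h⟩ := exists_reduced (y⁻¹ * z)
  have : z = y * mk L := by rw [h]; group
  rw [← h, norm_mk_of_reduced hL, this]; exact (Sep_finite_ncard y hL).2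

/-- Separation: equal sides everywhere implies equal. -/
theorem eq_of_Hs {y z : FreeGroup β} (h : ∀ t, Hs t y ↔ Hs t z) : y = z := by
  have h1 : Sep y z = ∅ := by
    ext t; simp [Sep, h t]
  have h2 := Sep_ncard y z
  rw [h1, Set.ncard_empty] at h2
  have h3 := FreeGroup.norm_eq_zero.1 h2.symm
  exact (inv_mul_eq_one.1 h3)

theorem exists_sep {y z : FreeGroup β} (h : y ≠ z) : ∃ t, ¬ (Hs t y ↔ Hs t z) := by
  by_contra h'
  push Not at h'
  exact h (eq_of_Hs h')

/-- First step. -/
theorem exists_step {y z : FreeGroup β} (h : y ≠ z) : ∃ l, cellOf y l ∈ Sep y z ∧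
    ∀ t, t ∈ Sep (y * mk [l]) z → t ∈ Sep y z := by
  obtain ⟨L, hL, h'⟩ := exists_reduced (y⁻¹ * z)
  have hz : z = y * mk L := by rw [h']; group
  cases L with
  | nil =>
    exfalso; apply h
    rw [hz, ← one_eq_mk, mul_one]
  | cons l L =>
    obtain ⟨h1, h2⟩ := Sep_cons (y := y) hL
    refine ⟨l, ?_, ?_⟩
    · rw [hz, h1]; simp
    · intro t ht
      rw [hz] at ht ⊢
      rw [h1]; right; exact ht

/-- Betweenness. -/
def Btw (y w z : FreeGroup β) : Prop :=
  ∀ t, (Hs t y → Hs t z → Hs t w) ∧ (¬ Hs t y → ¬ Hs t z → ¬ Hs t w)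

theorem Btw_iff_norm {y w z : FreeGroup β} : Btw y w z ↔ (y⁻¹ * w).norm + (w⁻¹ * z).norm = (y⁻¹ * z).norm := by
  rw [← Sep_ncard, ← Sep_ncard, ← Sep_ncard]
  constructor
  · intro h
    have hd : Disjoint (Sep y w) (Sep w z) := by
      rw [Set.disjoint_left]
      intro t h1 h2
      have := h t
      simp only [Sep, Set.mem_ofPred_eq] at h1 h2
      tauto
    have hu : Sep y z = Sep y w ∪ Sep w z := by
      ext t
      have := h t
      simp only [Sep, Set.mem_ofPred_eq, Set.mem_union]
      tauto
    rw [hu, Set.ncard_union_eq hd (Sep_finite _ _) (Sep_finite _ _)]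
  · intro h t
    -- Sep y z ⊆ Sep y w ∪ Sep w z
    have hsub : Sep y z ⊆ Sep y w ∪ Sep w z := by
      intro t ht
      simp only [Sep, Set.mem_ofPred_eq, Set.mem_union] at ht ⊢
      tauto
    have hfin := (Sep_finite y w).union (Sep_finite w z)
    have h1 : (Sep y w ∪ Sep w z).ncard ≤ (Sep y z).ncard := by
      rw [← h]; exact Set.ncard_union_le _ _
    have heq : Sep y z = Sep y w ∪ Sep w z := Set.eq_of_subset_of_ncard_le hsub h1 hfin
    have := Set.ext_iff.1 heq t
    simp only [Sep, Set.mem_ofPred_eq, Set.mem_union] at this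
    tauto

theorem Btw.symm {y w z : FreeGroup β} (h : Btw y w z) : Btw z w y := fun t =>
  ⟨fun a b => (h t).1 b a, fun a b => (h t).2 b a⟩

theorem Btw_left (y z : FreeGroup β) : Btw y y z := fun _ => ⟨fun a _ => a, fun a _ => a⟩
theorem Btw_right (y z : FreeGroup β) : Btw y z z := fun _ => ⟨fun _ a => a, fun _ a => a⟩

theorem Btw_mul (g : FreeGroup β) {y w z : FreeGroup β} (h : Btw y w z) : Btw (g * y) (g * w) (g * z) := by
  intro t
  obtain ⟨x, b⟩ := t
  rw [Hs_mul', Hs_mul', Hs_mul']
  exact h _

/-- The common prefix of two reduced words. -/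
theorem exists_common_prefix (L M : List (β × Bool)) : ∃ P L' M', L = P ++ L' ∧ M = P ++ M' ∧
    (L' ≠ [] → M' ≠ [] → L'.head? ≠ M'.head?) := by
  induction L generalizing M with
  | nil => exact ⟨[], [], M, by simp, by simp, by simp⟩
  | cons l L ih =>
    cases M with
    | nil => exact ⟨[], l :: L, [], by simp, by simp, by simp⟩
    | cons m M =>
      by_cases h : l = m
      · subst h
        obtain ⟨P, L', M', h1, h2, h3⟩ := ih M
        exact ⟨l :: P, L', M', by simp [h1], by simp [h2], h3⟩
      · exact ⟨[], l :: L, m :: M, by simp, by simp, by simp [h]⟩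

theorem invRev_head {L : List (β × Bool)} : (invRev L).getLast? = L.head?.map (fun l => (l.1, !l.2)) := by
  cases L with
  | nil => simp [invRev]
  | cons l L => simp [invRev, List.getLast?_append]

theorem isReduced_invRev {L : List (β × Bool)} (h : IsReduced L) : IsReduced (invRev L) := by
  have h1 : (mk L : FreeGroup β).toWord = L := toWord_mk_of_reduced h
  have h2 := FreeGroup.toWord_inv (mk L)
  rw [h1] at h2
  rw [← h2]; exact isReduced_toWord

theorem Btw_of_heads {m : FreeGroup β} {L M : List (β × Bool)} (hL : IsReduced L) (hM : IsReduced M)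
    (h : L ≠ [] → M ≠ [] → L.head? ≠ M.head?) : Btw (m * mk L) m (m * mk M) := by
  rw [Btw_iff_norm]
  have e1 : (m * mk L)⁻¹ * m = mk (invRev L) := by rw [← inv_mk]; group
  have e2 : m⁻¹ * (m * mk M) = mk M := by group
  have e3 : (m * mk L)⁻¹ * (m * mk M) = mk (invRev L ++ M) := by
    rw [← mul_mk, ← inv_mk]; group
  have hr : IsReduced (invRev L ++ M) := by
    rw [FreeGroup.IsReduced, List.isChain_append]
    refine ⟨isReduced_invRev hL, hM, ?_⟩
    intro a ha d hd
    rw [invRev_head] at ha
    intro hb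
    cases L with
    | nil => simp at ha
    | cons l L =>
      cases M with
      | nil => simp at hd
      | cons m' M =>
        have := h (by simp) (by simp)
        simp at ha hd this
        subst ha hd
        simp at hb ⊢
        have h3 : l.2 ≠ m'.2 := by
          intro h4
          exact this (Prod.ext hb h4)
        revert h3
        cases l.2 <;> cases m'.2 <;> simp
  rw [e1, e2, e3, norm_mk_of_reduced (isReduced_invRev hL), norm_mk_of_reduced hM, norm_mk_of_reduced hr]
  simp

theorem maj_aux (A B C M : Prop) (h1 : (B → C → M) ∧ (¬ B → ¬ C → ¬ M))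
    (h2 : (A → B → M) ∧ (¬ A → ¬ B → ¬ M)) (h3 : (A → C → M) ∧ (¬ A → ¬ C → ¬ M)) :
    M ↔ ((A ∧ B) ∨ (A ∧ C) ∨ (B ∧ C)) := by
  by_cases a : A <;> by_cases b : B <;> by_cases c : C <;> by_cases d : M <;>
    simp only [a, b, c, d] at h1 h2 h3 ⊢ <;> simp at h1 h2 h3 ⊢

/-- Medians. -/
theorem exists_median (p q r : FreeGroup β) : ∃ m, ∀ t, (Hs t m ↔
    ((Hs t p ∧ Hs t q) ∨ (Hs t p ∧ Hs t r) ∨ (Hs t q ∧ Hs t r))) := by
  obtain ⟨L, hL, hq⟩ := exists_reduced (p⁻¹ * q)
  obtain ⟨M, hM, hr⟩ := exists_reduced (p⁻¹ * r)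
  obtain ⟨P, L', M', rfl, rfl, h⟩ := exists_common_prefix L M
  have hq' : q = p * mk P * mk L' := by rw [mul_assoc, mul_mk, hq]; group
  have hr' : r = p * mk P * mk M' := by rw [mul_assoc, mul_mk, hr]; group
  have hP : IsReduced P := red_left hL
  have hL' : IsReduced L' := red_right hL
  have hM' : IsReduced M' := red_right hM
  have b1 : Btw q (p * mk P) r := by
    rw [hq', hr']; exact Btw_of_heads hL' hM' h
  have b2 : Btw p (p * mk P) q := by
    rw [Btw_iff_norm]
    have e1 : p⁻¹ * (p * mk P) = mk P := by group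
    have e2 : (p * mk P)⁻¹ * q = mk L' := by rw [hq']; group
    rw [e1, e2, ← hq, norm_mk_of_reduced hP, norm_mk_of_reduced hL', norm_mk_of_reduced hL]; simp
  have b3 : Btw p (p * mk P) r := by
    rw [Btw_iff_norm]
    have e1 : p⁻¹ * (p * mk P) = mk P := by group
    have e2 : (p * mk P)⁻¹ * r = mk M' := by rw [hr']; group
    rw [e1, e2, ← hr, norm_mk_of_reduced hP, norm_mk_of_reduced hM', norm_mk_of_reduced hM]; simp
  exact ⟨p * mk P, fun t => maj_aux _ _ _ _ (b1 t) (b2 t) (b3 t)⟩

/-- If `t` separates `y` and `z` then its two end points are between `y` and `z`. -/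
theorem Btw_of_sep {x : FreeGroup β} {b : β} {y z : FreeGroup β} (hy : ¬ Hs (x, b) y) (hz : Hs (x, b) z) :
    Btw y x z ∧ Btw y (x * of b) z := by
  obtain ⟨L, hL, h1⟩ := exists_reduced (x⁻¹ * y)
  obtain ⟨M, hM, h2⟩ := exists_reduced (x⁻¹ * z)
  have hy' : y = x * mk L := by rw [h1]; group
  have hz' : z = x * mk M := by rw [h2]; group
  have a1 : L.head? ≠ some (b, true) := by
    rw [hy', Hs_reduced hL] at hy; exact hy
  have a2 : M.head? = some (b, true) := by
    rw [hz', Hs_reduced hM] at hz; exact hz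
  have b1 : Btw y x z := by
    rw [hy', hz']
    exact Btw_of_heads hL hM (fun _ _ => by rw [a2]; exact a1)
  refine ⟨b1, ?_⟩
  intro t
  by_cases ht : t = (x, b)
  · subst ht
    refine ⟨fun h => absurd h hy, fun _ h => absurd hz h⟩
  · rw [← Hs_step ht]; exact b1 t

/-- Nestedness. -/
theorem nested {t t' : FreeGroup β × β} (h : t ≠ t') {p₁ p₂ p₃ p₄ : FreeGroup β}
    (h₁ : Hs t p₁ ∧ Hs t' p₁) (h₂ : Hs t p₂ ∧ ¬ Hs t' p₂) (h₃ : ¬ Hs t p₃ ∧ Hs t' p₃)
    (h₄ : ¬ Hs t p₄ ∧ ¬ Hs t' p₄) : False := by
  obtain ⟨x, b⟩ := t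
  obtain ⟨x', b'⟩ := t'
  -- there is a point on the other side of `t'` than `x` and of `t` than `x'`
  obtain ⟨p, hp1, hp2⟩ : ∃ p, ¬ (Hs (x, b) p ↔ Hs (x, b) x') ∧ ¬ (Hs (x', b') p ↔ Hs (x', b') x) := by
    by_cases c1 : Hs (x, b) x' <;> by_cases c2 : Hs (x', b') x
    · exact ⟨p₄, by simp only [c1, h₄.1]; simp, by simp only [c2, h₄.2]; simp⟩
    · exact ⟨p₃, by simp only [c1, h₃.1]; simp, by simp only [c2, h₃.2]; simp⟩
    · exact ⟨p₂, by simp only [c1, h₂.1]; simp, by simp only [c2, h₂.2]; simp⟩
    · exact ⟨p₁, by simp only [c1, h₁.1]; simp, by simp only [c2, h₁.2]; simp⟩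
  have hA : Btw p x x' := by
    by_cases c : Hs (x, b) p
    · have c' : ¬ Hs (x, b) x' := fun c' => hp1 (iff_of_true c c')
      exact (Btw_of_sep c' c).1.symm
    · have c' : Hs (x, b) x' := by_contra fun c' => hp1 (iff_of_false c c')
      exact (Btw_of_sep c c').1
  have hB : Btw p x' x := by
    by_cases c : Hs (x', b') p
    · have c' : ¬ Hs (x', b') x := fun c' => hp2 (iff_of_true c c')
      exact (Btw_of_sep c' c).1.symm
    · have c' : Hs (x', b') x := by_contra fun c' => hp2 (iff_of_false c c')
      exact (Btw_of_sep c c').1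
  have hxx : x = x' := by
    apply eq_of_Hs
    intro t
    have i1 := hA t
    have i2 := hB t
    by_cases a : Hs t p <;> by_cases b : Hs t x <;> by_cases c : Hs t x' <;>
      simp only [a, b, c] at i1 i2 ⊢ <;> tauto
  subst hxx
  have c1 : Hs (x, b) p := by_contra fun c => hp1 (iff_of_false c (not_Hs_self x b))
  have c2 : Hs (x, b') p := by_contra fun c => hp2 (iff_of_false c (not_Hs_self x b'))
  unfold Hs at c1 c2
  rw [c1] at c2
  simp at c2
  exact h (by rw [c2])

/-! ### hulls -/

theorem subset_Hull (N : Set (FreeGroup β)) : N ⊆ Hull N := fun _ hy _ =>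
  ⟨fun h => h _ hy, fun h => h _ hy⟩

theorem Hull_mono {N M : Set (FreeGroup β)} (h : N ⊆ M) : Hull N ⊆ Hull M := fun _ hy t =>
  ⟨fun h' => (hy t).1 fun p hp => h' p (h hp), fun h' => (hy t).2 fun p hp => h' p (h hp)⟩

theorem Hull_subset {N M : Set (FreeGroup β)} (h : N ⊆ Hull M) : Hull N ⊆ Hull M := fun _ hy t =>
  ⟨fun h' => (hy t).1 fun p hp => (h hp t).1 h', fun h' => (hy t).2 fun p hp => (h hp t).2 h'⟩

theorem Hull_Hull (N : Set (FreeGroup β)) : Hull (Hull N) = Hull N :=
  Set.Subset.antisymm (Hull_subset (Set.Subset.refl _)) (subset_Hull _)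

theorem Hull_btw {N : Set (FreeGroup β)} {y w z : FreeGroup β} (hy : y ∈ Hull N) (hz : z ∈ Hull N)
    (h : Btw y w z) : w ∈ Hull N := fun t =>
  ⟨fun h' => (h t).1 ((hy t).1 h') ((hz t).1 h'), fun h' => (h t).2 ((hy t).2 h') ((hz t).2 h')⟩

theorem Hull_smul (g : FreeGroup β) (N : Set (FreeGroup β)) (y : FreeGroup β) :
    g * y ∈ Hull ((g * ·) '' N) ↔ y ∈ Hull N := by
  constructor
  · intro h t
    obtain ⟨x, b⟩ := t
    have := h (g * x, b)
    simp only [Set.forall_mem_image, Hs_mul] at this
    exact this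
  · intro h t
    obtain ⟨x, b⟩ := t
    have := h (g⁻¹ * x, b)
    simp only [Set.forall_mem_image, Hs_mul']
    exact this

theorem Hull_image (g : FreeGroup β) (N : Set (FreeGroup β)) : Hull ((g * ·) '' N) = (g * ·) '' Hull N := by
  ext y
  constructor
  · intro h
    refine ⟨g⁻¹ * y, ?_, by simp⟩
    rw [← Hull_smul g]; simpa using h
  · rintro ⟨y', h, rfl⟩
    exact (Hull_smul g N y').2 h

/-- If `t` separates a point of the hull from another point of the hull then it separates two points
of the set. -/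
theorem exists_of_sep_Hull {N : Set (FreeGroup β)} {t : FreeGroup β × β} {y z : FreeGroup β}
    (hy : y ∈ Hull N) (hz : z ∈ Hull N) (h1 : Hs t y) (h2 : ¬ Hs t z) :
    (∃ p ∈ N, Hs t p) ∧ (∃ p ∈ N, ¬ Hs t p) := by
  constructor
  · by_contra h
    push Not at h
    exact (hy t).2 h h1
  · by_contra h
    push Not at h
    exact h2 ((hz t).1 h)

theorem cell_mem_Hull_iff {N : Set (FreeGroup β)} {x : FreeGroup β} {b : β} :
    (x ∈ Hull N ∧ x * of b ∈ Hull N) ↔ ((∃ p ∈ N, Hs (x, b) p) ∧ (∃ p ∈ N, ¬ Hs (x, b) p)) := by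
  constructor
  · rintro ⟨h1, h2⟩
    exact exists_of_sep_Hull h2 h1 (Hs_of x b) (not_Hs_self x b)
  · rintro ⟨⟨p, hp, h1⟩, ⟨q, hq, h2⟩⟩
    obtain ⟨b1, b2⟩ := Btw_of_sep h2 h1
    exact ⟨Hull_btw (subset_Hull N hq) (subset_Hull N hp) b1,
      Hull_btw (subset_Hull N hq) (subset_Hull N hp) b2⟩

theorem cellOf_ends (y : FreeGroup β) (l : β × Bool) :
    ((cellOf y l).1 = y ∧ (cellOf y l).1 * of (cellOf y l).2 = y * mk [l]) ∨
    ((cellOf y l).1 = y * mk [l] ∧ (cellOf y l).1 * of (cellOf y l).2 = y) := by
  obtain ⟨b, s⟩ := l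
  cases s
  · right
    rw [cellOf_false]
    refine ⟨rfl, ?_⟩
    have := mul_mk_single_mul y (b, false)
    simpa [FreeGroup.of] using this
  · left
    rw [cellOf_true]
    exact ⟨rfl, rfl⟩

theorem cell_mem_Hull_iff' {N : Set (FreeGroup β)} {y : FreeGroup β} {l : β × Bool} :
    (y ∈ Hull N ∧ y * mk [l] ∈ Hull N) ↔
      ((∃ p ∈ N, Hs (cellOf y l) p) ∧ (∃ p ∈ N, ¬ Hs (cellOf y l) p)) := by
  rw [← Prod.mk.eta (p := cellOf y l), ← cell_mem_Hull_iff]
  rcases cellOf_ends y l with ⟨h1, h2⟩ | ⟨h1, h2⟩
  · rw [h2, h1]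
  · rw [h2, h1, and_comm]

/-- A separating cell of two points of a hull lies in the hull. -/
theorem mem_Hull_of_sep {N : Set (FreeGroup β)} {t : FreeGroup β × β} {y z : FreeGroup β}
    (hy : y ∈ Hull N) (hz : z ∈ Hull N) (h1 : Hs t y) (h2 : ¬ Hs t z) :
    t.1 ∈ Hull N ∧ t.1 * of t.2 ∈ Hull N := by
  obtain ⟨b1, b2⟩ := Btw_of_sep (x := t.1) (b := t.2) h2 h1
  exact ⟨Hull_btw hz hy b1, Hull_btw hz hy b2⟩

theorem step_mem_Hull {N : Set (FreeGroup β)} {y z : FreeGroup β} {l : β × Bool}
    (hy : y ∈ Hull N) (hz : z ∈ Hull N) (h : cellOf y l ∈ Sep y z) : y * mk [l] ∈ Hull N := by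
  have h' : (cellOf y l).1 ∈ Hull N ∧ (cellOf y l).1 * of (cellOf y l).2 ∈ Hull N := by
    by_cases c : Hs (cellOf y l) y
    · refine mem_Hull_of_sep hy hz c ?_
      intro c'; exact h (iff_of_true c c')
    · refine mem_Hull_of_sep hz hy ?_ c
      by_contra c'; exact h (iff_of_false c c')
  rcases cellOf_ends y l with ⟨h1, h2⟩ | ⟨h1, h2⟩
  · rw [h2] at h'; exact h'.2
  · rw [h1] at h'; exact h'.1

theorem exists_step_mem {N : Set (FreeGroup β)} {y z : FreeGroup β}
    (hy : y ∈ Hull N) (hz : z ∈ Hull N) (h : y ≠ z) :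
    ∃ l, y * mk [l] ∈ Hull N ∧ cellOf y l ∈ Sep y z ∧ (∀ t, t ∈ Sep (y * mk [l]) z → t ∈ Sep y z) ∧
      ((y * mk [l])⁻¹ * z).norm < (y⁻¹ * z).norm := by
  obtain ⟨l, h1, h2⟩ := exists_step h
  refine ⟨l, step_mem_Hull hy hz h1, h1, h2, ?_⟩
  rw [← Sep_ncard, ← Sep_ncard]
  refine Set.ncard_lt_ncard ⟨h2, fun h3 => ?_⟩ (Sep_finite _ _)
  have h4 : cellOf y l ∈ Sep (y * mk [l]) z := h3 h1
  have h5 := Hs_cellOf y l
  simp only [Sep, Set.mem_ofPred_eq] at h1 h4
  rw [h5.1] at h1
  rw [h5.2] at h4
  cases hl : l.2 <;> rw [hl] at h1 h4 <;> simp at h1 h4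
  · exact h1 h4
  · exact h4 h1

/-- Induction along a hull. -/
theorem Hull_induction {N : Set (FreeGroup β)} {P : FreeGroup β → Prop} {y : FreeGroup β}
    (hy : y ∈ Hull N) (h0 : P y)
    (hs : ∀ u l, u ∈ Hull N → u * mk [l] ∈ Hull N → P u → P (u * mk [l])) :
    ∀ z ∈ Hull N, P z := by
  intro z hz
  induction hn : (y⁻¹ * z).norm using Nat.strong_induction_on generalizing y with
  | _ n ih =>
    by_cases h : y = z
    · rw [← h]; exact h0
    · obtain ⟨l, h1, _, _, h4⟩ := exists_step_mem hy hz h
      exact ih _ (hn ▸ h4) h1 (hs y l hy h1 h0) rfl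

theorem Hull_finite {N : Set (FreeGroup β)} (hN : N.Finite) : (Hull N).Finite := by
  rcases N.eq_empty_or_nonempty with rfl | ⟨p, hp⟩
  · rcases isEmpty_or_nonempty β with hb | ⟨⟨b⟩⟩
    · have : Finite (FreeGroup β) := by
        have : Subsingleton (FreeGroup β) := ⟨fun a b => eq_of_Hs fun t => (IsEmpty.false t.2).elim⟩
        infer_instance
      exact Set.toFinite _
    · have : Hull (∅ : Set (FreeGroup β)) = ∅ := by
        ext y
        simp only [Set.mem_empty_iff_false, iff_false]
        intro h
        have := h (1, b)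
        simp at this
      rw [this]; exact Set.finite_empty
  · -- map y to Sep p y
    have hfin : (⋃ q ∈ N, Sep p q).Finite := hN.biUnion fun q _ => Sep_finite p q
    have hsub : ∀ y ∈ Hull N, Sep p y ⊆ ⋃ q ∈ N, Sep p q := by
      intro y hy t ht
      by_contra h'
      simp only [Set.mem_iUnion, not_exists] at h'
      have h2 : ∀ q ∈ N, (Hs t p ↔ Hs t q) := fun q hq => by_contra fun h3 => h' q hq h3
      apply ht
      by_cases c : Hs t p
      · exact iff_of_true c ((hy t).1 fun q hq => (h2 q hq).1 c)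
      · exact iff_of_false c ((hy t).2 fun q hq h4 => c ((h2 q hq).2 h4))
    have hinj : Set.InjOn (fun y => Sep p y) (Hull N) := by
      intro y _ z _ h
      apply eq_of_Hs
      intro t
      have := Set.ext_iff.1 h t
      simp only [Sep, Set.mem_ofPred_eq] at this
      by_cases a : Hs t p <;> by_cases b : Hs t y <;> by_cases c : Hs t z <;>
        simp only [a, b, c] at this ⊢ <;> simp at this
    refine Set.Finite.of_finite_image (f := fun y => Sep p y) ?_ hinj
    refine (hfin.finite_subsets).subset ?_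
    rintro _ ⟨y, hy, rfl⟩
    exact hsub y hy

theorem Hull_empty [Nonempty β] : Hull (∅ : Set (FreeGroup β)) = ∅ := by
  obtain ⟨b⟩ := ‹Nonempty β›
  ext y
  simp only [Set.mem_empty_iff_false, iff_false]
  intro h
  have := h (1, b)
  simp at this

theorem Hull_singleton (y : FreeGroup β) : Hull {y} = {y} := by
  ext z
  constructor
  · intro h
    apply eq_of_Hs
    intro t
    by_cases c : Hs t y
    · exact iff_of_true ((h t).1 (by simpa using c)) c
    · exact iff_of_false ((h t).2 (by simpa using c)) c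
  · rintro rfl; exact subset_Hull _ rfl

theorem nonempty_of_Hull [Nonempty β] {N : Set (FreeGroup β)} (h : (Hull N).Nonempty) : N.Nonempty := by
  by_contra h'
  rw [Set.not_nonempty_iff_eq_empty] at h'
  subst h'
  rw [Hull_empty] at h
  exact Set.not_nonempty_empty h

/-- The cells of a hull, counted. -/
theorem cells_ncard {N : Set (FreeGroup β)} (hN : N.Finite) (hne : (Hull N).Nonempty) :
    {t : FreeGroup β × β | t.1 ∈ Hull N ∧ t.1 * of t.2 ∈ Hull N}.Finite ∧
    {t : FreeGroup β × β | t.1 ∈ Hull N ∧ t.1 * of t.2 ∈ Hull N}.ncard + 1 = (Hull N).ncard := by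
  obtain ⟨p, hp⟩ := hne
  have hf := Hull_finite hN
  classical
  -- far end
  set far : FreeGroup β × β → FreeGroup β := fun t => if Hs t p then t.1 else t.1 * of t.2 with hfar
  have hbij : Set.BijOn far {t : FreeGroup β × β | t.1 ∈ Hull N ∧ t.1 * of t.2 ∈ Hull N} (Hull N \ {p}) := by
    -- a cell having `far t = y` is `cellOf y l` with `l` the first step towards `p`
    have key : ∀ t, ∃ l, t = cellOf (far t) l ∧ t ∈ Sep (far t) p := by
      rintro ⟨x, b⟩
      by_cases c : Hs (x, b) p
      · refine ⟨(b, true), ?_, ?_⟩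
        · simp only [hfar, c, if_true, cellOf_true]
        · simp only [hfar, c, if_true, Sep, Set.mem_ofPred_eq]
          have := not_Hs_self x b
          tauto
      · refine ⟨(b, false), ?_, ?_⟩
        · simp only [hfar, c, if_false, cellOf_false]
          rw [mul_assoc]
          have : (of b : FreeGroup β) * mk [(b, false)] = 1 := by
            have : (mk [(b, false)] : FreeGroup β) = (of b)⁻¹ := by
              rw [FreeGroup.of, inv_mk]; rfl
            rw [this]; group
          rw [this, mul_one]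
        · simp only [hfar, c, if_false, Sep, Set.mem_ofPred_eq]
          have := Hs_of x b
          tauto
    have uniq : ∀ y l l', cellOf y l ∈ Sep y p → cellOf y l' ∈ Sep y p → l = l' := by
      intro y l l' h1 h2
      obtain ⟨L, hL, h'⟩ := exists_reduced (y⁻¹ * p)
      have hz : p = y * mk L := by rw [h']; group
      have aux : ∀ l, cellOf y l ∈ Sep y p → L.head? = some l := by
        intro l h
        simp only [Sep, Set.mem_ofPred_eq] at h
        rw [(Hs_cellOf y l).1] at h
        obtain ⟨b, s⟩ := l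
        cases s
        · rw [cellOf_false] at h
          simp only [true_iff] at h
          -- y * b⁻¹ ; p on the same side as y*b⁻¹
          by_contra h3
          apply h
          have : p = (y * mk [(b, false)]) * mk ((b, true) :: L) := by
            rw [hz, mk_cons (b, true)]
            have := mul_mk_single_mul y (b, false)
            simp only [Bool.not_false] at this
            rw [← mul_assoc, this]
          rw [this, Hs_reduced]
          · simp
          · cases L with
            | nil => simp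
            | cons m M =>
              rw [FreeGroup.IsReduced, List.isChain_cons_cons]
              refine ⟨?_, hL⟩
              intro h5
              simp only at h5
              by_contra h6
              apply h3
              simp only [List.head?_cons, Option.some.injEq]
              refine Prod.ext h5.symm ?_
              revert h6
              cases m.2 <;> simp
        · rw [cellOf_true] at h
          simp only [Bool.true_eq_false, false_iff, not_not] at h
          rw [hz, Hs_reduced hL] at h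
          exact h
      have h3 := aux l h1
      have h4 := aux l' h2
      rw [h3] at h4
      exact Option.some.inj h4
    refine ⟨?_, ?_, ?_⟩
    · rintro ⟨x, b⟩ ⟨h1, h2⟩
      refine ⟨?_, ?_⟩
      · by_cases c : Hs (x, b) p
        · simp only [hfar, c, if_true]; exact h1
        · simp only [hfar, c, if_false]; exact h2
      · simp only [Set.mem_singleton_iff]
        intro h3
        obtain ⟨l, _, h5⟩ := key (x, b)
        rw [h3, Sep_self] at h5
        exact h5
    · intro t _ t' _ h
      obtain ⟨l, h1, h2⟩ := key t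
      obtain ⟨l', h1', h2'⟩ := key t'
      have h3 : l = l' := by
        apply uniq (far t)
        · rw [← h1]; exact h2
        · rw [h, ← h1']; exact h2'
      rw [h1, h1', h, h3]
    · rintro y ⟨hy, hyp⟩
      have hyp' : y ≠ p := hyp
      obtain ⟨l, h1, h2, _, _⟩ := exists_step_mem hy hp hyp'
      refine ⟨cellOf y l, ?_, ?_⟩
      · rcases cellOf_ends y l with ⟨e1, e2⟩ | ⟨e1, e2⟩
        · refine ⟨?_, ?_⟩
          · rw [e1]; exact hy
          · rw [e2]; exact h1
        · refine ⟨?_, ?_⟩
          · rw [e1]; exact h1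
          · rw [e2]; exact hy
      · have h5 := Hs_cellOf y l
        simp only [Sep, Set.mem_ofPred_eq] at h2
        rw [h5.1] at h2
        obtain ⟨b, s⟩ := l
        cases s
        · have c : ¬ Hs (cellOf y (b, false)) p := by simpa using h2
          simp only [hfar, c, if_false]
          rw [cellOf_false]
          have := mul_mk_single_mul y (b, false)
          simpa [FreeGroup.of] using this
        · have c : Hs (cellOf y (b, true)) p := by simpa using h2
          simp only [hfar, c, if_true]
          rw [cellOf_true]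
  have hfin2 : (Hull N \ {p}).Finite := hf.subset Set.sdiff_subset
  refine ⟨hbij.finite_iff_finite.2 hfin2, ?_⟩
  have h1 := hbij.ncard_eq
  rw [h1, Set.ncard_sdiff_singleton_add_one hp hf]

/-- Trivial cells. -/
theorem exists_trivial [Nonempty β] {N : Set (FreeGroup β)} (hN : N.Finite) :
    (∃ t, ∀ p ∈ N, Hs t p) ∧ (∃ t, ∀ p ∈ N, ¬ Hs t p) := by
  obtain ⟨b⟩ := ‹Nonempty β›
  obtain ⟨m, hm⟩ : ∃ m, ∀ p ∈ N, p.norm ≤ m := by
    obtain ⟨m, hm⟩ := (hN.image FreeGroup.norm).bddAbove
    exact ⟨m, fun p hp => hm ⟨p, hp, rfl⟩⟩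
  -- powers
  have hpow : ∀ (s : Bool) (k : ℕ) (p : FreeGroup β), p.norm < k →
      (mk (List.replicate k (b, s)) * p).toWord.head? = some (b, s) := by
    intro s k p hp
    induction k generalizing p with
    | zero => omega
    | succ k ih =>
      obtain ⟨L, hL, rfl⟩ := exists_reduced p
      rw [norm_mk_of_reduced hL] at hp
      by_cases hk : L.head? = some (b, !s)
      · cases L with
        | nil => simp at hk
        | cons l L =>
          simp at hk
          subst hk
          have hL' : IsReduced L := red_tail hL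
          have : (mk (List.replicate (k + 1) (b, s)) : FreeGroup β) * mk ((b, !s) :: L)
              = mk (List.replicate k (b, s)) * mk L := by
            rw [List.replicate_succ', ← mul_mk, mk_cons (b, !s)]
            have h1 : (mk [(b, s)] : FreeGroup β) * mk [(b, !s)] = 1 := by
              have := mk_single_inv (b, s)
              simp only at this
              rw [← this]; group
            calc _ = mk (List.replicate k (b, s)) * (mk [(b, s)] * mk [(b, !s)]) * mk L := by group
              _ = _ := by rw [h1]; group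
          rw [this]
          apply ih
          rw [norm_mk_of_reduced hL']
          simp at hp
          omega
      · have hr : IsReduced (List.replicate (k + 1) (b, s) ++ L) := by
          rw [FreeGroup.IsReduced, List.isChain_append]
          refine ⟨?_, hL, ?_⟩
          · exact List.isChain_replicate_of_rel _ (fun _ => rfl)
          · intro a ha d hd h1
            rw [List.replicate_succ', List.getLast?_append] at ha
            simp at ha
            subst ha
            rw [Option.mem_def] at hd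
            rw [hd] at hk
            by_contra h2
            apply hk
            simp only [Option.some.injEq]
            refine Prod.ext h1.symm ?_
            simp only at h2 ⊢
            revert h2
            cases d.2 <;> cases s <;> simp
        rw [mul_mk, toWord_mk_of_reduced hr, List.replicate_succ]
        simp
  refine ⟨⟨((mk (List.replicate (m + 1) (b, true)))⁻¹, b), ?_⟩,
    ⟨((mk (List.replicate (m + 1) (b, false)))⁻¹, b), ?_⟩⟩
  · intro p hp
    unfold Hs
    simp only [inv_inv]
    exact hpow true (m + 1) p (by have := hm p hp; omega)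
  · intro p hp
    unfold Hs
    simp only [inv_inv]
    rw [hpow false (m + 1) p (by have := hm p hp; omega)]
    simp

end

/-! ### states -/

section
variable {β V E A : Type} [DecidableEq β] (D : Dt V E A) (x : Val β E A)

theorem nE_subset_nV (e : E) (s : Bool) : nE D x e s ⊆ nV D x (D.en e s) := by
  rintro y ⟨α, h1, h2⟩
  exact ⟨α, s, by rw [h1], h2⟩

theorem KE_subset_KV (e : E) (s : Bool) : KE D x e s ⊆ KV D x (D.en e s) :=
  Hull_mono (nE_subset_nV D x e s)

theorem nV_subset_KV (v : V) : nV D x v ⊆ KV D x v := subset_Hull _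
theorem nE_subset_KE (e : E) (s : Bool) : nE D x e s ⊆ KE D x e s := subset_Hull _

theorem tr_not (e : E) (s : Bool) : tr x e (!s) = (tr x e s)⁻¹ := by
  cases s <;> simp [tr]

theorem tr_mul_tr (e : E) (s : Bool) : tr x e (!s) * tr x e s = 1 := by
  rw [tr_not]; group

theorem pos_not (α : A) (s : Bool) : pos D x α (!s) = tr x (D.et α) s * pos D x α s := by
  cases s <;> simp [pos, tr]

theorem nE_not (e : E) (s : Bool) : nE D x e (!s) = (tr x e s * ·) '' nE D x e s := by
  ext y
  constructor
  · rintro ⟨α, rfl, rfl⟩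
    exact ⟨pos D x α s, ⟨α, rfl, rfl⟩, (pos_not D x α s).symm⟩
  · rintro ⟨_, ⟨α, rfl, rfl⟩, rfl⟩
    exact ⟨α, rfl, pos_not D x α s⟩

theorem KE_not (e : E) (s : Bool) : KE D x e (!s) = (tr x e s * ·) '' KE D x e s := by
  unfold KE; rw [nE_not, Hull_image]

theorem tr_mem_KE {e : E} {s : Bool} {y : FreeGroup β} :
    tr x e s * y ∈ KE D x e (!s) ↔ y ∈ KE D x e s := by
  unfold KE; rw [nE_not, Hull_smul]

theorem tr_mem_KE' {e : E} {s : Bool} {y : FreeGroup β} (h : y ∈ KE D x e s) :
    tr x e s * y ∈ KE D x e (!s) := (tr_mem_KE D x).2 h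

theorem nE_finite [Finite A] (e : E) (s : Bool) : (nE D x e s).Finite := by
  refine (Set.finite_range (fun α : A => pos D x α s)).subset ?_
  rintro y ⟨α, _, rfl⟩; exact ⟨α, rfl⟩

theorem nV_finite [Finite A] (v : V) : (nV D x v).Finite := by
  refine (Set.finite_range (fun α : A × Bool => pos D x α.1 α.2)).subset ?_
  rintro y ⟨α, s, _, rfl⟩; exact ⟨(α, s), rfl⟩

theorem KE_finite [Finite A] (e : E) (s : Bool) : (KE D x e s).Finite := Hull_finite (nE_finite D x e s)
theorem KV_finite [Finite A] (v : V) : (KV D x v).Finite := Hull_finite (nV_finite D x v)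

theorem KE_ncard_not (e : E) (s : Bool) : (KE D x e (!s)).ncard = (KE D x e s).ncard := by
  rw [KE_not]; exact Set.ncard_image_of_injective _ (mul_right_injective _)

theorem KE_ncard (e : E) (s : Bool) : (KE D x e s).ncard = (KE D x e false).ncard := by
  cases s
  · rfl
  · exact KE_ncard_not D x e false

variable {D x}

theorem adj_symm {p q : V × FreeGroup β} (h : adj D x p q) : adj D x q p := by
  obtain ⟨e, s, h1, h2, h3, h4⟩ := h
  refine ⟨e, !s, h2, by simpa using h1, ?_, ?_⟩
  · rw [h4]; exact tr_mem_KE' D x h3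
  · rw [h4, tr_not]; group

theorem adj.mem {p q : V × FreeGroup β} (h : adj D x p q) : p.2 ∈ KV D x p.1 ∧ q.2 ∈ KV D x q.1 := by
  constructor
  · obtain ⟨e, s, h1, h2, h3, h4⟩ := h
    rw [← h1]; exact KE_subset_KV D x e s h3
  · obtain ⟨e, s, h1, h2, h3, h4⟩ := adj_symm h
    rw [← h1]; exact KE_subset_KV D x e s h3

theorem adjb_symm {b : β} {p q : V × FreeGroup β} (h : adjb D x b p q) : adjb D x b q p := by
  obtain ⟨e, s, h1, h2, h3, h3', h4⟩ := h
  refine ⟨e, !s, h2, by simpa using h1, ?_, ?_, ?_⟩
  · rw [h4]; exact tr_mem_KE' D x h3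
  · rw [h4, mul_assoc]; exact tr_mem_KE' D x h3'
  · rw [h4, tr_not]; group

theorem adjb.adj {b : β} {p q : V × FreeGroup β} (h : adjb D x b p q) : adj D x p q := by
  obtain ⟨e, s, h1, h2, h3, h3', h4⟩ := h
  exact ⟨e, s, h1, h2, h3, h4⟩

/-- The other end of the cell. -/
theorem adjb.adj' {b : β} {p q : V × FreeGroup β} (h : adjb D x b p q) :
    PP.adj D x (p.1, p.2 * of b) (q.1, q.2 * of b) := by
  obtain ⟨e, s, h1, h2, h3, h3', h4⟩ := h
  exact ⟨e, s, h1, h2, h3', by simp only [h4]; group⟩

/-- With nonempty edges: a nonempty edge has a nonempty tree. -/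
theorem KE_nonempty (h : Function.Surjective D.et) (e : E) (s : Bool) : (KE D x e s).Nonempty := by
  obtain ⟨α, hα⟩ := h e
  exact ⟨pos D x α s, subset_Hull _ ⟨α, hα, rfl⟩⟩

theorem KV_nonempty (h : D.Full) (v : V) : (KV D x v).Nonempty := by
  obtain ⟨α, s, hα⟩ := h v
  exact ⟨pos D x α s, subset_Hull _ ⟨α, s, hα, rfl⟩⟩

end

end Pool.Agent.W2helper26.PP
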