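import Pool.Agent.W2helper26.PP.Stm
import Pool.Agent.W2helper26.PP.Geo

/-!
# INIT: adding arcs at the branch vertices turns the initial state into a good one
-/

set_option autoImplicit false
set_option linter.unusedSectionVars false

namespace Pool.Agent.W2helper26.PP

open FreeGroup

/-! ### states with additional arcs -/

section
variable {β V E A B : Type} [DecidableEq β]

/-- The data `D` with additional arcs `B`. -/
def extD (D : Dt V E A) (et₂ : B → E) : Dt V E (A ⊕ B) where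
  en := D.en
  et := Sum.elim D.et et₂

/-- Forgetting the additional arcs. -/
def resV (x : Val β E (A ⊕ B)) : Val β E A where
  τ := x.τ
  g := fun a => x.g (Sum.inl a)

variable {D : Dt V E A} {et₂ : B → E} {x : Val β E (A ⊕ B)}

theorem pos_inl (a : A) (s : Bool) : pos (extD D et₂) x (Sum.inl a) s = pos D (resV x) a s := by
  cases s <;> rfl

/-- All additional names are in the hull of the old names of their edge end. -/
def Ins (D : Dt V E A) (et₂ : B → E) (x : Val β E (A ⊕ B)) : Prop :=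
  ∀ c s, pos (extD D et₂) x (Sum.inr c) s ∈ KE D (resV x) (et₂ c) s

theorem KE_ext (h : Ins D et₂ x) (e : E) (s : Bool) :
    KE (extD D et₂) x e s = KE D (resV x) e s := by
  apply Set.Subset.antisymm
  · apply Hull_subset
    rintro y ⟨α, h1, h2⟩
    rcases α with a | c
    · exact subset_Hull _ ⟨a, h1, by rw [← h2, pos_inl]⟩
    · rw [← h2]
      have h1' : et₂ c = e := h1
      rw [← h1']
      exact h c s
  · apply Hull_mono
    rintro y ⟨a, h1, h2⟩
    exact ⟨Sum.inl a, h1, by rw [pos_inl, h2]⟩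

theorem KV_ext (h : Ins D et₂ x) (v : V) :
    KV (extD D et₂) x v = KV D (resV x) v := by
  apply Set.Subset.antisymm
  · apply Hull_subset
    rintro y ⟨α, s, h1, h2⟩
    rcases α with a | c
    · exact subset_Hull _ ⟨a, s, h1, by rw [← h2, pos_inl]⟩
    · rw [← h2]
      have h1' : D.en (et₂ c) s = v := h1
      rw [← h1']
      exact KE_subset_KV D (resV x) _ _ (h c s)
  · apply Hull_mono
    rintro y ⟨a, s, h1, h2⟩
    exact ⟨Sum.inl a, s, h1, by rw [pos_inl, h2]⟩

theorem adj_ext (h : Ins D et₂ x) : adj (extD D et₂) x = adj D (resV x) := by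
  funext p q
  unfold adj
  simp only [KE_ext h]
  rfl

theorem adjb_ext (h : Ins D et₂ x) (b : β) : adjb (extD D et₂) x b = adjb D (resV x) b := by
  funext p q
  unfold adjb
  simp only [KE_ext h]
  rfl

theorem TC_ext [Fintype V] [Fintype E] (h : Ins D et₂ x) : TC (extD D et₂) x ↔ TC D (resV x) := by
  constructor
  · rintro ⟨h1, h2, h3, h4⟩
    simp only [KE_ext h, KV_ext h, adj_ext h, adjb_ext h] at h1 h2 h3 h4
    exact ⟨h1, h2, h3, h4⟩
  · rintro ⟨h1, h2, h3, h4⟩
    constructor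
    · simpa only [KE_ext h, KV_ext h, adj_ext h, adjb_ext h] using h1
    · simpa only [KE_ext h, KV_ext h, adj_ext h, adjb_ext h] using h2
    · simpa only [KE_ext h, KV_ext h, adj_ext h, adjb_ext h] using h3
    · simpa only [KE_ext h, KV_ext h, adj_ext h, adjb_ext h] using h4

/-- Realisations of the extended type restrict to realisations of the type. -/
theorem Rlz_res [Fintype V] [Fintype E] (h : Ins D et₂ x) {z : ℕ}
    (hR : Rlz β (extD D et₂) (ty (extD D et₂) x) z) : Rlz β D (ty D (resV x)) z := by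
  obtain ⟨y, hTC, hP, hz⟩ := hR
  have hI : Ins D et₂ y := by
    intro c s t
    obtain ⟨t', ht'⟩ := hP (D.en (et₂ c) s) t
    have key : ∀ α : A ⊕ B, ∀ s₀, D.en ((extD D et₂).et α) s₀ = D.en (et₂ c) s →
        (Hs t (pos (extD D et₂) y α s₀) ↔ Hs t' (pos (extD D et₂) x α s₀)) := by
      intro α s₀ hα
      have h3 : (α, s₀) ∈ pat (extD D et₂) x (D.en (et₂ c) s) t' ↔
          (α, s₀) ∈ pat (extD D et₂) y (D.en (et₂ c) s) t := by rw [ht']
      constructor
      · intro h4; exact (h3.2 ⟨hα, h4⟩).2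
      · intro h4; exact (h3.1 ⟨hα, h4⟩).2
    have hc := h c s t'
    have hc' := key (Sum.inr c) s rfl
    rw [hc']
    constructor
    · intro h5
      apply hc.1
      rintro p ⟨a, ha, rfl⟩
      rw [← pos_inl (et₂ := et₂), ← key (Sum.inl a) s (by show D.en (D.et a) s = _; rw [ha])]
      rw [pos_inl]
      exact h5 _ ⟨a, ha, rfl⟩
    · intro h5
      apply hc.2
      rintro p ⟨a, ha, rfl⟩
      rw [← pos_inl (et₂ := et₂), ← key (Sum.inl a) s (by show D.en (D.et a) s = _; rw [ha])]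
      rw [pos_inl]
      exact h5 _ ⟨a, ha, rfl⟩
  refine ⟨resV y, (TC_ext hI).1 hTC, ?_, ?_⟩
  · intro v t
    obtain ⟨t', ht'⟩ := hP v t
    refine ⟨t', ?_⟩
    ext ⟨a, s⟩
    have h3 : (Sum.inl a, s) ∈ pat (extD D et₂) x v t' ↔
          (Sum.inl a, s) ∈ pat (extD D et₂) y v t := by rw [ht']
    constructor
    · rintro ⟨h4, h5⟩
      have := (h3.1 ⟨h4, by simpa only [pos_inl] using h5⟩)
      exact ⟨h4, by simpa only [pos_inl] using this.2⟩
    · rintro ⟨h4, h5⟩
      have := (h3.2 ⟨h4, by simpa only [pos_inl] using h5⟩)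
      exact ⟨h4, by simpa only [pos_inl] using this.2⟩
  · intro α s α' s' he
    have := hz (Sum.inl α) s (Sum.inl α') s' he
    simpa only [pos_inl] using this

end

/-! ### branch vertices are medians -/

section
variable {β : Type} [DecidableEq β]

/-- The majority condition. -/
def Maj (y p q r : FreeGroup β) : Prop :=
  ∀ t, (Hs t y ↔ ((Hs t p ∧ Hs t q) ∨ (Hs t p ∧ Hs t r) ∨ (Hs t q ∧ Hs t r)))

theorem Maj.unique {y y' p q r : FreeGroup β} (h : Maj y p q r) (h' : Maj y' p q r) : y = y' :=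
  eq_of_Hs fun t => (h t).trans (h' t).symm

theorem head_of_sep {y p : FreeGroup β} {l : β × Bool} (h : cellOf y l ∈ Sep y p) :
    (y⁻¹ * p).toWord.head? = some l := by
  obtain ⟨M, hM, hp⟩ := exists_reduced (y⁻¹ * p)
  rw [← hp, toWord_mk_of_reduced hM]
  obtain ⟨b, s⟩ := l
  have hc := Hs_cellOf y (b, s)
  cases s
  · rw [cellOf_false] at h
    by_contra hne
    apply h
    have h1 : Hs (y * mk [(b, false)], b) y := by
      have := hc.1; rw [cellOf_false] at this; exact this.2 rfl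
    refine iff_of_true h1 ?_
    have h2 : p = y * mk [(b, false)] * mk ((b, true) :: M) := by
      rw [mk_cons (b, true) M, hp]
      have : (mk [(b, true)] : FreeGroup β) = (mk [(b, false)])⁻¹ := by
        rw [mk_single_inv]; rfl
      rw [this]; group
    have hred : IsReduced ((b, true) :: M) := by
      unfold FreeGroup.IsReduced
      rw [List.isChain_cons]
      refine ⟨?_, hM⟩
      intro a ha hb
      rcases a with ⟨a1, a2⟩
      simp only at hb
      subst hb
      cases a2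
      · exact absurd ha hne
      · rfl
    rw [h2, Hs_reduced hred]; rfl
  · rw [cellOf_true] at h
    have h1 : Hs (y, b) p := by
      by_contra hne
      apply h
      exact iff_of_false (not_Hs_self y b) hne
    have h2 : p = y * mk M := by rw [hp]; group
    rw [h2, Hs_reduced hM] at h1
    exact h1

theorem Btw_of_sep_ne {y p q : FreeGroup β} {l l' : β × Bool} (hne : l ≠ l')
    (h : cellOf y l ∈ Sep y p) (h' : cellOf y l' ∈ Sep y q) : Btw p y q := by
  have h1 := head_of_sep h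
  have h2 := head_of_sep h'
  have e1 : p = y * mk (y⁻¹ * p).toWord := by rw [mk_toWord]; group
  have e2 : q = y * mk (y⁻¹ * q).toWord := by rw [mk_toWord]; group
  rw [e1, e2]
  apply Btw_of_heads isReduced_toWord isReduced_toWord
  intro _ _
  rw [h1, h2]
  simpa using hne

theorem exists_far {N : Set (FreeGroup β)} {y : FreeGroup β} {l : β × Bool} (hy : y ∈ Hull N)
    (hl : y * mk [l] ∈ Hull N) : ∃ p ∈ N, cellOf y l ∈ Sep y p := by
  obtain ⟨⟨p, hp, h1⟩, ⟨q, hq, h2⟩⟩ := cell_mem_Hull_iff'.1 ⟨hy, hl⟩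
  by_cases c : Hs (cellOf y l) y
  · exact ⟨q, hq, fun h => h2 (h.1 c)⟩
  · exact ⟨p, hp, fun h => c (h.2 h1)⟩

/-- A branch vertex of a hull is a median of three points of the set. -/
theorem exists_Maj {N : Set (FreeGroup β)} {y : FreeGroup β} {l₁ l₂ l₃ : β × Bool}
    (h12 : l₁ ≠ l₂) (h13 : l₁ ≠ l₃) (h23 : l₂ ≠ l₃) (hy : y ∈ Hull N)
    (h1 : y * mk [l₁] ∈ Hull N) (h2 : y * mk [l₂] ∈ Hull N) (h3 : y * mk [l₃] ∈ Hull N) :
    ∃ p ∈ N, ∃ q ∈ N, ∃ r ∈ N, Maj y p q r := by
  obtain ⟨p, hp, h1'⟩ := exists_far hy h1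
  obtain ⟨q, hq, h2'⟩ := exists_far hy h2
  obtain ⟨r, hr, h3'⟩ := exists_far hy h3
  refine ⟨p, hp, q, hq, r, hr, fun t => ?_⟩
  exact maj_aux _ _ _ _ (Btw_of_sep_ne h23 h2' h3' t) (Btw_of_sep_ne h12 h1' h2' t)
    (Btw_of_sep_ne h13 h1' h3' t)

end

/-! ### the positions of the initial state -/

section
variable {n : ℕ} {β : Type} [DecidableEq β] (L : List (Fin n × Bool))
  (θ : FreeGroup (Fin n) →* FreeGroup β)

/-- The vertices of the path. -/
def uu (i : ℕ) : FreeGroup β := (θ (FreeGroup.mk (L.take i)))⁻¹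

theorem uu_succ {i : ℕ} (hi : i < L.length) :
    uu L θ (i + 1) = (θ (FreeGroup.mk [L[i]]))⁻¹ * uu L θ i := by
  unfold uu
  rw [List.take_succ_eq_append_getElem hi, ← mul_mk, _root_.map_mul, mul_inv_rev]

theorem pos_word (i : Fin L.length) (s : Bool) :
    pos (D1 L) (x1 L θ) (Sum.inl i) s = uu L θ (if s = (L.get i).2 then i else i + 1) := by
  have h1 := uu_succ L θ i.2
  have h0 : L[(i : ℕ)] = L.get i := rfl
  rw [h0] at h1
  rcases hL : L.get i with ⟨j, b⟩
  rw [hL] at h1
  have e1 : ((D1 L).et (Sum.inl i)) = j := by simp [D1, hL, - List.get_eq_getElem]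
  have e2 : (x1 L θ).g (Sum.inl i) = if b then uu L θ (i + 1) else uu L θ i := by
    simp only [x1, Sum.elim_inl, hL]
    rfl
  have e3 : (x1 L θ).τ j = θ (of j) := rfl
  cases b
  · have h2 : (θ (FreeGroup.mk [(j, false)]))⁻¹ = θ (of j) := by
      rw [← _root_.map_inv, mk_single_inv]; rfl
    rw [h2] at h1
    cases s
    · simp only [pos, e2]; simp
    · simp only [pos, e2, e1, e3]; simp [h1]
  · have h2 : (θ (FreeGroup.mk [(j, true)])) = θ (of j) := rfl
    rw [h2] at h1
    cases s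
    · simp only [pos, e2]; simp
    · simp only [pos, e2, e1, e3]; simp [h1]

theorem pos_gen_true (j : Fin n) : pos (D1 L) (x1 L θ) (Sum.inr j) true = 1 := by
  show θ (of j) * (θ (of j))⁻¹ = 1
  group

theorem word_reduced (hL : FreeGroup.reduce L = L) {i : ℕ} (hi : i + 1 < L.length) :
    (L.get ⟨i + 1, hi⟩).1 ≠ (L.get ⟨i, by omega⟩).1 ∨
      (L.get ⟨i + 1, hi⟩).2 ≠ !(L.get ⟨i, by omega⟩).2 := by
  have h1 := List.isChain_iff_getElem.1 (isReduced_iff_reduce_eq.2 hL) i hi
  by_contra hcon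
  push Not at hcon
  obtain ⟨h2, h3⟩ := hcon
  have h4 : (L.get ⟨i, by omega⟩).2 = (L.get ⟨i + 1, hi⟩).2 := h1 h2.symm
  rw [← h4] at h3
  revert h3
  cases (L.get ⟨i, by omega⟩).2 <;> simp

end

/-! ### the extended initial state -/

section
variable {n : ℕ} (L : List (Fin n × Bool)) (θ : FreeGroup (Fin n) →* FreeGroup (Fin n))

/-- Names of the initial state. -/
abbrev Nm (L : List (Fin n × Bool)) : Type := (Fin L.length ⊕ Fin n) × Bool

/-- The additional arcs. -/
abbrev Ba (L : List (Fin n × Bool)) : Type := Fin n × Bool × Nm L × Nm L × Nm L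

open Classical in
/-- The place of an additional arc. -/
noncomputable def pt (c : Ba L) : FreeGroup (Fin n) :=
  if h : ∃ y ∈ KE (D1 L) (x1 L θ) c.1 c.2.1, Maj y (pos (D1 L) (x1 L θ) c.2.2.1.1 c.2.2.1.2)
    (pos (D1 L) (x1 L θ) c.2.2.2.1.1 c.2.2.2.1.2) (pos (D1 L) (x1 L θ) c.2.2.2.2.1 c.2.2.2.2.2) then
    h.choose else pos (D1 L) (x1 L θ) (Sum.inr c.1) c.2.1

theorem pt_mem (c : Ba L) : pt L θ c ∈ KE (D1 L) (x1 L θ) c.1 c.2.1 := by
  unfold pt
  split_ifs with h
  · exact h.choose_spec.1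
  · exact subset_Hull _ ⟨Sum.inr c.1, rfl, rfl⟩

theorem pt_eq {c : Ba L} {y : FreeGroup (Fin n)} (hy : y ∈ KE (D1 L) (x1 L θ) c.1 c.2.1)
    (h : Maj y (pos (D1 L) (x1 L θ) c.2.2.1.1 c.2.2.1.2)
    (pos (D1 L) (x1 L θ) c.2.2.2.1.1 c.2.2.2.1.2) (pos (D1 L) (x1 L θ) c.2.2.2.2.1 c.2.2.2.2.2)) :
    pt L θ c = y := by
  have h' : ∃ y ∈ KE (D1 L) (x1 L θ) c.1 c.2.1, Maj y (pos (D1 L) (x1 L θ) c.2.2.1.1 c.2.2.1.2)
    (pos (D1 L) (x1 L θ) c.2.2.2.1.1 c.2.2.2.1.2)
    (pos (D1 L) (x1 L θ) c.2.2.2.2.1 c.2.2.2.2.2) := ⟨y, hy, h⟩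
  unfold pt
  rw [dif_pos h']
  exact h'.choose_spec.2.unique h

/-- The extended data. -/
abbrev D2 : Dt Unit (Fin n) ((Fin L.length ⊕ Fin n) ⊕ Ba L) := extD (D1 L) (fun c => c.1)

/-- The extended values. -/
noncomputable def x2 : Val (Fin n) (Fin n) ((Fin L.length ⊕ Fin n) ⊕ Ba L) where
  τ := (x1 L θ).τ
  g := Sum.elim (x1 L θ).g
    (fun c => if c.2.1 then ((x1 L θ).τ c.1)⁻¹ * pt L θ c else pt L θ c)

theorem res_x2 : resV (x2 L θ) = x1 L θ := rfl

theorem pos_x2 (c : Ba L) : pos (D2 L) (x2 L θ) (Sum.inr c) c.2.1 = pt L θ c := by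
  obtain ⟨j, s, p, q, r⟩ := c
  cases s
  · simp [pos, x2]
  · simp [pos, x2, extD]

theorem ins_x2 : Ins (D1 L) (fun c : Ba L => c.1) (x2 L θ) := by
  intro c s
  rw [res_x2]
  by_cases h : s = c.2.1
  · subst h
    rw [pos_x2]
    exact pt_mem L θ c
  · have h' : s = !c.2.1 := by
      revert h; cases s <;> cases c.2.1 <;> simp
    subst h'
    rw [pos_not, pos_x2]
    exact tr_mem_KE' (D1 L) (x1 L θ) (pt_mem L θ c)

/-- The exceptional spots. -/
noncomputable def ff : (Ba L × Bool) ⊕ (Fin n × Bool) ⊕ Bool → Unit × FreeGroup (Fin n) :=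
  Sum.elim (fun c => ((), pos (D2 L) (x2 L θ) (Sum.inr c.1) c.2))
    (Sum.elim (fun c => ((), pos (D1 L) (x1 L θ) (Sum.inr c.1) c.2))
      (fun s => ((), uu L θ (if s then L.length else 0))))

theorem pn_x2 (hL : FreeGroup.reduce L = L) : PN (D2 L) (x2 L θ) (Set.range (ff L θ)) := by
  intro α s
  rcases α with (i | j) | c
  · -- a letter
    rw [pos_inl, res_x2, pos_word]
    have hi := i.2
    by_cases hs : s = (L.get i).2
    · rw [if_pos hs]
      by_cases h0 : (i : ℕ) = 0
      · left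
        exact ⟨Sum.inr (Sum.inr false), by simp [ff, h0]⟩
      · right; left
        have hk : (i : ℕ) - 1 + 1 = i := by omega
        refine ⟨Sum.inl (Sum.inl ⟨i - 1, by omega⟩), !(L.get ⟨i - 1, by omega⟩).2, rfl, ?_, ?_⟩
        · rw [pos_inl, res_x2, pos_word]
          rw [if_neg (by simp)]
          show uu L θ ((i : ℕ) - 1 + 1) = uu L θ i
          rw [hk]
        · intro hcon
          have h1 := (Prod.mk.inj hcon).1
          have h2 := (Prod.mk.inj hcon).2
          have h3 : (L.get ⟨i - 1, by omega⟩).1 = (L.get i).1 := h1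
          have hi' : (i : ℕ) - 1 + 1 < L.length := by omega
          have h4 := word_reduced L hL hi'
          have h5 : (⟨(i : ℕ) - 1 + 1, hi'⟩ : Fin L.length) = i := Fin.ext hk
          rw [h5] at h4
          rcases h4 with h4 | h4
          · exact h4 h3.symm
          · exact h4 (by rw [h2, hs])
    · rw [if_neg hs]
      by_cases h0 : (i : ℕ) + 1 = L.length
      · left
        exact ⟨Sum.inr (Sum.inr true), by simp [ff, h0]⟩
      · right; left
        have hk : (i : ℕ) + 1 < L.length := by omega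
        refine ⟨Sum.inl (Sum.inl ⟨i + 1, hk⟩), (L.get ⟨i + 1, hk⟩).2, rfl, ?_, ?_⟩
        · rw [pos_inl, res_x2, pos_word]
          rw [if_pos rfl]
        · intro hcon
          have h1 := (Prod.mk.inj hcon).1
          have h2 := (Prod.mk.inj hcon).2
          have h3 : (L.get ⟨i + 1, hk⟩).1 = (L.get i).1 := h1
          have h4 := word_reduced L hL hk
          rcases h4 with h4 | h4
          · exact h4 h3
          · apply h4
            rw [h2]
            show s = !(L.get i).2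
            revert hs
            cases s <;> cases (L.get i).2 <;> simp
  · left
    exact ⟨Sum.inr (Sum.inl (j, s)), by simp only [ff, Sum.elim_inr, Sum.elim_inl, pos_inl, res_x2]⟩
  · left
    exact ⟨Sum.inl (c, s), rfl⟩

theorem br_x2 : PBR (D2 L) (x2 L θ) := by
  intro v y l₁ l₂ l₃ h12 h13 h23 h1 h2 h3 e s hv hy
  have hI := ins_x2 L θ
  have hy' : y ∈ KV (D2 L) (x2 L θ) v := KE_subset_KV _ _ e s hy
  rw [KV_ext hI] at h1 h2 h3 hy'
  rw [KE_ext hI] at hy
  rw [res_x2] at h1 h2 h3 hy hy'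
  obtain ⟨p, ⟨a, sa, _, rfl⟩, q, ⟨b, sb, _, rfl⟩, r, ⟨c, sc, _, rfl⟩, hM⟩ :=
    exists_Maj h12 h13 h23 hy' h1 h2 h3
  refine ⟨Sum.inr (e, s, (a, sa), (b, sb), (c, sc)), rfl, ?_⟩
  have := pos_x2 L θ (e, s, (a, sa), (b, sb), (c, sc))
  simp only at this
  rw [this]
  exact pt_eq L θ hy hM

end

/-- The number of additional arcs. -/
def nBa (n m : ℕ) : ℕ := n * (2 * (((m + n) * 2) * (((m + n) * 2) * ((m + n) * 2))))

theorem primrec_nBa (n : ℕ) : Primrec (nBa n) := by
  have h1 : Primrec (fun m : ℕ => (m + n) * 2) :=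
    Primrec.nat_mul.comp (Primrec.nat_add.comp Primrec.id (Primrec.const n)) (Primrec.const 2)
  exact Primrec.nat_mul.comp (Primrec.const n) (Primrec.nat_mul.comp (Primrec.const 2)
    (Primrec.nat_mul.comp h1 (Primrec.nat_mul.comp h1 h1)))

theorem card_Ba {n : ℕ} (L : List (Fin n × Bool)) : Fintype.card (Ba L) = nBa n L.length := by
  simp [nBa, Fintype.card_prod]

/-- PART INIT. -/
theorem init : StmInit := by
  intro n hn
  refine ⟨fun m => nBa n m * 2 + (n * 2 + 2), fun m => (m + n) + nBa n m, ?_, ?_, ?_⟩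
  · exact Primrec.nat_add.comp (Primrec.nat_mul.comp (primrec_nBa n) (Primrec.const 2))
      (Primrec.const (n * 2 + 2))
  · exact Primrec.nat_add.comp (Primrec.nat_add.comp Primrec.id (Primrec.const n)) (primrec_nBa n)
  intro L θ hL hTC
  have hI := ins_x2 L θ.toMonoidHom
  refine ⟨_, inferInstance, D2 L, x2 L θ.toMonoidHom, Set.range (ff L θ.toMonoidHom), ?_, ?_⟩
  · constructor
    · exact (TC_ext hI).2 hTC
    · intro j
      exact ⟨Sum.inl (Sum.inr j), rfl⟩
    · intro v
      exact ⟨Sum.inl (Sum.inr ⟨0, by omega⟩), false, rfl⟩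
    · simp [Fintype.card_fin]; omega
    · exact br_x2 L θ.toMonoidHom
    · rw [Fintype.card_sum, Fintype.card_sum, card_Ba, Fintype.card_fin, Fintype.card_fin]
      exact Nat.le_add_right _ _
    · exact Set.finite_range _
    · rw [← Set.image_univ]
      refine (Set.ncard_image_le (Set.finite_univ)).trans ?_
      rw [Set.ncard_univ, Nat.card_eq_fintype_card]
      simp only [Fintype.card_sum, Fintype.card_prod (α := Ba L), Fintype.card_prod (α := Fin n) (β := Bool), card_Ba,
        Fintype.card_fin, Fintype.card_bool]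
      exact le_refl _
    · exact pn_x2 L θ.toMonoidHom hL
  · intro z hz
    exact Rlz_res hI hz

end Pool.Agent.W2helper26.PP
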