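import Pool.Agent.W2helper26.PP.MainB
import Pool.Agent.W2helper26.PP.Geo

/-!
# Potential positivity is decidable: part MAIN
-/

set_option autoImplicit false

namespace Pool.Agent.W2helper26.PP

namespace MainP

theorem base : Base := by
  intro β V E A _ _ _ _ _ D x hT hcov α s α' s' h
  have hp : pos D x α s ∈ KV D x (D.en (D.et α) s) := subset_Hull _ ⟨α, s, rfl, rfl⟩
  have hq : pos D x α' s' ∈ KV D x (D.en (D.et α) s) := subset_Hull _ ⟨α', s', h.symm, rfl⟩
  rw [← Sep_ncard]
  have key : ∀ t ∈ Sep (pos D x α s) (pos D x α' s'),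
      t.1 ∈ KV D x (D.en (D.et α) s) ∧ t.1 * FreeGroup.of t.2 ∈ KV D x (D.en (D.et α) s) := by
    intro t ht
    by_cases h1 : Hs t (pos D x α s)
    · have h2 : ¬ Hs t (pos D x α' s') := fun h3 => ht ⟨fun _ => h3, fun _ => h1⟩
      exact mem_Hull_of_sep hp hq h1 h2
    · have h2 : Hs t (pos D x α' s') := by
        by_contra h3
        exact ht ⟨fun h4 => absurd h4 h1, fun h4 => absurd h4 h3⟩
      exact mem_Hull_of_sep hq hp h2 h1
  have hno : ∀ b p q, ¬ adjb D x b p q := by
    rintro b p q ⟨e, s, h1, h2, h3, h4, h5⟩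
    exact hcov ⟨e, s, p.2, (b, true), h3, h4⟩
  have heqv : ∀ b p q, Relation.EqvGen (adjb D x b) p q → p = q := by
    intro b p q hpq
    induction hpq with
    | rel p q hr => exact absurd hr (hno b p q)
    | refl p => rfl
    | symm p q _ ih => exact ih.symm
    | trans p q r _ _ ih1 ih2 => exact ih1.trans ih2
  have h3 := Set.ncard_le_ncard_of_injOn (s := Sep (pos D x α s) (pos D x α' s'))
    (t := (Set.univ : Set β)) (fun t => t.2) (fun t _ => Set.mem_univ _) (by
      rintro ⟨y, b⟩ ht ⟨y', b'⟩ ht' hbb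
      have hbb' : b = b' := hbb
      subst hbb'
      obtain ⟨h4, h5⟩ := key _ ht
      obtain ⟨h6, h7⟩ := key _ ht'
      have h8 := heqv b _ _ (hT.connb b _ y _ y' h4 h5 h6 h7)
      have h9 : y = y' := congrArg Prod.snd h8
      rw [h9]) (Set.toFinite _)
  rw [Set.ncard_univ, Nat.card_eq_fintype_card] at h3
  exact h3

end MainP

/-- Part MAIN. -/
theorem main_ : StmMain := MainP.main_of_base MainP.base

end Pool.Agent.W2helper26.PP
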