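import Pool.Agent.W2helper26.PP.Geo
import Pool.Agent.W2helper26.PP.Stm

/-!
# The MERGE step
-/

set_option autoImplicit false
set_option linter.unusedSectionVars false

namespace Pool.Agent.W2helper26.PP

open FreeGroup

section Base
variable {β V E A : Type} [DecidableEq β]

theorem mem_nV {D : Dt V E A} {x : Val β E A} {v : V} {y : FreeGroup β} :
    y ∈ nV D x v ↔ ∃ e s, D.en e s = v ∧ y ∈ nE D x e s := by
  constructor
  · rintro ⟨α, s, h1, h2⟩
    exact ⟨D.et α, s, h1, α, rfl, h2⟩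
  · rintro ⟨e, s, h1, α, rfl, h2⟩
    exact ⟨α, s, h1, h2⟩

/-- Property (N) in terms of edge ends. -/
theorem PN_iff {D : Dt V E A} {x : Val β E A} {Q : Set (V × FreeGroup β)} :
    PN D x Q ↔ ∀ (e : E) (s : Bool) (y : FreeGroup β), y ∈ nE D x e s → (D.en e s, y) ∈ Q ∨
      (∃ e' s', D.en e' s' = D.en e s ∧ (e', s') ≠ (e, s) ∧ y ∈ nE D x e' s') ∨
      (IsEnd (KE D x e s) y ∧
        ((∃ e' s', D.en e' s' = D.en e s ∧ (e', s') ≠ (e, s) ∧ y ∈ KE D x e' s') ∨
          ∃ l : β × Bool, y * FreeGroup.mk [l] ∈ KV D x (D.en e s) ∧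
            ∀ e' s', D.en e' s' = D.en e s →
              ¬ (y ∈ KE D x e' s' ∧ y * FreeGroup.mk [l] ∈ KE D x e' s'))) := by
  constructor
  · rintro h e s y ⟨α, rfl, rfl⟩
    rcases h α s with h1 | ⟨α', s', h1, h2, h3⟩ | h1
    · exact Or.inl h1
    · exact Or.inr (Or.inl ⟨D.et α', s', h1, h3, α', rfl, h2⟩)
    · exact Or.inr (Or.inr h1)
  · intro h α s
    rcases h (D.et α) s (pos D x α s) ⟨α, rfl, rfl⟩ with h1 | ⟨e', s', h1, h2, α', rfl, h3⟩ | h1
    · exact Or.inl h1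
    · exact Or.inr (Or.inl ⟨α', s', h1, h3, h2⟩)
    · exact Or.inr (Or.inr h1)

theorem PBR_iff {D : Dt V E A} {x : Val β E A} :
    PBR D x ↔ ∀ v y (l₁ l₂ l₃ : β × Bool), l₁ ≠ l₂ → l₁ ≠ l₃ → l₂ ≠ l₃ →
      y * FreeGroup.mk [l₁] ∈ KV D x v → y * FreeGroup.mk [l₂] ∈ KV D x v →
      y * FreeGroup.mk [l₃] ∈ KV D x v →
      ∀ e s, D.en e s = v → y ∈ KE D x e s → y ∈ nE D x e s := Iff.rfl

end Base

section Transfer
variable {β V E A V' E' A' : Type} [DecidableEq β]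

/-- The state `(D', x')` looks like a part of the state `(D, x)`. -/
structure Tra (D : Dt V E A) (x : Val β E A) (D' : Dt V' E' A') (x' : Val β E' A')
    (ι : V' → V) (ρ : E' × Bool → E × Bool) : Prop where
  inj : Function.Injective ι
  rinj : Function.Injective ρ
  en : ∀ b, ι (D'.en b.1 b.2) = D.en (ρ b).1 (ρ b).2
  sur : ∀ b w, D.en b.1 b.2 = ι w → ∃ b', ρ b' = b
  nE : ∀ b, nE D' x' b.1 b.2 = nE D x (ρ b).1 (ρ b).2

variable {D : Dt V E A} {x : Val β E A} {D' : Dt V' E' A'} {x' : Val β E' A'}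
    {ι : V' → V} {ρ : E' × Bool → E × Bool}

theorem Tra.KE (h : Tra D x D' x' ι ρ) (b : E' × Bool) : KE D' x' b.1 b.2 = KE D x (ρ b).1 (ρ b).2 := by
  unfold PP.KE; rw [h.nE]

theorem Tra.nV (h : Tra D x D' x' ι ρ) (w : V') : nV D' x' w = nV D x (ι w) := by
  ext y
  rw [mem_nV, mem_nV]
  constructor
  · rintro ⟨e, s, rfl, h2⟩
    refine ⟨(ρ (e, s)).1, (ρ (e, s)).2, (h.en (e, s)).symm, ?_⟩
    rw [← h.nE (e, s)]; exact h2
  · rintro ⟨e, s, h1, h2⟩
    obtain ⟨⟨e', s'⟩, hb⟩ := h.sur (e, s) w h1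
    refine ⟨e', s', h.inj ?_, ?_⟩
    · rw [← h1]
      have := h.en (e', s')
      rw [hb] at this; exact this
    · have := h.nE (e', s')
      rw [hb] at this
      simp only at this
      rw [this]; exact h2

theorem Tra.KV (h : Tra D x D' x' ι ρ) (w : V') : KV D' x' w = KV D x (ι w) := by
  unfold PP.KV; rw [h.nV]

theorem Tra.kap (h : Tra D x D' x' ι ρ) (w : V') : kap D' x' w = kap D x (ι w) := by
  unfold PP.kap; rw [h.nV]

theorem Tra.base (h : Tra D x D' x' ι ρ) {e : E} {s : Bool} {w : V'} (h1 : D.en e s = ι w) :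
    ∃ e' s', ρ (e', s') = (e, s) ∧ D'.en e' s' = w ∧ PP.nE D' x' e' s' = PP.nE D x e s ∧
      PP.KE D' x' e' s' = PP.KE D x e s := by
  obtain ⟨⟨e', s'⟩, hb⟩ := h.sur (e, s) w h1
  refine ⟨e', s', hb, h.inj ?_, ?_, ?_⟩
  · rw [← h1]
    have := h.en (e', s')
    rw [hb] at this; exact this
  · have := h.nE (e', s')
    rw [hb] at this; exact this
  · have := h.KE (e', s')
    rw [hb] at this; exact this

theorem Tra.pn (h : Tra D x D' x' ι ρ) {Q : Set (V × FreeGroup β)} (hP : PN D x Q) :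
    PN D' x' {p | (ι p.1, p.2) ∈ Q} := by
  rw [PN_iff] at hP ⊢
  intro e s y hy
  have hen : D.en (ρ (e, s)).1 (ρ (e, s)).2 = ι (D'.en e s) := (h.en (e, s)).symm
  have hnE : PP.nE D x (ρ (e, s)).1 (ρ (e, s)).2 = PP.nE D' x' e s := (h.nE (e, s)).symm
  have hKE : PP.KE D x (ρ (e, s)).1 (ρ (e, s)).2 = PP.KE D' x' e s := (h.KE (e, s)).symm
  have := hP (ρ (e, s)).1 (ρ (e, s)).2 y (by rw [hnE]; exact hy)
  rw [hen, hKE] at this
  rcases this with h1 | ⟨e₁, s₁, h1, h2, h3⟩ | ⟨h1, h2⟩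
  · exact Or.inl h1
  · right; left
    obtain ⟨e', s', a1, a2, a3, a4⟩ := h.base h1
    refine ⟨e', s', a2, ?_, a3 ▸ h3⟩
    intro h4
    apply h2
    rw [← a1, h4]
  · right; right
    refine ⟨h1, ?_⟩
    rcases h2 with ⟨e₁, s₁, h1, h2, h3⟩ | ⟨l, h2, h3⟩
    · left
      obtain ⟨e', s', a1, a2, a3, a4⟩ := h.base h1
      refine ⟨e', s', a2, ?_, a4 ▸ h3⟩
      intro h4
      apply h2
      rw [← a1, h4]
    · right
      refine ⟨l, ?_, ?_⟩
      · rw [h.KV]; exact h2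
      · intro e' s' h4
        have h5 := h3 (ρ (e', s')).1 (ρ (e', s')).2 (by
          have := h.en (e', s')
          rw [← this]; simp only; rw [h4])
        have h6 := h.KE (e', s')
        simp only at h6
        rw [h6]; exact h5

theorem Tra.pbr (h : Tra D x D' x' ι ρ) (hP : PBR D x) : PBR D' x' := by
  rw [PBR_iff] at hP ⊢
  intro v y l₁ l₂ l₃ h1 h2 h3 h4 h5 h6 e s h7 h8
  rw [h.KV] at h4 h5 h6
  have hen := h.en (e, s)
  have hnE := h.nE (e, s)
  have hKE := h.KE (e, s)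
  simp only at hen hnE hKE
  rw [hnE]
  apply hP (ι v) y l₁ l₂ l₃ h1 h2 h3 h4 h5 h6
  · rw [← hen, h7]
  · rw [← hKE]; exact h8

end Transfer

section Merge
variable {β V E A : Type} [DecidableEq β]

/-- The combinatorial situation of a merge at `v`. -/
structure MC (D : Dt V E A) (v : V) (e0 : E) (s0 : Bool) (f0 : E) (s1 : Bool) : Prop where
  ne : e0 ≠ f0
  h0 : D.en e0 s0 = v
  h1 : D.en f0 s1 = v
  all : ∀ e s, D.en e s = v → (e, s) = (e0, s0) ∨ (e, s) = (f0, s1)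

variable {D : Dt V E A} {v : V} {e0 : E} {s0 : Bool} {f0 : E} {s1 : Bool}

theorem MC.nf (h : MC D v e0 s0 f0 s1) : D.en f0 (!s1) ≠ v := by
  intro h'
  rcases h.all f0 (!s1) h' with h2 | h2
  · exact h.ne (Prod.ext_iff.1 h2).1.symm
  · have := (Prod.ext_iff.1 h2).2
    simp at this

theorem MC.no (h : MC D v e0 s0 f0 s1) {e : E} {s : Bool} (h1 : e ≠ f0) (h2 : ¬ (e = e0 ∧ s = s0)) :
    D.en e s ≠ v := by
  intro h'
  rcases h.all e s h' with h3 | h3
  · exact h2 (Prod.ext_iff.1 h3)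
  · exact h1 (Prod.ext_iff.1 h3).1

open Classical in
/-- The merged data. -/
noncomputable def mD (h : MC D v e0 s0 f0 s1) : Dt {w : V // w ≠ v} {e : E // e ≠ f0} {α : A // D.et α ≠ f0} where
  en := fun e s => if h' : e.1 = e0 ∧ s = s0 then ⟨D.en f0 (!s1), h.nf⟩ else ⟨D.en e.1 s, h.no e.2 h'⟩
  et := fun α => ⟨D.et α.1, α.2⟩

open Classical in
/-- The correspondence of edge ends. -/
noncomputable def mrho (e0 : E) (s0 : Bool) (f0 : E) (s1 : Bool) : {e : E // e ≠ f0} × Bool → E × Bool :=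
  fun b => if b.1.1 = e0 ∧ b.2 = s0 then (f0, !s1) else (b.1.1, b.2)

theorem mD_en_same (h : MC D v e0 s0 f0 s1) : (mD h).en ⟨e0, h.ne⟩ s0 = ⟨D.en f0 (!s1), h.nf⟩ := by
  simp [mD]

theorem mD_en_other (h : MC D v e0 s0 f0 s1) {e : E} {s : Bool} (h1 : e ≠ f0) (h2 : ¬ (e = e0 ∧ s = s0)) :
    (mD h).en ⟨e, h1⟩ s = ⟨D.en e s, h.no h1 h2⟩ := by
  simp [mD, h2]

theorem mrho_same (h : e0 ≠ f0) : mrho e0 s0 f0 s1 (⟨e0, h⟩, s0) = (f0, !s1) := by
  simp [mrho]

theorem mrho_other {e : E} {s : Bool} (h1 : e ≠ f0) (h2 : ¬ (e = e0 ∧ s = s0)) :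
    mrho e0 s0 f0 s1 (⟨e, h1⟩, s) = (e, s) := by
  simp [mrho, h2]

theorem mD_en (h : MC D v e0 s0 f0 s1) (b : {e : E // e ≠ f0} × Bool) :
    ((mD h).en b.1 b.2).1 = D.en (mrho e0 s0 f0 s1 b).1 (mrho e0 s0 f0 s1 b).2 := by
  obtain ⟨⟨e, he⟩, s⟩ := b
  by_cases hc : e = e0 ∧ s = s0
  · obtain ⟨rfl, rfl⟩ := hc
    rw [mrho_same, mD_en_same]
  · rw [mrho_other he hc, mD_en_other h he hc]

theorem mrho_inj (h : MC D v e0 s0 f0 s1) : Function.Injective (mrho e0 s0 f0 s1) := by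
  rintro ⟨⟨e, he⟩, s⟩ ⟨⟨e', he'⟩, s'⟩ h'
  by_cases hc : e = e0 ∧ s = s0 <;> by_cases hc' : e' = e0 ∧ s' = s0
  · obtain ⟨rfl, rfl⟩ := hc
    obtain ⟨rfl, rfl⟩ := hc'
    rfl
  · obtain ⟨rfl, rfl⟩ := hc
    rw [mrho_same, mrho_other he' hc'] at h'
    exact absurd (Prod.ext_iff.1 h').1.symm he'
  · obtain ⟨rfl, rfl⟩ := hc'
    rw [mrho_same, mrho_other he hc] at h'
    exact absurd (Prod.ext_iff.1 h').1 he
  · rw [mrho_other he hc, mrho_other he' hc'] at h'
    obtain ⟨h1, h2⟩ := Prod.ext_iff.1 h'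
    simp only at h1 h2
    subst h1 h2
    rfl

theorem mrho_sur (h : MC D v e0 s0 f0 s1) (b : E × Bool) (hb : D.en b.1 b.2 ≠ v) :
    ∃ b', mrho e0 s0 f0 s1 b' = b := by
  obtain ⟨e, s⟩ := b
  simp only at hb
  by_cases he : e = f0
  · subst he
    have : s = !s1 := by
      have : s ≠ s1 := fun h2 => hb (by rw [h2]; exact h.h1)
      revert this
      cases s <;> cases s1 <;> simp
    subst this
    exact ⟨(⟨e0, h.ne⟩, s0), mrho_same h.ne⟩
  · have hc : ¬ (e = e0 ∧ s = s0) := by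
      rintro ⟨rfl, rfl⟩
      exact hb h.h0
    exact ⟨(⟨e, he⟩, s), mrho_other he hc⟩

/-- The relation between a state and its merged state. -/
structure MR (h : MC D v e0 s0 f0 s1) (x : Val β E A)
    (x' : Val β {e : E // e ≠ f0} {α : A // D.et α ≠ f0}) : Prop where
  tre : tr x' ⟨e0, h.ne⟩ s0 * tr x f0 s1 = tr x e0 s0
  tro : ∀ e (h' : e ≠ f0), e ≠ e0 → ∀ s, tr x' ⟨e, h'⟩ s = tr x e s
  nn : nE D x e0 s0 = nE D x f0 s1
  ns : nE (mD h) x' ⟨e0, h.ne⟩ s0 = nE D x f0 (!s1)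
  no : ∀ e s (h1 : e ≠ f0), ¬ (e = e0 ∧ s = s0) → nE (mD h) x' ⟨e, h1⟩ s = nE D x e s

variable {h : MC D v e0 s0 f0 s1} {x : Val β E A} {x' : Val β {e : E // e ≠ f0} {α : A // D.et α ≠ f0}}

theorem MR.tra (H : MR h x x') : Tra D x (mD h) x' Subtype.val (mrho e0 s0 f0 s1) where
  inj := Subtype.val_injective
  rinj := mrho_inj h
  en := mD_en h
  sur := fun b w hb => mrho_sur h b (by rw [hb]; exact w.2)
  nE := by
    rintro ⟨⟨e, he⟩, s⟩
    by_cases hc : e = e0 ∧ s = s0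
    · obtain ⟨rfl, rfl⟩ := hc
      rw [mrho_same]; exact H.ns
    · rw [mrho_other he hc]; exact H.no e s he hc

theorem MR.KEe (H : MR h x x') : KE D x e0 s0 = KE D x f0 s1 := by unfold KE; rw [H.nn]

theorem MR.nVv (H : MR h x x') : nV D x v = nE D x f0 s1 := by
  ext y
  rw [mem_nV]
  constructor
  · rintro ⟨e, s, h1, h2⟩
    rcases h.all e s h1 with h3 | h3
    · obtain ⟨rfl, rfl⟩ := Prod.ext_iff.1 h3
      rw [← H.nn]; exact h2
    · obtain ⟨rfl, rfl⟩ := Prod.ext_iff.1 h3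
      exact h2
  · intro h2
    exact ⟨f0, s1, h.h1, h2⟩

theorem MR.KVv (H : MR h x x') : KV D x v = KE D x f0 s1 := by
  unfold KV KE; rw [H.nVv]

theorem MR.KEs (H : MR h x x') : KE (mD h) x' ⟨e0, h.ne⟩ s0 = KE D x f0 (!s1) := by
  unfold KE; rw [H.ns]

theorem MR.KEo (H : MR h x x') {e : E} {s : Bool} (h1 : e ≠ f0) (h2 : ¬ (e = e0 ∧ s = s0)) :
    KE (mD h) x' ⟨e, h1⟩ s = KE D x e s := by
  unfold KE; rw [H.no e s h1 h2]

open Classical in
/-- The map on vertices. -/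
noncomputable def mphi (h : MC D v e0 s0 f0 s1) (x : Val β E A) (p : V × FreeGroup β) :
    {w : V // w ≠ v} × FreeGroup β :=
  if hp : p.1 = v then (⟨D.en f0 (!s1), h.nf⟩, tr x f0 s1 * p.2) else (⟨p.1, hp⟩, p.2)

theorem mphi_v (h : MC D v e0 s0 f0 s1) (x : Val β E A) (y : FreeGroup β) :
    mphi h x (v, y) = (⟨D.en f0 (!s1), h.nf⟩, tr x f0 s1 * y) := by
  simp [mphi]

theorem mphi_o (h : MC D v e0 s0 f0 s1) (x : Val β E A) {w : V} (hw : w ≠ v) (y : FreeGroup β) :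
    mphi h x (w, y) = (⟨w, hw⟩, y) := by
  simp [mphi, hw]

/-- Adjacency with a step `c`. -/
def gadj {V E A : Type} (D : Dt V E A) (x : Val β E A) (c : FreeGroup β) (p q : V × FreeGroup β) : Prop :=
  ∃ e s, D.en e s = p.1 ∧ D.en e (!s) = q.1 ∧ p.2 ∈ KE D x e s ∧ p.2 * c ∈ KE D x e s ∧
    q.2 = tr x e s * p.2

theorem gadj_symm {V E A : Type} {D : Dt V E A} {x : Val β E A} {c : FreeGroup β} {p q : V × FreeGroup β}
    (h : gadj D x c p q) : gadj D x c q p := by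
  obtain ⟨e, s, h1, h2, h3, h3', h4⟩ := h
  refine ⟨e, !s, h2, by simpa using h1, ?_, ?_, ?_⟩
  · rw [h4]; exact tr_mem_KE' D x h3
  · rw [h4, mul_assoc]; exact tr_mem_KE' D x h3'
  · rw [h4, tr_not]; group

theorem gadj_one {V E A : Type} {D : Dt V E A} {x : Val β E A} : gadj D x 1 = adj D x := by
  funext p q
  simp [gadj, adj]

theorem gadj_of {V E A : Type} {D : Dt V E A} {x : Val β E A} (b : β) : gadj D x (of b) = adjb D x b := rfl

/-- Connectedness with a step `c`. -/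
def Conn {V E A : Type} (D : Dt V E A) (x : Val β E A) (c : FreeGroup β) : Prop :=
  ∀ v y w z, y ∈ KV D x v → y * c ∈ KV D x v → z ∈ KV D x w → z * c ∈ KV D x w →
    Relation.EqvGen (gadj D x c) (v, y) (w, z)

theorem Conn_one {V E A : Type} {D : Dt V E A} {x : Val β E A} :
    Conn D x 1 ↔ ∀ v y w z, y ∈ KV D x v → z ∈ KV D x w → Relation.EqvGen (adj D x) (v, y) (w, z) := by
  unfold Conn
  rw [gadj_one]
  simp only [mul_one]
  constructor
  · intro h v y w z h1 h2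
    exact h v y w z h1 h1 h2 h2
  · intro h v y w z h1 _ h2 _
    exact h v y w z h1 h2

theorem gadj_fwd (H : MR h x x') {c : FreeGroup β} {p q : V × FreeGroup β} (hpq : gadj D x c p q) :
    mphi h x p = mphi h x q ∨ gadj (mD h) x' c (mphi h x p) (mphi h x q) := by
  -- the case of `e0`, `s0`
  have key : ∀ p q : V × FreeGroup β, D.en e0 s0 = p.1 → D.en e0 (!s0) = q.1 → p.2 ∈ KE D x e0 s0 →
      p.2 * c ∈ KE D x e0 s0 → q.2 = tr x e0 s0 * p.2 →
      gadj (mD h) x' c (mphi h x p) (mphi h x q) := by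
    rintro ⟨p1, p2⟩ ⟨q1, q2⟩ h1 h2 h3 h4 h5
    simp only at h1 h2 h3 h4 h5
    subst h2 h5
    rw [h.h0] at h1
    subst h1
    have hno : ¬ (e0 = e0 ∧ (!s0) = s0) := by simp
    rw [mphi_v, mphi_o h x (h.no h.ne hno)]
    refine ⟨⟨e0, h.ne⟩, s0, mD_en_same h, mD_en_other h h.ne hno, ?_, ?_, ?_⟩
    · simp only
      rw [H.KEs]; rw [H.KEe] at h3; exact tr_mem_KE' D x h3
    · simp only
      rw [H.KEs, mul_assoc]; rw [H.KEe] at h4; exact tr_mem_KE' D x h4
    · simp only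
      rw [← mul_assoc, H.tre]
  obtain ⟨e, s, h1, h2, h3, h4, h5⟩ := hpq
  by_cases hf : e = f0
  · subst hf
    left
    obtain ⟨p1, p2⟩ := p
    obtain ⟨q1, q2⟩ := q
    simp only at h1 h2 h3 h4 h5
    subst h1 h2 h5
    by_cases hs : s = s1
    · subst hs
      have e1 : ∀ y : FreeGroup β, (D.en e s, y) = (v, y) := fun y => by rw [h.h1]
      rw [e1, mphi_v, mphi_o h x h.nf]
    · have hs' : s = !s1 := by
        revert hs
        cases s <;> cases s1 <;> simp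
      subst hs'
      rw [mphi_o h x h.nf]
      have e1 : ∀ y : FreeGroup β, (D.en e (!!s1), y) = (v, y) := fun y => by rw [Bool.not_not, h.h1]
      rw [e1, mphi_v, ← mul_assoc, tr_not]
      congr 1
      group
  · right
    by_cases he : e = e0
    · subst he
      by_cases hs : s = s0
      · subst hs
        exact key p q h1 h2 h3 h4 h5
      · have hs' : s = !s0 := by
          revert hs
          cases s <;> cases s0 <;> simp
        subst hs'
        apply gadj_symm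
        simp only [Bool.not_not] at h2
        apply key q p h2 h1
        · rw [h5]
          have := tr_mem_KE' D x h3
          rwa [Bool.not_not] at this
        · rw [h5, mul_assoc]
          have := tr_mem_KE' D x h4
          rwa [Bool.not_not] at this
        · rw [h5, tr_not]; group
    · obtain ⟨p1, p2⟩ := p
      obtain ⟨q1, q2⟩ := q
      simp only at h1 h2 h3 h4 h5
      subst h1 h2 h5
      have hc : ∀ s, ¬ (e = e0 ∧ s = s0) := fun s h' => he h'.1
      rw [mphi_o h x (h.no hf (hc s)), mphi_o h x (h.no hf (hc (!s)))]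
      refine ⟨⟨e, hf⟩, s, mD_en_other h hf (hc s), mD_en_other h hf (hc (!s)), ?_, ?_, ?_⟩
      · simp only
        rw [H.KEo hf (hc s)]; exact h3
      · simp only
        rw [H.KEo hf (hc s)]; exact h4
      · simp only
        rw [H.tro e hf he]

theorem gadj_bwd (H : MR h x x') {c : FreeGroup β} {p q : {w : V // w ≠ v} × FreeGroup β}
    (hpq : gadj (mD h) x' c p q) : Relation.EqvGen (gadj D x c) (p.1.1, p.2) (q.1.1, q.2) := by
  have key : ∀ p q : {w : V // w ≠ v} × FreeGroup β, (mD h).en ⟨e0, h.ne⟩ s0 = p.1 →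
      (mD h).en ⟨e0, h.ne⟩ (!s0) = q.1 → p.2 ∈ KE (mD h) x' ⟨e0, h.ne⟩ s0 →
      p.2 * c ∈ KE (mD h) x' ⟨e0, h.ne⟩ s0 → q.2 = tr x' ⟨e0, h.ne⟩ s0 * p.2 →
      Relation.EqvGen (gadj D x c) (p.1.1, p.2) (q.1.1, q.2) := by
    rintro ⟨p1, p2⟩ ⟨q1, q2⟩ h1 h2 h3 h4 h5
    simp only at h1 h2 h3 h4 h5
    subst h1 h2 h5
    have hno : ¬ (e0 = e0 ∧ (!s0) = s0) := by simp
    rw [mD_en_same, mD_en_other h h.ne hno]
    simp only
    rw [H.KEs] at h3 h4
    refine Relation.EqvGen.trans _ (v, tr x f0 (!s1) * p2) _ ?_ ?_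
    · apply Relation.EqvGen.rel
      exact ⟨f0, !s1, rfl, by rw [Bool.not_not]; exact h.h1, h3, h4, rfl⟩
    · apply Relation.EqvGen.rel
      refine ⟨e0, s0, h.h0, rfl, ?_, ?_, ?_⟩
      · simp only
        rw [H.KEe]
        have := tr_mem_KE' D x h3
        rwa [Bool.not_not] at this
      · simp only
        rw [H.KEe, mul_assoc]
        have := tr_mem_KE' D x h4
        rwa [Bool.not_not] at this
      · simp only
        rw [← H.tre, tr_not]; group
  obtain ⟨⟨e, hf⟩, s, h1, h2, h3, h4, h5⟩ := hpq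
  by_cases he : e = e0
  · subst he
    by_cases hs : s = s0
    · subst hs
      exact key p q h1 h2 h3 h4 h5
    · have hs' : s = !s0 := by
        revert hs
        cases s <;> cases s0 <;> simp
      subst hs'
      apply Relation.EqvGen.symm
      simp only [Bool.not_not] at h2
      apply key q p h2 h1
      · rw [h5]
        have := tr_mem_KE' (mD h) x' h3
        rwa [Bool.not_not] at this
      · rw [h5, mul_assoc]
        have := tr_mem_KE' (mD h) x' h4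
        rwa [Bool.not_not] at this
      · rw [h5, tr_not]; group
  · obtain ⟨p1, p2⟩ := p
    obtain ⟨q1, q2⟩ := q
    simp only at h1 h2 h3 h4 h5
    subst h1 h2 h5
    have hc : ∀ s, ¬ (e = e0 ∧ s = s0) := fun s h' => he h'.1
    rw [mD_en_other h hf (hc s), mD_en_other h hf (hc (!s))]
    apply Relation.EqvGen.rel
    rw [H.KEo hf (hc s)] at h3 h4
    refine ⟨e, s, rfl, rfl, h3, h4, ?_⟩
    simp only
    rw [H.tro e hf he]

theorem mphi_val (h : MC D v e0 s0 f0 s1) (x : Val β E A) (p : {w : V // w ≠ v} × FreeGroup β) :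
    mphi h x (p.1.1, p.2) = p := by
  rw [mphi_o h x p.1.2]

theorem EqvGen_fwd (H : MR h x x') {c : FreeGroup β} {p q : V × FreeGroup β}
    (hpq : Relation.EqvGen (gadj D x c) p q) :
    Relation.EqvGen (gadj (mD h) x' c) (mphi h x p) (mphi h x q) := by
  induction hpq with
  | rel p q h1 =>
    rcases gadj_fwd H h1 with h2 | h2
    · rw [h2]; exact Relation.EqvGen.refl _
    · exact Relation.EqvGen.rel _ _ h2
  | refl p => exact Relation.EqvGen.refl _
  | symm p q _ ih => exact ih.symm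
  | trans p q r _ _ i1 i2 => exact i1.trans _ _ _ i2

theorem EqvGen_bwd (H : MR h x x') {c : FreeGroup β} {p q : {w : V // w ≠ v} × FreeGroup β}
    (hpq : Relation.EqvGen (gadj (mD h) x' c) p q) :
    Relation.EqvGen (gadj D x c) (p.1.1, p.2) (q.1.1, q.2) := by
  induction hpq with
  | rel p q h1 => exact gadj_bwd H h1
  | refl p => exact Relation.EqvGen.refl _
  | symm p q _ ih => exact ih.symm
  | trans p q r _ _ i1 i2 => exact i1.trans _ _ _ i2

theorem KV_m (H : MR h x x') {w : V} (hw : w ≠ v) : KV (mD h) x' ⟨w, hw⟩ = KV D x w := H.tra.KV ⟨w, hw⟩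

/-- Every vertex of the big graph is joined to its image. -/
theorem to_mphi (H : MR h x x') {c : FreeGroup β} {w : V} {y : FreeGroup β} (h1 : y ∈ KV D x w)
    (h2 : y * c ∈ KV D x w) :
    ∃ (w' : {w : V // w ≠ v}) (y' : FreeGroup β), Relation.EqvGen (gadj D x c) (w, y) (w'.1, y') ∧
      y' ∈ KV (mD h) x' w' ∧ y' * c ∈ KV (mD h) x' w' := by
  by_cases hw : w = v
  · subst hw
    rw [H.KVv] at h1 h2
    refine ⟨⟨D.en f0 (!s1), h.nf⟩, tr x f0 s1 * y, Relation.EqvGen.rel _ _ ⟨f0, s1, h.h1, rfl, h1, h2, rfl⟩, ?_, ?_⟩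
    · rw [KV_m H]
      exact KE_subset_KV D x f0 (!s1) (tr_mem_KE' D x h1)
    · rw [KV_m H, mul_assoc]
      exact KE_subset_KV D x f0 (!s1) (tr_mem_KE' D x h2)
  · refine ⟨⟨w, hw⟩, y, Relation.EqvGen.refl _, ?_, ?_⟩
    · rw [KV_m H]; exact h1
    · rw [KV_m H]; exact h2

theorem Conn_iff (H : MR h x x') (c : FreeGroup β) : Conn D x c ↔ Conn (mD h) x' c := by
  constructor
  · intro hC w y w' z h1 h2 h3 h4
    obtain ⟨w, hw⟩ := w
    obtain ⟨w', hw'⟩ := w'
    rw [KV_m H] at h1 h2 h3 h4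
    have := EqvGen_fwd H (hC w y w' z h1 h2 h3 h4)
    rwa [mphi_o h x hw, mphi_o h x hw'] at this
  · intro hC w y w' z h1 h2 h3 h4
    obtain ⟨w₁, y₁, a1, a2, a3⟩ := to_mphi H h1 h2
    obtain ⟨w₂, y₂, b1, b2, b3⟩ := to_mphi H h3 h4
    exact (a1.trans _ _ _ (EqvGen_bwd H (hC w₁ y₁ w₂ y₂ a2 a3 b2 b3))).trans _ _ _ b1.symm

theorem neb_iff (H : MR h x x') (b : β) : (∃ v y, y ∈ KV D x v ∧ y * of b ∈ KV D x v) ↔
    (∃ v y, y ∈ KV (mD h) x' v ∧ y * of b ∈ KV (mD h) x' v) := by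
  constructor
  · rintro ⟨w, y, h1, h2⟩
    obtain ⟨w₁, y₁, _, a2, a3⟩ := to_mphi H h1 h2
    exact ⟨w₁, y₁, a2, a3⟩
  · rintro ⟨⟨w, hw⟩, y, h1, h2⟩
    rw [KV_m H] at h1 h2
    exact ⟨w, y, h1, h2⟩

theorem card_iff [Fintype V] [Fintype E] [i1 : Fintype {w : V // w ≠ v}] [i2 : Fintype {e : E // e ≠ f0}]
    (H : MR h x x') : (∑ v, (KV D x v).ncard = ∑ e, (KE D x e false).ncard + 1) ↔
    (∑ v, (KV (mD h) x' v).ncard = ∑ e, (KE (mD h) x' e false).ncard + 1) := by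
  classical
  obtain rfl : i1 = Subtype.fintype _ := Subsingleton.elim _ _
  obtain rfl : i2 = Subtype.fintype _ := Subsingleton.elim _ _
  have E1 := Fintype.sum_eq_add_sum_subtype_ne (fun w => (KV D x w).ncard) v
  have E2 := Fintype.sum_eq_add_sum_subtype_ne (fun e => (KE D x e false).ncard) f0
  have e1 : ∀ w : {w : V // w ≠ v}, (KV (mD h) x' w).ncard = (KV D x w.1).ncard := fun w => by
    rw [H.tra.KV]
  have e2 : ∀ e : {e : E // e ≠ f0}, (KE (mD h) x' e false).ncard = (KE D x e.1 false).ncard := by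
    rintro ⟨e, he⟩
    rw [← KE_ncard (mD h) x' _ (!s0), ← KE_ncard D x _ (!s0)]
    rw [H.KEo he (by simp)]
  have e3 : (KV D x v).ncard = (KE D x f0 false).ncard := by
    rw [H.KVv, KE_ncard]
  have e4 : ∑ w : {w : V // w ≠ v}, (KV (mD h) x' w).ncard = ∑ w : {w : V // w ≠ v}, (KV D x w.1).ncard :=
    Finset.sum_congr rfl fun w _ => e1 w
  have e5 : ∑ e : {e : E // e ≠ f0}, (KE (mD h) x' e false).ncard
      = ∑ e : {e : E // e ≠ f0}, (KE D x e.1 false).ncard := Finset.sum_congr rfl fun w _ => e2 w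
  rw [e4, e5, E1, E2, e3]
  omega

theorem TC_iff [Fintype V] [Fintype E] [Fintype {w : V // w ≠ v}] [Fintype {e : E // e ≠ f0}]
    (H : MR h x x') : TC D x ↔ TC (mD h) x' := by
  constructor
  · intro hT
    refine ⟨Conn_one.1 ((Conn_iff H 1).1 (Conn_one.2 hT.conn)), (card_iff H).1 hT.card, ?_, ?_⟩
    · intro b
      exact (Conn_iff H (of b)).1 (hT.connb b)
    · intro b
      exact (neb_iff H b).1 (hT.neb b)
  · intro hT
    refine ⟨Conn_one.1 ((Conn_iff H 1).2 (Conn_one.2 hT.conn)), (card_iff H).2 hT.card, ?_, ?_⟩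
    · intro b
      exact (Conn_iff H (of b)).2 (hT.connb b)
    · intro b
      exact (neb_iff H b).2 (hT.neb b)

/-! ### the merged values -/

open Classical in
/-- The merged values. -/
noncomputable def mX (_ : MC D v e0 s0 f0 s1) (x : Val β E A) :
    Val β {e : E // e ≠ f0} {α : A // D.et α ≠ f0} where
  τ := fun e => if e.1 = e0 then (if s0 then tr x f0 s1 * x.τ e0 else x.τ e0 * (tr x f0 s1)⁻¹) else x.τ e.1
  g := fun α => if D.et α.1 = e0 ∧ s0 = false then tr x f0 s1 * x.g α.1 else x.g α.1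

theorem mX_pos_same (h : MC D v e0 s0 f0 s1) (x : Val β E A) {α : A} (hα : D.et α ≠ f0) (he : D.et α = e0) :
    pos (mD h) (mX h x) ⟨α, hα⟩ s0 = tr x f0 s1 * pos D x α s0 := by
  subst he
  cases s0
  · simp [pos, mX]
  · simp [pos, mX, mD, mul_assoc]

theorem mX_pos_other (h : MC D v e0 s0 f0 s1) (x : Val β E A) {α : A} {s : Bool} (hα : D.et α ≠ f0)
    (he : ¬ (D.et α = e0 ∧ s = s0)) :
    pos (mD h) (mX h x) ⟨α, hα⟩ s = pos D x α s := by
  by_cases he' : D.et α = e0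
  · subst he'
    have hs : s ≠ s0 := fun h' => he ⟨rfl, h'⟩
    cases s0 <;> cases s
    · exact absurd rfl hs
    · simp [pos, mX, mD, mul_assoc]
    · simp [pos, mX]
    · exact absurd rfl hs
  · cases s <;> simp [pos, mX, mD, he']

theorem mX_tr_same (h : MC D v e0 s0 f0 s1) (x : Val β E A) :
    tr (mX h x) ⟨e0, h.ne⟩ s0 * tr x f0 s1 = tr x e0 s0 := by
  cases s0
  · have h1 : tr (mX h x) ⟨e0, h.ne⟩ false = x.τ e0 * (tr x f0 s1)⁻¹ := by
      conv_lhs => rw [tr]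
      simp [mX]
    have h2 : tr x e0 false = x.τ e0 := by simp [tr]
    rw [h1, h2]; group
  · have h1 : tr (mX h x) ⟨e0, h.ne⟩ true = (tr x f0 s1 * x.τ e0)⁻¹ := by
      conv_lhs => rw [tr]
      simp [mX]
    have h2 : tr x e0 true = (x.τ e0)⁻¹ := by simp [tr]
    rw [h1, h2]; group

theorem mX_tr_other (h : MC D v e0 s0 f0 s1) (x : Val β E A) {e : E} (he : e ≠ f0) (he' : e ≠ e0) (s : Bool) :
    tr (mX h x) ⟨e, he⟩ s = tr x e s := by
  cases s <;> simp [tr, mX, he']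

theorem mX_MR (h : MC D v e0 s0 f0 s1) (x : Val β E A) (hn : nE D x e0 s0 = nE D x f0 s1) :
    MR h x (mX h x) where
  tre := mX_tr_same h x
  tro := fun _ h1 h2 s => mX_tr_other h x h1 h2 s
  nn := hn
  ns := by
    rw [nE_not, ← hn]
    ext y
    constructor
    · rintro ⟨⟨α, hα⟩, h1, rfl⟩
      have h1' : D.et α = e0 := congrArg Subtype.val h1
      exact ⟨pos D x α s0, ⟨α, h1', rfl⟩, (mX_pos_same h x hα h1').symm⟩
    · rintro ⟨_, ⟨α, h1, rfl⟩, rfl⟩
      have hα : D.et α ≠ f0 := by rw [h1]; exact h.ne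
      exact ⟨⟨α, hα⟩, Subtype.ext h1, mX_pos_same h x hα h1⟩
  no := by
    intro e s he hc
    ext y
    constructor
    · rintro ⟨⟨α, hα⟩, h1, rfl⟩
      have h1' : D.et α = e := congrArg Subtype.val h1
      refine ⟨α, h1', (mX_pos_other h x hα ?_).symm⟩
      rw [h1']; exact hc
    · rintro ⟨α, h1, rfl⟩
      have hα : D.et α ≠ f0 := by rw [h1]; exact he
      refine ⟨⟨α, hα⟩, Subtype.ext h1, mX_pos_other h x hα ?_⟩
      rw [h1]; exact hc

/-! ### unmerging -/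

/-- Names coinciding in the old state coincide in a realisation. -/
theorem pos_eq_of_pat {V E A : Type} {D : Dt V E A} {x y : Val β E A}
    (hp : ∀ v t, pat D y v t ∈ ty D x v) {α : A} {s : Bool} {α' : A} {s' : Bool}
    (hn : D.en (D.et α) s = D.en (D.et α') s') (he : pos D x α s = pos D x α' s') :
    pos D y α s = pos D y α' s' := by
  apply eq_of_Hs
  intro t
  obtain ⟨t', ht'⟩ := hp (D.en (D.et α) s) t
  have h1 : (α, s) ∈ pat D x (D.en (D.et α) s) t' ↔ (α, s) ∈ pat D y (D.en (D.et α) s) t := by rw [ht']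
  have h2 : (α', s') ∈ pat D x (D.en (D.et α) s) t' ↔ (α', s') ∈ pat D y (D.en (D.et α) s) t := by rw [ht']
  simp only [pat, Set.mem_ofPred_eq, hn, true_and] at h1 h2
  rw [← h1, ← h2, he]

open Classical in
/-- Values of the big state from values of the merged one. -/
noncomputable def uX (h : MC D v e0 s0 f0 s1) (φ : A → {α : A // D.et α ≠ f0})
    (x' : Val β {e : E // e ≠ f0} {α : A // D.et α ≠ f0}) : Val β E A where
  τ := fun e => if he : e = f0 then 1 else x'.τ ⟨e, he⟩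
  g := fun α => if hα : D.et α = f0 then pos (mD h) x' (φ α) s0 else x'.g ⟨α, hα⟩

theorem uX_pos_f (h : MC D v e0 s0 f0 s1) (φ : A → {α : A // D.et α ≠ f0})
    (x' : Val β {e : E // e ≠ f0} {α : A // D.et α ≠ f0}) {α : A} (hα : D.et α = f0) (s : Bool) :
    pos D (uX h φ x') α s = pos (mD h) x' (φ α) s0 := by
  subst hα
  cases s
  · simp [pos, uX]
  · conv_lhs => rw [pos]
    simp [uX]

theorem uX_pos_o (h : MC D v e0 s0 f0 s1) (φ : A → {α : A // D.et α ≠ f0})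
    (x' : Val β {e : E // e ≠ f0} {α : A // D.et α ≠ f0}) {α : A} (hα : D.et α ≠ f0) (s : Bool) :
    pos D (uX h φ x') α s = pos (mD h) x' ⟨α, hα⟩ s := by
  cases s
  · simp [pos, uX, hα]
  · simp [pos, uX, hα, mD]

theorem uX_tr_f (h : MC D v e0 s0 f0 s1) (φ : A → {α : A // D.et α ≠ f0})
    (x' : Val β {e : E // e ≠ f0} {α : A // D.et α ≠ f0}) (s : Bool) :
    tr (uX h φ x') f0 s = 1 := by
  cases s <;> simp [tr, uX]

theorem uX_tr_o (h : MC D v e0 s0 f0 s1) (φ : A → {α : A // D.et α ≠ f0})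
    (x' : Val β {e : E // e ≠ f0} {α : A // D.et α ≠ f0}) {e : E} (he : e ≠ f0) (s : Bool) :
    tr (uX h φ x') e s = tr x' ⟨e, he⟩ s := by
  cases s <;> simp [tr, uX, he]

/-- Choice of names of `e0` at the same spots as the names of `f0`. -/
structure IsPhi (h : MC D v e0 s0 f0 s1) (x : Val β E A) (φ : A → {α : A // D.et α ≠ f0}) : Prop where
  et : ∀ α, D.et α = f0 → D.et (φ α).1 = e0
  po : ∀ α, D.et α = f0 → pos D x (φ α).1 s0 = pos D x α s1

theorem exists_phi (h : MC D v e0 s0 f0 s1) (x : Val β E A) (hn : nE D x e0 s0 = nE D x f0 s1)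
    (hs : ∃ α, D.et α = e0) : ∃ φ, IsPhi h x φ := by
  classical
  obtain ⟨α₀, hα₀⟩ := hs
  have key : ∀ α, ∃ α' : {α : A // D.et α ≠ f0}, D.et α = f0 → D.et α'.1 = e0 ∧ pos D x α'.1 s0 = pos D x α s1 := by
    intro α
    by_cases hα : D.et α = f0
    · have : pos D x α s1 ∈ nE D x e0 s0 := by rw [hn]; exact ⟨α, hα, rfl⟩
      obtain ⟨α', h1, h2⟩ := this
      exact ⟨⟨α', by rw [h1]; exact h.ne⟩, fun _ => ⟨h1, h2⟩⟩
    · exact ⟨⟨α₀, by rw [hα₀]; exact h.ne⟩, fun h' => absurd h' hα⟩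
  choose φ hφ using key
  exact ⟨φ, fun α h' => (hφ α h').1, fun α h' => (hφ α h').2⟩

theorem uX_MR (h : MC D v e0 s0 f0 s1) {x : Val β E A} (hn : nE D x e0 s0 = nE D x f0 s1)
    {φ : A → {α : A // D.et α ≠ f0}} (hφ : IsPhi h x φ)
    {y : Val β {e : E // e ≠ f0} {α : A // D.et α ≠ f0}}
    (hp : ∀ w t, pat (mD h) y w t ∈ ty (mD h) (mX h x) w) : MR h (uX h φ y) y := by
  -- names of f0
  have hf : ∀ s, nE D (uX h φ y) f0 s = nE (mD h) y ⟨e0, h.ne⟩ s0 := by
    intro s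
    ext p
    constructor
    · rintro ⟨α, h1, rfl⟩
      rw [uX_pos_f h φ y h1]
      exact ⟨φ α, Subtype.ext (hφ.et α h1), rfl⟩
    · rintro ⟨⟨α, hα⟩, h1, rfl⟩
      have h1' : D.et α = e0 := congrArg Subtype.val h1
      have : pos D x α s0 ∈ nE D x f0 s1 := by rw [← hn]; exact ⟨α, h1', rfl⟩
      obtain ⟨α', h2, h3⟩ := this
      refine ⟨α', h2, ?_⟩
      rw [uX_pos_f h φ y h2]
      have h4 := hφ.et α' h2
      have h5 := hφ.po α' h2
      refine pos_eq_of_pat (D := mD h) (x := mX h x) hp ?_ ?_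
      · have a1 : (mD h).et (φ α') = ⟨e0, h.ne⟩ := Subtype.ext h4
        have a2 : (mD h).et ⟨α, hα⟩ = ⟨e0, h.ne⟩ := h1
        rw [a1, a2]
      · have := mX_pos_same h x (φ α').2 h4
        rw [Subtype.coe_eta] at this
        rw [this, mX_pos_same h x hα h1', h5, h3]
  have ho : ∀ e (he : e ≠ f0) s, nE D (uX h φ y) e s = nE (mD h) y ⟨e, he⟩ s := by
    intro e he s
    ext p
    constructor
    · rintro ⟨α, h1, rfl⟩
      have hα : D.et α ≠ f0 := by rw [h1]; exact he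
      rw [uX_pos_o h φ y hα]
      exact ⟨⟨α, hα⟩, Subtype.ext h1, rfl⟩
    · rintro ⟨⟨α, hα⟩, h1, rfl⟩
      exact ⟨α, congrArg Subtype.val h1, uX_pos_o h φ y hα s⟩
  exact
    { tre := by rw [uX_tr_f, uX_tr_o h φ y h.ne, mul_one]
      tro := fun e he _ s => (uX_tr_o h φ y he s).symm
      nn := by rw [hf, ho e0 h.ne]
      ns := (hf _).symm
      no := fun e s he _ => (ho e he s).symm }

theorem uX_pat (h : MC D v e0 s0 f0 s1) {x : Val β E A}
    {φ : A → {α : A // D.et α ≠ f0}} (hφ : IsPhi h x φ)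
    {y : Val β {e : E // e ≠ f0} {α : A // D.et α ≠ f0}}
    (hp : ∀ w t, pat (mD h) y w t ∈ ty (mD h) (mX h x) w) (w : V) (t : FreeGroup β × β) :
    pat D (uX h φ y) w t ∈ ty D x w := by
  by_cases hw : w = v
  · subst hw
    obtain ⟨t', ht'⟩ := hp ⟨D.en f0 (!s1), h.nf⟩ t
    refine ⟨((tr x f0 s1)⁻¹ * t'.1, t'.2), ?_⟩
    -- names of e0
    have key : ∀ α (_ : D.et α ≠ f0) (hα : D.et α = e0), (Hs ((tr x f0 s1)⁻¹ * t'.1, t'.2) (pos D x α s0) ↔
        Hs t (pos (mD h) y ⟨α, by rw [hα]; exact h.ne⟩ s0)) := by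
      intro α hα' hα
      have h1 : ((⟨α, hα'⟩ : {α : A // D.et α ≠ f0}), s0) ∈ pat (mD h) (mX h x) ⟨D.en f0 (!s1), h.nf⟩ t' ↔
        ((⟨α, hα'⟩ : {α : A // D.et α ≠ f0}), s0) ∈ pat (mD h) y ⟨D.en f0 (!s1), h.nf⟩ t := by rw [ht']
      have a1 : (mD h).et ⟨α, hα'⟩ = ⟨e0, h.ne⟩ := Subtype.ext hα
      simp only [pat, Set.mem_ofPred_eq, a1, mD_en_same, true_and] at h1
      rw [← h1, mX_pos_same h x hα' hα, ← Hs_mul']
    ext ⟨α, s⟩
    simp only [pat, Set.mem_ofPred_eq]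
    apply and_congr_right
    intro h1
    rcases h.all _ _ h1 with h2 | h2
    · obtain ⟨h3, rfl⟩ := Prod.ext_iff.1 h2
      simp only at h3
      have hα : D.et α ≠ f0 := by rw [h3]; exact h.ne
      rw [uX_pos_o h φ y hα]
      exact key α hα h3
    · obtain ⟨h3, rfl⟩ := Prod.ext_iff.1 h2
      simp only at h3
      rw [uX_pos_f h φ y h3]
      have h4 := key (φ α).1 (φ α).2 (hφ.et α h3)
      rw [hφ.po α h3] at h4
      exact h4
  · obtain ⟨t', ht'⟩ := hp ⟨w, hw⟩ t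
    refine ⟨t', ?_⟩
    have key : ∀ (α : {α : A // D.et α ≠ f0}) s, (mD h).en ((mD h).et α) s = ⟨w, hw⟩ →
        (Hs t' (pos (mD h) (mX h x) α s) ↔ Hs t (pos (mD h) y α s)) := by
      intro α s h1
      have h2 : (α, s) ∈ pat (mD h) (mX h x) ⟨w, hw⟩ t' ↔ (α, s) ∈ pat (mD h) y ⟨w, hw⟩ t := by rw [ht']
      simpa only [pat, Set.mem_ofPred_eq, h1, true_and] using h2
    ext ⟨α, s⟩
    simp only [pat, Set.mem_ofPred_eq]
    apply and_congr_right
    intro h1
    by_cases hα : D.et α = f0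
    · have hs : s = !s1 := by
        have : s ≠ s1 := fun h2 => hw (by rw [← h1, h2, hα]; exact h.h1)
        revert this
        cases s <;> cases s1 <;> simp
      subst hs
      rw [uX_pos_f h φ y hα]
      have h4 := key (φ α) s0 (by
        have a1 : (mD h).et (φ α) = ⟨e0, h.ne⟩ := Subtype.ext (hφ.et α hα)
        rw [a1, mD_en_same]
        apply Subtype.ext
        simp only
        rw [← h1, hα])
      have h5 := mX_pos_same h x (φ α).2 (hφ.et α hα)
      rw [Subtype.coe_eta] at h5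
      rw [h5, hφ.po α hα] at h4
      rw [pos_not, hα]
      exact h4
    · have hc : ¬ (D.et α = e0 ∧ s = s0) := by
        rintro ⟨h2, rfl⟩
        apply hw
        rw [← h1, h2]; exact h.h0
      rw [uX_pos_o h φ y hα]
      have h4 := key ⟨α, hα⟩ s (by
        have a1 : (mD h).et ⟨α, hα⟩ = ⟨D.et α, hα⟩ := rfl
        rw [a1, mD_en_other h hα hc]
        exact Subtype.ext h1)
      rw [mX_pos_other h x hα hc] at h4
      exact h4

/-- Every name position of `uX` is a name position of `y`, at the expected node. -/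
theorem uX_node (h : MC D v e0 s0 f0 s1) {x : Val β E A}
    {φ : A → {α : A // D.et α ≠ f0}} (hφ : IsPhi h x φ)
    (y : Val β {e : E // e ≠ f0} {α : A // D.et α ≠ f0}) (w : V) :
    ∃ w', ∀ α s, D.en (D.et α) s = w → ∃ α' s', (mD h).en ((mD h).et α') s' = w' ∧
      pos D (uX h φ y) α s = pos (mD h) y α' s' := by
  by_cases hw : w = v
  · subst hw
    refine ⟨⟨D.en f0 (!s1), h.nf⟩, ?_⟩
    intro α s h1
    rcases h.all _ _ h1 with h2 | h2
    · obtain ⟨h3, rfl⟩ := Prod.ext_iff.1 h2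
      simp only at h3
      have hα : D.et α ≠ f0 := by rw [h3]; exact h.ne
      refine ⟨⟨α, hα⟩, s, ?_, uX_pos_o h φ y hα s⟩
      have a1 : (mD h).et ⟨α, hα⟩ = ⟨e0, h.ne⟩ := Subtype.ext h3
      rw [a1, mD_en_same]
    · obtain ⟨h3, rfl⟩ := Prod.ext_iff.1 h2
      simp only at h3
      refine ⟨φ α, s0, ?_, uX_pos_f h φ y h3 s⟩
      have a1 : (mD h).et (φ α) = ⟨e0, h.ne⟩ := Subtype.ext (hφ.et α h3)
      rw [a1, mD_en_same]
  · refine ⟨⟨w, hw⟩, ?_⟩
    intro α s h1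
    by_cases hα : D.et α = f0
    · have hs : s = !s1 := by
        have : s ≠ s1 := fun h2 => hw (by rw [← h1, h2, hα]; exact h.h1)
        revert this
        cases s <;> cases s1 <;> simp
      subst hs
      refine ⟨φ α, s0, ?_, uX_pos_f h φ y hα _⟩
      have a1 : (mD h).et (φ α) = ⟨e0, h.ne⟩ := Subtype.ext (hφ.et α hα)
      rw [a1, mD_en_same]
      apply Subtype.ext
      simp only
      rw [← h1, hα]
    · have hc : ¬ (D.et α = e0 ∧ s = s0) := by
        rintro ⟨h2, rfl⟩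
        apply hw
        rw [← h1, h2]; exact h.h0
      refine ⟨⟨α, hα⟩, s, ?_, uX_pos_o h φ y hα s⟩
      have a1 : (mD h).et ⟨α, hα⟩ = ⟨D.et α, hα⟩ := rfl
      rw [a1, mD_en_other h hα hc]
      exact Subtype.ext h1

theorem m_pull [Fintype V] [Fintype E] [Fintype {w : V // w ≠ v}] [Fintype {e : E // e ≠ f0}]
    (h : MC D v e0 s0 f0 s1) {x : Val β E A} (hn : nE D x e0 s0 = nE D x f0 s1) (hs : ∃ α, D.et α = e0) :
    Pull D x (mD h) (mX h x) := by
  obtain ⟨φ, hφ⟩ := exists_phi h x hn hs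
  rintro z ⟨y, hy, hp, hz⟩
  have H := uX_MR h hn hφ hp
  refine ⟨uX h φ y, (TC_iff H).2 hy, uX_pat h hφ hp, ?_⟩
  intro α s α' s' h1
  obtain ⟨w', hw'⟩ := uX_node h hφ y (D.en (D.et α') s')
  obtain ⟨α₁, s₁, a1, a2⟩ := hw' α s h1
  obtain ⟨α₂, s₂, b1, b2⟩ := hw' α' s' rfl
  rw [a2, b2]
  have := hz α₁ s₁ α₂ s₂ (by rw [a1, b1])
  omega

/-! ### the names at a mergeable node -/

/-- An end of a hull is a point of the set. -/
theorem mem_of_isEnd {N : Set (FreeGroup β)} (hN : N.Nonempty) {y : FreeGroup β} (hy : y ∈ Hull N)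
    (he : IsEnd (Hull N) y) : y ∈ N := by
  by_contra hyN
  have hne : ∀ q ∈ N, y ≠ q := fun q hq h' => hyN (h' ▸ hq)
  obtain ⟨p, hp⟩ := hN
  obtain ⟨l, h1, h2, _, _⟩ := exists_step_mem hy (subset_Hull N hp) (hne p hp)
  have h3 : ∀ q ∈ N, ¬ (Hs (cellOf y l) y ↔ Hs (cellOf y l) q) := by
    intro q hq
    obtain ⟨l', h1', h2', _, _⟩ := exists_step_mem hy (subset_Hull N hq) (hne q hq)
    have := he l l' h1 h1'
    subst this
    exact h2'
  have h4 := hy (cellOf y l)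
  by_cases c : Hs (cellOf y l) y
  · exact h4.2 (fun q hq h' => h3 q hq (iff_of_true c h')) c
  · exact c (h4.1 (fun q hq => by_contra fun h' => h3 q hq (iff_of_false c h')))

theorem half_names {Q : Set (V × FreeGroup β)} (h : MC D v e0 s0 f0 s1) (hPN : PN D x Q)
    (hQ : ∀ y, (v, y) ∉ Q)
    (hcov : ∀ y l, y ∈ KV D x v → y * FreeGroup.mk [l] ∈ KV D x v → ∃ e s, D.en e s = v ∧ Cov D x y l e s) :
    ∀ y ∈ nE D x e0 s0, y ∈ nE D x f0 s1 ∨ (IsEnd (KE D x e0 s0) y ∧ y ∈ KE D x f0 s1) := by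
  intro y hy
  rcases PN_iff.1 hPN e0 s0 y hy with h1 | ⟨e', s', h1, h2, h3⟩ | ⟨h0, h1⟩
  · rw [h.h0] at h1; exact absurd h1 (hQ y)
  · left
    rw [h.h0] at h1
    rcases h.all e' s' h1 with h4 | h4
    · exact absurd h4 h2
    · obtain ⟨rfl, rfl⟩ := Prod.ext_iff.1 h4
      exact h3
  · right
    refine ⟨h0, ?_⟩
    rcases h1 with ⟨e', s', h1, h2, h3⟩ | ⟨l, h2, h3⟩
    · rw [h.h0] at h1
      rcases h.all e' s' h1 with h4 | h4
      · exact absurd h4 h2
      · obtain ⟨rfl, rfl⟩ := Prod.ext_iff.1 h4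
        exact h3
    · exfalso
      rw [h.h0] at h2 h3
      have hyV : y ∈ KV D x v := by
        have := nV_subset_KV D x v (nE_subset_nV D x e0 s0 (by exact hy) |> fun h' => by rwa [h.h0] at h')
        exact this
      obtain ⟨e, s, h4, h5⟩ := hcov y l hyV h2
      exact h3 e s h4 h5

theorem MC.symm (h : MC D v e0 s0 f0 s1) : MC D v f0 s1 e0 s0 :=
  ⟨h.ne.symm, h.h1, h.h0, fun e s h' => (h.all e s h').symm⟩

theorem names_eq {Q : Set (V × FreeGroup β)} (h : MC D v e0 s0 f0 s1) (hPN : PN D x Q)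
    (hsurj : Function.Surjective D.et)
    (hQ : ∀ y, (v, y) ∉ Q)
    (hcov : ∀ y l, y ∈ KV D x v → y * FreeGroup.mk [l] ∈ KV D x v → ∃ e s, D.en e s = v ∧ Cov D x y l e s) :
    nE D x e0 s0 = nE D x f0 s1 := by
  have a1 := half_names h hPN hQ hcov
  have a2 := half_names h.symm hPN hQ hcov
  have k1 : KE D x e0 s0 ⊆ KE D x f0 s1 := Hull_subset fun y hy => by
    rcases a1 y hy with h1 | h1
    · exact subset_Hull _ h1
    · exact h1.2
  have k2 : KE D x f0 s1 ⊆ KE D x e0 s0 := Hull_subset fun y hy => by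
    rcases a2 y hy with h1 | h1
    · exact subset_Hull _ h1
    · exact h1.2
  have k := Set.Subset.antisymm k1 k2
  obtain ⟨α, hα⟩ := hsurj e0
  obtain ⟨α', hα'⟩ := hsurj f0
  apply Set.Subset.antisymm
  · intro y hy
    rcases a1 y hy with h1 | ⟨h1, h2⟩
    · exact h1
    · rw [k] at h1
      exact mem_of_isEnd (N := nE D x f0 s1) ⟨_, α', hα', rfl⟩ h2 h1
  · intro y hy
    rcases a2 y hy with h1 | ⟨h1, h2⟩
    · exact h1
    · rw [← k] at h1
      exact mem_of_isEnd (N := nE D x e0 s0) ⟨_, α, hα, rfl⟩ h2 h1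

end Merge

/-- MERGE. -/
theorem merge : StmMerge := by
  classical
  intro β V E A _ _ _ _ _ q₀ φ₀ D x Q v hG hM
  obtain ⟨hQ, hcov, e0, s0, f0, s1, hne, he0, hf0, hall⟩ := hM
  have h : MC D v e0 s0 f0 s1 := ⟨hne, he0, hf0, hall⟩
  have hn := names_eq h hG.pn hG.surj hQ hcov
  have H : MR h x (mX h x) := mX_MR h x hn
  have T := H.tra
  have hs : ∃ α, D.et α = e0 := hG.surj e0
  have hcV : Fintype.card {w : V // w ≠ v} + 1 = Fintype.card V := by
    have h3 := Fintype.card_subtype_compl (fun w : V => w = v)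
    have h5 : 0 < Fintype.card V := Fintype.card_pos_iff.2 ⟨v⟩
    simp only [Fintype.card_unique] at h3
    have h3' : Fintype.card {w : V // w ≠ v} = Fintype.card V - 1 := by
      rw [← h3]
    omega
  have hcE : Fintype.card {e : E // e ≠ f0} + 1 = Fintype.card E := by
    have h2 := Fintype.card_subtype_compl (fun e : E => e = f0)
    have h4 : 0 < Fintype.card E := Fintype.card_pos_iff.2 ⟨f0⟩
    simp only [Fintype.card_unique] at h2
    have h2' : Fintype.card {e : E // e ≠ f0} = Fintype.card E - 1 := by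
      rw [← h2]
    omega
  refine ⟨{w : V // w ≠ v}, {e : E // e ≠ f0}, {α : A // D.et α ≠ f0}, inferInstance, inferInstance,
    inferInstance, mD h, mX h x, {p | (p.1.1, p.2) ∈ Q}, ?_, ?_, ?_, m_pull h hn hs⟩
  · refine
      { tc := (TC_iff H).1 hG.tc
        surj := ?_
        full := ?_
        ev := ?_
        br := T.pbr hG.br
        phi := ?_
        qf := ?_
        qc := ?_
        pn := T.pn hG.pn }
    · rintro ⟨e, he⟩
      obtain ⟨α, hα⟩ := hG.surj e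
      exact ⟨⟨α, by rw [hα]; exact he⟩, Subtype.ext hα⟩
    · rintro w
      have h1 := KV_nonempty (x := x) hG.full w.1
      have h2 : (nV D x w.1).Nonempty := by
        obtain ⟨α, s, hα⟩ := hG.full w.1
        exact ⟨_, α, s, hα, rfl⟩
      rw [← T.nV w] at h2
      obtain ⟨y, α, s, h3, _⟩ := h2
      exact ⟨α, s, h3⟩
    · have h1 := hG.ev
      omega
    · have h1 := hG.phi
      have h2 := Fintype.sum_eq_add_sum_subtype_ne (fun w => kap D x w) v
      have h3 : ∑ w : {w : V // w ≠ v}, kap (mD h) (mX h x) w = ∑ w : {w : V // w ≠ v}, kap D x w.1 :=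
        Finset.sum_congr rfl fun w _ => T.kap w
      have h4 := Fintype.card_subtype_compl (fun α : A => D.et α = f0)
      have h4' : Fintype.card {α : A // D.et α ≠ f0} = Fintype.card A - Fintype.card {α : A // D.et α = f0} := by
        rw [← h4]
      have h5 : kap D x v ≤ Fintype.card {α : A // D.et α = f0} := by
        have a1 : kap D x v ≤ (nV D x v).ncard := min_le_right _ _
        rw [H.nVv] at a1
        have a2 : nE D x f0 s1 = (fun α => pos D x α s1) '' {α | D.et α = f0} := by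
          ext y
          constructor
          · rintro ⟨α, h1, h2⟩; exact ⟨α, h1, h2⟩
          · rintro ⟨α, h1, h2⟩; exact ⟨α, h1, h2⟩
        have a3 : (nE D x f0 s1).ncard ≤ {α | D.et α = f0}.ncard := by
          rw [a2]; exact Set.ncard_image_le (Set.toFinite _)
        have a4 : {α | D.et α = f0}.ncard = Fintype.card {α : A // D.et α = f0} := by
          rw [← Nat.card_eq_fintype_card]; rfl
        omega
      rw [h3]
      have h6 : Fintype.card {α : A // D.et α = f0} ≤ Fintype.card A := Fintype.card_subtype_le _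
      omega
    · refine hG.qf.preimage (f := fun p : {w : V // w ≠ v} × FreeGroup β => (p.1.1, p.2)) ?_
      rintro ⟨⟨a, ha⟩, b⟩ _ ⟨⟨c, hc⟩, d⟩ _ h1
      simp only [Prod.mk.injEq] at h1
      obtain ⟨rfl, rfl⟩ := h1
      rfl
    · refine le_trans ?_ hG.qc
      refine Set.ncard_le_ncard_of_injOn (fun p : {w : V // w ≠ v} × FreeGroup β => (p.1.1, p.2))
        (fun p hp => hp) ?_ hG.qf
      rintro ⟨⟨a, ha⟩, b⟩ _ ⟨⟨c, hc⟩, d⟩ _ h1
      simp only [Prod.mk.injEq] at h1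
      obtain ⟨rfl, rfl⟩ := h1
      rfl
  · unfold meas
    have h2 := Fintype.sum_eq_add_sum_subtype_ne (fun w => (KV D x w).ncard) v
    have h3 : ∑ w : {w : V // w ≠ v}, (KV (mD h) (mX h x) w).ncard = ∑ w : {w : V // w ≠ v}, (KV D x w.1).ncard :=
      Finset.sum_congr rfl fun w _ => by rw [T.KV]
    have h4 : Fintype.card {w : V // w ≠ v} ≤ ∑ w : {w : V // w ≠ v}, (KV D x w.1).ncard := by
      have : ∀ w : {w : V // w ≠ v}, 1 ≤ (KV D x w.1).ncard := fun w =>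
        (Set.ncard_pos (KV_finite D x w.1)).2 (KV_nonempty hG.full w.1)
      calc Fintype.card {w : V // w ≠ v} = ∑ w : {w : V // w ≠ v}, 1 := by simp
        _ ≤ _ := Finset.sum_le_sum fun w _ => this w
    have h5 : 1 ≤ (KV D x v).ncard := (Set.ncard_pos (KV_finite D x v)).2 (KV_nonempty hG.full v)
    rw [h3, h2]
    omega
  · exact hcV

end Pool.Agent.W2helper26.PP
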