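import Pool.Agent.W2helper15.PB.Final

/-!
# Part B (helper15)
-/

set_option autoImplicit false

namespace Pool.Agent.W2helper26.PP

/-- PART B. -/
theorem partB : StmB := Pool.Agent.W2helper15.PB.partB

end Pool.Agent.W2helper26.PP
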