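import Pool.Agent.W2helper26.PP.Split
import Pool.Agent.W2helper26.PP.Back
import Pool.Agent.W2helper26.PP.Merge
import Pool.Agent.W2helper26.PP.Count
import Pool.Agent.W2helper26.PP.Extract
import Pool.Agent.W2helper26.PP.Main
import Pool.Agent.W2helper26.PP.Init
import Pool.Agent.W2helper26.PP.PartB
import Pool.Agent.W2helper26.PP.Comp

/-!
# Potential positivity is decidable: assembly
-/

set_option autoImplicit false

namespace Pool.Agent.W2helper26.PP

theorem bound_ : StmBound := by
  intro n hn
  obtain ⟨q, φ, hq, hφ, hinit⟩ := init n hn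
  obtain ⟨G, hG, hmain⟩ := main_ merge (split_ back) count n hn
  refine ⟨fun k => 2 * G (q k) (φ k), ?_, ?_⟩
  · exact Primrec.nat_mul.comp (Primrec.const 2) (hG.comp hq hφ)
  · rintro L hL ⟨θ, hθ⟩
    obtain ⟨θ', hθ', hTC⟩ := partB n L hL n θ.toMonoidHom θ.injective hθ
    obtain ⟨A', hA', D', x', Q', hGood, hback⟩ := hinit L θ' hL hTC
    have h1 := hmain Unit (Fin n) A' (q L.length) (φ L.length) D' x' Q' hGood (by simp)
    exact extract n L θ' _ hL hθ' (hback _ h1)

theorem final : ∀ n : ℕ, ComputablePred (fun w : List (Fin n × Bool) =>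
      ∃ α : FreeGroup (Fin n) ≃* FreeGroup (Fin n),
        α (FreeGroup.mk w) ∈
          Subsemigroup.closure (Set.range (FreeGroup.of : Fin n → FreeGroup (Fin n)))) :=
  comp partB bound_

end Pool.Agent.W2helper26.PP
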