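import Pool.Agent.W2helper26.PP.Geo

/-!
# Forgetting arcs, changing frames
-/

set_option autoImplicit false
set_option linter.unusedSectionVars false

namespace Pool.Agent.W2helper26.PP

open FreeGroup

section
variable {β V E A A₂ : Type} [DecidableEq β] [Fintype V] [Fintype E]

/-- Transfer of `TC` along equality of hulls and translations. -/
theorem TC_congr {D : Dt V E A} {x : Val β E A} {D₂ : Dt V E A₂} {x₂ : Val β E A₂}
    (hen : D₂.en = D.en) (hτ : x₂.τ = x.τ) (hE : ∀ e s, KE D₂ x₂ e s = KE D x e s)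
    (hV : ∀ v, KV D₂ x₂ v = KV D x v) (h : TC D₂ x₂) : TC D x := by
  have htr : ∀ e s, tr x₂ e s = tr x e s := by intro e s; simp [tr, hτ]
  have hadj : adj D₂ x₂ = adj D x := by
    funext p q; simp only [adj, hen, hE, htr]
  have hadjb : ∀ b, adjb D₂ x₂ b = adjb D x b := by
    intro b; funext p q; simp only [adjb, hen, hE, htr]
  refine ⟨?_, ?_, ?_, ?_⟩
  · intro v y w z; rw [← hV, ← hV, ← hadj]; exact h.conn v y w z
  · simp only [← hV, ← hE]; exact h.card
  · intro b v y w z; rw [← hV, ← hV, ← hadjb]; exact h.connb b v y w z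
  · intro b; simp only [← hV]; exact h.neb b

/-- Adding arcs inside the edge trees does not change the trees.
`ι` sends the old arcs to arcs of the new data. -/
theorem add_hulls {D : Dt V E A} {x : Val β E A} {D₂ : Dt V E A₂} {x₂ : Val β E A₂} (ι : A → A₂)
    (hen : D₂.en = D.en) (het : ∀ α, D₂.et (ι α) = D.et α)
    (hpos : ∀ α s, pos D₂ x₂ (ι α) s = pos D x α s)
    (hnew : ∀ a s, pos D₂ x₂ a s ∈ KE D x (D₂.et a) s) :
    (∀ e s, KE D₂ x₂ e s = KE D x e s) ∧ (∀ v, KV D₂ x₂ v = KV D x v) := by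
  constructor
  · intro e s
    refine Set.Subset.antisymm (Hull_subset ?_) (Hull_mono ?_)
    · rintro y ⟨a, h1, rfl⟩
      rw [← h1]; exact hnew a s
    · rintro y ⟨α, h1, rfl⟩
      exact ⟨ι α, by rw [het, h1], hpos α s⟩
  · intro v
    refine Set.Subset.antisymm (Hull_subset ?_) (Hull_mono ?_)
    · rintro y ⟨a, s, h1, rfl⟩
      have := KE_subset_KV D x _ _ (hnew a s)
      rw [hen] at h1
      rw [h1] at this
      exact this
    · rintro y ⟨α, s, h1, rfl⟩
      exact ⟨ι α, s, by rw [het, hen, h1], hpos α s⟩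

/-- Forgetting arcs. -/
theorem addPull {D : Dt V E A} {x : Val β E A} {D₂ : Dt V E A₂} {x₂ : Val β E A₂} (ι : A → A₂)
    (hen : D₂.en = D.en) (het : ∀ α, D₂.et (ι α) = D.et α)
    (hpos : ∀ α s, pos D₂ x₂ (ι α) s = pos D x α s)
    (hnew : ∀ a s, pos D₂ x₂ a s ∈ KE D x (D₂.et a) s) (z : ℕ)
    (h : Rlz β D₂ (ty D₂ x₂) z) : Rlz β D (ty D x) z := by
  obtain ⟨y₂, hTC, hpat, hz⟩ := h
  let y : Val β E A := ⟨y₂.τ, fun α => y₂.g (ι α)⟩
  have hp : ∀ α s, pos D₂ y₂ (ι α) s = pos D y α s := by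
    intro α s; simp only [pos, het, y]
  have hn : ∀ a s, pos D₂ y₂ a s ∈ KE D y (D₂.et a) s := by
    intro a s t
    obtain ⟨t₁, ht₁⟩ := hpat (D₂.en (D₂.et a) s) t
    have key : ∀ a' s', D₂.en (D₂.et a') s' = D₂.en (D₂.et a) s →
        (Hs t (pos D₂ y₂ a' s') ↔ Hs t₁ (pos D₂ x₂ a' s')) := by
      intro a' s' h'
      have := Set.ext_iff.1 ht₁ (a', s')
      simp only [pat, Set.mem_ofPred_eq, h', true_and] at this
      exact this.symm
    rw [key a s rfl]
    have hN := hnew a s t₁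
    constructor
    · intro h1
      apply hN.1
      rintro p ⟨α, h2, rfl⟩
      rw [← hpos, ← key (ι α) s (by rw [het, h2]), hp]
      exact h1 _ ⟨α, h2, rfl⟩
    · intro h1
      apply hN.2
      rintro p ⟨α, h2, rfl⟩
      rw [← hpos, ← key (ι α) s (by rw [het, h2]), hp]
      exact h1 _ ⟨α, h2, rfl⟩
  obtain ⟨hE, hV⟩ := add_hulls (D := D) (x := y) (D₂ := D₂) (x₂ := y₂) ι hen het hp hn
  refine ⟨y, TC_congr hen rfl hE hV hTC, ?_, ?_⟩
  · intro v t
    obtain ⟨t₁, ht₁⟩ := hpat v t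
    refine ⟨t₁, ?_⟩
    ext ⟨α, s⟩
    have := Set.ext_iff.1 ht₁ (ι α, s)
    simp only [pat, Set.mem_ofPred_eq, het, hen, hpos, hp] at this ⊢
    exact this
  · intro α s α' s' h'
    rw [← hp, ← hp]
    exact hz _ _ _ _ (by rw [het, het, hen]; exact h')

/-! ### change of frames -/

/-- Change of frames. -/
def gau (D : Dt V E A) (γ : V → FreeGroup β) (x : Val β E A) : Val β E A where
  τ := fun e => γ (D.en e true) * x.τ e * (γ (D.en e false))⁻¹
  g := fun α => γ (D.en (D.et α) false) * x.g α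

variable (D : Dt V E A) (γ : V → FreeGroup β) (x : Val β E A)

theorem gau_pos (α : A) (s : Bool) : pos D (gau D γ x) α s = γ (D.en (D.et α) s) * pos D x α s := by
  cases s <;> simp [pos, gau, mul_assoc]

theorem gau_tr (e : E) (s : Bool) :
    tr (gau D γ x) e s = γ (D.en e (!s)) * tr x e s * (γ (D.en e s))⁻¹ := by
  cases s <;> simp [tr, gau, mul_assoc]

theorem gau_nE (e : E) (s : Bool) : nE D (gau D γ x) e s = (γ (D.en e s) * ·) '' nE D x e s := by
  ext y
  constructor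
  · rintro ⟨α, rfl, rfl⟩
    exact ⟨_, ⟨α, rfl, rfl⟩, (gau_pos D γ x α s).symm⟩
  · rintro ⟨_, ⟨α, rfl, rfl⟩, rfl⟩
    exact ⟨α, rfl, gau_pos D γ x α s⟩

theorem gau_nV (v : V) : nV D (gau D γ x) v = (γ v * ·) '' nV D x v := by
  ext y
  constructor
  · rintro ⟨α, s, rfl, rfl⟩
    exact ⟨_, ⟨α, s, rfl, rfl⟩, (gau_pos D γ x α s).symm⟩
  · rintro ⟨_, ⟨α, s, rfl, rfl⟩, rfl⟩
    exact ⟨α, s, rfl, gau_pos D γ x α s⟩

theorem gau_KE (e : E) (s : Bool) : KE D (gau D γ x) e s = (γ (D.en e s) * ·) '' KE D x e s := by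
  unfold KE; rw [gau_nE, Hull_image]

theorem gau_KV (v : V) : KV D (gau D γ x) v = (γ v * ·) '' KV D x v := by
  unfold KV; rw [gau_nV, Hull_image]

theorem mem_gau_KE {e : E} {s : Bool} {y : FreeGroup β} :
    γ (D.en e s) * y ∈ KE D (gau D γ x) e s ↔ y ∈ KE D x e s := by
  unfold KE; rw [gau_nE, Hull_smul]

theorem mem_gau_KV {v : V} {y : FreeGroup β} :
    γ v * y ∈ KV D (gau D γ x) v ↔ y ∈ KV D x v := by
  unfold KV; rw [gau_nV, Hull_smul]

theorem eqvGen_map {X Y : Type} {r : X → X → Prop} {r' : Y → Y → Prop} (f : X → Y)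
    (h : ∀ a b, r a b → Relation.EqvGen r' (f a) (f b)) {a b : X} (hab : Relation.EqvGen r a b) :
    Relation.EqvGen r' (f a) (f b) := by
  induction hab with
  | rel a b hab => exact h a b hab
  | refl a => exact Relation.EqvGen.refl _
  | symm a b _ ih => exact Relation.EqvGen.symm _ _ ih
  | trans a b c _ _ ih1 ih2 => exact Relation.EqvGen.trans _ _ _ ih1 ih2

theorem gau_TC (h : TC D x) : TC D (gau D γ x) := by
  refine ⟨?_, ?_, ?_, ?_⟩
  · intro v y w z hy hz
    rw [gau_KV] at hy hz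
    obtain ⟨y, hy, rfl⟩ := hy
    obtain ⟨z, hz, rfl⟩ := hz
    refine eqvGen_map (r := adj D x) (fun p => (p.1, γ p.1 * p.2)) ?_ (h.conn v y w z hy hz)
    rintro p q ⟨e, s, h1, h2, h3, h4⟩
    refine Relation.EqvGen.rel _ _ ⟨e, s, h1, h2, ?_, ?_⟩
    · simp only [← h1]; exact (mem_gau_KE D γ x).2 h3
    · simp only [gau_tr, h4, ← h1, ← h2]; group
  · have h1 : ∀ v, (KV D (gau D γ x) v).ncard = (KV D x v).ncard := by
      intro v; rw [gau_KV]; exact Set.ncard_image_of_injective _ (mul_right_injective _)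
    have h2 : ∀ e, (KE D (gau D γ x) e false).ncard = (KE D x e false).ncard := by
      intro e; rw [gau_KE]; exact Set.ncard_image_of_injective _ (mul_right_injective _)
    simp only [h1, h2]; exact h.card
  · intro b v y w z hy hy' hz hz'
    rw [gau_KV] at hy hz
    obtain ⟨y, hy, rfl⟩ := hy
    obtain ⟨z, hz, rfl⟩ := hz
    simp only [mul_assoc] at hy' hz'
    rw [mem_gau_KV] at hy' hz'
    refine eqvGen_map (r := adjb D x b) (fun p => (p.1, γ p.1 * p.2)) ?_ (h.connb b v y w z hy hy' hz hz')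
    rintro p q ⟨e, s, h1, h2, h3, h3', h4⟩
    refine Relation.EqvGen.rel _ _ ⟨e, s, h1, h2, ?_, ?_, ?_⟩
    · simp only [← h1]; exact (mem_gau_KE D γ x).2 h3
    · simp only [← h1, mul_assoc]; exact (mem_gau_KE D γ x).2 h3'
    · simp only [gau_tr, h4, ← h1, ← h2]; group
  · intro b
    obtain ⟨v, y, h1, h2⟩ := h.neb b
    refine ⟨v, γ v * y, (mem_gau_KV D γ x).2 h1, ?_⟩
    rw [mul_assoc]; exact (mem_gau_KV D γ x).2 h2

theorem gau_pat (v : V) (t : FreeGroup β × β) : pat D (gau D γ x) v t = pat D x v ((γ v)⁻¹ * t.1, t.2) := by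
  ext ⟨α, s⟩
  simp only [pat, Set.mem_ofPred_eq]
  refine and_congr_right fun h => ?_
  rw [gau_pos, h]
  obtain ⟨a, b⟩ := t
  exact Hs_mul' _ _ _ _

theorem gau_norm (α : A) (s : Bool) (α' : A) (s' : Bool)
    (h : D.en (D.et α) s = D.en (D.et α') s') :
    (pos D (gau D γ x) α s)⁻¹ * pos D (gau D γ x) α' s' = (pos D x α s)⁻¹ * pos D x α' s' := by
  rw [gau_pos, gau_pos, h]; group

end

end Pool.Agent.W2helper26.PP
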