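import Mathlib

/-!
# Potential positivity is decidable: basic definitions

Ambient tree: the Cayley tree of the free group `FreeGroup β`; vertices are the elements, the
cell `(x, b)` is the edge from `x` to `x * of b`.  `Hs (x, b) y` says that `y` lies beyond the cell
`(x, b)` (on the side of `x * of b`).  `Hull N` is the convex hull (set of vertices) of `N`.

A *state* consists of a finite graph `Γ` (nodes `V`, edges `E`, ends `en e false`, `en e true`),
finitely many arcs `A`, every arc lying on an edge (`et`), a translation `τ e` for every edge, and a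
placement `g α` of (the `false` end of) every arc.  `pos α s` is the position of the end `s` of the arc
`α`, in the frame of the node `en (et α) s`.
-/

set_option autoImplicit false

namespace Pool.Agent.W2helper26.PP

/-- `y` is beyond the cell `t = (x, b)`. -/
def Hs {β : Type} [DecidableEq β] (t : FreeGroup β × β) (y : FreeGroup β) : Prop :=
  (t.1⁻¹ * y).toWord.head? = some (t.2, true)

/-- Convex hull (vertices). -/
def Hull {β : Type} [DecidableEq β] (N : Set (FreeGroup β)) : Set (FreeGroup β) :=
  {y | ∀ t, ((∀ p ∈ N, Hs t p) → Hs t y) ∧ ((∀ p ∈ N, ¬ Hs t p) → ¬ Hs t y)}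

/-- Combinatorial data of a state. -/
structure Dt (V E A : Type) where
  /-- the node at the end `s` of the edge `e` -/
  en : E → Bool → V
  /-- the edge of an arc -/
  et : A → E

/-- The values of a state in the free group. -/
structure Val (β E A : Type) where
  /-- translation from the frame of `en e false` to the frame of `en e true` -/
  τ : E → FreeGroup β
  /-- placement of the `false` end of an arc -/
  g : A → FreeGroup β

section
variable {β V E A : Type} [DecidableEq β]

/-- Translation from side `s` to side `!s`. -/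
def tr (x : Val β E A) (e : E) (s : Bool) : FreeGroup β := if s then (x.τ e)⁻¹ else x.τ e

/-- Position of the end `s` of the arc `α`. -/
def pos (D : Dt V E A) (x : Val β E A) (α : A) (s : Bool) : FreeGroup β :=
  if s then x.τ (D.et α) * x.g α else x.g α

/-- Positions of the names of the edge `e` at its end `s`. -/
def nE (D : Dt V E A) (x : Val β E A) (e : E) (s : Bool) : Set (FreeGroup β) :=
  {y | ∃ α, D.et α = e ∧ pos D x α s = y}

/-- Positions of the names at the node `v`. -/
def nV (D : Dt V E A) (x : Val β E A) (v : V) : Set (FreeGroup β) :=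
  {y | ∃ α s, D.en (D.et α) s = v ∧ pos D x α s = y}

/-- The subtree of the edge `e`, seen at its end `s`. -/
def KE (D : Dt V E A) (x : Val β E A) (e : E) (s : Bool) : Set (FreeGroup β) := Hull (nE D x e s)

/-- The subtree of the node `v`. -/
def KV (D : Dt V E A) (x : Val β E A) (v : V) : Set (FreeGroup β) := Hull (nV D x v)

/-- Adjacency of vertices (leaves of vertices). -/
def adj (D : Dt V E A) (x : Val β E A) (p q : V × FreeGroup β) : Prop :=
  ∃ e s, D.en e s = p.1 ∧ D.en e (!s) = q.1 ∧ p.2 ∈ KE D x e s ∧ q.2 = tr x e s * p.2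

/-- Adjacency of cells with letter `b` (leaves of cells); the cell is given by its initial vertex. -/
def adjb (D : Dt V E A) (x : Val β E A) (b : β) (p q : V × FreeGroup β) : Prop :=
  ∃ e s, D.en e s = p.1 ∧ D.en e (!s) = q.1 ∧ p.2 ∈ KE D x e s ∧ p.2 * FreeGroup.of b ∈ KE D x e s ∧
    q.2 = tr x e s * p.2

/-- The tree conditions: the leaf of the vertices is a tree, the leaves of the cells with a given
letter form a nonempty connected graph. -/
structure TC [Fintype V] [Fintype E] (D : Dt V E A) (x : Val β E A) : Prop where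
  conn : ∀ v y w z, y ∈ KV D x v → z ∈ KV D x w → Relation.EqvGen (adj D x) (v, y) (w, z)
  card : ∑ v, (KV D x v).ncard = ∑ e, (KE D x e false).ncard + 1
  connb : ∀ b v y w z, y ∈ KV D x v → y * FreeGroup.of b ∈ KV D x v → z ∈ KV D x w →
    z * FreeGroup.of b ∈ KV D x w → Relation.EqvGen (adjb D x b) (v, y) (w, z)
  neb : ∀ b, ∃ v y, y ∈ KV D x v ∧ y * FreeGroup.of b ∈ KV D x v

/-- The pattern of the cell `t` at the node `v`: the names at `v` beyond `t`. -/
def pat (D : Dt V E A) (x : Val β E A) (v : V) (t : FreeGroup β × β) : Set (A × Bool) :=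
  {ν | D.en (D.et ν.1) ν.2 = v ∧ Hs t (pos D x ν.1 ν.2)}

/-- All patterns. -/
def ty (D : Dt V E A) (x : Val β E A) : V → Set (Set (A × Bool)) :=
  fun v => {P | ∃ t, pat D x v t = P}

/-- The data `D` with allowed patterns `P` is realised with size at most `z`. -/
def Rlz (β : Type) [DecidableEq β] [Fintype V] [Fintype E] (D : Dt V E A)
    (P : V → Set (Set (A × Bool))) (z : ℕ) : Prop :=
  ∃ x : Val β E A, TC D x ∧ (∀ v t, pat D x v t ∈ P v) ∧
    ∀ α s α' s', D.en (D.et α) s = D.en (D.et α') s' →
      ((pos D x α s)⁻¹ * pos D x α' s').norm ≤ z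

/-- At most one neighbour of `y` in `K`. -/
def IsEnd (K : Set (FreeGroup β)) (y : FreeGroup β) : Prop :=
  ∀ l l' : β × Bool, y * FreeGroup.mk [l] ∈ K → y * FreeGroup.mk [l'] ∈ K → l = l'

/-- Property (N): every name is exceptional, or has a partner on another edge end, or is an end of its
edge tree and is covered by another edge end or touches an uncovered cell. -/
def PN (D : Dt V E A) (x : Val β E A) (Q : Set (V × FreeGroup β)) : Prop :=
  ∀ α s, (D.en (D.et α) s, pos D x α s) ∈ Q ∨
    (∃ α' s', D.en (D.et α') s' = D.en (D.et α) s ∧ pos D x α' s' = pos D x α s ∧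
      (D.et α', s') ≠ (D.et α, s)) ∨
    (IsEnd (KE D x (D.et α) s) (pos D x α s) ∧
      ((∃ e s', D.en e s' = D.en (D.et α) s ∧ (e, s') ≠ (D.et α, s) ∧ pos D x α s ∈ KE D x e s') ∨
       ∃ l : β × Bool, pos D x α s * FreeGroup.mk [l] ∈ KV D x (D.en (D.et α) s) ∧
         ∀ e s', D.en e s' = D.en (D.et α) s →
          ¬ (pos D x α s ∈ KE D x e s' ∧ pos D x α s * FreeGroup.mk [l] ∈ KE D x e s')))

/-- Property (BR): branch vertices of `KV v` are named by every edge end containing them. -/
def PBR (D : Dt V E A) (x : Val β E A) : Prop :=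
  ∀ v y (l₁ l₂ l₃ : β × Bool), l₁ ≠ l₂ → l₁ ≠ l₃ → l₂ ≠ l₃ →
    y * FreeGroup.mk [l₁] ∈ KV D x v → y * FreeGroup.mk [l₂] ∈ KV D x v →
    y * FreeGroup.mk [l₃] ∈ KV D x v →
    ∀ e s, D.en e s = v → y ∈ KE D x e s → ∃ α, D.et α = e ∧ pos D x α s = y

/-- Number of name positions at `v`, capped by `2`. -/
noncomputable def kap (D : Dt V E A) (x : Val β E A) (v : V) : ℕ := min 2 (nV D x v).ncard

/-- Every node carries a name. -/
def Dt.Full (D : Dt V E A) : Prop := ∀ v, ∃ α s, D.en (D.et α) s = v

/-- The forward invariants. -/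
structure Good [Fintype β] [Fintype V] [Fintype E] [Fintype A] (q₀ φ₀ : ℕ) (D : Dt V E A)
    (x : Val β E A) (Q : Set (V × FreeGroup β)) : Prop where
  tc : TC D x
  surj : Function.Surjective D.et
  full : D.Full
  ev : Fintype.card E + 1 = Fintype.card V + Fintype.card β
  br : PBR D x
  phi : Fintype.card A ≤ φ₀ + ∑ v, kap D x v
  qf : Q.Finite
  qc : Q.ncard ≤ q₀
  pn : PN D x Q

/-- The measure. -/
noncomputable def meas [Fintype V] (D : Dt V E A) (x : Val β E A) : ℕ :=
  2 * ∑ v, (KV D x v).ncard - Fintype.card V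

/-- The cell `{y, y * l}` of the node `v` is covered by the edge end `(e, s)` (which must be at `v`). -/
def Cov (D : Dt V E A) (x : Val β E A) (y : FreeGroup β) (l : β × Bool) (e : E) (s : Bool) : Prop :=
  y ∈ KE D x e s ∧ y * FreeGroup.mk [l] ∈ KE D x e s

/-- The node `v` has no exceptional spot, no uncovered cell and exactly two edge ends, belonging to
different edges. -/
def Mergeable (D : Dt V E A) (x : Val β E A) (Q : Set (V × FreeGroup β)) (v : V) : Prop :=
  (∀ y, (v, y) ∉ Q) ∧
  (∀ y l, y ∈ KV D x v → y * FreeGroup.mk [l] ∈ KV D x v → ∃ e s, D.en e s = v ∧ Cov D x y l e s) ∧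
  ∃ e s f s', e ≠ f ∧ D.en e s = v ∧ D.en f s' = v ∧
    ∀ e' s'', D.en e' s'' = v → (e', s'') = (e, s) ∨ (e', s'') = (f, s')

/-- Pulling back realisations. -/
def Pull {V' E' A' : Type} [Fintype V] [Fintype E] [Fintype V'] [Fintype E'] (D : Dt V E A)
    (x : Val β E A) (D' : Dt V' E' A') (x' : Val β E' A') : Prop :=
  ∀ z, Rlz β D' (ty D' x') z → Rlz β D (ty D x) (3 * z)

end

end Pool.Agent.W2helper26.PP
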