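import Pool.Agent.W2helper26.PP.Gate

/-!
# The forward part of the split: tree conditions
-/

set_option autoImplicit false
set_option linter.unusedSectionVars false

namespace Pool.Agent.W2helper26.PP

open FreeGroup

section
variable {β : Type} [DecidableEq β]

theorem Gate.btw {N₁ N₂ : Set (FreeGroup β)} {c d p q : FreeGroup β} (h : Gate N₁ N₂ c d)
    (hp : p ∈ N₁) (hq : q ∈ N₂) : Btw p c q := by
  intro t
  by_cases a : ∃ p ∈ N₁, Hs t p
  · by_cases b : ∃ p ∈ N₁, ¬ Hs t p
    · have := h.g1 t a b q hq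
      exact ⟨fun _ h2 => this.1 h2, fun _ h2 h3 => h2 (this.2 h3)⟩
    · push Not at b
      exact ⟨fun _ _ => (h.hc t).1 b, fun h1 _ => absurd (b p hp) h1⟩
  · push Not at a
    exact ⟨fun h1 _ => absurd h1 (a p hp), fun _ _ => (h.hc t).2 a⟩

/-- The gate does not change if points of the hulls are added. -/
theorem Gate.of_hull {N₁ N₂ M₁ M₂ : Set (FreeGroup β)} {c d : FreeGroup β} (h : Gate N₁ N₂ c d)
    (h1 : N₁ ⊆ M₁) (h1' : M₁ ⊆ Hull N₁) (h2 : N₂ ⊆ M₂) (h2' : M₂ ⊆ Hull N₂) : Gate M₁ M₂ c d := by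
  refine ⟨Hull_mono h1 h.hc, Hull_mono h2 h.hd, ?_, ?_⟩
  · rintro t ⟨p, hp, h3⟩ ⟨q, hq, h4⟩ r hr
    obtain ⟨a, b⟩ := exists_of_sep_Hull (h1' hp) (h1' hq) h3 h4
    exact Hull_Hs (h2' hr) (h.g1 t a b)
  · rintro t ⟨p, hp, h3⟩ ⟨q, hq, h4⟩ r hr
    obtain ⟨a, b⟩ := exists_of_sep_Hull (h2' hp) (h2' hq) h3 h4
    exact Hull_Hs (h1' hr) (h.g2 t a b)

/-- On the run only `c` is in the first hull. -/
theorem Gate.eq_c {N₁ N₂ : Set (FreeGroup β)} {c d y : FreeGroup β} (h : Gate N₁ N₂ c d)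
    (hy : y ∈ Hull N₁) (hb : Btw c y d) : y = c := by
  apply eq_of_Hs
  intro t
  by_contra hne
  have : (∃ p ∈ N₁, Hs t p) ∧ (∃ p ∈ N₁, ¬ Hs t p) := by
    by_cases c1 : Hs t y
    · exact exists_of_sep_Hull hy h.hc c1 fun c2 => hne (iff_of_true c1 c2)
    · refine exists_of_sep_Hull h.hc hy ?_ c1
      by_contra c2; exact hne (iff_of_false c1 c2)
  have h2 := h.g1' this.1 this.2
  have h3 := hb t
  by_cases c1 : Hs t c
  · exact hne (iff_of_true (h3.1 c1 (h2.2 c1)) c1)
  · exact hne (iff_of_false (h3.2 c1 fun h4 => c1 (h2.1 h4)) c1)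

theorem sum_swap {ι : Type} [Fintype ι] (f g : ι → ℕ) (i : ι) (h : ∀ j, j ≠ i → f j = g j) :
    ∑ j, f j + g i = ∑ j, g j + f i := by
  classical
  rw [← Finset.add_sum_erase _ f (Finset.mem_univ i), ← Finset.add_sum_erase _ g (Finset.mem_univ i)]
  have : ∑ j ∈ Finset.univ.erase i, f j = ∑ j ∈ Finset.univ.erase i, g j :=
    Finset.sum_congr rfl fun j hj => h j (Finset.ne_of_mem_erase hj)
  rw [this]; ring

end

section
variable {β V E A : Type} [DecidableEq β]
variable {D : Dt V E A} {x : Val β E A} {e : E} {s : Bool} {sd : E → Bool → Prop} {sa : A → Prop}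
  {t₀ : FreeGroup β × β} {c d : A}

/-- Names of a base different from `(e, s)`. -/
theorem sp_nE_sub (f : E) (s' : Bool) (h : ¬ (f = e ∧ s' = s)) :
    nE D x f s' ⊆ nV (spD D e s sd sa) (spX e x) ((spD D e s sd sa).en (some f) s') := by
  rintro y ⟨α, h1, rfl⟩
  refine ⟨α, s', ?_, spX_pos D e s sd sa x α s'⟩
  by_cases h2 : D.et α = e ∧ sa α
  · rw [spD_et_none D e s sd sa α h2.1 h2.2]
    have h3 : f = e := h1.symm.trans h2.1
    have h4 : s' = !s := by
      have : s' ≠ s := fun h5 => h ⟨h3, h5⟩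
      cases s <;> cases s' <;> simp at this ⊢
    rw [h3, h4, spD_en_none_not]
  · rw [spD_et_some D e s sd sa α h2, h1]

theorem sp_KE_sub (f : E) (s' : Bool) (h : ¬ (f = e ∧ s' = s)) :
    KE D x f s' ⊆ KV (spD D e s sd sa) (spX e x) ((spD D e s sd sa).en (some f) s') :=
  Hull_mono (sp_nE_sub f s' h)

theorem sp_nE_ne (f : E) (s' : Bool) (h : f ≠ e) :
    nE (spD D e s sd sa) (spX e x) (some f) s' = nE D x f s' := by
  ext y
  constructor
  · rintro ⟨α, h1, rfl⟩
    have h2 := oldE_et D e s sd sa α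
    rw [h1] at h2
    exact ⟨α, h2.symm, (spX_pos D e s sd sa x α s').symm⟩
  · rintro ⟨α, h1, rfl⟩
    refine ⟨α, ?_, spX_pos D e s sd sa x α s'⟩
    rw [spD_et_some D e s sd sa α fun h2 => h (h1.symm.trans h2.1), h1]

theorem sp_KE_ne (f : E) (s' : Bool) (h : f ≠ e) :
    KE (spD D e s sd sa) (spX e x) (some f) s' = KE D x f s' := by
  unfold KE; rw [sp_nE_ne f s' h]

theorem sp_nE_union (s' : Bool) :
    nE D x e s' = nE (spD D e s sd sa) (spX e x) (some e) s' ∪ nE (spD D e s sd sa) (spX e x) none s' := by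
  ext y
  constructor
  · rintro ⟨α, h1, rfl⟩
    by_cases h2 : sa α
    · exact Or.inr ⟨α, spD_et_none D e s sd sa α h1 h2, spX_pos D e s sd sa x α s'⟩
    · refine Or.inl ⟨α, ?_, spX_pos D e s sd sa x α s'⟩
      rw [spD_et_some D e s sd sa α fun h3 => h2 h3.2, h1]
  · rintro (⟨α, h1, rfl⟩ | ⟨α, h1, rfl⟩)
    · have h2 := oldE_et D e s sd sa α
      rw [h1] at h2
      exact ⟨α, h2.symm, (spX_pos D e s sd sa x α s').symm⟩
    · have h2 := oldE_et D e s sd sa α
      rw [h1] at h2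
      exact ⟨α, h2.symm, (spX_pos D e s sd sa x α s').symm⟩

/-- The names at the nodes. -/
theorem sp_nV_ne (w : V) (h : w ≠ D.en e s) :
    nV (spD D e s sd sa) (spX e x) (some w) = nV D x w := by
  ext y
  constructor
  · rintro ⟨α, s', h1, rfl⟩
    have h2 := oldV_en D e s sd sa ((spD D e s sd sa).et α) s'
    rw [h1, oldE_et] at h2
    exact ⟨α, s', h2.symm, (spX_pos D e s sd sa x α s').symm⟩
  · rintro ⟨α, s', h1, rfl⟩
    refine ⟨α, s', ?_, spX_pos D e s sd sa x α s'⟩
    have h2 := oldV_en D e s sd sa ((spD D e s sd sa).et α) s'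
    rw [oldE_et, h1] at h2
    cases hn : (spD D e s sd sa).en ((spD D e s sd sa).et α) s' with
    | none => rw [hn] at h2; exact absurd h2.symm h
    | some w' => rw [hn] at h2; exact congrArg some h2

theorem sp_nV_union :
    nV D x (D.en e s) = nV (spD D e s sd sa) (spX e x) (some (D.en e s)) ∪
      nV (spD D e s sd sa) (spX e x) none := by
  ext y
  constructor
  · rintro ⟨α, s', h1, rfl⟩
    have h2 := oldV_en D e s sd sa ((spD D e s sd sa).et α) s'
    rw [oldE_et, h1] at h2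
    cases hn : (spD D e s sd sa).en ((spD D e s sd sa).et α) s' with
    | none => exact Or.inr ⟨α, s', hn, spX_pos D e s sd sa x α s'⟩
    | some w' =>
      rw [hn] at h2
      have h3 : w' = D.en e s := h2
      subst h3
      exact Or.inl ⟨α, s', hn, spX_pos D e s sd sa x α s'⟩
  · rintro (⟨α, s', h1, rfl⟩ | ⟨α, s', h1, rfl⟩)
    · have h2 := oldV_en D e s sd sa ((spD D e s sd sa).et α) s'
      rw [h1, oldE_et] at h2
      exact ⟨α, s', h2.symm, (spX_pos D e s sd sa x α s').symm⟩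
    · have h2 := oldV_en D e s sd sa ((spD D e s sd sa).et α) s'
      rw [h1, oldE_et] at h2
      exact ⟨α, s', h2.symm, (spX_pos D e s sd sa x α s').symm⟩

theorem sp_KV_ne (w : V) (h : w ≠ D.en e s) :
    KV (spD D e s sd sa) (spX e x) (some w) = KV D x w := by
  unfold KV; rw [sp_nV_ne w h]

/-- Each new node tree is contained in the old one. -/
theorem sp_KV_sub (w : Option V) :
    KV (spD D e s sd sa) (spX e x) w ⊆ KV D x (oldV D e s w) := by
  cases w with
  | none =>
    refine Hull_mono ?_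
    change _ ⊆ nV D x (D.en e s)
    rw [sp_nV_union (sd := sd) (sa := sa)]; exact Set.subset_union_right
  | some w =>
    by_cases h : w = D.en e s
    · subst h
      refine Hull_mono ?_
      change _ ⊆ nV D x (D.en e s)
      rw [sp_nV_union (sd := sd) (sa := sa)]; exact Set.subset_union_left
    · rw [sp_KV_ne w h]; exact Set.Subset.refl _

theorem sp_KE_sub' (f : Option E) (s' : Bool) :
    KE (spD D e s sd sa) (spX e x) f s' ⊆ KE D x (oldE e f) s' := by
  cases f with
  | none =>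
    refine Hull_mono ?_
    change _ ⊆ nE D x e s'
    rw [sp_nE_union (sd := sd) (sa := sa) (s := s)]; exact Set.subset_union_right
  | some f =>
    by_cases h : f = e
    · subst h
      refine Hull_mono ?_
      change _ ⊆ nE D x f s'
      rw [sp_nE_union (sd := sd) (sa := sa) (s := s)]; exact Set.subset_union_left
    · rw [sp_KE_ne f s' h]; exact Set.Subset.refl _

variable (h : SpOK D x e s sd sa t₀ c d)
include h

theorem SpOK.sa_iff (α : A) (hα : D.et α = e) : (sa α ↔ Hs t₀ (pos D x α s)) := by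
  have h1 := h.side α s (by rw [hα])
  rw [← h1]
  by_cases h2 : sa α
  · rw [spD_et_none D e s sd sa α hα h2, spD_en_none_self]; simp [h2]
  · rw [spD_et_some D e s sd sa α fun h3 => h2 h3.2, hα, spD_en_some D e s sd sa e s fun h3 => h.sde h3.2]
    simp [h2]

theorem SpOK.nV_none : ∀ y ∈ nV (spD D e s sd sa) (spX e x) none, Hs t₀ y := by
  rintro y ⟨α, s', h1, rfl⟩
  rw [spX_pos]
  refine (h.side α s' ?_).1 h1
  have h2 := oldV_en D e s sd sa ((spD D e s sd sa).et α) s'
  rw [h1, oldE_et] at h2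
  exact h2.symm

theorem SpOK.nV_v : ∀ y ∈ nV (spD D e s sd sa) (spX e x) (some (D.en e s)), ¬ Hs t₀ y := by
  rintro y ⟨α, s', h1, rfl⟩
  rw [spX_pos]
  have h2 := oldV_en D e s sd sa ((spD D e s sd sa).et α) s'
  rw [h1, oldE_et] at h2
  rw [← h.side α s' h2.symm, h1]
  simp

theorem SpOK.KV_none : ∀ y ∈ KV (spD D e s sd sa) (spX e x) none, Hs t₀ y :=
  fun _ hy => (hy t₀).1 h.nV_none

theorem SpOK.KV_v : ∀ y ∈ KV (spD D e s sd sa) (spX e x) (some (D.en e s)), ¬ Hs t₀ y :=
  fun _ hy => (hy t₀).2 h.nV_v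

theorem SpOK.c_mem : pos D x c s ∈ nE (spD D e s sd sa) (spX e x) (some e) s := by
  refine ⟨c, ?_, spX_pos D e s sd sa x c s⟩
  rw [spD_et_some D e s sd sa c, h.cet]
  rintro ⟨_, h2⟩
  exact h.c0 ((h.sa_iff c h.cet).1 h2)

theorem SpOK.d_mem : pos D x d s ∈ nE (spD D e s sd sa) (spX e x) none s :=
  ⟨d, spD_et_none D e s sd sa d h.det ((h.sa_iff d h.det).2 h.d0), spX_pos D e s sd sa x d s⟩

theorem SpOK.gateE : Gate (nE (spD D e s sd sa) (spX e x) (some e) s) (nE (spD D e s sd sa) (spX e x) none s)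
    (pos D x c s) (pos D x d s) := by
  refine h.gate.mono ?_ ?_ (subset_Hull _ h.c_mem) (subset_Hull _ h.d_mem)
  · have h1 := nE_subset_nV (spD D e s sd sa) (spX e x) (some e) s
    rwa [spD_en_some D e s sd sa e s fun h3 => h.sde h3.2] at h1
  · have h1 := nE_subset_nV (spD D e s sd sa) (spX e x) none s
    rwa [spD_en_none_self] at h1

theorem SpOK.gate_card [Finite A] :
    (KV D x (D.en e s)).ncard + (KE (spD D e s sd sa) (spX e x) (some e) s).ncard +
      (KE (spD D e s sd sa) (spX e x) none s).ncard =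
    (KE D x e s).ncard + (KV (spD D e s sd sa) (spX e x) (some (D.en e s))).ncard +
      (KV (spD D e s sd sa) (spX e x) none).ncard := by
  have h1 := h.gate.ncard (nV_finite _ _ _) (nV_finite _ _ _)
  have h2 := h.gateE.ncard (nE_finite _ _ _ _) (nE_finite _ _ _ _)
  rw [← sp_nV_union] at h1
  rw [← sp_nE_union] at h2
  change (KV D x (D.en e s)).ncard + 1 = (KV (spD D e s sd sa) (spX e x) (some (D.en e s))).ncard +
      (KV (spD D e s sd sa) (spX e x) none).ncard + _ at h1
  change (KE D x e s).ncard + 1 = (KE (spD D e s sd sa) (spX e x) (some e) s).ncard +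
      (KE (spD D e s sd sa) (spX e x) none s).ncard + _ at h2
  omega

variable [Fintype V] [Fintype E]

theorem SpOK.sumV : ∑ w, (KV (spD D e s sd sa) (spX e x) w).ncard + (KV D x (D.en e s)).ncard =
    ∑ w, (KV D x w).ncard + (KV (spD D e s sd sa) (spX e x) (some (D.en e s))).ncard +
      (KV (spD D e s sd sa) (spX e x) none).ncard := by
  rw [Fintype.sum_option]
  have := sum_swap (fun w => (KV (spD D e s sd sa) (spX e x) (some w)).ncard) (fun w => (KV D x w).ncard)
    (D.en e s) (fun w hw => by rw [sp_KV_ne w hw])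
  omega

theorem SpOK.sumE : ∑ f, (KE (spD D e s sd sa) (spX e x) f false).ncard + (KE D x e s).ncard =
    ∑ f, (KE D x f false).ncard + (KE (spD D e s sd sa) (spX e x) (some e) s).ncard +
      (KE (spD D e s sd sa) (spX e x) none s).ncard := by
  rw [Fintype.sum_option]
  have := sum_swap (fun f => (KE (spD D e s sd sa) (spX e x) (some f) false).ncard)
    (fun f => (KE D x f false).ncard) e (fun w hw => by rw [sp_KE_ne w false hw])
  rw [KE_ncard D x e s, KE_ncard _ _ (some e) s, KE_ncard _ _ none s]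
  omega

end

end Pool.Agent.W2helper26.PP
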