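import Pool.Agent.W2helper26.PP.Fwd

/-!
# The forward part of the split: tree conditions (continued)
-/

set_option autoImplicit false
set_option linter.unusedSectionVars false

namespace Pool.Agent.W2helper26.PP

open FreeGroup

section
variable {β V E A : Type} [DecidableEq β]
variable {D : Dt V E A} {x : Val β E A} {e : E} {s : Bool} {sd : E → Bool → Prop} {sa : A → Prop}
  {t₀ : FreeGroup β × β} {c d : A}

open Classical in
/-- The retraction of the leaf graph of the old state to the one of the new state. -/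
noncomputable def rtr (D : Dt V E A) (x : Val β E A) (e : E) (s : Bool) (sd : E → Bool → Prop) (sa : A → Prop)
    (p : V × FreeGroup β) : Option V × FreeGroup β :=
  if p.1 = D.en e s then
    if p.2 ∈ KV (spD D e s sd sa) (spX e x) (some (D.en e s)) then (some (D.en e s), p.2)
    else if p.2 ∈ KV (spD D e s sd sa) (spX e x) none then (none, p.2)
    else ((spD D e s sd sa).en (some e) (!s), tr x e s * p.2)
  else (some p.1, p.2)

open Classical in
/-- The retraction for cells with letter `b`. -/
noncomputable def rtrb (D : Dt V E A) (x : Val β E A) (e : E) (s : Bool) (sd : E → Bool → Prop) (sa : A → Prop)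
    (b : β) (p : V × FreeGroup β) : Option V × FreeGroup β :=
  if p.1 = D.en e s then
    if p.2 ∈ KV (spD D e s sd sa) (spX e x) (some (D.en e s)) ∧
      p.2 * of b ∈ KV (spD D e s sd sa) (spX e x) (some (D.en e s)) then (some (D.en e s), p.2)
    else if p.2 ∈ KV (spD D e s sd sa) (spX e x) none ∧ p.2 * of b ∈ KV (spD D e s sd sa) (spX e x) none then
      (none, p.2)
    else ((spD D e s sd sa).en (some e) (!s), tr x e s * p.2)
  else (some p.1, p.2)

variable (h : SpOK D x e s sd sa t₀ c d)
include h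

theorem SpOK.rtr_old (w : Option V) (y : FreeGroup β) (hy : y ∈ KV (spD D e s sd sa) (spX e x) w) :
    rtr D x e s sd sa (oldV D e s w, y) = (w, y) := by
  cases w with
  | none =>
    change rtr D x e s sd sa (D.en e s, y) = _
    unfold rtr
    have h1 : y ∉ KV (spD D e s sd sa) (spX e x) (some (D.en e s)) := fun h2 => h.KV_v y h2 (h.KV_none y hy)
    rw [if_pos rfl, if_neg h1, if_pos hy]
  | some w =>
    change rtr D x e s sd sa (w, y) = _
    unfold rtr
    by_cases hw : w = D.en e s
    · subst hw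
      rw [if_pos rfl, if_pos hy]
    · rw [if_neg hw]

theorem SpOK.rtrb_old (b : β) (w : Option V) (y : FreeGroup β) (hy : y ∈ KV (spD D e s sd sa) (spX e x) w)
    (hy' : y * of b ∈ KV (spD D e s sd sa) (spX e x) w) :
    rtrb D x e s sd sa b (oldV D e s w, y) = (w, y) := by
  cases w with
  | none =>
    change rtrb D x e s sd sa b (D.en e s, y) = _
    unfold rtrb
    have h1 : y ∉ KV (spD D e s sd sa) (spX e x) (some (D.en e s)) := fun h2 => h.KV_v y h2 (h.KV_none y hy)
    rw [if_pos rfl, if_neg (fun h2 => h1 h2.1), if_pos ⟨hy, hy'⟩]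
  | some w =>
    change rtrb D x e s sd sa b (w, y) = _
    unfold rtrb
    by_cases hw : w = D.en e s
    · subst hw
      rw [if_pos rfl, if_pos ⟨hy, hy'⟩]
    · rw [if_neg hw]

/-- `rtr` at the names of a base different from `(e, s)`. -/
theorem SpOK.rtr_base (f : E) (s' : Bool) (hf : ¬ (f = e ∧ s' = s)) (y : FreeGroup β) (hy : y ∈ KE D x f s') :
    rtr D x e s sd sa (D.en f s', y) = ((spD D e s sd sa).en (some f) s', y) := by
  have h1 := h.rtr_old _ y (sp_KE_sub (sd := sd) (sa := sa) (s := s) f s' hf hy)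
  rw [oldV_en] at h1
  exact h1

theorem SpOK.rtrb_base (b : β) (f : E) (s' : Bool) (hf : ¬ (f = e ∧ s' = s)) (y : FreeGroup β)
    (hy : y ∈ KE D x f s') (hy' : y * of b ∈ KE D x f s') :
    rtrb D x e s sd sa b (D.en f s', y) = ((spD D e s sd sa).en (some f) s', y) := by
  have h1 := h.rtrb_old b _ y (sp_KE_sub (sd := sd) (sa := sa) (s := s) f s' hf hy)
    (sp_KE_sub (sd := sd) (sa := sa) (s := s) f s' hf hy')
  rw [oldV_en] at h1
  exact h1

/-- The edge `e` from the side `s`. -/
theorem SpOK.rtr_e (y : FreeGroup β) (hy : y ∈ KE D x e s) :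
    Relation.EqvGen (adj (spD D e s sd sa) (spX e x)) (rtr D x e s sd sa (D.en e s, y))
      ((spD D e s sd sa).en (some e) (!s), tr x e s * y) := by
  have hes : (spD D e s sd sa).en (some e) s = some (D.en e s) :=
    spD_en_some D e s sd sa e s fun h3 => h.sde h3.2
  have hy2 := hy
  change y ∈ Hull (nE D x e s) at hy2
  rw [sp_nE_union (sd := sd) (sa := sa) (s := s)] at hy2
  have hm := h.gateE.mem hy2
  unfold rtr
  rw [if_pos rfl]
  by_cases c1 : y ∈ KV (spD D e s sd sa) (spX e x) (some (D.en e s))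
  · rw [if_pos c1]
    have hK : y ∈ KE (spD D e s sd sa) (spX e x) (some e) s := by
      rcases hm with h1 | h1 | h1
      · exact h1
      · exfalso
        have h2 : y ∈ KV (spD D e s sd sa) (spX e x) none := by
          have := KE_subset_KV (spD D e s sd sa) (spX e x) none s h1
          rwa [spD_en_none_self] at this
        exact h.KV_v y c1 (h.KV_none y h2)
      · rw [h.gate.eq_c c1 h1]
        exact subset_Hull _ h.c_mem
    refine Relation.EqvGen.rel _ _ ⟨some e, s, ?_, rfl, hK, ?_⟩
    · exact hes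
    · rw [spX_tr]; rfl
  · rw [if_neg c1]
    by_cases c2 : y ∈ KV (spD D e s sd sa) (spX e x) none
    · rw [if_pos c2]
      have hK : y ∈ KE (spD D e s sd sa) (spX e x) none s := by
        rcases hm with h1 | h1 | h1
        · exfalso
          apply c1
          have := KE_subset_KV (spD D e s sd sa) (spX e x) (some e) s h1
          rwa [hes] at this
        · exact h1
        · rw [h.gate.symm.eq_c c2 h1.symm]
          exact subset_Hull _ h.d_mem
      refine Relation.EqvGen.rel _ _ ⟨none, s, ?_, ?_, hK, ?_⟩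
      · exact spD_en_none_self D e s sd sa
      · exact spD_en_none_not D e s sd sa
      · rw [spX_tr]; rfl
    · rw [if_neg c2]
      exact Relation.EqvGen.refl _

theorem SpOK.rtrb_e (b : β) (y : FreeGroup β) (hy : y ∈ KE D x e s) (hy' : y * of b ∈ KE D x e s) :
    Relation.EqvGen (adjb (spD D e s sd sa) (spX e x) b) (rtrb D x e s sd sa b (D.en e s, y))
      ((spD D e s sd sa).en (some e) (!s), tr x e s * y) := by
  have hes : (spD D e s sd sa).en (some e) s = some (D.en e s) :=
    spD_en_some D e s sd sa e s fun h3 => h.sde h3.2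
  have hy2 := hy
  have hy2' := hy'
  change y ∈ Hull (nE D x e s) at hy2
  change y * of b ∈ Hull (nE D x e s) at hy2'
  rw [sp_nE_union (sd := sd) (sa := sa) (s := s)] at hy2 hy2'
  have hm := h.gateE.mem_cell hy2 hy2'
  unfold rtrb
  rw [if_pos rfl]
  by_cases c1 : y ∈ KV (spD D e s sd sa) (spX e x) (some (D.en e s)) ∧
      y * of b ∈ KV (spD D e s sd sa) (spX e x) (some (D.en e s))
  · rw [if_pos c1]
    have hK : y ∈ KE (spD D e s sd sa) (spX e x) (some e) s ∧
        y * of b ∈ KE (spD D e s sd sa) (spX e x) (some e) s := by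
      rcases hm with h1 | h1 | h1
      · exact h1
      · exfalso
        have h2 : y ∈ KV (spD D e s sd sa) (spX e x) none := by
          have := KE_subset_KV (spD D e s sd sa) (spX e x) none s h1.1
          rwa [spD_en_none_self] at this
        exact h.KV_v y c1.1 (h.KV_none y h2)
      · exfalso
        have h2 := cell_mem_Hull_iff.1 c1
        exact h1 (h.gate.g1' h2.1 h2.2).symm
    refine Relation.EqvGen.rel _ _ ⟨some e, s, ?_, rfl, hK.1, hK.2, ?_⟩
    · exact hes
    · rw [spX_tr]; rfl
  · rw [if_neg c1]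
    by_cases c2 : y ∈ KV (spD D e s sd sa) (spX e x) none ∧ y * of b ∈ KV (spD D e s sd sa) (spX e x) none
    · rw [if_pos c2]
      have hK : y ∈ KE (spD D e s sd sa) (spX e x) none s ∧
          y * of b ∈ KE (spD D e s sd sa) (spX e x) none s := by
        rcases hm with h1 | h1 | h1
        · exfalso
          apply c1
          have := KE_subset_KV (spD D e s sd sa) (spX e x) (some e) s h1.1
          have h2 := KE_subset_KV (spD D e s sd sa) (spX e x) (some e) s h1.2
          rw [hes] at this h2
          exact ⟨this, h2⟩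
        · exact h1
        · exfalso
          have h2 := cell_mem_Hull_iff.1 c2
          exact h1 (h.gate.symm.g1' h2.1 h2.2)
      refine Relation.EqvGen.rel _ _ ⟨none, s, ?_, ?_, hK.1, hK.2, ?_⟩
      · exact spD_en_none_self D e s sd sa
      · exact spD_en_none_not D e s sd sa
      · rw [spX_tr]; rfl
    · rw [if_neg c2]
      exact Relation.EqvGen.refl _

/-- A step of the old leaf graph, oriented so that it does not start at `(e, s)`, or starts there. -/
theorem SpOK.rtr_adj (p q : V × FreeGroup β) (hpq : adj D x p q) :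
    Relation.EqvGen (adj (spD D e s sd sa) (spX e x)) (rtr D x e s sd sa p) (rtr D x e s sd sa q) := by
  -- one orientation
  have key : ∀ (f : E) (s' : Bool) (y : FreeGroup β), y ∈ KE D x f s' → ¬ (f = e ∧ s' = !s) →
      Relation.EqvGen (adj (spD D e s sd sa) (spX e x)) (rtr D x e s sd sa (D.en f s', y))
        (rtr D x e s sd sa (D.en f (!s'), tr x f s' * y)) := by
    intro f s' y hy hf
    have hq : rtr D x e s sd sa (D.en f (!s'), tr x f s' * y) =
        ((spD D e s sd sa).en (some f) (!s'), tr x f s' * y) := by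
      refine h.rtr_base f (!s') ?_ _ (tr_mem_KE' D x hy)
      rintro ⟨h1, h2⟩
      exact hf ⟨h1, by rw [← h2]; simp⟩
    rw [hq]
    by_cases hfe : f = e
    · subst hfe
      have hs' : s' = s := by
        have : s' ≠ !s := fun h5 => hf ⟨rfl, h5⟩
        cases s <;> cases s' <;> simp at this ⊢
      subst hs'
      exact h.rtr_e y hy
    · rw [h.rtr_base f s' (fun h1 => hfe h1.1) y hy]
      refine Relation.EqvGen.rel _ _ ⟨some f, s', rfl, rfl, ?_, ?_⟩
      · simp only; rw [sp_KE_ne f s' hfe]; exact hy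
      · rw [spX_tr]; rfl
  obtain ⟨v, y⟩ := p
  obtain ⟨w, z⟩ := q
  obtain ⟨f, s', h1, h2, h3, h4⟩ := hpq
  simp only at h1 h2 h3 h4
  subst h1 h2 h4
  by_cases hf : f = e ∧ s' = !s
  · have := key f (!s') (tr x f s' * y) (tr_mem_KE' D x h3) (by
      rintro ⟨_, h5⟩
      rw [hf.2] at h5
      simp at h5)
    simp only [Bool.not_not] at this
    rw [← mul_assoc, tr_mul_tr, one_mul] at this
    exact Relation.EqvGen.symm _ _ this
  · exact key f s' y h3 hf

theorem SpOK.rtrb_adj (b : β) (p q : V × FreeGroup β) (hpq : adjb D x b p q) :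
    Relation.EqvGen (adjb (spD D e s sd sa) (spX e x) b) (rtrb D x e s sd sa b p) (rtrb D x e s sd sa b q) := by
  -- one orientation
  have key : ∀ (f : E) (s' : Bool) (y : FreeGroup β), y ∈ KE D x f s' → y * of b ∈ KE D x f s' →
      ¬ (f = e ∧ s' = !s) →
      Relation.EqvGen (adjb (spD D e s sd sa) (spX e x) b) (rtrb D x e s sd sa b (D.en f s', y))
        (rtrb D x e s sd sa b (D.en f (!s'), tr x f s' * y)) := by
    intro f s' y hy hy' hf
    have hq : rtrb D x e s sd sa b (D.en f (!s'), tr x f s' * y) =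
        ((spD D e s sd sa).en (some f) (!s'), tr x f s' * y) := by
      refine h.rtrb_base b f (!s') ?_ _ (tr_mem_KE' D x hy) (by rw [mul_assoc]; exact tr_mem_KE' D x hy')
      rintro ⟨h1, h2⟩
      exact hf ⟨h1, by rw [← h2]; simp⟩
    rw [hq]
    by_cases hfe : f = e
    · subst hfe
      have hs' : s' = s := by
        have : s' ≠ !s := fun h5 => hf ⟨rfl, h5⟩
        cases s <;> cases s' <;> simp at this ⊢
      subst hs'
      exact h.rtrb_e b y hy hy'
    · rw [h.rtrb_base b f s' (fun h1 => hfe h1.1) y hy hy']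
      refine Relation.EqvGen.rel _ _ ⟨some f, s', rfl, rfl, ?_, ?_, ?_⟩
      · simp only; rw [sp_KE_ne f s' hfe]; exact hy
      · simp only; rw [sp_KE_ne f s' hfe]; exact hy'
      · rw [spX_tr]; rfl
  obtain ⟨v, y⟩ := p
  obtain ⟨w, z⟩ := q
  obtain ⟨f, s', h1, h2, h3, h3', h4⟩ := hpq
  simp only at h1 h2 h3 h3' h4
  subst h1 h2 h4
  by_cases hf : f = e ∧ s' = !s
  · have := key f (!s') (tr x f s' * y) (tr_mem_KE' D x h3) (by rw [mul_assoc]; exact tr_mem_KE' D x h3') (by
      rintro ⟨_, h5⟩
      rw [hf.2] at h5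
      simp at h5)
    simp only [Bool.not_not] at this
    rw [← mul_assoc, tr_mul_tr, one_mul] at this
    exact Relation.EqvGen.symm _ _ this
  · exact key f s' y h3 h3' hf

theorem SpOK.cd_KE : pos D x c s ∈ KE D x e s ∧ pos D x d s ∈ KE D x e s :=
  ⟨subset_Hull _ ⟨c, h.cet, rfl⟩, subset_Hull _ ⟨d, h.det, rfl⟩⟩

/-- The forward tree conditions. -/
theorem SpOK.TC' [Fintype V] [Fintype E] [Finite A] (hTC : TC D x) : TC (spD D e s sd sa) (spX e x) := by
  refine ⟨?_, ?_, ?_, ?_⟩
  · intro v y w z hy hz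
    have h1 := hTC.conn _ _ _ _ (sp_KV_sub v hy) (sp_KV_sub w hz)
    have h2 := eqvGen_map (rtr D x e s sd sa) h.rtr_adj h1
    rwa [h.rtr_old v y hy, h.rtr_old w z hz] at h2
  · have h1 := h.sumV
    have h2 := h.sumE
    have h3 := h.gate_card
    have h4 := hTC.card
    omega
  · intro b v y w z hy hy' hz hz'
    have h1 := hTC.connb b _ _ _ _ (sp_KV_sub v hy) (sp_KV_sub v hy') (sp_KV_sub w hz) (sp_KV_sub w hz')
    have h2 := eqvGen_map (rtrb D x e s sd sa b) (h.rtrb_adj b) h1
    rwa [h.rtrb_old b v y hy hy', h.rtrb_old b w z hz hz'] at h2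
  · intro b
    obtain ⟨w, y, h1, h2⟩ := hTC.neb b
    by_cases hw : w = D.en e s
    · subst hw
      change y ∈ Hull (nV D x (D.en e s)) at h1
      change y * of b ∈ Hull (nV D x (D.en e s)) at h2
      rw [sp_nV_union (sd := sd) (sa := sa)] at h1 h2
      rcases h.gate.mem_cell h1 h2 with h3 | h3 | h3
      · exact ⟨_, y, h3.1, h3.2⟩
      · exact ⟨_, y, h3.1, h3.2⟩
      · obtain ⟨b1, b2⟩ := Btw_of_mem_Sep h3
        obtain ⟨k1, k2⟩ := h.cd_KE
        have k3 : y ∈ KE D x e s := Hull_btw k1 k2 b1
        have k4 : y * of b ∈ KE D x e s := Hull_btw k1 k2 b2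
        refine ⟨(spD D e s sd sa).en (some e) (!s), tr x e s * y, ?_, ?_⟩
        · exact sp_KE_sub (sd := sd) (sa := sa) (s := s) e (!s) (by cases s <;> simp) (tr_mem_KE' D x k3)
        · rw [mul_assoc]
          exact sp_KE_sub (sd := sd) (sa := sa) (s := s) e (!s) (by cases s <;> simp) (tr_mem_KE' D x k4)
    · exact ⟨some w, y, by rw [sp_KV_ne w hw]; exact h1, by rw [sp_KV_ne w hw]; exact h2⟩

end

end Pool.Agent.W2helper26.PP
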