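import Pool.Agent.W2helper26.PP.Fwd2

/-!
# The forward part of the split: the properties (N) and (BR)
-/

set_option autoImplicit false
set_option linter.unusedSectionVars false

namespace Pool.Agent.W2helper26.PP

open FreeGroup

section
variable {β : Type} [DecidableEq β]

theorem one_sided {N : Set (FreeGroup β)} {t : FreeGroup β × β} {y : FreeGroup β} (hy : y ∈ Hull N)
    (h : ¬ ((∃ p ∈ N, Hs t p) ∧ (∃ p ∈ N, ¬ Hs t p))) : (Hs t y ↔ ∃ p ∈ N, Hs t p) := by
  constructor
  · intro h1
    by_contra h2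
    push Not at h2
    exact (hy t).2 h2 h1
  · intro h1
    refine (hy t).1 ?_
    by_contra h2
    push Not at h2
    exact h ⟨h1, h2⟩

/-- A point of the hull which is not in the set has two neighbours in the hull. -/
theorem two_steps {N : Set (FreeGroup β)} {y : FreeGroup β} (hy : y ∈ Hull N) (hyN : y ∉ N) (hN : N.Nonempty) :
    ∃ l₁ l₂ : β × Bool, l₁ ≠ l₂ ∧ y * mk [l₁] ∈ Hull N ∧ y * mk [l₂] ∈ Hull N := by
  obtain ⟨p, hp⟩ := hN
  have hyp : y ≠ p := fun h => hyN (h ▸ hp)
  obtain ⟨l₁, h1, h2, _, _⟩ := exists_step_mem hy (subset_Hull N hp) hyp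
  -- not all names are on the side of `p`
  obtain ⟨q, hq, h3⟩ : ∃ q ∈ N, (Hs (cellOf y l₁) q ↔ Hs (cellOf y l₁) y) := by
    by_contra hcon
    push Not at hcon
    by_cases c1 : Hs (cellOf y l₁) y
    · refine (hy (cellOf y l₁)).2 (fun q hq c2 => ?_) c1
      rcases hcon q hq with h4 | h4
      · exact h4.2 c1
      · exact h4.1 c2
    · refine c1 ((hy (cellOf y l₁)).1 fun q hq => ?_)
      rcases hcon q hq with h4 | h4
      · exact h4.1
      · exact absurd h4.2 c1
  have hyq : y ≠ q := fun h => hyN (h ▸ hq)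
  obtain ⟨l₂, h4, h5, _, _⟩ := exists_step_mem hy (subset_Hull N hq) hyq
  refine ⟨l₁, l₂, ?_, h1, h4⟩
  rintro rfl
  exact h5 h3.symm

/-- The two steps from an interior point of a segment. -/
theorem two_steps_btw {c y d : FreeGroup β} (hb : Btw c y d) (h1 : y ≠ c) (h2 : y ≠ d) :
    ∃ l₁ l₂ : β × Bool, l₁ ≠ l₂ ∧ Btw c (y * mk [l₁]) d ∧ Btw c (y * mk [l₂]) d := by
  have hy : y ∈ Hull ({c, d} : Set (FreeGroup β)) :=
    Hull_btw (subset_Hull _ (by simp)) (subset_Hull _ (by simp)) hb
  have hyN : y ∉ ({c, d} : Set (FreeGroup β)) := by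
    simp only [Set.mem_insert_iff, Set.mem_singleton_iff, not_or]; exact ⟨h1, h2⟩
  obtain ⟨l₁, l₂, h3, h4, h5⟩ := two_steps hy hyN ⟨c, by simp⟩
  refine ⟨l₁, l₂, h3, ?_, ?_⟩
  · intro t
    exact ⟨fun a b => (h4 t).1 (by simp [a, b]), fun a b => (h4 t).2 (by simp [a, b])⟩
  · intro t
    exact ⟨fun a b => (h5 t).1 (by simp [a, b]), fun a b => (h5 t).2 (by simp [a, b])⟩

end

section
variable {β V E A : Type} [DecidableEq β]

/-- A name with an uncovered-by-itself neighbouring cell. -/
theorem covers_or_uncovered (D : Dt V E A) (x : Val β E A) (w : V) (f : E) (s' : Bool)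
    (p : FreeGroup β) (l : β × Bool) (hl : p * mk [l] ∈ KV D x w) (hn : p * mk [l] ∉ KE D x f s') :
    (∃ f₂ s₂, D.en f₂ s₂ = w ∧ (f₂, s₂) ≠ (f, s') ∧ p ∈ KE D x f₂ s₂) ∨
      ∃ l : β × Bool, p * mk [l] ∈ KV D x w ∧ ∀ f₂ s₂, D.en f₂ s₂ = w →
        ¬ (p ∈ KE D x f₂ s₂ ∧ p * mk [l] ∈ KE D x f₂ s₂) := by
  by_cases h : ∃ f₂ s₂, D.en f₂ s₂ = w ∧ (p ∈ KE D x f₂ s₂ ∧ p * mk [l] ∈ KE D x f₂ s₂)
  · obtain ⟨f₂, s₂, h1, h2, h3⟩ := h
    refine Or.inl ⟨f₂, s₂, h1, ?_, h2⟩
    intro h4
    rw [Prod.mk.injEq] at h4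
    rw [h4.1, h4.2] at h3
    exact hn h3
  · refine Or.inr ⟨l, hl, ?_⟩
    intro f₂ s₂ h1 h2
    exact h ⟨f₂, s₂, h1, h2⟩

variable {D : Dt V E A} {x : Val β E A} {e : E} {s : Bool} {sd : E → Bool → Prop} {sa : A → Prop}
  {t₀ : FreeGroup β × β} {c d : A}

/-- The clause of property (N) for one name. -/
def PNc (D : Dt V E A) (x : Val β E A) (Q : Set (V × FreeGroup β)) (α : A) (s : Bool) : Prop :=
  (D.en (D.et α) s, pos D x α s) ∈ Q ∨
    (∃ α' s', D.en (D.et α') s' = D.en (D.et α) s ∧ pos D x α' s' = pos D x α s ∧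
      (D.et α', s') ≠ (D.et α, s)) ∨
    (IsEnd (KE D x (D.et α) s) (pos D x α s) ∧
      ((∃ e s', D.en e s' = D.en (D.et α) s ∧ (e, s') ≠ (D.et α, s) ∧ pos D x α s ∈ KE D x e s') ∨
       ∃ l : β × Bool, pos D x α s * FreeGroup.mk [l] ∈ KV D x (D.en (D.et α) s) ∧
         ∀ e s', D.en e s' = D.en (D.et α) s →
          ¬ (pos D x α s ∈ KE D x e s' ∧ pos D x α s * FreeGroup.mk [l] ∈ KE D x e s')))

theorem IsEnd.mono {K K' : Set (FreeGroup β)} {y : FreeGroup β} (h : IsEnd K y) (hs : K' ⊆ K) : IsEnd K' y :=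
  fun l l' h1 h2 => h l l' (hs h1) (hs h2)

variable (h : SpOK D x e s sd sa t₀ c d)
include h

theorem SpOK.en_e : (spD D e s sd sa).en (some e) s = some (D.en e s) :=
  spD_en_some D e s sd sa e s fun h3 => h.sde h3.2

theorem SpOK.exact_v {y : FreeGroup β} (hy : y ∈ KE D x e s)
    (c1 : y ∈ KV (spD D e s sd sa) (spX e x) (some (D.en e s))) :
    y ∈ KE (spD D e s sd sa) (spX e x) (some e) s := by
  have hy2 := hy
  change y ∈ Hull (nE D x e s) at hy2
  rw [sp_nE_union (sd := sd) (sa := sa) (s := s)] at hy2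
  rcases h.gateE.mem hy2 with h1 | h1 | h1
  · exact h1
  · exfalso
    have h2 : y ∈ KV (spD D e s sd sa) (spX e x) none := by
      have := KE_subset_KV (spD D e s sd sa) (spX e x) none s h1
      rwa [spD_en_none_self] at this
    exact h.KV_v y c1 (h.KV_none y h2)
  · rw [h.gate.eq_c c1 h1]
    exact subset_Hull _ h.c_mem

theorem SpOK.exact_none {y : FreeGroup β} (hy : y ∈ KE D x e s)
    (c1 : y ∈ KV (spD D e s sd sa) (spX e x) none) :
    y ∈ KE (spD D e s sd sa) (spX e x) none s := by
  have hy2 := hy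
  change y ∈ Hull (nE D x e s) at hy2
  rw [sp_nE_union (sd := sd) (sa := sa) (s := s)] at hy2
  rcases h.gateE.mem hy2 with h1 | h1 | h1
  · exfalso
    have h2 : y ∈ KV (spD D e s sd sa) (spX e x) (some (D.en e s)) := by
      have := KE_subset_KV (spD D e s sd sa) (spX e x) (some e) s h1
      rwa [h.en_e] at this
    exact h.KV_v y h2 (h.KV_none y c1)
  · exact h1
  · rw [h.gate.symm.eq_c c1 h1.symm]
    exact subset_Hull _ h.d_mem

/-- A point determines the new node. -/
theorem SpOK.node_unique {w₁ w₂ : Option V} {y : FreeGroup β}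
    (h1 : y ∈ KV (spD D e s sd sa) (spX e x) w₁) (h2 : y ∈ KV (spD D e s sd sa) (spX e x) w₂)
    (h3 : oldV D e s w₁ = oldV D e s w₂) : w₁ = w₂ := by
  cases w₁ with
  | none =>
    cases w₂ with
    | none => rfl
    | some w =>
      have : w = D.en e s := h3.symm
      subst this
      exact absurd (h.KV_none y h1) (h.KV_v y h2)
  | some w =>
    cases w₂ with
    | none =>
      have : w = D.en e s := h3
      subst this
      exact absurd (h.KV_none y h2) (h.KV_v y h1)
    | some w' => exact congrArg some h3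

theorem SpOK.name_mem (α : A) (s' : Bool) :
    pos D x α s' ∈ KV (spD D e s sd sa) (spX e x) ((spD D e s sd sa).en ((spD D e s sd sa).et α) s') :=
  subset_Hull _ ⟨α, s', rfl, spX_pos D e s sd sa x α s'⟩

theorem SpOK.oldV_name (α : A) (s' : Bool) :
    oldV D e s ((spD D e s sd sa).en ((spD D e s sd sa).et α) s') = D.en (D.et α) s' := by
  rw [oldV_en, oldE_et]

/-- The run is in the tree of the node `u'`. -/
theorem SpOK.run_mem {y : FreeGroup β} (hy : Btw (pos D x c s) y (pos D x d s)) :
    y ∈ KE D x e s ∧ tr x e s * y ∈ KV (spD D e s sd sa) (spX e x) ((spD D e s sd sa).en (some e) (!s)) := by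
  obtain ⟨k1, k2⟩ := h.cd_KE
  have k3 : y ∈ KE D x e s := Hull_btw k1 k2 hy
  exact ⟨k3, sp_KE_sub (sd := sd) (sa := sa) (s := s) e (!s) (by cases s <;> simp) (tr_mem_KE' D x k3)⟩

/-- The new exceptional set. -/
noncomputable def Qn (D : Dt V E A) (e : E) (s : Bool) (t₀ : FreeGroup β × β) (Q : Set (V × FreeGroup β)) :
    Set (Option V × FreeGroup β) :=
  open Classical in (fun p => (if p.1 = D.en e s ∧ Hs t₀ p.2 then none else some p.1, p.2)) '' Q

omit h in
theorem Qn_mem {Q : Set (V × FreeGroup β)} {w : Option V} {y : FreeGroup β}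
    (hq : (oldV D e s w, y) ∈ Q) (hw : oldV D e s w = D.en e s → (w = none ↔ Hs t₀ y)) :
    (w, y) ∈ Qn D e s t₀ Q := by
  classical
  refine ⟨_, hq, ?_⟩
  simp only [Prod.mk.injEq, and_true]
  cases w with
  | none =>
    rw [if_pos]
    exact ⟨rfl, (hw rfl).1 rfl⟩
  | some w =>
    rw [if_neg]
    · rfl
    · rintro ⟨h1, h2⟩
      have := (hw h1).2 h2
      simp at this

omit h in
theorem Qn_card {Q : Set (V × FreeGroup β)} (hQ : Q.Finite) :
    (Qn D e s t₀ Q).Finite ∧ (Qn D e s t₀ Q).ncard ≤ Q.ncard :=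
  ⟨hQ.image _, Set.ncard_image_le hQ⟩

/-- Transfer of the clause (N) to the split. -/
theorem SpOK.PNc_split {Q : Set (V × FreeGroup β)} (α : A) (s' : Bool) (hN : PNc D x Q α s') :
    PNc (spD D e s sd sa) (spX e x) (Qn D e s t₀ Q) α s' := by
  have hold := h.oldV_name α s'
  have hmem := h.name_mem α s'
  rcases hN with hN | ⟨α', s₂, h1, h2, h3⟩ | ⟨h1, h2⟩
  · refine Or.inl (Qn_mem ?_ ?_)
    · rw [hold, spX_pos]; exact hN
    · intro h1
      rw [hold] at h1
      rw [spX_pos]; exact h.side α s' h1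
  · refine Or.inr (Or.inl ⟨α', s₂, ?_, ?_, ?_⟩)
    · refine h.node_unique (h.name_mem α' s₂) ?_ ?_
      · rw [h2]; exact hmem
      · rw [h.oldV_name, hold, h1]
    · rw [spX_pos, spX_pos, h2]
    · intro h4
      apply h3
      rw [Prod.mk.injEq] at h4 ⊢
      refine ⟨?_, h4.2⟩
      rw [← oldE_et D e s sd sa α', ← oldE_et D e s sd sa α, h4.1]
  · refine Or.inr (Or.inr ?_)
    have hend : IsEnd (KE (spD D e s sd sa) (spX e x) ((spD D e s sd sa).et α) s') (pos D x α s') := by
      refine h1.mono ?_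
      have := sp_KE_sub' (D := D) (x := x) (e := e) (s := s) (sd := sd) (sa := sa)
        ((spD D e s sd sa).et α) s'
      rwa [oldE_et] at this
    rw [spX_pos]
    refine ⟨hend, ?_⟩
    rcases h2 with ⟨f, s₂, h3, h4, h5⟩ | ⟨l, h3, h4⟩
    · -- covered by another base
      by_cases hf : f = e ∧ s₂ = s
      · obtain ⟨rfl, rfl⟩ := hf
        cases hn : (spD D f s₂ sd sa).en ((spD D f s₂ sd sa).et α) s' with
        | none =>
          rw [hn] at hmem
          refine Or.inl ⟨none, s₂, spD_en_none_self D f s₂ sd sa, ?_, h.exact_none h5 hmem⟩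
          intro h6
          rw [Prod.mk.injEq] at h6
          apply h4
          rw [Prod.mk.injEq]
          refine ⟨?_, h6.2⟩
          rw [← oldE_et D f s₂ sd sa α, ← h6.1]; rfl
        | some w =>
          have hw : w = D.en f s₂ := by
            rw [hn] at hold
            exact hold.trans h3.symm
          subst hw
          rw [hn] at hmem
          refine Or.inl ⟨some f, s₂, h.en_e, ?_, h.exact_v h5 hmem⟩
          intro h6
          rw [Prod.mk.injEq] at h6
          apply h4
          rw [Prod.mk.injEq]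
          refine ⟨?_, h6.2⟩
          rw [← oldE_et D f s₂ sd sa α, ← h6.1]; rfl
      · have hnode : (spD D e s sd sa).en (some f) s₂ =
            (spD D e s sd sa).en ((spD D e s sd sa).et α) s' := by
          refine h.node_unique (sp_KE_sub (sd := sd) (sa := sa) (s := s) f s₂ hf h5) hmem ?_
          rw [hold, oldV_en]; exact h3
        have hne : ∀ f' : Option E, oldE e f' = f → (f', s₂) ≠ ((spD D e s sd sa).et α, s') := by
          intro f' hf' h6
          rw [Prod.mk.injEq] at h6
          apply h4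
          rw [Prod.mk.injEq]
          refine ⟨?_, h6.2⟩
          rw [← oldE_et D e s sd sa α, ← h6.1, hf']
        by_cases hfe : f = e
        · subst hfe
          have hs₂ : s₂ = !s := by
            have : s₂ ≠ s := fun h5 => hf ⟨rfl, h5⟩
            cases s <;> cases s₂ <;> simp at this ⊢
          subst hs₂
          -- the point seen from the side `s`
          obtain ⟨y₀, hy₀, hpy⟩ : ∃ y₀, y₀ ∈ KE D x f s ∧ tr x f s * y₀ = pos D x α s' := by
            rw [KE_not] at h5
            obtain ⟨y₀, hy₀, hpy⟩ := h5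
            exact ⟨y₀, hy₀, hpy⟩
          have hy2 := hy₀
          change y₀ ∈ Hull (nE D x f s) at hy2
          rw [sp_nE_union (sd := sd) (sa := sa) (s := s)] at hy2
          have htr : ∀ f' : Option E, oldE f f' = f → y₀ ∈ KE (spD D f s sd sa) (spX f x) f' s →
              pos D x α s' ∈ KE (spD D f s sd sa) (spX f x) f' (!s) := by
            intro f' hf' hK
            have := tr_mem_KE' (spD D f s sd sa) (spX f x) hK
            rw [spX_tr, hf', hpy] at this
            exact this
          rcases h.gateE.mem hy2 with h6 | h6 | h6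
          · exact Or.inl ⟨some f, !s, hnode, hne _ rfl, htr _ rfl h6⟩
          · refine Or.inl ⟨none, !s, ?_, hne _ rfl, htr _ rfl h6⟩
            rw [spD_en_none_not]; exact hnode
          · by_cases e1 : y₀ = pos D x c s
            · refine Or.inl ⟨some f, !s, hnode, hne _ rfl, htr _ rfl ?_⟩
              rw [e1]; exact subset_Hull _ h.c_mem
            by_cases e2 : y₀ = pos D x d s
            · refine Or.inl ⟨none, !s, ?_, hne _ rfl, htr _ rfl ?_⟩
              · rw [spD_en_none_not]; exact hnode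
              · rw [e2]; exact subset_Hull _ h.d_mem
            obtain ⟨l₁, l₂, h7, h8, h9⟩ := two_steps_btw h6 e1 e2
            have g1 := (h.run_mem h8).2
            have g2 := (h.run_mem h9).2
            rw [hnode, ← mul_assoc, hpy] at g1 g2
            by_cases k1 : pos D x α s' * FreeGroup.mk [l₁] ∈
                KE (spD D f s sd sa) (spX f x) ((spD D f s sd sa).et α) s'
            · by_cases k2 : pos D x α s' * FreeGroup.mk [l₂] ∈
                  KE (spD D f s sd sa) (spX f x) ((spD D f s sd sa).et α) s'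
              · exact absurd (hend l₁ l₂ k1 k2) h7
              · exact covers_or_uncovered _ _ _ _ _ _ l₂ g2 k2
            · exact covers_or_uncovered _ _ _ _ _ _ l₁ g1 k1
        · refine Or.inl ⟨some f, s₂, hnode, hne _ rfl, ?_⟩
          rw [sp_KE_ne f s₂ hfe]; exact h5
    · -- touches an uncovered cell
      refine Or.inr ⟨l, ?_, ?_⟩
      · cases hn : (spD D e s sd sa).en ((spD D e s sd sa).et α) s' with
        | none =>
          rw [hn] at hold hmem
          rw [← hold] at h3
          have hp : pos D x α s' ∈ KV D x (D.en e s) := sp_KV_sub none hmem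
          change _ ∈ Hull (nV D x (D.en e s)) at h3
          change _ ∈ Hull (nV D x (D.en e s)) at hp
          rw [sp_nV_union (sd := sd) (sa := sa)] at h3 hp
          have h5 := (cell_mem_Hull_iff' (y := pos D x α s') (l := l)).1 ⟨hp, h3⟩
          rw [h.gate.cell] at h5
          rcases h5 with h5 | h5 | h5
          · have h6 := cell_mem_Hull_iff'.2 h5
            exact absurd (h.KV_none _ hmem) (h.KV_v _ h6.1)
          · exact (cell_mem_Hull_iff'.2 h5).2
          · exfalso
            have h6 := (cell_mem_Hull_iff' (N := nE D x e s) (y := pos D x α s') (l := l)).2 ?_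
            · exact h4 e s (by rw [← hold]; rfl) h6
            · obtain ⟨k1, k2⟩ := h.cd_KE
              by_cases c1 : Hs (cellOf (pos D x α s') l) (pos D x c s)
              · exact exists_of_sep_Hull k1 k2 c1 fun c2 => h5 (iff_of_true c1 c2)
              · refine exists_of_sep_Hull k2 k1 ?_ c1
                by_contra c2; exact h5 (iff_of_false c1 c2)
        | some w =>
          rw [hn] at hold hmem
          have hw : w = D.en (D.et α) s' := hold
          by_cases hwv : w = D.en e s
          · rw [← hw, hwv] at h3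
            rw [hwv] at hmem ⊢
            have hp : pos D x α s' ∈ KV D x (D.en e s) := sp_KV_sub (some (D.en e s)) hmem
            change _ ∈ Hull (nV D x (D.en e s)) at h3
            change _ ∈ Hull (nV D x (D.en e s)) at hp
            rw [sp_nV_union (sd := sd) (sa := sa)] at h3 hp
            have h5 := (cell_mem_Hull_iff' (y := pos D x α s') (l := l)).1 ⟨hp, h3⟩
            rw [h.gate.cell] at h5
            rcases h5 with h5 | h5 | h5
            · exact (cell_mem_Hull_iff'.2 h5).2
            · have h6 := cell_mem_Hull_iff'.2 h5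
              exact absurd (h.KV_none _ h6.1) (h.KV_v _ hmem)
            · exfalso
              have h6 := (cell_mem_Hull_iff' (N := nE D x e s) (y := pos D x α s') (l := l)).2 ?_
              · exact h4 e s (by rw [← hw, hwv]) h6
              · obtain ⟨k1, k2⟩ := h.cd_KE
                by_cases c1 : Hs (cellOf (pos D x α s') l) (pos D x c s)
                · exact exists_of_sep_Hull k1 k2 c1 fun c2 => h5 (iff_of_true c1 c2)
                · refine exists_of_sep_Hull k2 k1 ?_ c1
                  by_contra c2; exact h5 (iff_of_false c1 c2)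
          · rw [sp_KV_ne w hwv, hw]; exact h3
      · intro f s₂ h5 h6
        refine h4 (oldE e f) s₂ ?_ ⟨sp_KE_sub' f s₂ h6.1, sp_KE_sub' f s₂ h6.2⟩
        rw [← oldV_en D e s sd sa f s₂, h5, hold]

/-- Property (BR) for the split. -/
theorem SpOK.PBR' (hBR : PBR D x) : PBR (spD D e s sd sa) (spX e x) := by
  intro w y l₁ l₂ l₃ h12 h13 h23 k1 k2 k3 f s' hw hy
  obtain ⟨α, h1, h2⟩ := hBR (oldV D e s w) y l₁ l₂ l₃ h12 h13 h23 (sp_KV_sub w k1) (sp_KV_sub w k2)
    (sp_KV_sub w k3) (oldE e f) s' (by rw [← hw, oldV_en]) (sp_KE_sub' f s' hy)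
  refine ⟨α, ?_, by rw [spX_pos]; exact h2⟩
  -- the position of `α` at the side `s`
  have hs : ∀ f' : Option E, oldE e f' = e → f = f' →
      pos D x α s ∈ KE (spD D e s sd sa) (spX e x) f' s := by
    intro f' hf' hff
    subst hff
    by_cases hs' : s' = s
    · subst hs'; rw [h2]; exact hy
    · have hs'' : s' = !s := by cases s <;> cases s' <;> simp at hs' ⊢
      subst hs''
      have h3 := pos_not D x α (!s)
      rw [Bool.not_not] at h3
      rw [h3, h2, h1, hf']
      have h4 := tr_mem_KE' (spD D e s sd sa) (spX e x) hy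
      rw [spX_tr, hf', Bool.not_not] at h4
      exact h4
  cases f with
  | none =>
    have h3 : D.et α = e := h1
    refine spD_et_none D e s sd sa α h3 ((h.sa_iff α h3).2 ?_)
    have := hs none rfl rfl
    have := KE_subset_KV _ _ _ _ this
    rw [spD_en_none_self] at this
    exact h.KV_none _ this
  | some f =>
    have h3 : D.et α = f := h1
    by_cases hf : f = e
    · subst hf
      rw [spD_et_some D f s sd sa α, h3]
      rintro ⟨_, h5⟩
      have := hs (some f) rfl rfl
      have := KE_subset_KV _ _ _ _ this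
      rw [h.en_e] at this
      exact h.KV_v _ this ((h.sa_iff α h3).1 h5)
    · rw [spD_et_some D e s sd sa α, h3]
      rintro ⟨h4, _⟩
      exact hf (h3.symm.trans h4)

end

end Pool.Agent.W2helper26.PP
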