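import Pool.Agent.W2helper26.PP.SplitStm

/-!
# Gates (bridges between two subtrees)
-/

set_option autoImplicit false
set_option linter.unusedSectionVars false

namespace Pool.Agent.W2helper26.PP

open FreeGroup

section
variable {β : Type} [DecidableEq β]

theorem Hull_Hs {N : Set (FreeGroup β)} {t : FreeGroup β × β} {y : FreeGroup β} (hy : y ∈ Hull N) {P : Prop}
    (h : ∀ p ∈ N, (Hs t p ↔ P)) : (Hs t y ↔ P) := by
  by_cases c : P
  · exact iff_of_true ((hy t).1 fun p hp => (h p hp).2 c) c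
  · exact iff_of_false ((hy t).2 fun p hp h' => c ((h p hp).1 h')) c

theorem Gate.symm {N₁ N₂ : Set (FreeGroup β)} {c d : FreeGroup β} (h : Gate N₁ N₂ c d) : Gate N₂ N₁ d c :=
  ⟨h.hd, h.hc, h.g2, h.g1⟩

/-- The gate restricts to subsets. -/
theorem Gate.mono {N₁ N₂ M₁ M₂ : Set (FreeGroup β)} {c d : FreeGroup β} (h : Gate N₁ N₂ c d)
    (h1 : M₁ ⊆ N₁) (h2 : M₂ ⊆ N₂) (hc : c ∈ Hull M₁) (hd : d ∈ Hull M₂) : Gate M₁ M₂ c d := by
  refine ⟨hc, hd, ?_, ?_⟩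
  · rintro t ⟨p, hp, h3⟩ ⟨q, hq, h4⟩ r hr
    exact h.g1 t ⟨p, h1 hp, h3⟩ ⟨q, h1 hq, h4⟩ r (h2 hr)
  · rintro t ⟨p, hp, h3⟩ ⟨q, hq, h4⟩ r hr
    exact h.g2 t ⟨p, h2 hp, h3⟩ ⟨q, h2 hq, h4⟩ r (h1 hr)

/-- A cell separating `N₁` does not separate `c` and `d`. -/
theorem Gate.g1' {N₁ N₂ : Set (FreeGroup β)} {c d : FreeGroup β} (h : Gate N₁ N₂ c d) {t : FreeGroup β × β}
    (h1 : ∃ p ∈ N₁, Hs t p) (h2 : ∃ p ∈ N₁, ¬ Hs t p) : (Hs t d ↔ Hs t c) :=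
  Hull_Hs h.hd (h.g1 t h1 h2)

/-- A cell separating `c` and `d` has `N₁` on the side of `c`. -/
theorem Gate.sep1 {N₁ N₂ : Set (FreeGroup β)} {c d : FreeGroup β} (h : Gate N₁ N₂ c d) {t : FreeGroup β × β}
    (ht : ¬ (Hs t c ↔ Hs t d)) : ∀ p ∈ N₁, (Hs t p ↔ Hs t c) := by
  by_cases h1 : ∃ p ∈ N₁, Hs t p
  · by_cases h2 : ∃ p ∈ N₁, ¬ Hs t p
    · exact absurd (h.g1' h1 h2).symm ht
    · push Not at h2
      intro p hp
      exact iff_of_true (h2 p hp) ((h.hc t).1 h2)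
  · push Not at h1
    intro p hp
    exact iff_of_false (h1 p hp) ((h.hc t).2 h1)

theorem Gate.sep2 {N₁ N₂ : Set (FreeGroup β)} {c d : FreeGroup β} (h : Gate N₁ N₂ c d) {t : FreeGroup β × β}
    (ht : ¬ (Hs t c ↔ Hs t d)) : ∀ p ∈ N₂, (Hs t p ↔ Hs t d) :=
  h.symm.sep1 fun h' => ht h'.symm

/-- Classification of the cells of the hull of the union. -/
theorem Gate.cell {N₁ N₂ : Set (FreeGroup β)} {c d : FreeGroup β} (h : Gate N₁ N₂ c d) (t : FreeGroup β × β) :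
    ((∃ p ∈ N₁ ∪ N₂, Hs t p) ∧ (∃ p ∈ N₁ ∪ N₂, ¬ Hs t p)) ↔
      (((∃ p ∈ N₁, Hs t p) ∧ (∃ p ∈ N₁, ¬ Hs t p)) ∨ ((∃ p ∈ N₂, Hs t p) ∧ (∃ p ∈ N₂, ¬ Hs t p)) ∨
        t ∈ Sep c d) := by
  constructor
  · rintro ⟨⟨p, hp, h1⟩, ⟨q, hq, h2⟩⟩
    by_cases a : (∃ p ∈ N₁, Hs t p) ∧ (∃ p ∈ N₁, ¬ Hs t p)
    · exact Or.inl a
    by_cases b : (∃ p ∈ N₂, Hs t p) ∧ (∃ p ∈ N₂, ¬ Hs t p)
    · exact Or.inr (Or.inl b)
    refine Or.inr (Or.inr ?_)
    intro hcd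
    have key : ∀ (N : Set (FreeGroup β)) (y : FreeGroup β), y ∈ Hull N →
        ¬ ((∃ p ∈ N, Hs t p) ∧ (∃ p ∈ N, ¬ Hs t p)) → ∀ p ∈ N, (Hs t p ↔ Hs t y) := by
      intro N y hy hN p hp
      by_cases c1 : ∃ p ∈ N, Hs t p
      · have c2 : ∀ p ∈ N, Hs t p := by
          by_contra c3
          push Not at c3
          exact hN ⟨c1, c3⟩
        exact iff_of_true (c2 p hp) ((hy t).1 c2)
      · push Not at c1
        exact iff_of_false (c1 p hp) ((hy t).2 c1)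
    have k1 := key N₁ c h.hc a
    have k2 := key N₂ d h.hd b
    have k : ∀ p ∈ N₁ ∪ N₂, (Hs t p ↔ Hs t c) := by
      rintro p (hp | hp)
      · exact k1 p hp
      · exact (k2 p hp).trans hcd.symm
    exact h2 ((k q hq).2 ((k p hp).1 h1))
  · rintro (⟨⟨p, hp, h1⟩, ⟨q, hq, h2⟩⟩ | ⟨⟨p, hp, h1⟩, ⟨q, hq, h2⟩⟩ | hcd)
    · exact ⟨⟨p, Or.inl hp, h1⟩, ⟨q, Or.inl hq, h2⟩⟩
    · exact ⟨⟨p, Or.inr hp, h1⟩, ⟨q, Or.inr hq, h2⟩⟩
    · have hc : c ∈ Hull (N₁ ∪ N₂) := Hull_mono Set.subset_union_left h.hc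
      have hd : d ∈ Hull (N₁ ∪ N₂) := Hull_mono Set.subset_union_right h.hd
      by_cases c1 : Hs t c
      · refine exists_of_sep_Hull hc hd c1 fun c2 => hcd (iff_of_true c1 c2)
      · refine exists_of_sep_Hull hd hc ?_ c1
        by_contra c2
        exact hcd (iff_of_false c1 c2)

/-- The cells of a hull, as a set. -/
def cellsH (N : Set (FreeGroup β)) : Set (FreeGroup β × β) := {t | t.1 ∈ Hull N ∧ t.1 * of t.2 ∈ Hull N}

theorem mem_cellsH {N : Set (FreeGroup β)} {t : FreeGroup β × β} :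
    t ∈ cellsH N ↔ ((∃ p ∈ N, Hs t p) ∧ (∃ p ∈ N, ¬ Hs t p)) := cell_mem_Hull_iff

theorem Gate.cellsH_eq {N₁ N₂ : Set (FreeGroup β)} {c d : FreeGroup β} (h : Gate N₁ N₂ c d) :
    cellsH (N₁ ∪ N₂) = cellsH N₁ ∪ (cellsH N₂ ∪ Sep c d) := by
  ext t
  rw [mem_cellsH, h.cell t, Set.mem_union, Set.mem_union, mem_cellsH, mem_cellsH]

theorem Gate.disj {N₁ N₂ : Set (FreeGroup β)} {c d : FreeGroup β} (h : Gate N₁ N₂ c d) :
    Disjoint (cellsH N₁) (cellsH N₂) ∧ Disjoint (cellsH N₁) (Sep c d) ∧ Disjoint (cellsH N₂) (Sep c d) := by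
  refine ⟨?_, ?_, ?_⟩
  · rw [Set.disjoint_left]
    intro t h1 h2
    rw [mem_cellsH] at h1 h2
    obtain ⟨⟨p, hp, h3⟩, ⟨q, hq, h4⟩⟩ := h2
    have := h.g1 t h1.1 h1.2
    exact h4 ((this q hq).2 ((this p hp).1 h3))
  · rw [Set.disjoint_left]
    intro t h1 h2
    rw [mem_cellsH] at h1
    exact h2 (h.g1' h1.1 h1.2).symm
  · rw [Set.disjoint_left]
    intro t h1 h2
    rw [mem_cellsH] at h1
    exact h2 (h.symm.g1' h1.1 h1.2)

/-- Counting. -/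
theorem Gate.ncard {N₁ N₂ : Set (FreeGroup β)} {c d : FreeGroup β} (h : Gate N₁ N₂ c d)
    (f1 : N₁.Finite) (f2 : N₂.Finite) :
    (Hull (N₁ ∪ N₂)).ncard + 1 = (Hull N₁).ncard + (Hull N₂).ncard + (Sep c d).ncard := by
  obtain ⟨a1, a2⟩ := cells_ncard f1 ⟨c, h.hc⟩
  obtain ⟨b1, b2⟩ := cells_ncard f2 ⟨d, h.hd⟩
  obtain ⟨_, c2⟩ := cells_ncard (f1.union f2) ⟨c, Hull_mono Set.subset_union_left h.hc⟩
  change (cellsH (N₁ ∪ N₂)).ncard + 1 = _ at c2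
  change (cellsH N₁).ncard + 1 = _ at a2
  change (cellsH N₂).ncard + 1 = _ at b2
  change (cellsH N₁).Finite at a1
  change (cellsH N₂).Finite at b1
  obtain ⟨d1, d2, d3⟩ := h.disj
  rw [h.cellsH_eq, Set.ncard_union_eq (Set.disjoint_union_right.2 ⟨d1, d2⟩) a1 (b1.union (Sep_finite c d)),
    Set.ncard_union_eq d3 b1 (Sep_finite c d)] at c2
  omega

/-- Vertices of the hull of the union. -/
theorem Gate.mem {N₁ N₂ : Set (FreeGroup β)} {c d : FreeGroup β} (h : Gate N₁ N₂ c d) {y : FreeGroup β}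
    (hy : y ∈ Hull (N₁ ∪ N₂)) : y ∈ Hull N₁ ∨ y ∈ Hull N₂ ∨ Btw c y d := by
  refine Hull_induction (N := N₁ ∪ N₂) (P := fun y => y ∈ Hull N₁ ∨ y ∈ Hull N₂ ∨ Btw c y d) (y := c)
    (Hull_mono Set.subset_union_left h.hc) (Or.inl h.hc) ?_ y hy
  intro u l h1 h2 _
  have h3 := (cell_mem_Hull_iff' (N := N₁ ∪ N₂)).1 ⟨h1, h2⟩
  rw [h.cell] at h3
  rcases h3 with h3 | h3 | h3
  · exact Or.inl ((cell_mem_Hull_iff' (N := N₁)).2 h3).2
  · exact Or.inr (Or.inl ((cell_mem_Hull_iff' (N := N₂)).2 h3).2)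
  · refine Or.inr (Or.inr ?_)
    have h4 : Btw c (cellOf u l).1 d ∧ Btw c ((cellOf u l).1 * of (cellOf u l).2) d := by
      by_cases c1 : Hs (cellOf u l) c
      · have c2 : ¬ Hs (cellOf u l) d := fun c2 => h3 (iff_of_true c1 c2)
        obtain ⟨e1, e2⟩ := Btw_of_sep (x := (cellOf u l).1) (b := (cellOf u l).2) c2 c1
        exact ⟨e1.symm, e2.symm⟩
      · have c2 : Hs (cellOf u l) d := by_contra fun c2 => h3 (iff_of_false c1 c2)
        exact Btw_of_sep (x := (cellOf u l).1) (b := (cellOf u l).2) c1 c2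
    rcases cellOf_ends u l with ⟨e1, e2⟩ | ⟨e1, e2⟩
    · rw [e2] at h4; exact h4.2
    · rw [e1] at h4; exact h4.1

/-- The same for cells given by a vertex and a step. -/
theorem Gate.mem_cell {N₁ N₂ : Set (FreeGroup β)} {c d : FreeGroup β} (h : Gate N₁ N₂ c d) {y : FreeGroup β}
    {b : β} (hy : y ∈ Hull (N₁ ∪ N₂)) (hy' : y * of b ∈ Hull (N₁ ∪ N₂)) :
    (y ∈ Hull N₁ ∧ y * of b ∈ Hull N₁) ∨ (y ∈ Hull N₂ ∧ y * of b ∈ Hull N₂) ∨ (y, b) ∈ Sep c d := by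
  have h3 := (cell_mem_Hull_iff (N := N₁ ∪ N₂)).1 ⟨hy, hy'⟩
  rw [h.cell] at h3
  rcases h3 with h3 | h3 | h3
  · exact Or.inl (cell_mem_Hull_iff.2 h3)
  · exact Or.inr (Or.inl (cell_mem_Hull_iff.2 h3))
  · exact Or.inr (Or.inr h3)

theorem Btw_of_mem_Sep {c d : FreeGroup β} {t : FreeGroup β × β} (h : t ∈ Sep c d) :
    Btw c t.1 d ∧ Btw c (t.1 * of t.2) d := by
  by_cases c1 : Hs t c
  · have c2 : ¬ Hs t d := fun c2 => h (iff_of_true c1 c2)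
    obtain ⟨e1, e2⟩ := Btw_of_sep (x := t.1) (b := t.2) c2 c1
    exact ⟨e1.symm, e2.symm⟩
  · have c2 : Hs t d := by_contra fun c2 => h (iff_of_false c1 c2)
    exact Btw_of_sep (x := t.1) (b := t.2) c1 c2

/-- Existence of the gate between two finite sets on different sides of a cell. -/
theorem exists_gate {N₁ N₂ : Set (FreeGroup β)} {t₀ : FreeGroup β × β} (h1 : N₁.Nonempty) (h2 : N₂.Nonempty)
    (hm : ∀ p ∈ N₁, ¬ Hs t₀ p) (hp : ∀ p ∈ N₂, Hs t₀ p) : ∃ c d, Gate N₁ N₂ c d := by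
  obtain ⟨p₁, hp₁⟩ := h1
  obtain ⟨p₂, hp₂⟩ := h2
  -- minimal distance
  have hne : ∃ k, ∃ c ∈ Hull N₁, ∃ d ∈ Hull N₂, (c⁻¹ * d).norm = k :=
    ⟨_, p₁, subset_Hull _ hp₁, p₂, subset_Hull _ hp₂, rfl⟩
  classical
  obtain ⟨c, hc, d, hd, hk⟩ := Nat.find_spec hne
  have hmin : ∀ c' ∈ Hull N₁, ∀ d' ∈ Hull N₂, (c⁻¹ * d).norm ≤ (c'⁻¹ * d').norm := by
    intro c' hc' d' hd'
    rw [hk]
    exact Nat.find_min' hne ⟨c', hc', d', hd', rfl⟩
  -- gates of the hulls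
  have hd1 : ∀ q ∈ Hull N₂, Btw c d q := by
    intro q hq
    obtain ⟨m, hm⟩ := exists_median c d q
    have b1 : Btw d m q := by
      intro t; rw [hm t]
      by_cases a : Hs t c <;> by_cases b : Hs t d <;> by_cases c : Hs t q <;> simp [a, b, c]
    have b2 : Btw c m d := by
      intro t; rw [hm t]
      by_cases a : Hs t c <;> by_cases b : Hs t d <;> by_cases c : Hs t q <;> simp [a, b, c]
    have b3 : Btw c m q := by
      intro t; rw [hm t]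
      by_cases a : Hs t c <;> by_cases b : Hs t d <;> by_cases c : Hs t q <;> simp [a, b, c]
    have hm2 : m ∈ Hull N₂ := Hull_btw hd hq b1
    have h3 := hmin c hc m hm2
    rw [Btw_iff_norm] at b2
    have h4 : (m⁻¹ * d).norm = 0 := by omega
    have h5 : m = d := inv_mul_eq_one.1 (FreeGroup.norm_eq_zero.1 h4)
    rw [← h5]; exact b3
  have hc1 : ∀ q ∈ Hull N₁, Btw d c q := by
    intro q hq
    obtain ⟨m, hm⟩ := exists_median d c q
    have b1 : Btw c m q := by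
      intro t; rw [hm t]
      by_cases a : Hs t d <;> by_cases b : Hs t c <;> by_cases c : Hs t q <;> simp [a, b, c]
    have b2 : Btw c m d := by
      intro t; rw [hm t]
      by_cases a : Hs t d <;> by_cases b : Hs t c <;> by_cases c : Hs t q <;> simp [a, b, c]
    have b3 : Btw d m q := by
      intro t; rw [hm t]
      by_cases a : Hs t d <;> by_cases b : Hs t c <;> by_cases c : Hs t q <;> simp [a, b, c]
    have hm2 : m ∈ Hull N₁ := Hull_btw hc hq b1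
    have h3 := hmin m hm2 d hd
    rw [Btw_iff_norm] at b2
    have h4 : (c⁻¹ * m).norm = 0 := by omega
    have h5 : c = m := inv_mul_eq_one.1 (FreeGroup.norm_eq_zero.1 h4)
    rw [h5]; exact b3
  have hm' : ∀ p ∈ Hull N₁, ¬ Hs t₀ p := fun p hp' => (hp' t₀).2 hm
  have hp' : ∀ p ∈ Hull N₂, Hs t₀ p := fun p hp' => (hp' t₀).1 hp
  -- cells of the two hulls are disjoint
  have hdis : ∀ t, ¬ (((∃ p ∈ N₁, Hs t p) ∧ (∃ p ∈ N₁, ¬ Hs t p)) ∧
      ((∃ p ∈ N₂, Hs t p) ∧ (∃ p ∈ N₂, ¬ Hs t p))) := by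
    rintro t ⟨a, b⟩
    exact hm' _ (cell_mem_Hull_iff.2 a).1 (hp' _ (cell_mem_Hull_iff.2 b).1)
  refine ⟨c, d, hc, hd, ?_, ?_⟩
  · intro t a1 a2 q hq
    -- t does not separate c and d
    have e1 : (Hs t d ↔ Hs t c) := by
      by_contra hcd
      obtain ⟨p, hpN, h3⟩ := a1
      obtain ⟨r, hrN, h4⟩ := a2
      have k1 := hc1 p (subset_Hull _ hpN) t
      have k2 := hc1 r (subset_Hull _ hrN) t
      by_cases a : Hs t c <;> by_cases b : Hs t d <;> simp [a, b, h3, h4] at k1 k2 hcd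
    by_contra hqc
    -- t separates d from q
    have hqd : ¬ (Hs t q ↔ Hs t d) := fun h => hqc (h.trans e1)
    have : (∃ p ∈ N₂, Hs t p) ∧ (∃ p ∈ N₂, ¬ Hs t p) := by
      by_cases c1 : Hs t q
      · exact exists_of_sep_Hull (subset_Hull _ hq) hd c1 fun c2 => hqd (iff_of_true c1 c2)
      · refine exists_of_sep_Hull hd (subset_Hull _ hq) ?_ c1
        by_contra c2; exact hqd (iff_of_false c1 c2)
    exact hdis t ⟨⟨a1, a2⟩, this⟩
  · intro t a1 a2 q hq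
    have e1 : (Hs t c ↔ Hs t d) := by
      by_contra hcd
      obtain ⟨p, hpN, h3⟩ := a1
      obtain ⟨r, hrN, h4⟩ := a2
      have k1 := hd1 p (subset_Hull _ hpN) t
      have k2 := hd1 r (subset_Hull _ hrN) t
      by_cases a : Hs t c <;> by_cases b : Hs t d <;> simp [a, b, h3, h4] at k1 k2 hcd
    by_contra hqc
    have hqd : ¬ (Hs t q ↔ Hs t c) := fun h => hqc (h.trans e1)
    have : (∃ p ∈ N₁, Hs t p) ∧ (∃ p ∈ N₁, ¬ Hs t p) := by
      by_cases c1 : Hs t q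
      · exact exists_of_sep_Hull (subset_Hull _ hq) hc c1 fun c2 => hqd (iff_of_true c1 c2)
      · refine exists_of_sep_Hull hc (subset_Hull _ hq) ?_ c1
        by_contra c2; exact hqd (iff_of_false c1 c2)
    exact hdis t ⟨this, ⟨a1, a2⟩⟩

end

end Pool.Agent.W2helper26.PP
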