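import Pool.Agent.W2helper26.PP.Geo

/-!
# Finite multigraphs; the leaf graphs of a state
-/

set_option autoImplicit false
set_option linter.unusedSectionVars false

namespace Pool.Agent.W2helper26.PP

open FreeGroup

theorem eqvGen_mono' {X : Type} {r r' : X → X → Prop} (h : ∀ a b, r a b → r' a b) {a b : X}
    (hab : Relation.EqvGen r a b) : Relation.EqvGen r' a b := by
  induction hab with
  | rel a b hab => exact Relation.EqvGen.rel _ _ (h a b hab)
  | refl a => exact Relation.EqvGen.refl _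
  | symm a b _ ih => exact Relation.EqvGen.symm _ _ ih
  | trans a b c _ _ ih1 ih2 => exact Relation.EqvGen.trans _ _ _ ih1 ih2

theorem eqvGen_map' {X : Type} {r r' : X → X → Prop}
    (h : ∀ a b, r a b → Relation.EqvGen r' a b) {a b : X} (hab : Relation.EqvGen r a b) :
    Relation.EqvGen r' a b := by
  induction hab with
  | rel a b hab => exact h a b hab
  | refl a => exact Relation.EqvGen.refl _
  | symm a b _ ih => exact Relation.EqvGen.symm _ _ ih
  | trans a b c _ _ ih1 ih2 => exact Relation.EqvGen.trans _ _ _ ih1 ih2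

section MGraph
variable {W F : Type} [Fintype W] [Fintype F]

/-- Connectivity of a finite multigraph given by the end points `a f`, `b f` of the edges `f`. -/
def MConn {W F : Type} (a b : F → W) : Prop :=
  ∀ v w, Relation.EqvGen (fun p q => ∃ f, a f = p ∧ b f = q) v w

theorem MG1 {a b : F → W} (h : MConn a b) : Fintype.card W ≤ Fintype.card F + 1 := by
  classical
  rcases isEmpty_or_nonempty W with hW | hW
  · simp
  let G : SimpleGraph W := SimpleGraph.fromRel (fun p q => ∃ f, a f = p ∧ b f = q)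
  have hconn : G.Connected := by
    refine (SimpleGraph.connected_iff _).2 ⟨?_, hW⟩
    intro v w
    have := h v w
    induction this with
    | rel x y hxy =>
      by_cases hne : x = y
      · rw [hne]
      · exact SimpleGraph.Adj.reachable (by simp only [G, SimpleGraph.fromRel_adj]; exact ⟨hne, Or.inl hxy⟩)
    | refl x => exact SimpleGraph.Reachable.refl _
    | symm x y _ ih => exact ih.symm
    | trans x y z _ _ ih1 ih2 => exact ih1.trans ih2
  have h1 := hconn.card_vert_le_card_edgeSet_add_one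
  have h2 : Nat.card G.edgeSet ≤ Fintype.card F := by
    have hsub : G.edgeSet ⊆ Set.range (fun f => s(a f, b f)) := by
      intro e he
      induction e with
      | _ p q =>
        rw [SimpleGraph.mem_edgeSet] at he
        simp only [G, SimpleGraph.fromRel_adj] at he
        rcases he.2 with ⟨f, rfl, rfl⟩ | ⟨f, rfl, rfl⟩
        · exact ⟨f, rfl⟩
        · exact ⟨f, Sym2.eq_swap⟩
    have h3 : Nat.card G.edgeSet ≤ Nat.card (Set.range (fun f => s(a f, b f))) :=
      Nat.card_mono (Set.finite_range _) hsub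
    have h4 : Nat.card (Set.range (fun f => s(a f, b f))) ≤ Nat.card F := Finite.card_range_le _
    rw [Nat.card_eq_fintype_card (α := F)] at h4
    omega
  rw [Nat.card_eq_fintype_card] at h1
  omega

/-- In a finite tree every edge is a bridge. -/
theorem MG2 {a b : F → W} (h : MConn a b) (hc : Fintype.card W = Fintype.card F + 1) (f₀ : F) :
    ¬ Relation.EqvGen (fun p q => ∃ f, f ≠ f₀ ∧ a f = p ∧ b f = q) (a f₀) (b f₀) := by
  classical
  intro h'
  have hconn : MConn (fun f : {f // f ≠ f₀} => a f) (fun f : {f // f ≠ f₀} => b f) := by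
    intro v w
    have := h v w
    induction this with
    | rel x y hxy =>
      obtain ⟨f, rfl, rfl⟩ := hxy
      by_cases hf : f = f₀
      · subst hf
        refine eqvGen_mono' ?_ h'
        rintro p q ⟨f', h1, h2, h3⟩
        exact ⟨⟨f', h1⟩, h2, h3⟩
      · exact Relation.EqvGen.rel _ _ ⟨⟨f, hf⟩, rfl, rfl⟩
    | refl x => exact Relation.EqvGen.refl _
    | symm x y _ ih => exact ih.symm
    | trans x y z _ _ ih1 ih2 => exact ih1.trans _ _ _ ih2
  have h1 := MG1 hconn
  have h2 : Fintype.card {f // f ≠ f₀} = Fintype.card F - 1 := by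
    rw [Fintype.card_subtype_compl]; simp
  have h3 : 0 < Fintype.card F := Fintype.card_pos_iff.2 ⟨f₀⟩
  omega

/-- A finite tree with at least two vertices has a vertex of degree one. -/
theorem MG3 {a b : F → W} (hc : Fintype.card W = Fintype.card F + 1)
    (h : MConn a b) (h2 : 1 ≤ Fintype.card F) :
    ∃ w, ∃ c : F × Bool, (if c.2 then b c.1 else a c.1) = w ∧
      ∀ c' : F × Bool, (if c'.2 then b c'.1 else a c'.1) = w → c' = c := by
  classical
  let en : F × Bool → W := fun c => if c.2 then b c.1 else a c.1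
  have hsum : ∑ w, (Finset.univ.filter (fun c => en c = w)).card = 2 * Fintype.card F := by
    rw [← Finset.card_eq_sum_card_fiberwise (f := en) (s := Finset.univ) (t := Finset.univ) (by simp)]
    simp [Fintype.card_prod, mul_comm]
  -- every vertex has positive degree
  have hpos : ∀ w, 1 ≤ (Finset.univ.filter (fun c => en c = w)).card := by
    intro w
    obtain ⟨w', hw'⟩ : ∃ w', w' ≠ w := by
      by_contra hcon
      push Not at hcon
      have : Fintype.card W ≤ 1 := Fintype.card_le_one_iff.2 fun p q => (hcon p).trans (hcon q).symm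
      omega
    by_contra hcon
    have h0 : ∀ c, en c ≠ w := by
      intro c hcw
      apply hcon
      exact Finset.card_pos.2 ⟨c, by simp [hcw]⟩
    have : ∀ p q, Relation.EqvGen (fun p q => ∃ f, a f = p ∧ b f = q) p q → (p = w ↔ q = w) := by
      intro p q hpq
      induction hpq with
      | rel x y hxy =>
        obtain ⟨f, rfl, rfl⟩ := hxy
        have e1 : a f ≠ w := by simpa [en] using h0 (f, false)
        have e2 : b f ≠ w := by simpa [en] using h0 (f, true)
        exact iff_of_false e1 e2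
      | refl x => exact Iff.rfl
      | symm x y _ ih => exact ih.symm
      | trans x y z _ _ ih1 ih2 => exact ih1.trans ih2
    exact hw' ((this w w' (h w w')).1 rfl)
  obtain ⟨w, hw⟩ : ∃ w, (Finset.univ.filter (fun c => en c = w)).card ≤ 1 := by
    by_contra hcon
    push Not at hcon
    have : ∑ w : W, 2 ≤ ∑ w, (Finset.univ.filter (fun c => en c = w)).card :=
      Finset.sum_le_sum fun w _ => hcon w
    rw [hsum] at this
    simp at this
    omega
  obtain ⟨c, hcw⟩ := Finset.card_pos.1 (hpos w)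
  refine ⟨w, c, by simpa [en] using hcw, ?_⟩
  intro c' hc'
  exact Finset.card_le_one.1 hw c' (by simpa [en] using hc') c hcw

end MGraph

theorem eqvGen_or {X : Type} {r : X → X → Prop} {P : X → Prop} (h : ∀ a b, r a b → P a ∧ P b) {a b : X}
    (hab : Relation.EqvGen r a b) : a = b ∨ (P a ∧ P b) := by
  induction hab with
  | rel a b hab => exact Or.inr (h a b hab)
  | refl a => exact Or.inl rfl
  | symm a b _ ih => rcases ih with ih | ih
                     · exact Or.inl ih.symm
                     · exact Or.inr ih.symm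
  | trans a b c _ _ ih1 ih2 =>
    rcases ih1 with rfl | ih1
    · exact ih2
    · rcases ih2 with rfl | ih2
      · exact Or.inr ih1
      · exact Or.inr ⟨ih1.1, ih2.2⟩

theorem eqvGen_subtype {X : Type} {r : X → X → Prop} {P : X → Prop} (h : ∀ a b, r a b → P a ∧ P b) {a b : X}
    (hab : Relation.EqvGen r a b) (ha : P a) (hb : P b) :
    Relation.EqvGen (fun p q : Subtype P => r p.1 q.1) ⟨a, ha⟩ ⟨b, hb⟩ := by
  induction hab with
  | rel a b hab => exact Relation.EqvGen.rel _ _ hab
  | refl a => exact Relation.EqvGen.refl _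
  | symm a b _ ih => exact Relation.EqvGen.symm _ _ (ih hb ha)
  | trans a b c h1 h2 ih1 ih2 =>
    rcases eqvGen_or h h1 with h3 | h3
    · subst h3; exact ih2 _ _
    · exact (ih1 _ h3.2).trans _ _ _ (ih2 _ _)

section Leaf
variable {β V E A : Type} [DecidableEq β] [Fintype V] [Fintype E] [Finite A]
variable (D : Dt V E A) (x : Val β E A)

/-- Vertices of the leaf graph. -/
abbrev GV := {p : V × FreeGroup β // p.2 ∈ KV D x p.1}
/-- Edges of the leaf graph. -/
abbrev GE := {q : E × FreeGroup β // q.2 ∈ KE D x q.1 false}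
/-- Vertices of the leaf graph of cells with letter `b`. -/
abbrev GVb (b : β) := {p : V × FreeGroup β // p.2 ∈ KV D x p.1 ∧ p.2 * of b ∈ KV D x p.1}
/-- Edges of the leaf graph of cells with letter `b`. -/
abbrev GEb (b : β) := {q : E × FreeGroup β // q.2 ∈ KE D x q.1 false ∧ q.2 * of b ∈ KE D x q.1 false}

theorem finite_GVset : {p : V × FreeGroup β | p.2 ∈ KV D x p.1}.Finite := by
  have : {p : V × FreeGroup β | p.2 ∈ KV D x p.1} ⊆ ⋃ v : V, (fun y => (v, y)) '' KV D x v := by
    rintro ⟨v, y⟩ h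
    simp only [Set.mem_iUnion]
    exact ⟨v, y, h, rfl⟩
  exact (Set.finite_iUnion fun v => (KV_finite D x v).image _).subset this

theorem finite_GEset : {q : E × FreeGroup β | q.2 ∈ KE D x q.1 false}.Finite := by
  have : {q : E × FreeGroup β | q.2 ∈ KE D x q.1 false} ⊆ ⋃ e : E, (fun y => (e, y)) '' KE D x e false := by
    rintro ⟨v, y⟩ h
    simp only [Set.mem_iUnion]
    exact ⟨v, y, h, rfl⟩
  exact (Set.finite_iUnion fun v => (KE_finite D x v false).image _).subset this

noncomputable instance : Fintype (GV D x) := (finite_GVset D x).fintype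
noncomputable instance : Fintype (GE D x) := (finite_GEset D x).fintype
noncomputable instance (b : β) : Fintype (GVb D x b) :=
  ((finite_GVset D x).subset (fun _ h => h.1)).fintype
noncomputable instance (b : β) : Fintype (GEb D x b) :=
  ((finite_GEset D x).subset (fun _ h => h.1)).fintype

theorem card_sub_prod {W : Type} [Fintype W] (S : W → Set (FreeGroup β)) (hS : ∀ w, (S w).Finite) :
    Nat.card {p : W × FreeGroup β // p.2 ∈ S p.1} = ∑ w, (S w).ncard := by
  classical
  have : ∀ w, Fintype (S w) := fun w => (hS w).fintype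
  have e : {p : W × FreeGroup β // p.2 ∈ S p.1} ≃ Σ w, S w :=
    { toFun := fun p => ⟨p.1.1, ⟨p.1.2, p.2⟩⟩
      invFun := fun q => ⟨(q.1, q.2.1), q.2.2⟩
      left_inv := fun p => rfl
      right_inv := fun q => rfl }
  rw [Nat.card_congr e, Nat.card_eq_fintype_card, Fintype.card_sigma]
  refine Finset.sum_congr rfl fun w _ => ?_
  rw [← Nat.card_coe_set_eq, Nat.card_eq_fintype_card]

theorem card_GV : Fintype.card (GV D x) = ∑ v, (KV D x v).ncard := by
  rw [← Nat.card_eq_fintype_card]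
  exact card_sub_prod (fun v => KV D x v) (fun v => KV_finite D x v)

theorem card_GE : Fintype.card (GE D x) = ∑ e, (KE D x e false).ncard := by
  rw [← Nat.card_eq_fintype_card]
  exact card_sub_prod (fun e => KE D x e false) (fun e => KE_finite D x e false)

theorem card_GVb (b : β) : Fintype.card (GVb D x b) = ∑ v, {y | y ∈ KV D x v ∧ y * of b ∈ KV D x v}.ncard := by
  rw [← Nat.card_eq_fintype_card]
  exact card_sub_prod (fun v => {y | y ∈ KV D x v ∧ y * of b ∈ KV D x v})
    (fun v => (KV_finite D x v).subset fun _ h => h.1)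

theorem card_GEb (b : β) :
    Fintype.card (GEb D x b) = ∑ e, {y | y ∈ KE D x e false ∧ y * of b ∈ KE D x e false}.ncard := by
  rw [← Nat.card_eq_fintype_card]
  exact card_sub_prod (fun e => {y | y ∈ KE D x e false ∧ y * of b ∈ KE D x e false})
    (fun e => (KE_finite D x e false).subset fun _ h => h.1)

theorem sum_letters [Fintype β] {N : Set (FreeGroup β)} (hN : N.Finite) (hne : (Hull N).Nonempty) :
    ∑ b, {y | y ∈ Hull N ∧ y * of b ∈ Hull N}.ncard + 1 = (Hull N).ncard := by
  classical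
  obtain ⟨h1, h2⟩ := cells_ncard hN hne
  rw [← h2]
  congr 1
  have hf : ∀ b, {y | y ∈ Hull N ∧ y * of b ∈ Hull N}.Finite := fun b =>
    (Hull_finite hN).subset fun _ h => h.1
  have : ∀ b, Fintype {y | y ∈ Hull N ∧ y * of b ∈ Hull N} := fun b => (hf b).fintype
  have : Fintype {t : FreeGroup β × β | t.1 ∈ Hull N ∧ t.1 * of t.2 ∈ Hull N} := h1.fintype
  have e : {t : FreeGroup β × β | t.1 ∈ Hull N ∧ t.1 * of t.2 ∈ Hull N} ≃
      Σ b, {y | y ∈ Hull N ∧ y * of b ∈ Hull N} :=
    { toFun := fun t => ⟨t.1.2, ⟨t.1.1, t.2⟩⟩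
      invFun := fun q => ⟨(q.2.1, q.1), q.2.2⟩
      left_inv := fun p => rfl
      right_inv := fun q => rfl }
  rw [← Nat.card_coe_set_eq, Nat.card_eq_fintype_card, Fintype.card_congr e, Fintype.card_sigma]
  refine Finset.sum_congr rfl fun w _ => ?_
  rw [← Nat.card_coe_set_eq, Nat.card_eq_fintype_card]

theorem sum_GVb [Fintype β] (hf : D.Full) :
    ∑ b, Fintype.card (GVb D x b) + Fintype.card V = Fintype.card (GV D x) := by
  simp only [card_GVb, card_GV]
  rw [Finset.sum_comm, Fintype.card_eq_sum_ones, ← Finset.sum_add_distrib]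
  refine Finset.sum_congr rfl fun v _ => ?_
  exact sum_letters (nV_finite D x v) (KV_nonempty hf v)

theorem sum_GEb [Fintype β] (hf : Function.Surjective D.et) :
    ∑ b, Fintype.card (GEb D x b) + Fintype.card E = Fintype.card (GE D x) := by
  simp only [card_GEb, card_GE]
  rw [Finset.sum_comm, Fintype.card_eq_sum_ones, ← Finset.sum_add_distrib]
  refine Finset.sum_congr rfl fun v _ => ?_
  exact sum_letters (nE_finite D x v false) (KE_nonempty hf v false)

variable {D x}

/-- end points of the edges of the leaf graph -/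
def gea (q : GE D x) : GV D x := ⟨(D.en q.1.1 false, q.1.2), KE_subset_KV D x _ _ q.2⟩
/-- end points of the edges of the leaf graph -/
def geb (q : GE D x) : GV D x :=
  ⟨(D.en q.1.1 true, tr x q.1.1 false * q.1.2), KE_subset_KV D x _ _ (tr_mem_KE' D x q.2)⟩

/-- Adjacency avoiding the leaf edge given by `(f₀, s₀, y₀)`. -/
def adjx (D : Dt V E A) (x : Val β E A) (f₀ : E) (s₀ : Bool) (y₀ : FreeGroup β)
    (p q : V × FreeGroup β) : Prop :=
  ∃ e s, D.en e s = p.1 ∧ D.en e (!s) = q.1 ∧ p.2 ∈ KE D x e s ∧ q.2 = tr x e s * p.2 ∧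
    ¬ (e = f₀ ∧ s = s₀ ∧ p.2 = y₀) ∧ ¬ (e = f₀ ∧ (!s) = s₀ ∧ q.2 = y₀)

theorem adjx.adj {f₀ : E} {s₀ : Bool} {y₀ : FreeGroup β} {p q : V × FreeGroup β}
    (h : adjx D x f₀ s₀ y₀ p q) : adj D x p q := by
  obtain ⟨e, s, h1, h2, h3, h4, _, _⟩ := h
  exact ⟨e, s, h1, h2, h3, h4⟩

theorem TC.mconn (h : TC D x) : MConn (gea (D := D) (x := x)) geb := by
  rintro ⟨⟨v, y⟩, hy⟩ ⟨⟨w, z⟩, hz⟩
  have h1 := eqvGen_subtype (r := adj D x) (P := fun p => p.2 ∈ KV D x p.1)
    (fun a b hab => adj.mem hab) (h.conn v y w z hy hz) hy hz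
  refine eqvGen_map' ?_ h1
  rintro ⟨p, hp⟩ ⟨q, hq⟩ ⟨e, s, h1, h2, h3, h4⟩
  obtain ⟨v, y⟩ := p
  obtain ⟨w, z⟩ := q
  simp only at h1 h2 h3 h4
  subst h1 h2 h4
  cases s
  · exact Relation.EqvGen.rel _ _ ⟨⟨(e, y), h3⟩, rfl, rfl⟩
  · refine Relation.EqvGen.symm _ _ (Relation.EqvGen.rel _ _ ⟨⟨(e, tr x e true * y), tr_mem_KE' D x h3⟩, rfl, ?_⟩)
    simp only [geb, Subtype.mk.injEq, Prod.mk.injEq, true_and]
    simp [tr]

/-- Every leaf edge is a bridge. -/
theorem TC.bridge (h : TC D x) {f₀ : E} {s₀ : Bool} {y₀ : FreeGroup β} (hy : y₀ ∈ KE D x f₀ s₀) :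
    ¬ Relation.EqvGen (adjx D x f₀ s₀ y₀) (D.en f₀ s₀, y₀) (D.en f₀ (!s₀), tr x f₀ s₀ * y₀) := by
  intro h'
  have hc : Fintype.card (GV D x) = Fintype.card (GE D x) + 1 := by
    rw [card_GV, card_GE]; exact h.card
  have h0 : (D.en f₀ s₀, y₀).2 ∈ KV D x (D.en f₀ s₀, y₀).1 := KE_subset_KV D x _ _ hy
  have h0' : (D.en f₀ (!s₀), tr x f₀ s₀ * y₀).2 ∈ KV D x (D.en f₀ (!s₀), tr x f₀ s₀ * y₀).1 :=
    KE_subset_KV D x _ _ (tr_mem_KE' D x hy)
  have h1 := eqvGen_subtype (r := adjx D x f₀ s₀ y₀) (P := fun p => p.2 ∈ KV D x p.1)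
    (fun a b hab => adj.mem hab.adj) h' h0 h0'
  -- the removed edge
  obtain ⟨F₀, hF, hFe⟩ : ∃ F₀ : GE D x, (Relation.EqvGen (fun p q => ∃ f, f ≠ F₀ ∧ gea f = p ∧ geb f = q)
      ⟨_, h0⟩ ⟨_, h0'⟩ → Relation.EqvGen (fun p q => ∃ f, f ≠ F₀ ∧ gea f = p ∧ geb f = q)
      (gea F₀) (geb F₀)) ∧ F₀.1 = (f₀, if s₀ then tr x f₀ true * y₀ else y₀) := by
    cases s₀
    · refine ⟨⟨(f₀, y₀), hy⟩, ?_, ?_⟩
      · intro h; exact h
      · simp
    · refine ⟨⟨(f₀, tr x f₀ true * y₀), tr_mem_KE' D x hy⟩, ?_, ?_⟩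
      · intro h
        have e1 : gea (⟨(f₀, tr x f₀ true * y₀), tr_mem_KE' D x hy⟩ : GE D x) = ⟨_, h0'⟩ := rfl
        have e2 : geb (⟨(f₀, tr x f₀ true * y₀), tr_mem_KE' D x hy⟩ : GE D x) = ⟨_, h0⟩ :=
          Subtype.ext (Prod.ext rfl (by simp [geb, tr]))
        rw [e1, e2]; exact Relation.EqvGen.symm _ _ h
      · simp
  refine MG2 h.mconn hc F₀ (hF ?_)
  refine eqvGen_map' ?_ h1
  rintro ⟨p, hp⟩ ⟨q, hq⟩ ⟨e, s, h1, h2, h3, h4, h5, h6⟩
  obtain ⟨v, y⟩ := p
  obtain ⟨w, z⟩ := q
  simp only at h1 h2 h3 h4 h5 h6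
  subst h1 h2 h4
  cases s
  · refine Relation.EqvGen.rel _ _ ⟨⟨(e, y), h3⟩, ?_, rfl, rfl⟩
    intro h7
    have h8 : (e, y) = F₀.1 := congrArg Subtype.val h7
    rw [hFe, Prod.mk.injEq] at h8
    obtain ⟨h9, h10⟩ := h8
    subst h9
    cases s₀
    · simp only [Bool.false_eq_true, if_false] at h10
      exact h5 ⟨rfl, rfl, h10⟩
    · simp only [if_true] at h10
      refine h6 ⟨rfl, rfl, ?_⟩
      rw [h10]; simp [tr]
  · refine Relation.EqvGen.symm _ _ (Relation.EqvGen.rel _ _
      ⟨⟨(e, tr x e true * y), tr_mem_KE' D x h3⟩, ?_, rfl, ?_⟩)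
    · intro h7
      have h8 : (e, tr x e true * y) = F₀.1 := congrArg Subtype.val h7
      rw [hFe, Prod.mk.injEq] at h8
      obtain ⟨h9, h10⟩ := h8
      subst h9
      cases s₀
      · simp only [Bool.false_eq_true, if_false] at h10
        exact h6 ⟨rfl, rfl, h10⟩
      · simp only [if_true] at h10
        exact h5 ⟨rfl, rfl, mul_left_cancel h10⟩
    · simp only [geb, Subtype.mk.injEq, Prod.mk.injEq, true_and]
      simp [tr]

end Leaf

end Pool.Agent.W2helper26.PP
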