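import Pool.Agent.W2helper26.PP.Stm

/-!
# Potential positivity is decidable: part MAIN, transport and pigeonhole
-/

set_option autoImplicit false

namespace Pool.Agent.W2helper26.PP

namespace MainP

section transport

variable {β V E A V' E' A' : Type} [DecidableEq β]

/-- Isomorphism of combinatorial data. -/
structure DIso (D : Dt V E A) (D' : Dt V' E' A') where
  eV : V ≃ V'
  eE : E ≃ E'
  eA : A ≃ A'
  hen : ∀ e s, D'.en (eE e) s = eV (D.en e s)
  het : ∀ α, D'.et (eA α) = eE (D.et α)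

variable {D : Dt V E A} {D' : Dt V' E' A'}

/-- the inverse isomorphism -/
def DIso.symm (I : DIso D D') : DIso D' D where
  eV := I.eV.symm
  eE := I.eE.symm
  eA := I.eA.symm
  hen e s := by
    have h := I.hen (I.eE.symm e) s
    rw [Equiv.apply_symm_apply] at h
    rw [h, Equiv.symm_apply_apply]
  het α := by
    have h := I.het (I.eA.symm α)
    rw [Equiv.apply_symm_apply] at h
    rw [h, Equiv.symm_apply_apply]

/-- transported values -/
def DIso.val (I : DIso D D') (x : Val β E A) : Val β E' A' :=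
  ⟨fun e => x.τ (I.eE.symm e), fun α => x.g (I.eA.symm α)⟩

theorem DIso.pos (I : DIso D D') (x : Val β E A) (α : A) (s : Bool) :
    PP.pos D' (I.val x) (I.eA α) s = PP.pos D x α s := by
  unfold PP.pos DIso.val
  simp [I.het]

theorem DIso.tr (I : DIso D D') (x : Val β E A) (e : E) (s : Bool) :
    PP.tr (I.val x) (I.eE e) s = PP.tr x e s := by
  unfold PP.tr DIso.val
  simp

theorem DIso.nE (I : DIso D D') (x : Val β E A) (e : E) (s : Bool) :
    PP.nE D' (I.val x) (I.eE e) s = PP.nE D x e s := by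
  ext y
  constructor
  · rintro ⟨α', h1, h2⟩
    refine ⟨I.eA.symm α', ?_, ?_⟩
    · apply I.eE.injective
      rw [← I.het, Equiv.apply_symm_apply, h1]
    · rw [← I.pos, Equiv.apply_symm_apply, h2]
  · rintro ⟨α, h1, h2⟩
    exact ⟨I.eA α, by rw [I.het, h1], by rw [I.pos, h2]⟩

theorem DIso.nV (I : DIso D D') (x : Val β E A) (v : V) :
    PP.nV D' (I.val x) (I.eV v) = PP.nV D x v := by
  ext y
  constructor
  · rintro ⟨α', s, h1, h2⟩
    refine ⟨I.eA.symm α', s, ?_, ?_⟩
    · apply I.eV.injective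
      rw [← I.hen, ← I.het, Equiv.apply_symm_apply, h1]
    · rw [← I.pos, Equiv.apply_symm_apply, h2]
  · rintro ⟨α, s, h1, h2⟩
    exact ⟨I.eA α, s, by rw [I.het, I.hen, h1], by rw [I.pos, h2]⟩

theorem DIso.KE (I : DIso D D') (x : Val β E A) (e : E) (s : Bool) :
    PP.KE D' (I.val x) (I.eE e) s = PP.KE D x e s := by
  unfold PP.KE
  rw [I.nE]

theorem DIso.KV (I : DIso D D') (x : Val β E A) (v : V) :
    PP.KV D' (I.val x) (I.eV v) = PP.KV D x v := by
  unfold PP.KV
  rw [I.nV]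

theorem DIso.adj (I : DIso D D') (x : Val β E A) {p q : V × FreeGroup β}
    (h : PP.adj D x p q) : PP.adj D' (I.val x) (I.eV p.1, p.2) (I.eV q.1, q.2) := by
  obtain ⟨e, s, h1, h2, h3, h4⟩ := h
  refine ⟨I.eE e, s, ?_, ?_, ?_, ?_⟩
  · rw [I.hen, h1]
  · rw [I.hen, h2]
  · rw [I.KE]; exact h3
  · rw [I.tr]; exact h4

theorem DIso.adjb (I : DIso D D') (x : Val β E A) (b : β) {p q : V × FreeGroup β}
    (h : PP.adjb D x b p q) : PP.adjb D' (I.val x) b (I.eV p.1, p.2) (I.eV q.1, q.2) := by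
  obtain ⟨e, s, h1, h2, h3, h5, h4⟩ := h
  refine ⟨I.eE e, s, ?_, ?_, ?_, ?_, ?_⟩
  · rw [I.hen, h1]
  · rw [I.hen, h2]
  · rw [I.KE]; exact h3
  · rw [I.KE]; exact h5
  · rw [I.tr]; exact h4

theorem eqvGen_map {X Y : Type} {r : X → X → Prop} {r' : Y → Y → Prop} (f : X → Y)
    (h : ∀ p q, r p q → r' (f p) (f q)) {p q : X} (hpq : Relation.EqvGen r p q) :
    Relation.EqvGen r' (f p) (f q) := by
  induction hpq with
  | rel p q hr => exact Relation.EqvGen.rel _ _ (h p q hr)
  | refl p => exact Relation.EqvGen.refl _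
  | symm p q _ ih => exact Relation.EqvGen.symm _ _ ih
  | trans p q r _ _ ih1 ih2 => exact Relation.EqvGen.trans _ _ _ ih1 ih2

theorem DIso.TC [Fintype V] [Fintype E] [Fintype V'] [Fintype E'] (I : DIso D D')
    (x : Val β E A) (h : PP.TC D x) : PP.TC D' (I.val x) := by
  have hV : ∀ v', PP.KV D' (I.val x) v' = PP.KV D x (I.eV.symm v') := by
    intro v'
    rw [← I.KV, Equiv.apply_symm_apply]
  refine ⟨?_, ?_, ?_, ?_⟩
  · intro v y w z hy hz
    rw [hV] at hy hz
    have h1 := h.conn _ y _ z hy hz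
    have h2 := eqvGen_map (fun p : V × FreeGroup β => (I.eV p.1, p.2))
      (fun p q hr => I.adj x hr) h1
    simpa using h2
  · have h1 : ∑ v', (PP.KV D' (I.val x) v').ncard = ∑ v, (PP.KV D x v).ncard := by
      refine (Equiv.sum_comp I.eV _).symm.trans ?_
      refine Finset.sum_congr rfl fun v _ => ?_
      rw [I.KV]
    have h2 : ∑ e', (PP.KE D' (I.val x) e' false).ncard = ∑ e, (PP.KE D x e false).ncard := by
      refine (Equiv.sum_comp I.eE _).symm.trans ?_
      refine Finset.sum_congr rfl fun e _ => ?_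
      rw [I.KE]
    rw [h1, h2, h.card]
  · intro b v y w z hy hy' hz hz'
    rw [hV] at hy hz hy' hz'
    have h1 := h.connb b _ y _ z hy hy' hz hz'
    have h2 := eqvGen_map (fun p : V × FreeGroup β => (I.eV p.1, p.2))
      (fun p q hr => I.adjb x b hr) h1
    simpa using h2
  · intro b
    obtain ⟨v, y, h1, h2⟩ := h.neb b
    exact ⟨I.eV v, y, by rw [I.KV]; exact h1, by rw [I.KV]; exact h2⟩

/-- transported patterns -/
def DIso.pats (I : DIso D D') (P : V → Set (Set (A × Bool))) : V' → Set (Set (A' × Bool)) :=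
  fun v' => {S' | (fun ν : A × Bool => (I.eA ν.1, ν.2)) ⁻¹' S' ∈ P (I.eV.symm v')}

theorem DIso.pats_symm (I : DIso D D') (P : V → Set (Set (A × Bool))) :
    I.symm.pats (I.pats P) = P := by
  funext v
  ext S
  show (fun ν : A × Bool => (I.eA ν.1, ν.2)) ⁻¹'
    ((fun ν : A' × Bool => (I.eA.symm ν.1, ν.2)) ⁻¹' S) ∈ P (I.eV.symm (I.eV.symm.symm v)) ↔ _
  have h1 : (fun ν : A × Bool => (I.eA ν.1, ν.2)) ⁻¹'
      ((fun ν : A' × Bool => (I.eA.symm ν.1, ν.2)) ⁻¹' S) = S := by
    ext ν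
    simp
  rw [h1]
  simp

theorem DIso.Rlz [Fintype V] [Fintype E] [Fintype V'] [Fintype E'] (I : DIso D D')
    (P : V → Set (Set (A × Bool))) (z : ℕ) (h : PP.Rlz β D P z) :
    PP.Rlz β D' (I.pats P) z := by
  obtain ⟨x, h1, h2, h3⟩ := h
  refine ⟨I.val x, I.TC x h1, ?_, ?_⟩
  · intro v' t
    show (fun ν : A × Bool => (I.eA ν.1, ν.2)) ⁻¹' (pat D' (I.val x) v' t) ∈ P (I.eV.symm v')
    have h4 : (fun ν : A × Bool => (I.eA ν.1, ν.2)) ⁻¹' (pat D' (I.val x) v' t) =
        pat D x (I.eV.symm v') t := by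
      ext ν
      show (D'.en (D'.et (I.eA ν.1)) ν.2 = v' ∧ Hs t (PP.pos D' (I.val x) (I.eA ν.1) ν.2)) ↔
        (D.en (D.et ν.1) ν.2 = I.eV.symm v' ∧ Hs t (PP.pos D x ν.1 ν.2))
      rw [I.pos, I.het, I.hen, Equiv.eq_symm_apply]
    rw [h4]
    exact h2 _ t
  · intro α s α' s' h4
    have h5 : ∀ (α : A') (s : Bool), PP.pos D' (I.val x) α s = PP.pos D x (I.eA.symm α) s := by
      intro α s
      rw [← I.pos, Equiv.apply_symm_apply]
    rw [h5, h5]
    apply h3
    apply I.eV.injective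
    rw [← I.hen, ← I.hen, ← I.het, ← I.het, Equiv.apply_symm_apply, Equiv.apply_symm_apply, h4]

theorem Rlz_mono [Fintype V] [Fintype E] (D : Dt V E A) (P : V → Set (Set (A × Bool)))
    {z z' : ℕ} (hz : z ≤ z') (h : PP.Rlz β D P z) : PP.Rlz β D P z' := by
  obtain ⟨x, h1, h2, h3⟩ := h
  exact ⟨x, h1, h2, fun α s α' s' h4 => (h3 α s α' s' h4).trans hz⟩

end transport

section codes

/-- combinatorial types with at most `M` nodes, edges, arcs -/
abbrev Code (M : ℕ) : Type :=
  Σ abr : Fin (M + 1) × Fin (M + 1) × Fin (M + 1),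
    (Fin abr.2.1 → Bool → Fin abr.1) × (Fin abr.2.2 → Fin abr.2.1) ×
      (Fin abr.1 → Set (Set (Fin abr.2.2 × Bool)))

/-- the data of a code -/
def Code.dt {M : ℕ} (c : Code M) : Dt (Fin c.1.1) (Fin c.1.2.1) (Fin c.1.2.2) :=
  ⟨c.2.1, c.2.2.1⟩

/-- the realised codes -/
def RS (β : Type) [DecidableEq β] (M z : ℕ) : Set (Code M) :=
  {c | PP.Rlz β c.dt c.2.2.2 z}

theorem RS_mono (β : Type) [DecidableEq β] (M : ℕ) {z z' : ℕ} (h : z ≤ z') :
    RS β M z ⊆ RS β M z' := fun c hc => Rlz_mono _ _ h hc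

noncomputable instance (M : ℕ) : Finite (Code M) := inferInstance

theorem pigeon {X : Type} [Finite X] (f : ℕ → Set X) (hf : ∀ k, f k ⊆ f (k + 1)) :
    ∃ k ≤ Nat.card X, f k = f (k + 1) := by
  by_contra hcon
  push Not at hcon
  have h1 : ∀ k ≤ Nat.card X + 1, k ≤ (f k).ncard := by
    intro k
    induction k with
    | zero => intro _; exact Nat.zero_le _
    | succ k ih =>
      intro hk
      have h2 := ih (by omega)
      have h3 : f k ⊂ f (k + 1) := lt_of_le_of_ne (hf k) (hcon k (by omega))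
      have h4 := Set.ncard_lt_ncard h3 (Set.toFinite _)
      omega
  have h5 := h1 (Nat.card X + 1) le_rfl
  have h6 := Set.ncard_le_card (f (Nat.card X + 1))
  omega

variable {β : Type} [DecidableEq β]

theorem close_step {V E A : Type} [Fintype V] [Fintype E] [Fintype A] {M z z' : ℕ}
    (hV : Fintype.card V ≤ M) (hE : Fintype.card E ≤ M) (hA : Fintype.card A ≤ M)
    (hR : RS β M z' = RS β M z) (D : Dt V E A) (P : V → Set (Set (A × Bool)))
    (h : PP.Rlz β D P z') : PP.Rlz β D P z := by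
  classical
  let eV : V ≃ Fin (Fintype.card V) := Fintype.equivFin V
  let eE : E ≃ Fin (Fintype.card E) := Fintype.equivFin E
  let eA : A ≃ Fin (Fintype.card A) := Fintype.equivFin A
  let D' : Dt (Fin (Fintype.card V)) (Fin (Fintype.card E)) (Fin (Fintype.card A)) :=
    ⟨fun e s => eV (D.en (eE.symm e) s), fun α => eE (D.et (eA.symm α))⟩
  let I : DIso D D' := ⟨eV, eE, eA, fun e s => by simp [D'], fun α => by simp [D']⟩
  let c : Code M := ⟨(⟨Fintype.card V, by omega⟩, ⟨Fintype.card E, by omega⟩,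
    ⟨Fintype.card A, by omega⟩), (D'.en, D'.et, I.pats P)⟩
  have h1 : c ∈ RS β M z' := I.Rlz P z' h
  rw [hR] at h1
  have h2 : PP.Rlz β D' (I.pats P) z := h1
  have h3 := I.symm.Rlz (I.pats P) z h2
  rw [I.pats_symm] at h3
  exact h3

end codes

end MainP

end Pool.Agent.W2helper26.PP
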