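import Pool.Agent.W2helper26.PP.MainA

/-!
# Potential positivity is decidable: part MAIN, the bound and the induction
-/

set_option autoImplicit false

namespace Pool.Agent.W2helper26.PP

namespace MainP

/-! ### the number of types -/

/-- bound for the number of types -/
def Tb (M : ℕ) : ℕ :=
  ((M + 1) * ((M + 1) * (M + 1))) *
    (((M + 1) ^ 2) ^ M * ((M + 1) ^ M * (2 ^ (2 ^ (M * 2))) ^ M))

theorem card_code (M : ℕ) : Nat.card (Code M) ≤ Tb M := by
  classical
  rw [Nat.card_sigma]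
  have h1 : ∀ abr ∈ (Finset.univ : Finset (Fin (M + 1) × Fin (M + 1) × Fin (M + 1))),
      Nat.card ((Fin abr.2.1 → Bool → Fin abr.1) × (Fin abr.2.2 → Fin abr.2.1) ×
        (Fin abr.1 → Set (Set (Fin abr.2.2 × Bool)))) ≤
      ((M + 1) ^ 2) ^ M * ((M + 1) ^ M * (2 ^ (2 ^ (M * 2))) ^ M) := by
    rintro ⟨a, b, r⟩ -
    have ha : (a : ℕ) ≤ M := by omega
    have hb : (b : ℕ) ≤ M := by omega
    have hr : (r : ℕ) ≤ M := by omega
    rw [Nat.card_prod, Nat.card_prod]
    refine Nat.mul_le_mul ?_ (Nat.mul_le_mul ?_ ?_)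
    · rw [Nat.card_eq_fintype_card]
      simp only [Fintype.card_pi, Finset.prod_const, Fintype.card_fin, Finset.card_univ,
        Fintype.card_bool]
      calc ((a : ℕ) ^ 2) ^ (b : ℕ) ≤ ((M + 1) ^ 2) ^ (b : ℕ) :=
            Nat.pow_le_pow_left (Nat.pow_le_pow_left (by omega) _) _
        _ ≤ ((M + 1) ^ 2) ^ M := Nat.pow_le_pow_right (by positivity) hb
    · rw [Nat.card_eq_fintype_card]
      simp only [Fintype.card_pi, Finset.prod_const, Fintype.card_fin, Finset.card_univ]
      calc (b : ℕ) ^ (r : ℕ) ≤ (M + 1) ^ (r : ℕ) := Nat.pow_le_pow_left (by omega) _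
        _ ≤ (M + 1) ^ M := Nat.pow_le_pow_right (by positivity) hr
    · rw [Nat.card_eq_fintype_card]
      simp only [Fintype.card_pi, Finset.prod_const, Fintype.card_fin, Finset.card_univ,
        Fintype.card_set, Fintype.card_prod, Fintype.card_bool]
      calc (2 ^ 2 ^ ((r : ℕ) * 2)) ^ (a : ℕ) ≤ (2 ^ 2 ^ (M * 2)) ^ (a : ℕ) := by
            refine Nat.pow_le_pow_left (Nat.pow_le_pow_right (by norm_num)
              (Nat.pow_le_pow_right (by norm_num) (by omega))) _
        _ ≤ (2 ^ 2 ^ (M * 2)) ^ M := Nat.pow_le_pow_right (by positivity) ha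
  refine (Finset.sum_le_card_nsmul _ _ _ h1).trans ?_
  simp only [Finset.card_univ, Fintype.card_prod, Fintype.card_fin, smul_eq_mul]
  exact le_of_eq rfl

theorem primrec_pow : Primrec₂ (fun a b : ℕ => a ^ b) := by
  have h : Primrec (fun p : ℕ × ℕ => (Nat.rec 1 (fun _ m => m * p.1) p.2 : ℕ)) := by
    refine Primrec.nat_rec' (f := fun p : ℕ × ℕ => p.2) (g := fun _ => 1)
      (h := fun (p : ℕ × ℕ) (q : ℕ × ℕ) => q.2 * p.1) Primrec.snd (Primrec.const 1) ?_
    exact Primrec.nat_mul.comp (Primrec.snd.comp Primrec.snd) (Primrec.fst.comp Primrec.fst)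
  refine h.of_eq (fun p => ?_)
  obtain ⟨a, b⟩ := p
  induction b with
  | zero => rfl
  | succ b ih =>
    show (Nat.rec 1 (fun _ m => m * a) b : ℕ) * a = a ^ (b + 1)
    rw [pow_succ]
    exact congrArg (· * a) ih

theorem primrec_Tb : Primrec Tb := by
  have hs : Primrec (fun M : ℕ => M + 1) := Primrec.succ
  have hm2 : Primrec (fun M : ℕ => M * 2) := Primrec.nat_mul.comp Primrec.id (Primrec.const 2)
  have h1 : Primrec (fun M : ℕ => (M + 1) * ((M + 1) * (M + 1))) :=
    Primrec.nat_mul.comp hs (Primrec.nat_mul.comp hs hs)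
  have h2 : Primrec (fun M : ℕ => ((M + 1) ^ 2) ^ M) :=
    primrec_pow.comp (primrec_pow.comp hs (Primrec.const 2)) Primrec.id
  have h3 : Primrec (fun M : ℕ => (M + 1) ^ M) := primrec_pow.comp hs Primrec.id
  have h4 : Primrec (fun M : ℕ => (2 ^ (2 ^ (M * 2))) ^ M) :=
    primrec_pow.comp (primrec_pow.comp (Primrec.const 2)
      (primrec_pow.comp (Primrec.const 2) hm2)) Primrec.id
  exact Primrec.nat_mul.comp h1 (Primrec.nat_mul.comp h2 (Primrec.nat_mul.comp h3 h4))

/-- bound for the number of nodes, edges and arcs -/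
def Mb (n q φ : ℕ) : ℕ := φ + n + 3 * (4 * n + 2 * q + 1)

/-- the bound for the sizes -/
def Gb (n q φ : ℕ) : ℕ := n * 3 ^ Tb (Mb n q φ)

theorem primrec_Mb (n : ℕ) : Primrec₂ (Mb n) := by
  unfold Mb
  refine Primrec.nat_add.comp (Primrec.nat_add.comp Primrec.snd (Primrec.const n)) ?_
  refine Primrec.nat_mul.comp (Primrec.const 3) (Primrec.succ.comp ?_)
  exact Primrec.nat_add.comp (Primrec.const (4 * n)) (Primrec.nat_mul.comp (Primrec.const 2) Primrec.fst)

theorem primrec_Gb (n : ℕ) : Primrec₂ (Gb n) :=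
  Primrec.nat_mul.comp (Primrec.const n) (primrec_pow.comp (Primrec.const 3)
    (primrec_Tb.comp (primrec_Mb n)))

/-! ### the induction -/

/-- the base case of the induction (proved with the geometry of the tree) -/
def Base : Prop :=
  ∀ (β V E A : Type) [DecidableEq β] [Fintype β] [Fintype V] [Fintype E] [Fintype A]
    (D : Dt V E A) (x : Val β E A), TC D x → (¬ ∃ e s y l, Cov D x y l e s) →
    ∀ α s α' s', D.en (D.et α) s = D.en (D.et α') s' →
      ((pos D x α s)⁻¹ * pos D x α' s').norm ≤ Fintype.card β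

theorem kap_le {β V E A : Type} [DecidableEq β] (D : Dt V E A) (x : Val β E A) (v : V) :
    kap D x v ≤ 2 := min_le_left _ _

theorem induct (hBase : Base) (hM : StmMerge) (hS : StmSplit) (hC : StmCount) (n : ℕ) (hn : 2 ≤ n)
    (q₀ φ₀ z : ℕ) (hz : n ≤ z)
    (hR : RS (Fin n) (Mb n q₀ φ₀) (3 * z) = RS (Fin n) (Mb n q₀ φ₀) z) :
    ∀ (m : ℕ) (V E A : Type) [Fintype V] [Fintype E] [Fintype A]
      (D : Dt V E A) (x : Val (Fin n) E A) (Q : Set (V × FreeGroup (Fin n))),
      Good q₀ φ₀ D x Q → Fintype.card V ≤ 4 * n + 2 * q₀ + 1 → meas D x = m →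
      Rlz (Fin n) D (ty D x) z := by
  intro m
  induction m using Nat.strong_induction_on with
  | _ m ih =>
    intro V E A _ _ _ D x Q hG hV hm
    -- closure under the factor 3
    have hclose : Rlz (Fin n) D (ty D x) (3 * z) → Rlz (Fin n) D (ty D x) z := by
      have hE : Fintype.card E ≤ Mb n q₀ φ₀ := by
        have h1 := hG.ev
        rw [Fintype.card_fin] at h1
        unfold Mb
        omega
      have hA : Fintype.card A ≤ Mb n q₀ φ₀ := by
        have h1 := hG.phi
        have h2 : ∑ v, kap D x v ≤ Fintype.card V * 2 := by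
          have h3 := Finset.sum_le_card_nsmul (Finset.univ : Finset V) (fun v => kap D x v) 2
            (fun v _ => kap_le D x v)
          simpa [Finset.card_univ] using h3
        unfold Mb
        omega
      exact close_step (by unfold Mb; omega) hE hA hR D (ty D x)
    by_cases hmg : ∃ v, Mergeable D x Q v
    · obtain ⟨v, hv⟩ := hmg
      obtain ⟨V', E', A', _, _, _, D', x', Q', h1, h2, h3, h4⟩ :=
        hM (Fin n) V E A q₀ φ₀ D x Q v hG hv
      have h5 := ih (meas D' x') (by omega) V' E' A' D' x' Q' h1 (by omega) rfl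
      exact hclose (h4 z h5)
    · push Not at hmg
      have hcnt := hC (Fin n) V E A q₀ φ₀ D x Q (by rw [Fintype.card_fin]; exact hn) hG hmg
      rw [Fintype.card_fin] at hcnt
      by_cases hcov : ∃ e s y l, Cov D x y l e s
      · obtain ⟨V', E', A', _, _, _, D', x', Q', h1, h2, h3, h4⟩ :=
          hS (Fin n) V E A q₀ φ₀ D x Q hG hcov
        have h5 := ih (meas D' x') (by omega) V' E' A' D' x' Q' h1 (by omega) rfl
        exact hclose (h4 z h5)
      · refine ⟨x, hG.tc, fun v t => ⟨t, rfl⟩, ?_⟩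
        intro α s α' s' h1
        have h2 := hBase (Fin n) V E A D x hG.tc hcov α s α' s' h1
        rw [Fintype.card_fin] at h2
        exact h2.trans hz

theorem main_of_base (hBase : Base) : StmMain := by
  intro hM hS hC n hn
  refine ⟨Gb n, primrec_Gb n, ?_⟩
  intro V E A _ _ _ q₀ φ₀ D x Q hG hV
  obtain ⟨k, hk, hk2⟩ := pigeon (fun k => RS (Fin n) (Mb n q₀ φ₀) (n * 3 ^ k)) (fun k =>
    RS_mono _ _ (by rw [pow_succ, ← mul_assoc]; omega))
  have h3 : n * 3 ^ (k + 1) = 3 * (n * 3 ^ k) := by ring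
  simp only [h3] at hk2
  have h4 : n ≤ n * 3 ^ k := Nat.le_mul_of_pos_right _ (by positivity)
  have h5 := induct hBase hM hS hC n hn q₀ φ₀ (n * 3 ^ k) h4 hk2.symm _ V E A D x Q hG
    (by omega) rfl
  refine Rlz_mono _ _ ?_ h5
  unfold Gb
  exact Nat.mul_le_mul_left _ (Nat.pow_le_pow_right (by norm_num) (hk.trans (card_code _)))

end MainP

end Pool.Agent.W2helper26.PP
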