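import Pool.Agent.W2helper26.PP.MG

/-!
# A cell covered exactly once
-/

set_option autoImplicit false
set_option linter.unusedSectionVars false

namespace Pool.Agent.W2helper26.PP

open FreeGroup

section
variable {β V E A : Type} [DecidableEq β] [Fintype V] [Fintype E] [Finite A]
variable {D : Dt V E A} {x : Val β E A}

/-- end points -/
def geab (b : β) (q : GEb D x b) : GVb D x b :=
  ⟨(D.en q.1.1 false, q.1.2), KE_subset_KV D x _ _ q.2.1, KE_subset_KV D x _ _ q.2.2⟩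
/-- end points -/
def gebb (b : β) (q : GEb D x b) : GVb D x b :=
  ⟨(D.en q.1.1 true, tr x q.1.1 false * q.1.2), KE_subset_KV D x _ _ (tr_mem_KE' D x q.2.1), by
    have := KE_subset_KV D x _ _ (tr_mem_KE' D x q.2.2)
    rw [← mul_assoc] at this
    exact this⟩

theorem adjb.mem {b : β} {p q : V × FreeGroup β} (h : adjb D x b p q) :
    (p.2 ∈ KV D x p.1 ∧ p.2 * of b ∈ KV D x p.1) ∧ (q.2 ∈ KV D x q.1 ∧ q.2 * of b ∈ KV D x q.1) := by
  have h1 := adj.mem h.adj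
  have h2 := adj.mem h.adj'
  exact ⟨⟨h1.1, h2.1⟩, ⟨h1.2, h2.2⟩⟩

theorem TC.mconnb (h : TC D x) (b : β) : MConn (geab (D := D) (x := x) b) (gebb b) := by
  rintro ⟨⟨v, y⟩, hy⟩ ⟨⟨w, z⟩, hz⟩
  have h1 := eqvGen_subtype (r := adjb D x b) (P := fun p => p.2 ∈ KV D x p.1 ∧ p.2 * of b ∈ KV D x p.1)
    (fun a b hab => adjb.mem hab) (h.connb b v y w z hy.1 hy.2 hz.1 hz.2) hy hz
  refine eqvGen_map' ?_ h1
  rintro ⟨p, hp⟩ ⟨q, hq⟩ ⟨e, s, h1, h2, h3, h3', h4⟩
  obtain ⟨v, y⟩ := p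
  obtain ⟨w, z⟩ := q
  simp only at h1 h2 h3 h3' h4
  subst h1 h2 h4
  cases s
  · exact Relation.EqvGen.rel _ _ ⟨⟨(e, y), h3, h3'⟩, rfl, rfl⟩
  · refine Relation.EqvGen.symm _ _ (Relation.EqvGen.rel _ _
      ⟨⟨(e, tr x e true * y), tr_mem_KE' D x h3, by rw [mul_assoc]; exact tr_mem_KE' D x h3'⟩, rfl, ?_⟩)
    simp only [gebb, Subtype.mk.injEq, Prod.mk.injEq, true_and]
    simp [tr]

theorem cardb [Fintype β] (h : TC D x) (hs : Function.Surjective D.et) (hf : D.Full)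
    (hev : Fintype.card E + 1 = Fintype.card V + Fintype.card β) (b : β) :
    Fintype.card (GVb D x b) = Fintype.card (GEb D x b) + 1 := by
  have hle : ∀ b, Fintype.card (GVb D x b) ≤ Fintype.card (GEb D x b) + 1 := fun b => MG1 (h.mconnb b)
  have h1 := sum_GVb D x hf
  have h2 := sum_GEb D x hs
  have h3 : Fintype.card (GV D x) = Fintype.card (GE D x) + 1 := by
    rw [card_GV, card_GE]; exact h.card
  have h4 : ∑ b, Fintype.card (GVb D x b) = ∑ b, (Fintype.card (GEb D x b) + 1) := by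
    rw [Finset.sum_add_distrib]
    simp only [Finset.sum_const, Finset.card_univ, smul_eq_mul, mul_one]
    omega
  exact (Finset.sum_eq_sum_iff_of_le (fun b _ => hle b)).1 h4 b (Finset.mem_univ b)

/-- A cell covered exactly once. -/
theorem exists_once [Fintype β] (h : TC D x) (hs : Function.Surjective D.et) (hf : D.Full)
    (hev : Fintype.card E + 1 = Fintype.card V + Fintype.card β)
    (hcov : ∃ e s y l, Cov D x y l e s) :
    ∃ b y e s, y ∈ KE D x e s ∧ y * of b ∈ KE D x e s ∧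
      ∀ f s', D.en f s' = D.en e s → y ∈ KE D x f s' → y * of b ∈ KE D x f s' → f = e ∧ s' = s := by
  obtain ⟨e, s, y, l, hc1, hc2⟩ := hcov
  -- a leaf edge for the letter l.1
  have hne : Nonempty (GEb D x l.1) := by
    have h1 : (cellOf y l).1 ∈ KE D x e s ∧ (cellOf y l).1 * of l.1 ∈ KE D x e s := by
      have hl : (cellOf y l).2 = l.1 := by unfold cellOf; split <;> rfl
      rcases cellOf_ends y l with ⟨e1, e2⟩ | ⟨e1, e2⟩
      · rw [hl] at e2
        rw [e2, e1]; exact ⟨hc1, hc2⟩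
      · rw [hl] at e2
        rw [e2, e1]; exact ⟨hc2, hc1⟩
    cases s
    · exact ⟨⟨(e, (cellOf y l).1), h1⟩⟩
    · exact ⟨⟨(e, tr x e true * (cellOf y l).1), tr_mem_KE' D x h1.1, by
        rw [mul_assoc]; exact tr_mem_KE' D x h1.2⟩⟩
  have h1 : 1 ≤ Fintype.card (GEb D x l.1) := Fintype.card_pos_iff.2 hne
  obtain ⟨w, ⟨F, s₁⟩, hw, huniq⟩ := MG3 (cardb h hs hf hev l.1) (h.mconnb l.1) h1
  obtain ⟨⟨e₁, y₁⟩, hF1, hF2⟩ := F
  simp only at hF1 hF2
  -- position at the side s₁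
  have key : ∀ (f : E) (s' : Bool) (z : FreeGroup β), z ∈ KE D x f s' → z * of l.1 ∈ KE D x f s' →
      (⟨D.en f s', z⟩ : V × FreeGroup β) = w.1 →
      ∃ G : GEb D x l.1, G.1.1 = f ∧ (if s' then gebb l.1 G else geab l.1 G) = w := by
    intro f s' z h2 h3 h4
    cases s'
    · refine ⟨⟨(f, z), h2, h3⟩, rfl, ?_⟩
      simp only [Bool.false_eq_true, if_false]
      exact Subtype.ext h4
    · refine ⟨⟨(f, tr x f true * z), tr_mem_KE' D x h2, by rw [mul_assoc]; exact tr_mem_KE' D x h3⟩, rfl, ?_⟩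
      simp only [if_true]
      refine Subtype.ext ?_
      rw [← h4]
      simp [gebb, tr]
  have hmain : ∃ z, z ∈ KE D x e₁ s₁ ∧ z * of l.1 ∈ KE D x e₁ s₁ ∧ (⟨D.en e₁ s₁, z⟩ : V × FreeGroup β) = w.1 := by
    cases s₁
    · refine ⟨y₁, hF1, hF2, ?_⟩
      rw [← hw]; rfl
    · refine ⟨tr x e₁ false * y₁, tr_mem_KE' D x hF1, by rw [mul_assoc]; exact tr_mem_KE' D x hF2, ?_⟩
      rw [← hw]; rfl
  obtain ⟨z, h2, h3, h4⟩ := hmain
  refine ⟨l.1, z, e₁, s₁, h2, h3, ?_⟩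
  intro f s' h5 h6 h7
  obtain ⟨G, hG1, hG2⟩ := key f s' z h6 h7 (by rw [h5]; exact h4)
  have := huniq (G, s') hG2
  rw [Prod.mk.injEq] at this
  refine ⟨?_, this.2⟩
  rw [← hG1, this.1]

end

end Pool.Agent.W2helper26.PP
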