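import Pool.Agent.W2helper26.PP.Fwd3
import Pool.Agent.W2helper26.PP.Once
import Pool.Agent.W2helper26.PP.Stm

/-!
# The split step
-/

set_option autoImplicit false
set_option linter.unusedSectionVars false

namespace Pool.Agent.W2helper26.PP

open FreeGroup

section
variable {β V E A : Type} [DecidableEq β]

/-- The missing bridge ends. -/
abbrev Cm (D : Dt V E A) (x : Val β E A) (e : E) (s : Bool) (c d : FreeGroup β) : Type :=
  {i : Bool // (if i then d else c) ∉ nE D x e s}

/-- Adding the bridge ends. -/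
def D2s (D : Dt V E A) (x : Val β E A) (e : E) (s : Bool) (c d : FreeGroup β) :
    Dt V E (A ⊕ Cm D x e s c d) where
  en := D.en
  et := Sum.elim D.et (fun _ => e)

/-- Adding the bridge ends. -/
def X2s (D : Dt V E A) (x : Val β E A) (e : E) (s : Bool) (c d : FreeGroup β) :
    Val β E (A ⊕ Cm D x e s c d) where
  τ := x.τ
  g := Sum.elim x.g (fun i => if s then (x.τ e)⁻¹ * (if i.1 then d else c) else (if i.1 then d else c))

variable (D : Dt V E A) (x : Val β E A) (e : E) (s : Bool) (c d : FreeGroup β)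

theorem pos2_inl (α : A) (s' : Bool) : pos (D2s D x e s c d) (X2s D x e s c d) (Sum.inl α) s' = pos D x α s' := rfl

theorem pos2_inr (i : Cm D x e s c d) :
    pos (D2s D x e s c d) (X2s D x e s c d) (Sum.inr i) s = if i.1 then d else c := by
  cases s <;> simp [pos, D2s, X2s]

theorem pos2_inr' (i : Cm D x e s c d) :
    pos (D2s D x e s c d) (X2s D x e s c d) (Sum.inr i) (!s) = tr x e s * (if i.1 then d else c) := by
  rw [pos_not, pos2_inr]; rfl

variable {D x e s c d}

theorem pos2_mem (hc : c ∈ KE D x e s) (hd : d ∈ KE D x e s) (a : A ⊕ Cm D x e s c d) (s' : Bool) :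
    pos (D2s D x e s c d) (X2s D x e s c d) a s' ∈ KE D x ((D2s D x e s c d).et a) s' := by
  cases a with
  | inl α => exact subset_Hull _ ⟨α, rfl, rfl⟩
  | inr i =>
    have h1 : (if i.1 then d else c) ∈ KE D x e s := by
      split
      · exact hd
      · exact hc
    by_cases hs : s' = s
    · subst hs; rw [pos2_inr]; exact h1
    · have hs'' : s' = !s := by cases s <;> cases s' <;> simp at hs ⊢
      subst hs''
      rw [pos2_inr']; exact tr_mem_KE' D x h1

/-- A name at `v` or a branch vertex: the gate point `c` is a name at `v`. -/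
theorem gate_name {N₁ N₂ : Set (FreeGroup β)} (hg : Gate N₁ N₂ c d) (hcd : c ≠ d) (hne : N₁.Nonempty)
    (hc : c ∉ N₁) : ∃ l₁ l₂ l₃ : β × Bool, l₁ ≠ l₂ ∧ l₁ ≠ l₃ ∧ l₂ ≠ l₃ ∧ c * mk [l₁] ∈ Hull N₁ ∧
      c * mk [l₂] ∈ Hull N₁ ∧ c * mk [l₃] ∈ Hull (N₁ ∪ N₂) := by
  obtain ⟨l₁, l₂, h12, h1, h2⟩ := two_steps hg.hc hc hne
  have hc' : c ∈ Hull (N₁ ∪ N₂) := Hull_mono Set.subset_union_left hg.hc
  have hd' : d ∈ Hull (N₁ ∪ N₂) := Hull_mono Set.subset_union_right hg.hd
  obtain ⟨l₃, h3, h4, _, _⟩ := exists_step_mem hc' hd' hcd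
  have key : ∀ l, c * mk [l] ∈ Hull N₁ → l ≠ l₃ := by
    rintro l hl rfl
    have h5 := cell_mem_Hull_iff'.1 ⟨hg.hc, hl⟩
    exact h4 (hg.g1' h5.1 h5.2).symm
  exact ⟨l₁, l₂, l₃, h12, key l₁ h1, key l₂ h2, h1, h2, h3⟩

/-- At most one step from the gate point inside the first hull, if there is no branching. -/
theorem gate_end {N₁ N₂ M : Set (FreeGroup β)} (hg : Gate N₁ N₂ c d) (hcd : c ≠ d)
    (hM : M ⊆ Hull N₁) (hnb : ∀ l₁ l₂ l₃ : β × Bool, l₁ ≠ l₂ → l₁ ≠ l₃ → l₂ ≠ l₃ →
      c * mk [l₁] ∈ Hull (N₁ ∪ N₂) → c * mk [l₂] ∈ Hull (N₁ ∪ N₂) → c * mk [l₃] ∉ Hull (N₁ ∪ N₂)) :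
    IsEnd M c := by
  intro l₁ l₂ h1 h2
  by_contra h12
  have hc' : c ∈ Hull (N₁ ∪ N₂) := Hull_mono Set.subset_union_left hg.hc
  have hd' : d ∈ Hull (N₁ ∪ N₂) := Hull_mono Set.subset_union_right hg.hd
  obtain ⟨l₃, h3, h4, _, _⟩ := exists_step_mem hc' hd' hcd
  have key : ∀ l, c * mk [l] ∈ Hull N₁ → l ≠ l₃ := by
    rintro l hl rfl
    have h5 := cell_mem_Hull_iff'.1 ⟨hg.hc, hl⟩
    exact h4 (hg.g1' h5.1 h5.2).symm
  exact hnb l₁ l₂ l₃ h12 (key _ (hM h1)) (key _ (hM h2)) (Hull_mono Set.subset_union_left (hM h1))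
    (Hull_mono Set.subset_union_left (hM h2)) h3

theorem card_bool_sub (P : Bool → Prop) [DecidablePred P] [Fintype {i // P i}] :
    Fintype.card {i // P i} = (if P true then 1 else 0) + (if P false then 1 else 0) := by
  rw [Fintype.card_of_subtype (Finset.univ.filter P) (by simp),
    show (Finset.univ : Finset Bool) = {true, false} from rfl, Finset.filter_insert, Finset.filter_singleton]
  split_ifs <;> simp

theorem sum_swap_le {ι : Type} [Fintype ι] (f g : ι → ℕ) (i : ι) (h : ∀ j, j ≠ i → g j ≤ f j) :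
    ∑ j, g j + f i ≤ ∑ j, f j + g i := by
  classical
  rw [← Finset.add_sum_erase _ f (Finset.mem_univ i), ← Finset.add_sum_erase _ g (Finset.mem_univ i)]
  have : ∑ j ∈ Finset.univ.erase i, g j ≤ ∑ j ∈ Finset.univ.erase i, f j :=
    Finset.sum_le_sum fun j hj => h j (Finset.ne_of_mem_erase hj)
  omega

theorem isEnd_tr {D : Dt V E A} {x : Val β E A} {f : E} {s : Bool} {y : FreeGroup β}
    (h : IsEnd (KE D x f s) y) : IsEnd (KE D x f (!s)) (tr x f s * y) := by
  intro l l' h1 h2
  rw [mul_assoc, tr_mem_KE] at h1 h2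
  exact h l l' h1 h2

theorem btw_of_Hull_pair {c y d : FreeGroup β} (h : y ∈ Hull ({c, d} : Set (FreeGroup β))) : Btw c y d := by
  intro t
  exact ⟨fun a b => (h t).1 (by simp [a, b]), fun a b => (h t).2 (by simp [a, b])⟩

/-- The step towards the other side of the bridge. -/
theorem gate_step {N₁ N₂ : Set (FreeGroup β)} (hg : Gate N₁ N₂ c d) (hcd : c ≠ d) :
    ∃ l : β × Bool, Btw c (c * mk [l]) d ∧ c * mk [l] ∉ Hull N₁ := by
  obtain ⟨l, h1, h2, _, _⟩ := exists_step_mem (N := ({c, d} : Set (FreeGroup β))) (y := c) (z := d)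
    (subset_Hull _ (by simp)) (subset_Hull _ (by simp)) hcd
  refine ⟨l, btw_of_Hull_pair h1, ?_⟩
  intro h3
  have h5 := cell_mem_Hull_iff'.1 ⟨hg.hc, h3⟩
  exact h2 (hg.g1' h5.1 h5.2).symm

theorem split_ (hback : StmBack) : StmSplit := by
  intro β V E A _ _ _ _ _ q₀ φ₀ D x Q hG hcov
  classical
  obtain ⟨b₀, y₀, e, s, h1, h2, huniq⟩ := exists_once hG.tc hG.surj hG.full hG.ev hcov
  -- sides
  have hone : ∀ f s', D.en f s' = D.en e s → ¬ (f = e ∧ s' = s) →
      ¬ ((∃ p ∈ nE D x f s', Hs (y₀, b₀) p) ∧ (∃ p ∈ nE D x f s', ¬ Hs (y₀, b₀) p)) := by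
    intro f s' hf hn hb
    have := cell_mem_Hull_iff.2 hb
    exact hn (huniq f s' hf this.1 this.2)
  obtain ⟨⟨pp, hpp, hpp'⟩, ⟨pm, hpm, hpm'⟩⟩ := cell_mem_Hull_iff.1 ⟨h1, h2⟩
  obtain ⟨c, d, hg⟩ := exists_gate (N₁ := {y | y ∈ nV D x (D.en e s) ∧ ¬ Hs (y₀, b₀) y})
    (N₂ := {y | y ∈ nV D x (D.en e s) ∧ Hs (y₀, b₀) y}) (t₀ := (y₀, b₀))
    ⟨pm, nE_subset_nV D x e s hpm, hpm'⟩ ⟨pp, nE_subset_nV D x e s hpp, hpp'⟩
    (fun p hp => hp.2) (fun p hp => hp.2)
  have hc0 : ¬ Hs (y₀, b₀) c := (hg.hc (y₀, b₀)).2 fun p hp => hp.2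
  have hd0 : Hs (y₀, b₀) d := (hg.hd (y₀, b₀)).1 fun p hp => hp.2
  have hcd : c ≠ d := fun h => hc0 (h ▸ hd0)
  have hbm := hg.btw (p := pm) (q := pp) ⟨nE_subset_nV D x e s hpm, hpm'⟩ ⟨nE_subset_nV D x e s hpp, hpp'⟩
  have hbp := hg.symm.btw (p := pp) (q := pm) ⟨nE_subset_nV D x e s hpp, hpp'⟩ ⟨nE_subset_nV D x e s hpm, hpm'⟩
  have hcK : c ∈ KE D x e s := Hull_btw (subset_Hull _ hpm) (subset_Hull _ hpp) hbm
  have hdK : d ∈ KE D x e s := Hull_btw (subset_Hull _ hpp) (subset_Hull _ hpm) hbp
  have hunion : {y | y ∈ nV D x (D.en e s) ∧ ¬ Hs (y₀, b₀) y} ∪ {y | y ∈ nV D x (D.en e s) ∧ Hs (y₀, b₀) y} =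
      nV D x (D.en e s) := by
    ext y
    simp only [Set.mem_union, Set.mem_ofPred_eq]
    tauto
  -- the gate points are names at the node
  have hcN : c ∈ nV D x (D.en e s) := by
    by_contra hcon
    obtain ⟨l₁, l₂, l₃, a1, a2, a3, a4, a5, a6⟩ := gate_name hg hcd
      ⟨pm, nE_subset_nV D x e s hpm, hpm'⟩ (fun h => hcon h.1)
    have m : ∀ z, z ∈ Hull {y | y ∈ nV D x (D.en e s) ∧ ¬ Hs (y₀, b₀) y} → z ∈ KV D x (D.en e s) :=
      fun z hz => Hull_mono (fun _ h => h.1) hz
    rw [hunion] at a6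
    obtain ⟨α, hα, hα'⟩ := hG.br (D.en e s) c l₁ l₂ l₃ a1 a2 a3 (m _ a4) (m _ a5) a6 e s rfl hcK
    exact hcon ⟨α, s, by rw [hα], hα'⟩
  have hdN : d ∈ nV D x (D.en e s) := by
    by_contra hcon
    obtain ⟨l₁, l₂, l₃, a1, a2, a3, a4, a5, a6⟩ := gate_name hg.symm hcd.symm
      ⟨pp, nE_subset_nV D x e s hpp, hpp'⟩ (fun h => hcon h.1)
    have m : ∀ z, z ∈ Hull {y | y ∈ nV D x (D.en e s) ∧ Hs (y₀, b₀) y} → z ∈ KV D x (D.en e s) :=
      fun z hz => Hull_mono (fun _ h => h.1) hz
    rw [Set.union_comm, hunion] at a6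
    obtain ⟨α, hα, hα'⟩ := hG.br (D.en e s) d l₁ l₂ l₃ a1 a2 a3 (m _ a4) (m _ a5) a6 e s rfl hdK
    exact hcon ⟨α, s, by rw [hα], hα'⟩
  -- the data with the bridge ends added
  obtain ⟨hE2, hV2⟩ := add_hulls (D := D) (x := x) (D₂ := D2s D x e s c d) (x₂ := X2s D x e s c d)
    Sum.inl rfl (fun _ => rfl) (fun _ _ => rfl) (pos2_mem hcK hdK)
  have hTC2 : TC (D2s D x e s c d) (X2s D x e s c d) :=
    TC_congr (D := D2s D x e s c d) (x := X2s D x e s c d) (D₂ := D) (x₂ := x) rfl rfl
      (fun f s' => (hE2 f s').symm) (fun v => (hV2 v).symm) hG.tc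
  let sd : E → Bool → Prop := fun f s' => ¬ (f = e ∧ s' = s) ∧ ∃ p ∈ nE D x f s', Hs (y₀, b₀) p
  let sa : A ⊕ Cm D x e s c d → Prop := fun a => Hs (y₀, b₀) (pos (D2s D x e s c d) (X2s D x e s c d) a s)
  have sde : ¬ sd e s := fun h => h.1 ⟨rfl, rfl⟩
  have side : ∀ a s', (D2s D x e s c d).en ((D2s D x e s c d).et a) s' = (D2s D x e s c d).en e s →
      ((spD (D2s D x e s c d) e s sd sa).en ((spD (D2s D x e s c d) e s sd sa).et a) s' = none ↔
        Hs (y₀, b₀) (pos (D2s D x e s c d) (X2s D x e s c d) a s')) := by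
    intro a s' ha
    by_cases hf : (D2s D x e s c d).et a = e ∧ s' = s
    · obtain ⟨hf1, hf2⟩ := hf
      subst hf2
      by_cases hsa : sa a
      · rw [spD_et_none _ e s' sd sa a hf1 hsa, spD_en_none_self]
        exact iff_of_true rfl hsa
      · rw [spD_et_some _ e s' sd sa a (fun h => hsa h.2), hf1,
          spD_en_some _ e s' sd sa e s' (fun h => sde h.2)]
        exact iff_of_false (by simp) hsa
    · have hen : (spD (D2s D x e s c d) e s sd sa).en ((spD (D2s D x e s c d) e s sd sa).et a) s' =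
          (spD (D2s D x e s c d) e s sd sa).en (some ((D2s D x e s c d).et a)) s' := by
        by_cases h3 : (D2s D x e s c d).et a = e ∧ sa a
        · rw [spD_et_none _ e s sd sa a h3.1 h3.2, h3.1]
          have h4 : s' = !s := by
            have : s' ≠ s := fun h5 => hf ⟨h3.1, h5⟩
            cases s <;> cases s' <;> simp at this ⊢
          rw [h4, spD_en_none_not]
        · rw [spD_et_some _ e s sd sa a h3]
      rw [hen]
      have hos := one_sided (pos2_mem hcK hdK a s') (hone _ s' ha hf)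
      rw [hos]
      by_cases hsd : sd ((D2s D x e s c d).et a) s'
      · rw [spD_en_some_none _ e s sd sa _ s' ⟨ha, hsd⟩]
        exact iff_of_true rfl hsd.2
      · rw [spD_en_some _ e s sd sa _ s' (fun h => hsd h.2)]
        exact iff_of_false (by simp) fun h => hsd ⟨hf, h⟩
  -- arcs at the gate points
  have harc : ∀ i : Bool, ∃ a, (D2s D x e s c d).et a = e ∧
      pos (D2s D x e s c d) (X2s D x e s c d) a s = if i then d else c := by
    intro i
    by_cases hi : (if i then d else c) ∈ nE D x e s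
    · obtain ⟨α, hα, hα'⟩ := hi
      exact ⟨Sum.inl α, hα, hα'⟩
    · exact ⟨Sum.inr ⟨i, hi⟩, rfl, pos2_inr D x e s c d ⟨i, hi⟩⟩
  obtain ⟨ac, hac, hac'⟩ := harc false
  obtain ⟨ad, had, had'⟩ := harc true
  simp only [Bool.false_eq_true, if_false] at hac'
  simp only [if_true] at had'
  -- names at the new nodes
  have hnode : ∀ a s', (spD (D2s D x e s c d) e s sd sa).en ((spD (D2s D x e s c d) e s sd sa).et a) s' = none →
      (D2s D x e s c d).en ((D2s D x e s c d).et a) s' = (D2s D x e s c d).en e s := by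
    intro a s' ha
    have := oldV_en (D2s D x e s c d) e s sd sa ((spD (D2s D x e s c d) e s sd sa).et a) s'
    rw [ha, oldE_et] at this
    exact this.symm
  have hnode' : ∀ a s', (spD (D2s D x e s c d) e s sd sa).en ((spD (D2s D x e s c d) e s sd sa).et a) s' =
      some (D.en e s) → (D2s D x e s c d).en ((D2s D x e s c d).et a) s' = (D2s D x e s c d).en e s := by
    intro a s' ha
    have := oldV_en (D2s D x e s c d) e s sd sa ((spD (D2s D x e s c d) e s sd sa).et a) s'
    rw [ha, oldE_et] at this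
    exact this.symm
  have hside : ∀ a s', (D2s D x e s c d).en ((D2s D x e s c d).et a) s' = (D2s D x e s c d).en e s →
      ¬ Hs (y₀, b₀) (pos (D2s D x e s c d) (X2s D x e s c d) a s') →
      (spD (D2s D x e s c d) e s sd sa).en ((spD (D2s D x e s c d) e s sd sa).et a) s' = some (D.en e s) := by
    intro a s' ha hn
    have h3 := oldV_en (D2s D x e s c d) e s sd sa ((spD (D2s D x e s c d) e s sd sa).et a) s'
    rw [oldE_et, ha] at h3
    cases hw : (spD (D2s D x e s c d) e s sd sa).en ((spD (D2s D x e s c d) e s sd sa).et a) s' with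
    | none => exact absurd ((side a s' ha).1 hw) hn
    | some w =>
      rw [hw] at h3
      exact congrArg some h3
  -- positions of all names at `v`: in the hull of the old names of the same side
  have hin : ∀ a s', (D2s D x e s c d).en ((D2s D x e s c d).et a) s' = (D2s D x e s c d).en e s →
      (¬ Hs (y₀, b₀) (pos (D2s D x e s c d) (X2s D x e s c d) a s') →
        pos (D2s D x e s c d) (X2s D x e s c d) a s' ∈ Hull {y | y ∈ nV D x (D.en e s) ∧ ¬ Hs (y₀, b₀) y}) ∧
      (Hs (y₀, b₀) (pos (D2s D x e s c d) (X2s D x e s c d) a s') →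
        pos (D2s D x e s c d) (X2s D x e s c d) a s' ∈ Hull {y | y ∈ nV D x (D.en e s) ∧ Hs (y₀, b₀) y}) := by
    intro a s' ha
    by_cases hf : (D2s D x e s c d).et a = e ∧ s' = s
    · obtain ⟨hf1, hf2⟩ := hf
      subst hf2
      cases a with
      | inl α =>
        have hm : pos D x α s' ∈ nV D x (D.en e s') := ⟨α, s', ha, rfl⟩
        exact ⟨fun h3 => subset_Hull _ ⟨hm, h3⟩, fun h3 => subset_Hull _ ⟨hm, h3⟩⟩
      | inr i =>
        rw [pos2_inr]
        by_cases hi : i.1 = true
        · rw [if_pos hi]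
          exact ⟨fun h3 => absurd hd0 h3, fun _ => hg.hd⟩
        · rw [if_neg hi]
          exact ⟨fun _ => hg.hc, fun h3 => absurd h3 hc0⟩
    · have hK := pos2_mem hcK hdK a s'
      have hos := hone _ s' ha hf
      have hos2 := one_sided hK hos
      have hsub := nE_subset_nV D x ((D2s D x e s c d).et a) s'
      have ha' : D.en ((D2s D x e s c d).et a) s' = D.en e s := ha
      rw [ha'] at hsub
      constructor
      · intro h3
        refine Hull_mono ?_ hK
        intro p hp
        refine ⟨hsub hp, fun h4 => h3 (hos2.2 ⟨p, hp, h4⟩)⟩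
      · intro h3
        refine Hull_mono ?_ hK
        intro p hp
        refine ⟨hsub hp, ?_⟩
        by_contra h4
        exact hos ⟨hos2.1 h3, ⟨p, hp, h4⟩⟩
  have hgate : Gate (nV (spD (D2s D x e s c d) e s sd sa) (spX e (X2s D x e s c d)) (some (D.en e s)))
      (nV (spD (D2s D x e s c d) e s sd sa) (spX e (X2s D x e s c d)) none) c d := by
    refine hg.of_hull ?_ ?_ ?_ ?_
    · rintro y ⟨⟨α, s', hα, rfl⟩, hy⟩
      exact ⟨Sum.inl α, s', hside (Sum.inl α) s' hα hy, spX_pos _ e s sd sa _ _ s'⟩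
    · rintro y ⟨a, s', ha, rfl⟩
      have ha' := hnode' a s' ha
      rw [spX_pos]
      refine (hin a s' ha').1 ?_
      rw [← side a s' ha', ha]; simp
    · rintro y ⟨⟨α, s', hα, rfl⟩, hy⟩
      exact ⟨Sum.inl α, s', (side (Sum.inl α) s' hα).2 hy, spX_pos _ e s sd sa _ _ s'⟩
    · rintro y ⟨a, s', ha, rfl⟩
      have ha' := hnode a s' ha
      rw [spX_pos]
      exact (hin a s' ha').2 ((side a s' ha').1 ha)
  have hOK : SpOK (D2s D x e s c d) (X2s D x e s c d) e s sd sa (y₀, b₀) ac ad :=
    ⟨sde, side, hac, had, by rw [hac']; exact hc0, by rw [had']; exact hd0, by rw [hac', had']; exact hgate⟩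
  -- transfer of the clauses to `D2s`
  have hPN2 : ∀ α s', PNc (D2s D x e s c d) (X2s D x e s c d) Q (Sum.inl α) s' := by
    intro α s'
    rcases hG.pn α s' with h3 | ⟨α', s₂, h3, h4, h5⟩ | ⟨h3, h4⟩
    · exact Or.inl h3
    · exact Or.inr (Or.inl ⟨Sum.inl α', s₂, h3, h4, h5⟩)
    · refine Or.inr (Or.inr ⟨?_, ?_⟩)
      · rw [hE2]; exact h3
      · rcases h4 with ⟨f, s₂, h5, h6, h7⟩ | ⟨l, h5, h6⟩
        · refine Or.inl ⟨f, s₂, h5, h6, ?_⟩
          rw [hE2]; exact h7
        · refine Or.inr ⟨l, ?_, ?_⟩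
          · rw [hV2]; exact h5
          · intro f s₂ h7
            rw [hE2]; exact h6 f s₂ h7
  have hPN2' : ∀ i, PNc (D2s D x e s c d) (X2s D x e s c d) Q (Sum.inr i) s := by
    intro i
    obtain ⟨α, s₂, h3, h4⟩ : (if i.1 then d else c) ∈ nV D x (D.en e s) := by
      split
      · exact hdN
      · exact hcN
    refine Or.inr (Or.inl ⟨Sum.inl α, s₂, h3, ?_, ?_⟩)
    · rw [pos2_inr]; exact h4
    · intro h5
      rw [Prod.mk.injEq] at h5
      refine i.2 ⟨α, h5.1, ?_⟩
      rw [← h4, h5.2]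
  have hBR2 : PBR (D2s D x e s c d) (X2s D x e s c d) := by
    intro v y l₁ l₂ l₃ a1 a2 a3 a4 a5 a6 f s' a7 a8
    rw [hV2] at a4 a5 a6
    rw [hE2] at a8
    obtain ⟨α, h3, h4⟩ := hG.br v y l₁ l₂ l₃ a1 a2 a3 a4 a5 a6 f s' a7 a8
    exact ⟨Sum.inl α, h3, h4⟩
  -- the added arcs at the other side
  have hHull : Hull (nV (spD (D2s D x e s c d) e s sd sa) (spX e (X2s D x e s c d)) (some (D.en e s)) ∪
      nV (spD (D2s D x e s c d) e s sd sa) (spX e (X2s D x e s c d)) none) = KV D x (D.en e s) := by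
    have h3 := sp_nV_union (D := D2s D x e s c d) (x := X2s D x e s c d) (e := e) (s := s) (sd := sd) (sa := sa)
    exact (congrArg Hull h3.symm).trans (hV2 (D.en e s))
  have hPN3 : ∀ i, PNc (spD (D2s D x e s c d) e s sd sa) (spX e (X2s D x e s c d))
      (Qn (D2s D x e s c d) e s (y₀, b₀) Q) (Sum.inr i) (!s) := by
    intro i
    refine Or.inr (Or.inr ?_)
    rw [spX_pos, pos2_inr']
    by_cases hi : i.1 = true
    · -- `d`
      rw [if_pos hi]
      have hi2 : d ∉ nE D x e s := by have := i.2; rwa [if_pos hi] at this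
      have het : (spD (D2s D x e s c d) e s sd sa).et (Sum.inr i) = none := by
        refine spD_et_none _ e s sd sa _ rfl ?_
        change Hs (y₀, b₀) (pos (D2s D x e s c d) (X2s D x e s c d) (Sum.inr i) s)
        rw [pos2_inr, if_pos hi]; exact hd0
      rw [het]
      have hKEsub : KE (spD (D2s D x e s c d) e s sd sa) (spX e (X2s D x e s c d)) none s ⊆
          Hull (nV (spD (D2s D x e s c d) e s sd sa) (spX e (X2s D x e s c d)) none) := by
        have := KE_subset_KV (spD (D2s D x e s c d) e s sd sa) (spX e (X2s D x e s c d)) none s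
        rwa [spD_en_none_self] at this
      constructor
      · have hend : IsEnd (KE (spD (D2s D x e s c d) e s sd sa) (spX e (X2s D x e s c d)) none s) d := by
          refine gate_end hgate.symm hcd.symm hKEsub ?_
          intro l₁ l₂ l₃ a1 a2 a3 a4 a5 a6
          rw [Set.union_comm, hHull] at a4 a5 a6
          obtain ⟨α, h3, h4⟩ := hG.br _ _ l₁ l₂ l₃ a1 a2 a3 a4 a5 a6 e s rfl hdK
          exact hi2 ⟨α, h3, h4⟩
        have := isEnd_tr hend
        rwa [spX_tr] at this
      · obtain ⟨l, h3, h4⟩ := gate_step hgate.symm hcd.symm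
        refine covers_or_uncovered _ _ _ _ _ _ l ?_ ?_
        · rw [spD_en_none_not, mul_assoc]
          refine (hOK.run_mem ?_).2
          rw [hac', had']; exact h3.symm
        · intro h5
          have h6 := h5
          rw [mul_assoc] at h6
          have h7 : tr (X2s D x e s c d) e s = tr (spX e (X2s D x e s c d)) none s := by rw [spX_tr]; rfl
          change tr (X2s D x e s c d) e s * _ ∈ _ at h6
          rw [h7, tr_mem_KE] at h6
          exact h4 (hKEsub h6)
    · -- `c`
      rw [if_neg hi]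
      have hi2 : c ∉ nE D x e s := by have := i.2; rwa [if_neg hi] at this
      have het : (spD (D2s D x e s c d) e s sd sa).et (Sum.inr i) = some e := by
        refine spD_et_some _ e s sd sa _ ?_
        rintro ⟨_, h3⟩
        change Hs (y₀, b₀) (pos (D2s D x e s c d) (X2s D x e s c d) (Sum.inr i) s) at h3
        rw [pos2_inr, if_neg hi] at h3; exact hc0 h3
      rw [het]
      have hKEsub : KE (spD (D2s D x e s c d) e s sd sa) (spX e (X2s D x e s c d)) (some e) s ⊆
          Hull (nV (spD (D2s D x e s c d) e s sd sa) (spX e (X2s D x e s c d)) (some (D.en e s))) := by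
        have := KE_subset_KV (spD (D2s D x e s c d) e s sd sa) (spX e (X2s D x e s c d)) (some e) s
        rwa [hOK.en_e] at this
      constructor
      · have hend : IsEnd (KE (spD (D2s D x e s c d) e s sd sa) (spX e (X2s D x e s c d)) (some e) s) c := by
          refine gate_end hgate hcd hKEsub ?_
          intro l₁ l₂ l₃ a1 a2 a3 a4 a5 a6
          rw [hHull] at a4 a5 a6
          obtain ⟨α, h3, h4⟩ := hG.br _ _ l₁ l₂ l₃ a1 a2 a3 a4 a5 a6 e s rfl hcK
          exact hi2 ⟨α, h3, h4⟩
        have := isEnd_tr hend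
        rwa [spX_tr] at this
      · obtain ⟨l, h3, h4⟩ := gate_step hgate hcd
        refine covers_or_uncovered _ _ _ _ _ _ l ?_ ?_
        · rw [mul_assoc]
          refine (hOK.run_mem ?_).2
          rw [hac', had']; exact h3
        · intro h5
          have h6 := h5
          rw [mul_assoc] at h6
          have h7 : tr (X2s D x e s c d) e s = tr (spX e (X2s D x e s c d)) (some e) s := by rw [spX_tr]; rfl
          change tr (X2s D x e s c d) e s * _ ∈ _ at h6
          rw [h7, tr_mem_KE] at h6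
          exact h4 (hKEsub h6)
  -- finiteness
  let fC : Fintype (Cm D x e s c d) := Fintype.ofFinite _
  have hcardC : Fintype.card (Cm D x e s c d) =
      (if d ∉ nE D x e s then 1 else 0) + (if c ∉ nE D x e s then 1 else 0) := by
    rw [card_bool_sub (fun i : Bool => (if i then d else c) ∉ nE D x e s)]
    simp
  refine ⟨Option V, Option E, A ⊕ Cm D x e s c d, inferInstance, inferInstance, inferInstance,
    spD (D2s D x e s c d) e s sd sa, spX e (X2s D x e s c d), Qn (D2s D x e s c d) e s (y₀, b₀) Q, ?_, ?_, ?_, ?_⟩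
  · refine ⟨hOK.TC' hTC2, ?_, ?_, ?_, hOK.PBR' hBR2, ?_, (Qn_card hG.qf).1, (Qn_card hG.qf).2.trans hG.qc, ?_⟩
    · -- surj
      intro f
      cases f with
      | none => exact ⟨ad, spD_et_none _ e s sd sa ad had ((hOK.sa_iff ad had).2 hOK.d0)⟩
      | some f =>
        by_cases hf : f = e
        · subst hf
          refine ⟨ac, ?_⟩
          rw [spD_et_some _ f s sd sa ac, hac]
          rintro ⟨_, h3⟩
          exact hOK.c0 ((hOK.sa_iff ac hac).1 h3)
        · obtain ⟨α, hα⟩ := hG.surj f
          refine ⟨Sum.inl α, ?_⟩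
          rw [spD_et_some _ e s sd sa (Sum.inl α)]
          · exact congrArg some hα
          · rintro ⟨h3, _⟩
            exact hf (hα.symm.trans h3)
    · -- full
      intro w
      cases w with
      | none => 
        refine ⟨ad, s, (side ad s ?_).2 ?_⟩
        · rw [had]
        · rw [had']; exact hd0
      | some w =>
        by_cases hw : w = D.en e s
        · subst hw
          refine ⟨ac, s, hside ac s ?_ ?_⟩
          · rw [hac]
          · rw [hac']; exact hc0
        · obtain ⟨α, s', hα⟩ := hG.full w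
          refine ⟨Sum.inl α, s', ?_⟩
          have h3 := oldV_en (D2s D x e s c d) e s sd sa ((spD (D2s D x e s c d) e s sd sa).et (Sum.inl α)) s'
          rw [oldE_et] at h3
          have h4 : (D2s D x e s c d).en ((D2s D x e s c d).et (Sum.inl α)) s' = w := hα
          rw [h4] at h3
          cases hn : (spD (D2s D x e s c d) e s sd sa).en
              ((spD (D2s D x e s c d) e s sd sa).et (Sum.inl α)) s' with
          | none => rw [hn] at h3; exact absurd h3.symm hw
          | some w' => rw [hn] at h3; exact congrArg some h3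
    · -- ev
      rw [Fintype.card_option, Fintype.card_option]
      have := hG.ev
      omega
    · -- phi
      rw [Fintype.card_sum, hcardC, Fintype.sum_option]
      have hfin : ∀ w, (nV (spD (D2s D x e s c d) e s sd sa) (spX e (X2s D x e s c d)) w).Finite :=
        fun w => nV_finite _ _ _
      have k1 : (if d ∉ nE D x e s then 1 else 0) + 1 ≤
          kap (spD (D2s D x e s c d) e s sd sa) (spX e (X2s D x e s c d)) none := by
        have hdm : d ∈ nV (spD (D2s D x e s c d) e s sd sa) (spX e (X2s D x e s c d)) none :=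
          ⟨ad, s, (side ad s (by rw [had])).2 (by rw [had']; exact hd0), by rw [spX_pos]; exact had'⟩
        have hpm : pp ∈ nV (spD (D2s D x e s c d) e s sd sa) (spX e (X2s D x e s c d)) none := by
          obtain ⟨α, hα, hα'⟩ := hpp
          refine ⟨Sum.inl α, s, (side (Sum.inl α) s ?_).2 ?_, by rw [spX_pos]; exact hα'⟩
          · change D.en (D.et α) s = _; rw [hα]; rfl
          · change Hs _ (pos D x α s); rw [hα']; exact hpp'
        unfold kap
        split
        · rename_i h3
          refine le_min le_rfl ?_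
          have h4 : ({d, pp} : Set (FreeGroup β)) ⊆
              nV (spD (D2s D x e s c d) e s sd sa) (spX e (X2s D x e s c d)) none := by
            rintro y (rfl | rfl)
            · exact hdm
            · exact hpm
          have h5 := Set.ncard_le_ncard h4 (hfin none)
          rw [Set.ncard_pair (fun h6 : d = pp => h3 (by rw [h6]; exact hpp))] at h5
          exact h5
        · refine le_min (by norm_num) ?_
          have := (Set.ncard_pos (hfin none)).2 ⟨d, hdm⟩
          omega
      have k2 : (if c ∉ nE D x e s then 1 else 0) + 1 ≤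
          kap (spD (D2s D x e s c d) e s sd sa) (spX e (X2s D x e s c d)) (some (D.en e s)) := by
        have hdm : c ∈ nV (spD (D2s D x e s c d) e s sd sa) (spX e (X2s D x e s c d)) (some (D.en e s)) :=
          ⟨ac, s, hside ac s (by rw [hac]) (by rw [hac']; exact hc0), by rw [spX_pos]; exact hac'⟩
        have hpm2 : pm ∈ nV (spD (D2s D x e s c d) e s sd sa) (spX e (X2s D x e s c d)) (some (D.en e s)) := by
          obtain ⟨α, hα, hα'⟩ := hpm
          refine ⟨Sum.inl α, s, hside (Sum.inl α) s ?_ ?_, by rw [spX_pos]; exact hα'⟩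
          · change D.en (D.et α) s = _; rw [hα]; rfl
          · change ¬ Hs _ (pos D x α s); rw [hα']; exact hpm'
        unfold kap
        split
        · rename_i h3
          refine le_min le_rfl ?_
          have h4 : ({c, pm} : Set (FreeGroup β)) ⊆
              nV (spD (D2s D x e s c d) e s sd sa) (spX e (X2s D x e s c d)) (some (D.en e s)) := by
            rintro y (rfl | rfl)
            · exact hdm
            · exact hpm2
          have h5 := Set.ncard_le_ncard h4 (hfin _)
          rw [Set.ncard_pair (fun h6 : c = pm => h3 (by rw [h6]; exact hpm))] at h5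
          exact h5
        · refine le_min (by norm_num) ?_
          have := (Set.ncard_pos (hfin (some (D.en e s)))).2 ⟨c, hdm⟩
          omega
      have k3 := sum_swap_le (fun w => kap (spD (D2s D x e s c d) e s sd sa) (spX e (X2s D x e s c d)) (some w))
        (fun w => kap D x w) (D.en e s) (by
          intro w hw
          unfold kap
          rw [sp_nV_ne (D := D2s D x e s c d) w hw]
          refine min_le_min le_rfl (Set.ncard_le_ncard ?_ (nV_finite _ _ _))
          rintro y ⟨α, s', hα, rfl⟩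
          exact ⟨Sum.inl α, s', hα, rfl⟩)
      have k4 : kap D x (D.en e s) ≤ 2 := min_le_left _ _
      have k5 := hG.phi
      omega
    · -- pn
      intro a s'
      change PNc _ _ _ a s'
      cases a with
      | inl α => exact hOK.PNc_split _ _ (hPN2 α s')
      | inr i =>
        by_cases hs : s' = s
        · subst hs; exact hOK.PNc_split _ _ (hPN2' i)
        · have hs'' : s' = !s := by cases s <;> cases s' <;> simp at hs ⊢
          subst hs''
          exact hPN3 i
  · -- measure
    unfold meas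
    rw [Fintype.card_option]
    have h3 := hOK.sumV
    have h4 := hOK.gate.ncard (nV_finite _ _ _) (nV_finite _ _ _)
    rw [← sp_nV_union] at h4
    have h5 : 1 ≤ (Sep (pos (D2s D x e s c d) (X2s D x e s c d) ac s)
        (pos (D2s D x e s c d) (X2s D x e s c d) ad s)).ncard := by
      rw [Nat.one_le_iff_ne_zero, Sep_ncard, hac', had']
      intro h6
      exact hcd (inv_mul_eq_one.1 (FreeGroup.norm_eq_zero.1 h6))
    change (KV (D2s D x e s c d) (X2s D x e s c d) (D.en e s)).ncard + 1 =
      (KV (spD (D2s D x e s c d) e s sd sa) (spX e (X2s D x e s c d)) (some (D.en e s))).ncard +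
      (KV (spD (D2s D x e s c d) e s sd sa) (spX e (X2s D x e s c d)) none).ncard + _ at h4
    change _ + (KV (D2s D x e s c d) (X2s D x e s c d) (D.en e s)).ncard = _ +
      (KV (spD (D2s D x e s c d) e s sd sa) (spX e (X2s D x e s c d)) (some (D.en e s))).ncard + _ at h3
    simp only [hV2] at h3 h4
    have h6 : Fintype.card V ≤ ∑ v, (KV D x v).ncard := by
      rw [Fintype.card_eq_sum_ones]
      refine Finset.sum_le_sum fun v _ => ?_
      exact (Set.ncard_pos (KV_finite D x v)).2 (KV_nonempty hG.full v)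
    have h7 : 0 < Fintype.card V := Fintype.card_pos_iff.2 ⟨D.en e s⟩
    omega
  · rw [Fintype.card_option]
  · -- pull
    intro z hz
    have h3 := hback _ _ _ _ (D2s D x e s c d) (X2s D x e s c d) e s sd sa (y₀, b₀) ac ad hTC2 hOK z hz
    exact addPull (D := D) (x := x) (D₂ := D2s D x e s c d) (x₂ := X2s D x e s c d)
      Sum.inl rfl (fun _ => rfl) (fun _ _ => rfl) (pos2_mem hcK hdK) (3 * z) h3

end

end Pool.Agent.W2helper26.PP
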