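import Pool.Agent.W2helper26.PP.Add
import Pool.Agent.W2helper26.PP.MG

/-!
# The split: definitions and the statement of the backward part

`D' = spD D e s sd sa`: the node `v = D.en e s` is split into `some v` (minus side) and `none` (plus side), the
edge `e` is split into `some e` (minus) and `none` (plus).  `sa α` says that the arc `α` of `e` goes to the
plus side; `sd f s'` says that the base `(f,s')` at `v`, different from `(e,s)`, is on the plus side.

All arcs and all positions stay the same.
-/

set_option autoImplicit false
set_option linter.unusedSectionVars false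

namespace Pool.Agent.W2helper26.PP

open FreeGroup

section
variable {β V E A : Type} [DecidableEq β]

open Classical in
/-- The split data. -/
noncomputable def spD (D : Dt V E A) (e : E) (s : Bool) (sd : E → Bool → Prop) (sa : A → Prop) :
    Dt (Option V) (Option E) A where
  en := fun f s' => match f with
    | some f => if D.en f s' = D.en e s ∧ sd f s' then none else some (D.en f s')
    | none => if s' = s then none else
        if D.en e s' = D.en e s ∧ sd e s' then none else some (D.en e s')
  et := fun α => if D.et α = e ∧ sa α then none else some (D.et α)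

/-- The split values. -/
def spX (e : E) (x : Val β E A) : Val β (Option E) A where
  τ := fun f => match f with
    | some f => x.τ f
    | none => x.τ e
  g := x.g

/-- `c` and `d` are the ends of the bridge between the hulls of `N₁` and `N₂`. -/
structure Gate (N₁ N₂ : Set (FreeGroup β)) (c d : FreeGroup β) : Prop where
  hc : c ∈ Hull N₁
  hd : d ∈ Hull N₂
  g1 : ∀ t, (∃ p ∈ N₁, Hs t p) → (∃ p ∈ N₁, ¬ Hs t p) → ∀ q ∈ N₂, (Hs t q ↔ Hs t c)
  g2 : ∀ t, (∃ p ∈ N₂, Hs t p) → (∃ p ∈ N₂, ¬ Hs t p) → ∀ q ∈ N₁, (Hs t q ↔ Hs t d)

/-- Correct split data: the sides are the sides of the cell `t₀`, the bridge ends are named by the arcs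
`c`, `d` of the edge `e`. -/
structure SpOK (D : Dt V E A) (x : Val β E A) (e : E) (s : Bool) (sd : E → Bool → Prop) (sa : A → Prop)
    (t₀ : FreeGroup β × β) (c d : A) : Prop where
  sde : ¬ sd e s
  side : ∀ α s', D.en (D.et α) s' = D.en e s →
    ((spD D e s sd sa).en ((spD D e s sd sa).et α) s' = none ↔ Hs t₀ (pos D x α s'))
  cet : D.et c = e
  det : D.et d = e
  c0 : ¬ Hs t₀ (pos D x c s)
  d0 : Hs t₀ (pos D x d s)
  gate : Gate (nV (spD D e s sd sa) (spX e x) (some (D.en e s))) (nV (spD D e s sd sa) (spX e x) none)
    (pos D x c s) (pos D x d s)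

/-- BACKWARD part of the split. -/
def StmBack : Prop :=
  ∀ (β V E A : Type) [DecidableEq β] [Fintype β] [Fintype V] [Fintype E] [Fintype A]
    (D : Dt V E A) (x : Val β E A) (e : E) (s : Bool) (sd : E → Bool → Prop) (sa : A → Prop)
    (t₀ : FreeGroup β × β) (c d : A), TC D x → SpOK D x e s sd sa t₀ c d →
    Pull D x (spD D e s sd sa) (spX e x)

/-! ### combinatorics of the split -/

variable (D : Dt V E A) (e : E) (s : Bool) (sd : E → Bool → Prop) (sa : A → Prop)

theorem spD_en_some (f : E) (s' : Bool) (h : ¬ (D.en f s' = D.en e s ∧ sd f s')) :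
    (spD D e s sd sa).en (some f) s' = some (D.en f s') := by
  simp only [spD, h, if_false]

theorem spD_en_some_none (f : E) (s' : Bool) (h : D.en f s' = D.en e s ∧ sd f s') :
    (spD D e s sd sa).en (some f) s' = none := by
  simp only [spD]; rw [if_pos h]

theorem spD_en_none_self : (spD D e s sd sa).en none s = none := by
  simp only [spD, if_true]

theorem spD_en_none_not : (spD D e s sd sa).en none (!s) = (spD D e s sd sa).en (some e) (!s) := by
  simp only [spD]
  rw [if_neg (by cases s <;> simp)]

theorem spD_et_none (α : A) (h : D.et α = e) (h' : sa α) : (spD D e s sd sa).et α = none := by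
  simp only [spD]; rw [if_pos ⟨h, h'⟩]

theorem spD_et_some (α : A) (h : ¬ (D.et α = e ∧ sa α)) : (spD D e s sd sa).et α = some (D.et α) := by
  simp only [spD]; rw [if_neg h]

theorem spD_et_iff (α : A) : ((spD D e s sd sa).et α = none ↔ (D.et α = e ∧ sa α)) := by
  by_cases h : D.et α = e ∧ sa α
  · simp only [spD_et_none D e s sd sa α h.1 h.2, h, and_self]
  · rw [spD_et_some D e s sd sa α h]; simp [h]

/-- The old node of a new node. -/
def oldV (w : Option V) : V := w.getD (D.en e s)

/-- The old edge of a new edge. -/
def oldE (f : Option E) : E := f.getD e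

theorem oldE_et (α : A) : oldE e ((spD D e s sd sa).et α) = D.et α := by
  by_cases h : D.et α = e ∧ sa α
  · rw [spD_et_none D e s sd sa α h.1 h.2]; exact h.1.symm
  · rw [spD_et_some D e s sd sa α h]; rfl

theorem oldV_en (f : Option E) (s' : Bool) :
    oldV D e s ((spD D e s sd sa).en f s') = D.en (oldE e f) s' := by
  cases f with
  | some f =>
    by_cases h : D.en f s' = D.en e s ∧ sd f s'
    · rw [spD_en_some_none D e s sd sa f s' h]; exact h.1.symm
    · rw [spD_en_some D e s sd sa f s' h]; rfl
  | none =>
    by_cases hs : s' = s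
    · subst hs; rw [spD_en_none_self]; rfl
    · have : s' = !s := by cases s <;> cases s' <;> simp at hs ⊢
      subst this
      rw [spD_en_none_not]
      by_cases h : D.en e (!s) = D.en e s ∧ sd e (!s)
      · rw [spD_en_some_none D e s sd sa e _ h]; exact h.1.symm
      · rw [spD_en_some D e s sd sa e _ h]; rfl

theorem spX_tr (x : Val β E A) (f : Option E) (s' : Bool) : tr (spX e x) f s' = tr x (oldE e f) s' := by
  cases f <;> rfl

theorem spX_pos (x : Val β E A) (α : A) (s' : Bool) :
    pos (spD D e s sd sa) (spX e x) α s' = pos D x α s' := by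
  unfold pos
  have : (spX e x).τ ((spD D e s sd sa).et α) = x.τ (D.et α) := by
    by_cases h : D.et α = e ∧ sa α
    · rw [spD_et_none D e s sd sa α h.1 h.2, h.1]; rfl
    · rw [spD_et_some D e s sd sa α h]; rfl
  rw [this]; rfl

end

end Pool.Agent.W2helper26.PP
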